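import Mathlib
import Pool.Agent.Lib.MP_c95b3b_ag_L3.Defs

/-! Project RS (MP_c95b3b_ag): surfaces ruled by lines over a rational curve.
Definitions and basic properties. -/

namespace Pool.Agent.RS

open Pool.Agent.L3 Module

/-- value at `t` of the rational function `c * ∏ i, (T - a i) ^ n i` -/
def rf {F : Type} [Field F] {M : ℕ} (a : Fin M → F) (c : F) (n : Fin M → ℤ) (t : F) : F :=
  c * ∏ i, (t - a i) ^ n i

/-- the function `∑ N i log |z - a i| + k`, `d = (N, k)` -/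
noncomputable def phi {M : ℕ} (a : Fin M → ℂ) (d : (Fin M → ℝ) × ℝ) (z : ℂ) : ℝ :=
  ∑ i, d.1 i * Real.log ‖z - a i‖ + d.2

/-- the compact set of the complex numbers `z` with `|z| ≤ ρ` and `|z - a i| ≥ 1 / ρ` -/
def KR {M : ℕ} (a : Fin M → ℂ) (ρ : ℝ) : Set ℂ := {z | ‖z‖ ≤ ρ ∧ ∀ i, ρ⁻¹ ≤ ‖z - a i‖}

/-- the value of `∑ q i j X^i Y^j`, `i, j ≤ N` -/
def val2 {F : Type} [Field F] (N : ℕ) (q : ℕ → ℕ → ℤ) (x y : F) : F :=
  ∑ i ∈ Finset.range (N + 1), ∑ j ∈ Finset.range (N + 1), (q i j : F) * x ^ i * y ^ j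

/-- for independent real `r`, `s` the functions `∑ r j log |x j|` and `∑ s j log |x j|` have
finitely many common zeros on `S` -/
def NC {m : ℕ} (S : Set ℂ) (x : Fin m → ℂ → ℂ) : Prop :=
  ∀ r s : Fin m → ℝ, LinearIndependent ℝ ![r, s] →
    {t : ℂ | t ∈ S ∧ ∑ j, r j * Real.log ‖x j t‖ = 0 ∧ ∑ j, s j * Real.log ‖x j t‖ = 0}.Finite

/-! ## Basic properties -/

section rf
variable {F : Type} [Field F] {M : ℕ}

theorem rf_ne_zero {a : Fin M → F} {c : F} (n : Fin M → ℤ) {t : F} (hc : c ≠ 0)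
    (ht : ∀ i, t - a i ≠ 0) : rf a c n t ≠ 0 :=
  mul_ne_zero hc (Finset.prod_ne_zero_iff.mpr fun i _ => zpow_ne_zero _ (ht i))

theorem map_rf {G : Type} [Field G] (f : F →+* G) (a : Fin M → F) (c : F) (n : Fin M → ℤ)
    (t : F) : f (rf a c n t) = rf (fun i => f (a i)) (f c) n (f t) := by
  simp only [rf, map_mul, map_prod, map_zpow₀, map_sub]

theorem map_val2 {G : Type} [Field G] (f : F →+* G) (N : ℕ) (q : ℕ → ℕ → ℤ) (x y : F) :
    f (val2 N q x y) = val2 N q (f x) (f y) := by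
  simp only [val2, map_sum, map_mul, map_pow, map_intCast]

theorem val2_mem (R : Subring F) (N : ℕ) (q : ℕ → ℕ → ℤ) {x y : F} (hx : x ∈ R) (hy : y ∈ R) :
    val2 N q x y ∈ R := by
  refine R.sum_mem fun i _ => R.sum_mem fun j _ => ?_
  exact R.mul_mem (R.mul_mem (intCast_mem R _) (R.pow_mem hx i)) (R.pow_mem hy j)

end rf

section
variable {K : Type} [Field K] {R : Subring K} (P : Places K R)

theorem lg_prod (w : P.Pl) {ι : Type} (s : Finset ι) (f : ι → K) (hf : ∀ i ∈ s, f i ≠ 0) :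
    P.lg w (∏ i ∈ s, f i) = ∑ i ∈ s, P.lg w (f i) := by
  classical
  induction s using Finset.induction_on with
  | empty => simp [P.lg_one]
  | insert b s hb ih =>
    have h1 : ∀ i ∈ s, f i ≠ 0 := fun i hi => hf i (Finset.mem_insert_of_mem hi)
    rw [Finset.prod_insert hb, Finset.sum_insert hb,
      P.lg_mul w (hf b (Finset.mem_insert_self b s)) (Finset.prod_ne_zero_iff.mpr h1), ih h1]

theorem lg_rf (w : P.Pl) {M : ℕ} (a : Fin M → K) {c : K} (n : Fin M → ℤ) {t : K} (hc : c ≠ 0)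
    (ht : ∀ i, t - a i ≠ 0) :
    P.lg w (rf a c n t) = P.lg w c + ∑ i, (n i : ℝ) * P.lg w (t - a i) := by
  have h1 : ∀ i ∈ Finset.univ, (t - a i) ^ n i ≠ 0 := fun i _ => zpow_ne_zero _ (ht i)
  rw [rf, P.lg_mul w hc (Finset.prod_ne_zero_iff.mpr h1), lg_prod P w _ _ h1]
  simp only [P.lg_zpow]

end

theorem log_norm_rf {M : ℕ} (a : Fin M → ℂ) {c : ℂ} (n : Fin M → ℤ) {t : ℂ} (hc : c ≠ 0)
    (ht : ∀ i, t - a i ≠ 0) :
    Real.log ‖rf a c n t‖ = Real.log ‖c‖ + ∑ i, (n i : ℝ) * Real.log ‖t - a i‖ := by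
  rw [rf, norm_mul, Real.log_mul (norm_ne_zero_iff.mpr hc), norm_prod, Real.log_prod]
  · congr 1
    refine Finset.sum_congr rfl fun i _ => ?_
    rw [norm_zpow, Real.log_zpow]
  · intro i _
    exact norm_ne_zero_iff.mpr (zpow_ne_zero _ (ht i))
  · exact norm_ne_zero_iff.mpr (Finset.prod_ne_zero_iff.mpr fun i _ => zpow_ne_zero _ (ht i))

theorem sub_ne_zero_of_mem_KR {M : ℕ} {a : Fin M → ℂ} {ρ : ℝ} (hρ : 0 < ρ) {z : ℂ}
    (hz : z ∈ KR a ρ) (i : Fin M) : z - a i ≠ 0 := by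
  have h1 : 0 < ρ⁻¹ := inv_pos.mpr hρ
  exact norm_pos_iff.mp (lt_of_lt_of_le h1 (hz.2 i))

/-- the polynomial `∑ q i j X^i Y^j`, `i, j ≤ N` -/
noncomputable def mv2 (N : ℕ) (q : ℕ → ℕ → ℤ) : MvPolynomial (Fin 2) ℤ :=
  ∑ i ∈ Finset.range (N + 1), ∑ j ∈ Finset.range (N + 1),
    MvPolynomial.C (q i j) * MvPolynomial.X 0 ^ i * MvPolynomial.X 1 ^ j

theorem aeval_mv2 {F : Type} [Field F] (N : ℕ) (q : ℕ → ℕ → ℤ) (x y : F) :
    MvPolynomial.aeval ![x, y] (mv2 N q) = val2 N q x y := by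
  simp [mv2, val2]

theorem mv2_ne_zero (N : ℕ) (q : ℕ → ℕ → ℤ) (h : ∃ i j, i ≤ N ∧ j ≤ N ∧ q i j ≠ 0) :
    mv2 N q ≠ 0 := by
  classical
  obtain ⟨i0, j0, hi0, hj0, h0⟩ := h
  intro h1
  apply h0
  have h2 : ∀ i j : ℕ, (MvPolynomial.C (q i j) * MvPolynomial.X 0 ^ i * MvPolynomial.X 1 ^ j :
      MvPolynomial (Fin 2) ℤ) =
      MvPolynomial.monomial (Finsupp.single 0 i + Finsupp.single 1 j) (q i j) := by
    intro i j
    rw [MvPolynomial.X_pow_eq_monomial, MvPolynomial.X_pow_eq_monomial, MvPolynomial.C_apply,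
      MvPolynomial.monomial_mul, MvPolynomial.monomial_mul]
    simp
  have h3 := congrArg (MvPolynomial.coeff (Finsupp.single 0 i0 + Finsupp.single 1 j0)) h1
  rw [mv2, MvPolynomial.coeff_sum] at h3
  simp only [MvPolynomial.coeff_sum, h2, MvPolynomial.coeff_monomial, MvPolynomial.coeff_zero]
    at h3
  have h4 : ∀ i j : ℕ, ((Finsupp.single 0 i + Finsupp.single 1 j : Fin 2 →₀ ℕ) =
      Finsupp.single 0 i0 + Finsupp.single 1 j0) ↔ (i = i0 ∧ j = j0) := by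
    intro i j
    constructor
    · intro h
      have h5 := DFunLike.congr_fun h 0
      have h6 := DFunLike.congr_fun h 1
      simp at h5 h6
      exact ⟨h5, h6⟩
    · rintro ⟨rfl, rfl⟩
      rfl
  simp only [h4] at h3
  rw [Finset.sum_eq_single i0] at h3
  · rw [Finset.sum_eq_single j0] at h3
    · simpa using h3
    · intro j _ hj
      simp [hj]
    · intro hj
      exact absurd (Finset.mem_range.mpr (Nat.lt_succ_of_le hj0)) hj
  · intro i _ hi
    refine Finset.sum_eq_zero fun j _ => ?_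
    simp [hi]
  · intro hi
    exact absurd (Finset.mem_range.mpr (Nat.lt_succ_of_le hi0)) hi

end Pool.Agent.RS
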