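import Mathlib
import Pool.Agent.Lib.MP_c95b3b_ag_RS.Defs

/-! Project RSd (MP_c95b3b_ag): hypersurface fibrations over a rational curve.
Additional definitions and basic properties. -/

namespace Pool.Agent.RS

open Pool.Agent.L3 Module

/-- the monomial `∏ y j ^ b j` -/
def mon {F : Type} [Field F] {e : ℕ} (y : Fin e → F) (b : Fin e → ℤ) : F := ∏ j, y j ^ b j

/-- the point `(t, V, y)` -/
def pt {F : Type} {e : ℕ} (t V : F) (y : Fin e → F) : Fin (e + 2) → F :=
  Fin.cons t (Fin.cons V y)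

section pt
variable {F : Type} {e : ℕ}

theorem pt_zero (t V : F) (y : Fin e → F) : pt t V y 0 = t := rfl

theorem pt_one (t V : F) (y : Fin e → F) : pt t V y 1 = V := rfl

theorem pt_succ_zero (t V : F) (y : Fin e → F) : pt t V y (Fin.succ 0) = V := rfl

theorem pt_succ (t V : F) (y : Fin e → F) (j : Fin e) : pt t V y j.succ.succ = y j := rfl

theorem map_pt {G : Type} (f : F → G) (t V : F) (y : Fin e → F) :
    (fun i => f (pt t V y i)) = pt (f t) (f V) (fun j => f (y j)) := by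
  funext i
  refine Fin.cases rfl (fun i => ?_) i
  exact Fin.cases rfl (fun i => rfl) i

theorem forall_pt {p : F → Prop} {t V : F} {y : Fin e → F} (h0 : p t) (h1 : p V)
    (h2 : ∀ j, p (y j)) (i : Fin (e + 2)) : p (pt t V y i) := by
  refine Fin.cases h0 (fun i => ?_) i
  exact Fin.cases h1 h2 i

theorem sum_pt (f : F → ℝ) (t V : F) (y : Fin e → F) :
    ∑ i, f (pt t V y i) = f t + f V + ∑ j, f (y j) := by
  rw [Fin.sum_univ_succ, Fin.sum_univ_succ]
  exact (add_assoc _ _ _).symm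

end pt

section mon
variable {F : Type} [Field F] {e : ℕ}

theorem mon_ne_zero {y : Fin e → F} (hy : ∀ j, y j ≠ 0) (b : Fin e → ℤ) : mon y b ≠ 0 :=
  Finset.prod_ne_zero_iff.mpr fun j _ => zpow_ne_zero _ (hy j)

theorem map_mon {G : Type} [Field G] (f : F →+* G) (y : Fin e → F) (b : Fin e → ℤ) :
    f (mon y b) = mon (fun j => f (y j)) b := by
  simp only [mon, map_prod, map_zpow₀]

theorem mon_mul (y z : Fin e → F) (b : Fin e → ℤ) :
    mon (fun j => y j * z j) b = mon y b * mon z b := by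
  simp only [mon, mul_zpow, Finset.prod_mul_distrib]

theorem mon_add {y : Fin e → F} (hy : ∀ j, y j ≠ 0) (b c : Fin e → ℤ) :
    mon y (b + c) = mon y b * mon y c := by
  simp only [mon, Pi.add_apply, zpow_add₀ (hy _), Finset.prod_mul_distrib]

theorem mon_neg (y : Fin e → F) (b : Fin e → ℤ) : mon y (-b) = (mon y b)⁻¹ := by
  simp only [mon, Pi.neg_apply, zpow_neg, Finset.prod_inv_distrib]

theorem mon_pt (u v : F) (y : Fin e → F) (b : Fin (e + 2) → ℤ) :
    mon (pt u v y) b = u ^ b 0 * v ^ b 1 * mon y (fun j => b j.succ.succ) := by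
  rw [mon, Fin.prod_univ_succ, Fin.prod_univ_succ]
  exact (mul_assoc _ _ _).symm

theorem mon_mem {R : Subring F} {y : Fin e → F} (hy : ∀ j, y j ∈ R ∧ (y j)⁻¹ ∈ R)
    (b : Fin e → ℤ) : mon y b ∈ R := by
  refine R.prod_mem fun j _ => ?_
  rcases Int.eq_nat_or_neg (b j) with ⟨n, h | h⟩
  · rw [h, zpow_natCast]
    exact R.pow_mem (hy j).1 n
  · rw [h, zpow_neg, zpow_natCast, ← inv_pow]
    exact R.pow_mem (hy j).2 n

end mon

theorem lg_mon {K : Type} [Field K] {R : Subring K} (P : Places K R) (w : P.Pl) {e : ℕ}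
    {y : Fin e → K} (hy : ∀ j, y j ≠ 0) (b : Fin e → ℤ) :
    P.lg w (mon y b) = ∑ j, (b j : ℝ) * P.lg w (y j) := by
  rw [mon, lg_prod P w _ _ fun j _ => zpow_ne_zero _ (hy j)]
  simp only [P.lg_zpow]

theorem norm_mon {e : ℕ} (y : Fin e → ℂ) (b : Fin e → ℤ) :
    ‖mon y b‖ = ∏ j, ‖y j‖ ^ b j := by
  simp only [mon, norm_prod, norm_zpow]

theorem norm_mon_one {e : ℕ} {z : Fin e → ℂ} (hz : ∀ j, ‖z j‖ = 1) (b : Fin e → ℤ) :
    ‖mon z b‖ = 1 := by
  rw [norm_mon]
  exact Finset.prod_eq_one fun j _ => by rw [hz j, one_zpow]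

theorem conj_mon {e : ℕ} {z : Fin e → ℂ} (hz : ∀ j, ‖z j‖ = 1) (b : Fin e → ℤ) :
    (starRingEnd ℂ) (mon z b) = mon z (-b) := by
  rw [map_mon, mon_neg, mon, mon, ← Finset.prod_inv_distrib]
  refine Finset.prod_congr rfl fun j _ => ?_
  have h1 : (starRingEnd ℂ) (z j) = (z j)⁻¹ := by
    rw [Complex.inv_def, Complex.normSq_eq_norm_sq, hz j]
    simp
  rw [h1, inv_zpow]

end Pool.Agent.RS
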