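import Mathlib
import Pool.Agent.Lib.MP_c95b3b_ag_RS.Defs
import Pool.Agent.Lib.MP_c95b3b_ag_L3.Place2
import Pool.Agent.Lib.MP_c95b3b_ag_L3.FB

/-! Project RS (MP_c95b3b_ag), module H1: one relation on the base bounds the height. -/

namespace Pool.Agent.RS

open Pool.Agent.L3 Module

theorem const_avg (K0 : Type) [Field K0] [NumberField K0] (x : K0) : ∃ C : ℝ,
    ∀ (K : Type) [Field K] [Algebra K0 K] (R : Subring K) (P : Places K R),
      P.avg (fun w => |P.lg w (algebraMap K0 K x)|) ≤ C := by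
  rcases eq_or_ne x 0 with rfl | hx
  · refine ⟨0, fun K _ _ R P => ?_⟩
    simp [P.lg_zero, Places.avg]
  · obtain ⟨f, hf0, hf⟩ := FB.exists_poly hx
    obtain ⟨C, hC⟩ := avg_abs_lg_le f hf0
    refine ⟨C, fun K _ _ R P => hC K R P _ ?_⟩
    have h1 : Polynomial.aeval (algebraMap K0 K x) f = algebraMap K0 K (Polynomial.aeval x f) := by
      rw [Polynomial.aeval_def, Polynomial.aeval_def, Polynomial.hom_eval₂]
      congr 1
      exact RingHom.ext_int _ _
    rw [h1, hf, map_zero]

namespace Height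

section
variable {K : Type} [Field K] {R : Subring K} (P : Places K R)

/-- the triangle inequality for the logarithms of the absolute values -/
theorem tri (w : P.Pl) {x y : K} (hx : x ≠ 0) (hy : y ≠ 0) (hxy : x + y ≠ 0) :
    P.lg w (x + y) ≤ max (P.lg w x) (P.lg w y) + Real.log 2 * P.arch w := by
  rcases w with i | j
  · rw [P.lg_inl, P.lg_inl, P.lg_inl, P.arch_inl, mul_one]
    have hx' : 0 < ‖P.σ i x‖ := norm_pos_iff.mpr (by simpa using hx)
    have hy' : 0 < ‖P.σ i y‖ := norm_pos_iff.mpr (by simpa using hy)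
    have hs : 0 < ‖P.σ i (x + y)‖ := norm_pos_iff.mpr ((map_ne_zero (P.σ i)).mpr hxy)
    have h1 : ‖P.σ i (x + y)‖ ≤ ‖P.σ i x‖ + ‖P.σ i y‖ := by
      rw [map_add]
      exact norm_add_le _ _
    rcases le_total ‖P.σ i x‖ ‖P.σ i y‖ with h | h
    · have h2 : Real.log ‖P.σ i (x + y)‖ ≤ Real.log (‖P.σ i y‖ * 2) :=
        Real.log_le_log hs (by linarith)
      rw [Real.log_mul hy'.ne' (by norm_num)] at h2
      linarith [le_max_right (Real.log ‖P.σ i x‖) (Real.log ‖P.σ i y‖)]
    · have h2 : Real.log ‖P.σ i (x + y)‖ ≤ Real.log (‖P.σ i x‖ * 2) :=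
        Real.log_le_log hs (by linarith)
      rw [Real.log_mul hx'.ne' (by norm_num)] at h2
      linarith [le_max_left (Real.log ‖P.σ i x‖) (Real.log ‖P.σ i y‖)]
  · rw [P.lg_inr, P.lg_inr, P.lg_inr, P.arch_inr, mul_zero, add_zero]
    have hs : 0 < P.v j (x + y) := (P.v j).pos hxy
    rcases le_max_iff.mp (P.nonarch j x y) with h | h
    · exact (Real.log_le_log hs h).trans (le_max_left _ _)
    · exact (Real.log_le_log hs h).trans (le_max_right _ _)

theorem log2_pos : 0 < Real.log 2 := Real.log_pos (by norm_num)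

/-- the bound of the positive parts for a sum -/
theorem pos_part (w : P.Pl) {x : K} (hx : x ≠ 0) (y : K) :
    max 0 (P.lg w (x + y)) ≤ max 0 (P.lg w x) + |P.lg w y| + Real.log 2 * P.arch w := by
  have h2 : 0 ≤ Real.log 2 * P.arch w := mul_nonneg log2_pos.le (P.arch_nonneg w)
  have h3 : 0 ≤ max 0 (P.lg w x) := le_max_left _ _
  have h4 : 0 ≤ |P.lg w y| := abs_nonneg _
  rcases eq_or_ne (x + y) 0 with h | h
  · rw [h, P.lg_zero, max_self]
    linarith
  rcases eq_or_ne y 0 with hy | hy
  · rw [hy, add_zero]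
    have : 0 ≤ |P.lg w (0 : K)| := abs_nonneg _
    linarith
  have h1 := tri P w hx hy h
  have h5 : P.lg w x ≤ max 0 (P.lg w x) := le_max_right _ _
  have h6 : P.lg w y ≤ |P.lg w y| := le_abs_self _
  refine max_le (by linarith) ?_
  rcases max_cases (P.lg w x) (P.lg w y) with ⟨h7, _⟩ | ⟨h7, _⟩ <;> rw [h7] at h1 <;> linarith

/-- units : the average of the absolute values is twice the average of the positive parts -/
theorem avg_abs {x : K} (h : P.avg (fun w => P.lg w x) = 0) :
    P.avg (fun w => |P.lg w x|) = 2 * P.avg (fun w => max 0 (P.lg w x)) := by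
  have h1 : ∀ w, 2 * max 0 (P.lg w x) = |P.lg w x| + P.lg w x := by
    intro w
    rcases le_total 0 (P.lg w x) with h | h
    · rw [max_eq_right h, abs_of_nonneg h]
      ring
    · rw [max_eq_left h, abs_of_nonpos h]
      ring
  rw [← P.avg_mul]
  simp only [h1]
  rw [P.avg_add, h, add_zero]

/-- units : the average of the positive parts is the average of the negative parts -/
theorem avg_neg_part {x : K} (h : P.avg (fun w => P.lg w x) = 0) :
    P.avg (fun w => max 0 (P.lg w x)) = P.avg (fun w => max 0 (-P.lg w x)) := by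
  have h1 : ∀ w, max 0 (P.lg w x) = max 0 (-P.lg w x) + P.lg w x := by
    intro w
    rcases le_total 0 (P.lg w x) with h | h
    · rw [max_eq_right h, max_eq_left (by linarith)]
      ring
    · rw [max_eq_left h, max_eq_right (by linarith)]
      ring
  simp only [h1]
  rw [P.avg_add, h, add_zero]

/-- the key estimate at one place -/
theorem key (w : P.Pl) {M m : ℕ} (b : Fin M → K) (hb : Function.Injective b) (t : K)
    (ht : ∀ i, t - b i ≠ 0) (N : Fin M → ℝ) (r : Fin m → ℝ) (L : Fin m → ℝ) (κ : ℝ)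
    (i0 : Fin M) (hN0 : 0 < |N i0|) (hN : ∀ i, |N i| ≤ |N i0|) (hr : ∀ j, |r j| ≤ κ * |N i0|)
    (hrel : ∑ i, N i * P.lg w (t - b i) + ∑ j, r j * L j = 0) :
    -P.lg w (t - b i0) ≤
      ∑ i ∈ Finset.univ.erase i0, (|P.lg w (b i - b i0)| + Real.log 2 * P.arch w) +
        κ * ∑ j, |L j| := by
  classical
  have h2 : 0 ≤ Real.log 2 * P.arch w := mul_nonneg log2_pos.le (P.arch_nonneg w)
  set ε : ℝ := Real.log 2 * P.arch w with hε
  have hL0 : 0 ≤ ∑ j, |L j| := Finset.sum_nonneg fun j _ => abs_nonneg _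
  have hterm : ∀ i ∈ Finset.univ.erase i0, 0 ≤ |P.lg w (b i - b i0)| + ε := fun i _ =>
    add_nonneg (abs_nonneg _) h2
  have hκL : 0 ≤ κ * ∑ j, |L j| := by
    rw [Finset.mul_sum]
    refine Finset.sum_nonneg fun j _ => ?_
    have h3 : 0 ≤ κ * |N i0| := (abs_nonneg _).trans (hr j)
    have h4 : 0 ≤ κ := by
      by_contra h5
      push Not at h5
      nlinarith [mul_pos (neg_pos.mpr h5) hN0]
    exact mul_nonneg h4 (abs_nonneg _)
  by_cases hc : ∀ i ∈ Finset.univ.erase i0, P.lg w (t - b i0) < P.lg w (b i - b i0) - ε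
  · -- all the other differences are controlled
    have hi : ∀ i ∈ Finset.univ.erase i0, |P.lg w (t - b i)| ≤ |P.lg w (b i - b i0)| + ε := by
      intro i hi
      have hne : i ≠ i0 := Finset.ne_of_mem_erase hi
      have hbi : b i - b i0 ≠ 0 := sub_ne_zero.mpr fun h => hne (hb h)
      have hbi' : b i0 - b i ≠ 0 := sub_ne_zero.mpr fun h => hne (hb h).symm
      have h3 := hc i hi
      have h4 := tri P w (x := t - b i0) (y := -(t - b i)) (ht i0) (neg_ne_zero.mpr (ht i))
        (by
          have : t - b i0 + -(t - b i) = b i - b i0 := by ring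
          rw [this]
          exact hbi)
      have h5 := tri P w (x := t - b i0) (y := b i0 - b i) (ht i0) hbi'
        (by
          have : t - b i0 + (b i0 - b i) = t - b i := by ring
          rw [this]
          exact ht i)
      have e1 : t - b i0 + -(t - b i) = b i - b i0 := by ring
      have e2 : t - b i0 + (b i0 - b i) = t - b i := by ring
      rw [e1, P.lg_neg, ← hε] at h4
      rw [e2, P.lg_sub_comm w (b i0) (b i), ← hε] at h5
      have h6 := neg_abs_le (P.lg w (b i - b i0))
      have h7 := le_abs_self (P.lg w (b i - b i0))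
      rw [abs_le]
      constructor
      · rcases max_cases (P.lg w (t - b i0)) (P.lg w (t - b i)) with ⟨h8, _⟩ | ⟨h8, _⟩ <;>
          rw [h8] at h4 <;> linarith
      · rcases max_cases (P.lg w (t - b i0)) (P.lg w (b i - b i0)) with ⟨h8, _⟩ | ⟨h8, _⟩ <;>
          rw [h8] at h5 <;> linarith
    have h3 : |N i0| * -P.lg w (t - b i0) ≤ |N i0| * (∑ i ∈ Finset.univ.erase i0,
        (|P.lg w (b i - b i0)| + ε) + κ * ∑ j, |L j|) := by
      have h4 : |N i0| * -P.lg w (t - b i0) ≤ |N i0 * P.lg w (t - b i0)| := by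
        rw [abs_mul]
        exact mul_le_mul_of_nonneg_left (neg_le_abs _) hN0.le
      have h5 : N i0 * P.lg w (t - b i0) =
          -(∑ i ∈ Finset.univ.erase i0, N i * P.lg w (t - b i) + ∑ j, r j * L j) := by
        rw [← Finset.add_sum_erase _ _ (Finset.mem_univ i0)] at hrel
        linarith
      have h6 : |∑ i ∈ Finset.univ.erase i0, N i * P.lg w (t - b i)| ≤
          |N i0| * ∑ i ∈ Finset.univ.erase i0, (|P.lg w (b i - b i0)| + ε) := by
        rw [Finset.mul_sum]
        refine (Finset.abs_sum_le_sum_abs _ _).trans (Finset.sum_le_sum fun i hi' => ?_)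
        rw [abs_mul]
        exact mul_le_mul (hN i) (hi i hi') (abs_nonneg _) hN0.le
      have h7 : |∑ j, r j * L j| ≤ |N i0| * (κ * ∑ j, |L j|) := by
        rw [Finset.mul_sum, Finset.mul_sum]
        refine (Finset.abs_sum_le_sum_abs _ _).trans (Finset.sum_le_sum fun j _ => ?_)
        rw [abs_mul]
        calc |r j| * |L j| ≤ κ * |N i0| * |L j| :=
              mul_le_mul_of_nonneg_right (hr j) (abs_nonneg _)
          _ = |N i0| * (κ * |L j|) := by ring
      refine h4.trans ?_
      rw [h5, abs_neg, mul_add]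
      exact (abs_add_le _ _).trans (add_le_add h6 h7)
    exact le_of_mul_le_mul_left h3 hN0
  · push Not at hc
    obtain ⟨i, hi, hle⟩ := hc
    have h3 : |P.lg w (b i - b i0)| + ε ≤
        ∑ i ∈ Finset.univ.erase i0, (|P.lg w (b i - b i0)| + ε) :=
      Finset.single_le_sum (f := fun i => |P.lg w (b i - b i0)| + ε) hterm hi
    have h4 := neg_abs_le (P.lg w (b i - b i0))
    linarith

end

/-- an injective linear map is bounded below -/
theorem lower {M m : ℕ} (n : Fin m → Fin M → ℤ)
    (hn : ∀ r : Fin m → ℝ, (∀ i, ∑ j, r j * n j i = 0) → r = 0) :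
    ∃ κ : ℝ, 0 ≤ κ ∧ ∀ r : Fin m → ℝ, ∀ C : ℝ, 0 ≤ C → (∀ i, |∑ j, r j * n j i| ≤ C) →
      ∀ j, |r j| ≤ κ * C := by
  let lam : (Fin m → ℝ) →ₗ[ℝ] (Fin M → ℝ) :=
    { toFun := fun r i => ∑ j, r j * n j i
      map_add' := by
        intro r s
        funext i
        simp only [Pi.add_apply, add_mul, Finset.sum_add_distrib]
      map_smul' := by
        intro c r
        funext i
        simp only [Pi.smul_apply, smul_eq_mul, RingHom.id_apply, Finset.mul_sum, mul_assoc] }
  have hker : LinearMap.ker lam = ⊥ := by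
    rw [LinearMap.ker_eq_bot']
    intro r hr
    exact hn r fun i => congrFun hr i
  obtain ⟨κ, hκ, hlip⟩ := lam.exists_antilipschitzWith hker
  refine ⟨κ, κ.2, fun r C hC h j => ?_⟩
  have h1 : ‖r‖ ≤ κ * ‖lam r‖ := by
    have h2 := hlip.le_mul_dist r 0
    rw [map_zero, dist_zero_right, dist_zero_right] at h2
    exact h2
  have h3 : ‖lam r‖ ≤ C := (pi_norm_le_iff_of_nonneg hC).mpr fun i => h i
  have h4 : |r j| ≤ ‖r‖ := norm_le_pi_norm r j
  exact h4.trans (h1.trans (mul_le_mul_of_nonneg_left h3 κ.2))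

end Height

open Pool.Agent.RS.Height in
theorem height_t (K0 : Type) [Field K0] [NumberField K0] {M m : ℕ} (a : Fin M → K0)
    (ha : Function.Injective a) (c : Fin m → K0) (hc : ∀ j, c j ≠ 0) (n : Fin m → Fin M → ℤ)
    (hn : ∀ r : Fin m → ℝ, (∀ i, ∑ j, r j * n j i = 0) → r = 0) : ∃ B : ℝ,
    ∀ (K : Type) [Field K] [Algebra K0 K] (R : Subring K) (P : Places K R) (t : K),
      (∀ i, t - algebraMap K0 K (a i) ≠ 0 ∧ t - algebraMap K0 K (a i) ∈ R ∧
        (t - algebraMap K0 K (a i))⁻¹ ∈ R) →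
      (∃ r : Fin m → ℝ, r ≠ 0 ∧ ∀ w, ∑ j, r j * P.lg w
        (rf (fun i => algebraMap K0 K (a i)) (algebraMap K0 K (c j)) (n j) t) = 0) →
      P.avg (fun w => max 0 (P.lg w t)) ≤ B ∧
        ∀ i, P.avg (fun w => |P.lg w (t - algebraMap K0 K (a i))|) ≤ B := by
  classical
  obtain ⟨κ, hκ, hlow⟩ := lower n hn
  choose CA hCA using fun i => const_avg K0 (a i)
  choose CD hCD using fun p : Fin M × Fin M => const_avg K0 (a p.1 - a p.2)
  choose CE hCE using fun j => const_avg K0 (c j)
  set SA : ℝ := ∑ i, |CA i| with hSA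
  set SD : ℝ := ∑ p : Fin M × Fin M, |CD p| with hSD
  set SE : ℝ := ∑ j, |CE j| with hSE
  have hSA0 : 0 ≤ SA := Finset.sum_nonneg fun i _ => abs_nonneg _
  have hSD0 : 0 ≤ SD := Finset.sum_nonneg fun i _ => abs_nonneg _
  have hSE0 : 0 ≤ SE := Finset.sum_nonneg fun i _ => abs_nonneg _
  have hl2 := log2_pos
  set G : ℝ := SD + M * Real.log 2 + κ * SE with hG
  have hG0 : 0 ≤ G := by positivity
  refine ⟨2 * (G + SA + SD + Real.log 2), ?_⟩
  intro K _ _ R P t ht hrel
  obtain ⟨r, hr0, hrel⟩ := hrel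
  set b : Fin M → K := fun i => algebraMap K0 K (a i) with hb
  have hbinj : Function.Injective b := fun i j h => ha ((algebraMap K0 K).injective h)
  have htne : ∀ i, t - b i ≠ 0 := fun i => (ht i).1
  have hce : ∀ j, algebraMap K0 K (c j) ≠ 0 := fun j => by
    rw [Ne, map_eq_zero]
    exact hc j
  set N : Fin M → ℝ := fun i => ∑ j, r j * n j i with hN
  have hNne : ∃ i, N i ≠ 0 := by
    by_contra h
    push Not at h
    exact hr0 (hn r h)
  obtain ⟨i1, hi1⟩ := hNne
  obtain ⟨i0, -, hi0⟩ := Finset.exists_max_image Finset.univ (fun i => |N i|) ⟨i1, Finset.mem_univ i1⟩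
  have hN0 : 0 < |N i0| := (abs_pos.mpr hi1).trans_le (hi0 i1 (Finset.mem_univ i1))
  have hrb : ∀ j, |r j| ≤ κ * |N i0| :=
    hlow r |N i0| (abs_nonneg _) fun i => hi0 i (Finset.mem_univ i)
  -- the relation
  have hrel' : ∀ w, ∑ i, N i * P.lg w (t - b i) + ∑ j, r j * P.lg w (algebraMap K0 K (c j)) = 0 := by
    intro w
    have h1 := hrel w
    have h2 : ∀ j, r j * P.lg w (rf b (algebraMap K0 K (c j)) (n j) t) =
        r j * P.lg w (algebraMap K0 K (c j)) + ∑ i, r j * n j i * P.lg w (t - b i) := by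
      intro j
      rw [lg_rf P w b (n j) (hce j) htne, mul_add, Finset.mul_sum]
      congr 1
      exact Finset.sum_congr rfl fun i _ => by ring
    simp only [h2] at h1
    rw [Finset.sum_add_distrib, Finset.sum_comm] at h1
    have h3 : ∀ i, ∑ j, r j * n j i * P.lg w (t - b i) = N i * P.lg w (t - b i) := by
      intro i
      rw [hN, Finset.sum_mul]
    simp only [h3] at h1
    linarith
  -- averages
  have hunit : ∀ i, P.avg (fun w => P.lg w (t - b i)) = 0 := fun i =>
    P.avg_lg_unit (ht i).1 (ht i).2.1 (ht i).2.2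
  have hneg : P.avg (fun w => max 0 (-P.lg w (t - b i0))) ≤ G := by
    have h1 : ∀ w, max 0 (-P.lg w (t - b i0)) ≤
        ∑ i ∈ Finset.univ.erase i0, (|P.lg w (b i - b i0)| + Real.log 2 * P.arch w) +
          κ * ∑ j, |P.lg w (algebraMap K0 K (c j))| := by
      intro w
      refine max_le ?_ (key P w b hbinj t htne N r _ κ i0 hN0 (fun i => hi0 i (Finset.mem_univ i))
        hrb (hrel' w))
      refine add_nonneg (Finset.sum_nonneg fun i _ => ?_)
        (mul_nonneg hκ (Finset.sum_nonneg fun j _ => abs_nonneg _))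
      exact add_nonneg (abs_nonneg _) (mul_nonneg hl2.le (P.arch_nonneg w))
    refine (P.avg_mono h1).trans ?_
    rw [P.avg_add, P.avg_sum, P.avg_mul, P.avg_sum]
    have h2 : ∀ i ∈ Finset.univ.erase i0,
        P.avg (fun w => |P.lg w (b i - b i0)| + Real.log 2 * P.arch w) ≤
          |CD (i, i0)| + Real.log 2 := by
      intro i _
      rw [P.avg_add, P.avg_const_arch]
      have h3 := hCD (i, i0) K R P
      have h4 : algebraMap K0 K (a i - a i0) = b i - b i0 := by rw [map_sub]
      simp only [h4] at h3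
      have h5 := le_abs_self (CD (i, i0))
      linarith
    have h3 : ∑ i ∈ Finset.univ.erase i0, (|CD (i, i0)| + Real.log 2) ≤ SD + M * Real.log 2 := by
      have h4 : ∑ i ∈ Finset.univ.erase i0, (|CD (i, i0)| + Real.log 2) ≤
          ∑ i, (|CD (i, i0)| + Real.log 2) :=
        Finset.sum_le_sum_of_subset_of_nonneg (Finset.subset_univ _)
          (fun i _ _ => add_nonneg (abs_nonneg _) hl2.le)
      refine h4.trans ?_
      rw [Finset.sum_add_distrib]
      have h5 : ∑ i, |CD (i, i0)| ≤ SD := by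
        rw [hSD, Fintype.sum_prod_type]
        refine Finset.sum_le_sum fun i _ => ?_
        exact Finset.single_le_sum (f := fun y => |CD (i, y)|) (fun _ _ => abs_nonneg _)
          (Finset.mem_univ i0)
      have h6 : ∑ _i : Fin M, Real.log 2 = M * Real.log 2 := by simp
      rw [h6]
      linarith
    have h4 : κ * ∑ j, P.avg (fun w => |P.lg w (algebraMap K0 K (c j))|) ≤ κ * SE :=
      mul_le_mul_of_nonneg_left (Finset.sum_le_sum fun j _ =>
        (hCE j K R P).trans (le_abs_self _)) hκ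
    exact add_le_add ((Finset.sum_le_sum h2).trans h3) h4
  have hpos : P.avg (fun w => max 0 (P.lg w (t - b i0))) ≤ G := by
    rw [avg_neg_part P (hunit i0)]
    exact hneg
  have hCA' : ∀ i, CA i ≤ SA := fun i => (le_abs_self _).trans
    (Finset.single_le_sum (f := fun i => |CA i|) (fun _ _ => abs_nonneg _) (Finset.mem_univ i))
  have hCD' : ∀ p, CD p ≤ SD := fun p => (le_abs_self _).trans
    (Finset.single_le_sum (f := fun p => |CD p|) (fun _ _ => abs_nonneg _) (Finset.mem_univ p))
  constructor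
  · have h1 : ∀ w, max 0 (P.lg w t) ≤
        (max 0 (P.lg w (t - b i0)) + |P.lg w (b i0)|) + Real.log 2 * P.arch w := by
      intro w
      have h2 := pos_part P w (htne i0) (b i0)
      rwa [sub_add_cancel] at h2
    have h2 := P.avg_mono h1
    rw [P.avg_add, P.avg_add, P.avg_const_arch] at h2
    have h3 := hCA i0 K R P
    have h4 := hCA' i0
    linarith
  · intro i
    have h1 : ∀ w, max 0 (P.lg w (t - b i)) ≤
        (max 0 (P.lg w (t - b i0)) + |P.lg w (b i0 - b i)|) + Real.log 2 * P.arch w := by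
      intro w
      have h2 := pos_part P w (htne i0) (b i0 - b i)
      have e : t - b i0 + (b i0 - b i) = t - b i := by ring
      rwa [e] at h2
    have h2 := P.avg_mono h1
    rw [P.avg_add, P.avg_add, P.avg_const_arch] at h2
    have h3 := hCD (i0, i) K R P
    have h4 : algebraMap K0 K (a i0 - a i) = b i0 - b i := by rw [map_sub]
    simp only [h4] at h3
    have h5 := hCD' (i0, i)
    have h6 := avg_abs P (hunit i)
    rw [h6]
    linarith

end Pool.Agent.RS
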