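import Mathlib
import Pool.Agent.Lib.MP_c95b3b_ag_RS.DefsD

/-! Project RSd (MP_c95b3b_ag), module EX: expansion of monomials in the angles. -/

namespace Pool.Agent.RS

open Pool.Agent.L3 Module

namespace EX

/-- `F s z` is a polynomial in `z` of degree at most `n` in each variable, with coefficients
holomorphic in `s` on the ball of radius three and `l^1` norm at most `c` on the closed ball of
radius two -/
def Rep {e : ℕ} (n : ℕ) (c : ℝ) (F : ℂ → (Fin e → ℂ) → ℂ) : Prop :=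
  ∃ a : (Fin e → Fin (n + 1)) → ℂ → ℂ,
    (∀ μ, DifferentiableOn ℂ (a μ) (Metric.ball 0 3)) ∧
    (∀ s ∈ Metric.closedBall (0 : ℂ) 2, ∑ μ, ‖a μ s‖ ≤ c) ∧
    ∀ s z, F s z = ∑ μ, a μ s * ∏ k, z k ^ (μ k : ℕ)

section Rep

variable {e n n' : ℕ} {c c' : ℝ} {F G : ℂ → (Fin e → ℂ) → ℂ}

theorem of_fam {ι : Type} [Fintype ι] (f : ι → Fin e → ℕ) (hf : ∀ i k, f i k ≤ n)
    (a : ι → ℂ → ℂ) (ha : ∀ i, DifferentiableOn ℂ (a i) (Metric.ball 0 3))
    (hc : ∀ s ∈ Metric.closedBall (0 : ℂ) 2, ∑ i, ‖a i s‖ ≤ c)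
    (hF : ∀ s z, F s z = ∑ i, a i s * ∏ k, z k ^ f i k) : Rep n c F := by
  classical
  let φ : ι → (Fin e → Fin (n + 1)) := fun i k => ⟨f i k, Nat.lt_succ_of_le (hf i k)⟩
  refine ⟨fun μ s => ∑ i ∈ Finset.univ.filter (fun i => φ i = μ), a i s, ?_, ?_, ?_⟩
  · intro μ
    exact DifferentiableOn.fun_sum (fun i _ => ha i)
  · intro s hs
    calc ∑ μ, ‖∑ i ∈ Finset.univ.filter (fun i => φ i = μ), a i s‖
        ≤ ∑ μ, ∑ i ∈ Finset.univ.filter (fun i => φ i = μ), ‖a i s‖ :=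
          Finset.sum_le_sum (fun μ _ => norm_sum_le _ _)
      _ = ∑ i, ‖a i s‖ := Finset.sum_fiberwise _ _ _
      _ ≤ c := hc s hs
  · intro s z
    rw [hF, ← Finset.sum_fiberwise Finset.univ φ]
    refine Finset.sum_congr rfl (fun μ _ => ?_)
    rw [Finset.sum_mul]
    refine Finset.sum_congr rfl (fun i hi => ?_)
    have h1 : φ i = μ := (Finset.mem_filter.mp hi).2
    rw [← h1]

theorem Rep.mono (h : Rep n c F) (hn : n ≤ n') (hc : c ≤ c') : Rep n' c' F := by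
  obtain ⟨a, ha, hac, haF⟩ := h
  exact of_fam (fun μ k => (μ k : ℕ)) (fun μ k => (Nat.lt_succ_iff.mp (μ k).2).trans hn) a ha
    (fun s hs => (hac s hs).trans hc) haF

theorem Rep.add (h : Rep n c F) (h' : Rep n c' G) : Rep n (c + c') (fun s z => F s z + G s z) := by
  obtain ⟨a, ha, hac, haF⟩ := h
  obtain ⟨b, hb, hbc, hbG⟩ := h'
  refine ⟨fun μ s => a μ s + b μ s, fun μ => (ha μ).add (hb μ), ?_, ?_⟩
  · intro s hs
    calc ∑ μ, ‖a μ s + b μ s‖ ≤ ∑ μ, (‖a μ s‖ + ‖b μ s‖) :=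
          Finset.sum_le_sum fun μ _ => norm_add_le _ _
      _ = ∑ μ, ‖a μ s‖ + ∑ μ, ‖b μ s‖ := Finset.sum_add_distrib
      _ ≤ c + c' := add_le_add (hac s hs) (hbc s hs)
  · intro s z
    beta_reduce
    rw [haF, hbG, ← Finset.sum_add_distrib]
    exact Finset.sum_congr rfl fun μ _ => by ring

theorem Rep.mul (h : Rep n c F) (h' : Rep n' c' G) :
    Rep (n + n') (c * c') (fun s z => F s z * G s z) := by
  obtain ⟨a, ha, hac, haF⟩ := h
  obtain ⟨b, hb, hbc, hbG⟩ := h'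
  refine of_fam (ι := (Fin e → Fin (n + 1)) × (Fin e → Fin (n' + 1)))
    (fun p k => (p.1 k : ℕ) + (p.2 k : ℕ))
    (fun p k => add_le_add (Nat.lt_succ_iff.mp (p.1 k).2) (Nat.lt_succ_iff.mp (p.2 k).2))
    (fun p s => a p.1 s * b p.2 s) (fun p => (ha p.1).mul (hb p.2)) ?_ ?_
  · intro s hs
    have h1 : ∑ p : (Fin e → Fin (n + 1)) × (Fin e → Fin (n' + 1)), ‖a p.1 s * b p.2 s‖ =
        (∑ μ, ‖a μ s‖) * ∑ μ, ‖b μ s‖ := by
      rw [Fintype.sum_prod_type, Finset.sum_mul_sum]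
      simp only [norm_mul]
    rw [h1]
    have h2 : 0 ≤ ∑ μ, ‖b μ s‖ := Finset.sum_nonneg fun μ _ => norm_nonneg _
    have h3 : 0 ≤ ∑ μ, ‖a μ s‖ := Finset.sum_nonneg fun μ _ => norm_nonneg _
    exact mul_le_mul (hac s hs) (hbc s hs) h2 (h3.trans (hac s hs))
  · intro s z
    rw [haF, hbG, Finset.sum_mul_sum, Fintype.sum_prod_type]
    refine Finset.sum_congr rfl fun μ _ => Finset.sum_congr rfl fun ν _ => ?_
    simp only [pow_add, Finset.prod_mul_distrib]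
    ring

theorem rep_mon (f : Fin e → ℕ) (hf : ∀ k, f k ≤ n) (a : ℂ → ℂ)
    (ha : DifferentiableOn ℂ a (Metric.ball 0 3))
    (hc : ∀ s ∈ Metric.closedBall (0 : ℂ) 2, ‖a s‖ ≤ c) :
    Rep n c (fun s z => a s * ∏ k, z k ^ f k) :=
  of_fam (ι := Unit) (fun _ => f) (fun _ => hf) (fun _ => a) (fun _ => ha)
    (fun s hs => by simpa using hc s hs) (fun s z => by simp)

theorem rep_const (a : ℂ → ℂ) (ha : DifferentiableOn ℂ a (Metric.ball 0 3))
    (hc : ∀ s ∈ Metric.closedBall (0 : ℂ) 2, ‖a s‖ ≤ c) :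
    Rep (e := e) 0 c (fun s _ => a s) := by
  have h := rep_mon (e := e) (n := 0) (c := c) (fun _ => 0) (fun _ => le_rfl) a ha hc
  simpa using h

theorem rep_zero (hc : 0 ≤ c) : Rep (e := e) n c (fun _ _ => 0) :=
  (rep_const (c := 0) (fun _ => 0) (differentiableOn_const _) (fun s _ => by simp)).mono
    (Nat.zero_le _) hc

theorem rep_one : Rep (e := e) 0 1 (fun _ _ => 1) :=
  rep_const (c := 1) (fun _ => 1) (differentiableOn_const _) (fun s _ => by simp)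

theorem Rep.neg (h : Rep n c F) : Rep n c (fun s z => -F s z) := by
  have h1 := (rep_const (e := e) (c := 1) (fun _ => -1) (differentiableOn_const _)
    (fun s _ => by simp)).mul h
  simpa using h1

theorem Rep.pow (h : Rep n c F) (N : ℕ) : Rep (n * N) (c ^ N) (fun s z => F s z ^ N) := by
  induction N with
  | zero => simpa using rep_one (e := e)
  | succ N ih =>
    have h1 := ih.mul h
    have h2 : (fun s z => F s z ^ (N + 1)) = fun s z => F s z ^ N * F s z := by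
      funext s z
      exact pow_succ _ _
    rw [h2, pow_succ, Nat.mul_succ]
    exact h1

theorem rep_sum {g : ℕ} {H : Fin g → ℂ → (Fin e → ℂ) → ℂ} (h : ∀ i, Rep n c (H i)) :
    Rep n (g * c) (fun s z => ∑ i, H i s z) := by
  induction g with
  | zero => simpa using rep_zero (e := e) (n := n) (c := 0) le_rfl
  | succ g ih =>
    have h1 := (h 0).add (ih (H := fun i => H i.succ) (fun i => h i.succ))
    have h2 : (fun s z => ∑ i, H i s z) = fun s z => H 0 s z + ∑ i : Fin g, H i.succ s z := by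
      funext s z
      exact Fin.sum_univ_succ _
    rw [h2]
    refine h1.mono le_rfl (le_of_eq ?_)
    push_cast
    ring

theorem rep_prod {g : ℕ} {H : Fin g → ℂ → (Fin e → ℂ) → ℂ} (h : ∀ i, Rep n c (H i)) :
    Rep (n * g) (c ^ g) (fun s z => ∏ i, H i s z) := by
  induction g with
  | zero => simpa using rep_one (e := e)
  | succ g ih =>
    have h1 := (h 0).mul (ih (H := fun i => H i.succ) (fun i => h i.succ))
    have h2 : (fun s z => ∏ i, H i s z) = fun s z => H 0 s z * ∏ i : Fin g, H i.succ s z := by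
      funext s z
      exact Fin.prod_univ_succ _
    rw [h2]
    refine h1.mono (le_of_eq ?_) (le_of_eq ?_)
    · ring
    · ring

end Rep

/-- the recursion for the powers of `V` -/
def AB (P Q S : ℂ) : ℕ → ℂ × ℂ
  | 0 => (0, 1)
  | i + 1 => ((AB P Q S i).1 * Q + P * (AB P Q S i).2, -((AB P Q S i).1 * S))

theorem AB_spec {P Q S V : ℂ} (h : P * V ^ 2 = Q * V - S) (i : ℕ) :
    P ^ i * V ^ i = (AB P Q S i).1 * V + (AB P Q S i).2 := by
  induction i with
  | zero => simp [AB]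
  | succ i ih =>
    simp only [AB]
    have h1 : P ^ (i + 1) * V ^ (i + 1) = P * V * (P ^ i * V ^ i) := by ring
    rw [h1, ih]
    linear_combination (AB P Q S i).1 * h

theorem rep_AB {e n : ℕ} {M : ℝ} (hM : 0 ≤ M) {P Q S : ℂ → (Fin e → ℂ) → ℂ} (hP : Rep n M P)
    (hQ : Rep n M Q) (hS : Rep n M S) (i : ℕ) :
    Rep (n * i) ((2 * M) ^ i) (fun s z => (AB (P s z) (Q s z) (S s z) i).1) ∧
      Rep (n * i) ((2 * M) ^ i) (fun s z => (AB (P s z) (Q s z) (S s z) i).2) := by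
  induction i with
  | zero =>
    refine ⟨?_, ?_⟩
    · simpa [AB] using rep_zero (e := e) (n := 0) (c := 1) zero_le_one
    · simpa [AB] using rep_one (e := e)
  | succ i ih =>
    obtain ⟨h1, h2⟩ := ih
    simp only [AB]
    have hp : 0 ≤ (2 * M) ^ i := by positivity
    refine ⟨?_, ?_⟩
    · have h3 := (h1.mul hQ).add ((hP.mul h2).mono (n' := n * i + n)
        (c' := M * (2 * M) ^ i) (by omega) le_rfl)
      refine h3.mono (by rw [Nat.mul_succ]) (le_of_eq ?_)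
      ring
    · have h3 := (h1.mul hS).neg
      refine h3.mono (by rw [Nat.mul_succ]) ?_
      rw [pow_succ]
      nlinarith [mul_nonneg hp hM]

/-- the quadratic relation -/
theorem quad {V V' w X Y : ℂ} (hw : w = V + V') (hX : ((‖V‖ ^ 2 : ℝ) : ℂ) = X)
    (hY : ((‖V'‖ ^ 2 : ℝ) : ℂ) = Y) :
    (starRingEnd ℂ) w * V ^ 2 = (w * (starRingEnd ℂ) w + X - Y) * V - w * X := by
  have h1 : V * (starRingEnd ℂ) V = X := by
    rw [Complex.mul_conj, ← hX, Complex.normSq_eq_norm_sq]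
  have h2 : V' * (starRingEnd ℂ) V' = Y := by
    rw [Complex.mul_conj, ← hY, Complex.normSq_eq_norm_sq]
  have h3 : (starRingEnd ℂ) w = (starRingEnd ℂ) V + (starRingEnd ℂ) V' := by
    rw [hw, map_add]
  rw [h3, hw, ← h1, ← h2]
  ring

theorem exists_bound {a : ℂ → ℂ} (ha : DifferentiableOn ℂ a (Metric.ball 0 3)) :
    ∃ K : ℝ, ∀ s ∈ Metric.closedBall (0 : ℂ) 2, ‖a s‖ ≤ K := by
  have h1 : ContinuousOn a (Metric.closedBall 0 2) :=
    ha.continuousOn.mono (Metric.closedBall_subset_ball (by norm_num))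
  exact (isCompact_closedBall (0 : ℂ) 2).exists_bound_of_continuousOn h1

theorem exists_bound_fam {ι : Type} [Fintype ι] {a : ι → ℂ → ℂ}
    (ha : ∀ i, DifferentiableOn ℂ (a i) (Metric.ball 0 3)) :
    ∃ K : ℝ, 0 ≤ K ∧ ∀ i, ∀ s ∈ Metric.closedBall (0 : ℂ) 2, ‖a i s‖ ≤ K := by
  choose K hK using fun i => exists_bound (ha i)
  refine ⟨∑ i, |K i|, Finset.sum_nonneg fun i _ => abs_nonneg _, fun i s hs => ?_⟩
  exact ((hK i s hs).trans (le_abs_self _)).trans
    (Finset.single_le_sum (f := fun i => |K i|) (fun i _ => abs_nonneg _) (Finset.mem_univ i))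

/-- shifted monomials -/
theorem mon_shift {e : ℕ} {z : Fin e → ℂ} (hz : ∀ k, z k ≠ 0) (D : ℕ) (b : Fin e → ℤ)
    (hb : ∀ k, |b k| ≤ D) :
    ∏ k, z k ^ ((D + b k).toNat) = (∏ k, z k) ^ D * mon z b := by
  rw [mon, ← Finset.prod_pow, ← Finset.prod_mul_distrib]
  refine Finset.prod_congr rfl fun k _ => ?_
  have h1 : (0 : ℤ) ≤ D + b k := by
    have := (abs_le.mp (hb k)).1
    linarith
  have h2 : z k ^ ((D + b k).toNat) = z k ^ ((D : ℤ) + b k) := by
    rw [← zpow_natCast, Int.toNat_of_nonneg h1]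
  rw [h2, zpow_add₀ (hz k), zpow_natCast]

end EX

theorem expand {e g : ℕ} (b : Fin g → Fin e → ℤ) (τ X Y : ℂ → ℂ) (ρ : Fin e → ℂ → ℂ)
    (γ γ' : Fin g → ℂ → ℂ) (hτ : DifferentiableOn ℂ τ (Metric.ball 0 3))
    (hX : DifferentiableOn ℂ X (Metric.ball 0 3)) (hY : DifferentiableOn ℂ Y (Metric.ball 0 3))
    (hρ : ∀ k, DifferentiableOn ℂ (ρ k) (Metric.ball 0 3))
    (hγ : ∀ k, DifferentiableOn ℂ (γ k) (Metric.ball 0 3))
    (hγ' : ∀ k, DifferentiableOn ℂ (γ' k) (Metric.ball 0 3)) :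
    ∃ (C : ℝ) (C' : ℕ), 1 ≤ C ∧ ∀ N : ℕ, ∃ (E : ℕ)
      (cA cB : ℕ → ℕ → (Fin e → ℕ) → (Fin e → Fin (C' * N + 1)) → ℂ → ℂ),
      (∀ j i β μ, DifferentiableOn ℂ (cA j i β μ) (Metric.ball 0 3) ∧
        DifferentiableOn ℂ (cB j i β μ) (Metric.ball 0 3)) ∧
      (∀ j i β μ, j ≤ N → i ≤ N → (∀ k, β k ≤ N) → ∀ s ∈ Metric.closedBall (0 : ℂ) 2,
        ‖cA j i β μ s‖ ≤ C ^ N ∧ ‖cB j i β μ s‖ ≤ C ^ N) ∧
      ∀ j i β, j ≤ N → i ≤ N → (∀ k, β k ≤ N) → ∀ (s : ℝ) (z : Fin e → ℂ) (V V' : ℂ),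
        |s| ≤ 1 → (∀ k, ‖z k‖ = 1) → ((‖V‖ ^ 2 : ℝ) : ℂ) = X s → ((‖V'‖ ^ 2 : ℝ) : ℂ) = Y s →
        V + V' + ∑ k, γ k s * mon z (b k) = 0 →
        (starRingEnd ℂ) (V + V') + ∑ k, γ' k s * mon z (-b k) = 0 →
        (starRingEnd ℂ) (V + V') ^ N * (∏ k, z k) ^ E *
            (τ s ^ j * V ^ i * ∏ k, (ρ k s * z k) ^ β k) =
          (∑ μ, cA j i β μ s * ∏ k, z k ^ (μ k : ℕ)) * V +
            ∑ μ, cB j i β μ s * ∏ k, z k ^ (μ k : ℕ) := by
  classical
  -- bounds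
  obtain ⟨K1, hK1⟩ := EX.exists_bound hτ
  obtain ⟨K2, hK2⟩ := EX.exists_bound hX
  obtain ⟨K3, hK3⟩ := EX.exists_bound hY
  obtain ⟨K4, hK40, hK4⟩ := EX.exists_bound_fam hρ
  obtain ⟨K5, hK50, hK5⟩ := EX.exists_bound_fam hγ
  obtain ⟨K6, hK60, hK6⟩ := EX.exists_bound_fam hγ'
  set K : ℝ := 1 + |K1| + |K2| + |K3| + K4 + K5 + K6 with hKdef
  have a1 := abs_nonneg K1
  have a2 := abs_nonneg K2
  have a3 := abs_nonneg K3
  have b1 := le_abs_self K1
  have b2 := le_abs_self K2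
  have b3 := le_abs_self K3
  have hK : 1 ≤ K := by rw [hKdef]; linarith
  have hK0 : 0 ≤ K := zero_le_one.trans hK
  have cτ : ∀ s ∈ Metric.closedBall (0 : ℂ) 2, ‖τ s‖ ≤ K := fun s hs =>
    (hK1 s hs).trans (by rw [hKdef]; linarith)
  have cX : ∀ s ∈ Metric.closedBall (0 : ℂ) 2, ‖X s‖ ≤ K := fun s hs =>
    (hK2 s hs).trans (by rw [hKdef]; linarith)
  have cY : ∀ s ∈ Metric.closedBall (0 : ℂ) 2, ‖Y s‖ ≤ K := fun s hs =>
    (hK3 s hs).trans (by rw [hKdef]; linarith)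
  have cρ : ∀ k, ∀ s ∈ Metric.closedBall (0 : ℂ) 2, ‖ρ k s‖ ≤ K := fun k s hs =>
    (hK4 k s hs).trans (by rw [hKdef]; linarith)
  have cγ : ∀ k, ∀ s ∈ Metric.closedBall (0 : ℂ) 2, ‖γ k s‖ ≤ K := fun k s hs =>
    (hK5 k s hs).trans (by rw [hKdef]; linarith)
  have cγ' : ∀ k, ∀ s ∈ Metric.closedBall (0 : ℂ) 2, ‖γ' k s‖ ≤ K := fun k s hs =>
    (hK6 k s hs).trans (by rw [hKdef]; linarith)
  -- the bound for the exponents
  obtain ⟨D, hD⟩ : ∃ D : ℕ, ∀ k j, |b k j| ≤ D := by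
    refine ⟨∑ k, ∑ j, (b k j).natAbs, fun k j => ?_⟩
    have h1 : (b k j).natAbs ≤ ∑ k, ∑ j, (b k j).natAbs :=
      (Finset.single_le_sum (f := fun j => (b k j).natAbs) (fun _ _ => Nat.zero_le _)
        (Finset.mem_univ j)).trans
      (Finset.single_le_sum (f := fun k => ∑ j, (b k j).natAbs) (fun _ _ => Nat.zero_le _)
        (Finset.mem_univ k))
    rw [Int.abs_eq_natAbs]
    exact_mod_cast h1
  have hDneg : ∀ k j, |(-b k) j| ≤ D := fun k j => by
    rw [Pi.neg_apply, abs_neg]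
    exact hD k j
  have htn : ∀ k j, ((D : ℤ) + b k j).toNat ≤ 2 * D := fun k j => by
    have := (abs_le.mp (hD k j)).2
    omega
  have htn' : ∀ k j, ((D : ℤ) + (-b k) j).toNat ≤ 2 * D := fun k j => by
    have := (abs_le.mp (hDneg k j)).2
    omega
  -- the polynomials
  set Om : ℂ → (Fin e → ℂ) → ℂ := fun s z =>
    -∑ k, γ k s * ∏ j, z j ^ (((D : ℤ) + b k j).toNat) with hOm
  set Os : ℂ → (Fin e → ℂ) → ℂ := fun s z =>
    -∑ k, γ' k s * ∏ j, z j ^ (((D : ℤ) + (-b k) j).toNat) with hOs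
  set Z : ℂ → (Fin e → ℂ) → ℂ := fun _ z => ∏ j, z j ^ D with hZ
  have rOm : EX.Rep (2 * D) (g * K) Om :=
    (EX.rep_sum fun k => EX.rep_mon _ (htn k) (γ k) (hγ k) (cγ k)).neg
  have rOs : EX.Rep (2 * D) (g * K) Os :=
    (EX.rep_sum fun k => EX.rep_mon _ (htn' k) (γ' k) (hγ' k) (cγ' k)).neg
  have rZ : EX.Rep D 1 Z := by
    have h := EX.rep_mon (e := e) (n := D) (c := 1) (fun _ => D) (fun _ => le_rfl) (fun _ => 1)
      (differentiableOn_const _) (fun s _ => by simp)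
    simpa [hZ] using h
  set P : ℂ → (Fin e → ℂ) → ℂ := fun s z => Os s z * Z s z with hP
  set Q : ℂ → (Fin e → ℂ) → ℂ := fun s z =>
    Om s z * Os s z + (X s + -Y s) * (Z s z * Z s z) with hQ
  set S : ℂ → (Fin e → ℂ) → ℂ := fun s z => Om s z * Z s z * X s with hS
  set M : ℝ := (g * K + 1) * (g * K + 1) + 2 * K + g * K * K with hM
  have hg : (0 : ℝ) ≤ g * K := mul_nonneg (Nat.cast_nonneg _) hK0
  have hM1 : 1 ≤ M := by
    rw [hM]
    nlinarith [mul_nonneg hg hK0, mul_nonneg hg hg]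
  have hM0 : 0 ≤ M := zero_le_one.trans hM1
  have rP : EX.Rep (4 * D) M P := by
    refine (rOs.mul rZ).mono (by omega) ?_
    rw [hM]
    nlinarith [mul_nonneg hg hK0, mul_nonneg hg hg]
  have rQ : EX.Rep (4 * D) M Q := by
    have h1 := (rOm.mul rOs).mono (n' := 4 * D) (by omega) le_rfl
    have h2 := (EX.rep_const (e := e) (c := K) X hX cX).add
      (EX.rep_const (e := e) (c := K) Y hY cY).neg
    have h3 := (h2.mul (rZ.mul rZ)).mono (n' := 4 * D) (by omega) le_rfl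
    refine (h1.add h3).mono le_rfl ?_
    rw [hM]
    nlinarith [mul_nonneg hg hK0, mul_nonneg hg hg]
  have rS : EX.Rep (4 * D) M S := by
    have h1 := (rOm.mul rZ).mul (EX.rep_const (e := e) (c := K) X hX cX)
    refine h1.mono (by omega) ?_
    rw [hM]
    nlinarith [mul_nonneg hg hK0, mul_nonneg hg hg]
  -- the constants
  refine ⟨2 * M * (K * K ^ e), 4 * D + 1, ?_, fun N => ?_⟩
  · have h1 : 1 ≤ K * K ^ e := one_le_mul_of_one_le_of_one_le hK (one_le_pow₀ hK)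
    nlinarith
  -- the representation
  have key : ∀ j i (β : Fin e → ℕ), ∃ a a' : (Fin e → Fin ((4 * D + 1) * N + 1)) → ℂ → ℂ,
      (∀ μ, DifferentiableOn ℂ (a μ) (Metric.ball 0 3)) ∧
      (∀ μ, DifferentiableOn ℂ (a' μ) (Metric.ball 0 3)) ∧
      (j ≤ N → i ≤ N → (∀ k, β k ≤ N) →
        (∀ s ∈ Metric.closedBall (0 : ℂ) 2, ∑ μ, ‖a μ s‖ ≤ (2 * M * (K * K ^ e)) ^ N) ∧
        (∀ s ∈ Metric.closedBall (0 : ℂ) 2, ∑ μ, ‖a' μ s‖ ≤ (2 * M * (K * K ^ e)) ^ N) ∧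
        (∀ s z, P s z ^ (N - i) * (τ s ^ j * ∏ k, (ρ k s * z k) ^ β k) *
          (EX.AB (P s z) (Q s z) (S s z) i).1 = ∑ μ, a μ s * ∏ k, z k ^ (μ k : ℕ)) ∧
        (∀ s z, P s z ^ (N - i) * (τ s ^ j * ∏ k, (ρ k s * z k) ^ β k) *
          (EX.AB (P s z) (Q s z) (S s z) i).2 = ∑ μ, a' μ s * ∏ k, z k ^ (μ k : ℕ))) := by
    intro j i β
    by_cases hcond : j ≤ N ∧ i ≤ N ∧ ∀ k, β k ≤ N
    swap
    · refine ⟨fun _ _ => 0, fun _ _ => 0, fun _ => differentiableOn_const _,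
        fun _ => differentiableOn_const _, fun h1 h2 h3 => absurd ⟨h1, h2, h3⟩ hcond⟩
    obtain ⟨hj, hi, hβ⟩ := hcond
    have r1 : EX.Rep (4 * D * (N - i)) (M ^ (N - i)) (fun s z => P s z ^ (N - i)) := rP.pow _
    have r2 : EX.Rep (e := e) 0 (K ^ N) (fun s _ => τ s ^ j) := by
      have h := (EX.rep_const (e := e) (c := K) τ hτ cτ).pow j
      refine h.mono (by simp) (pow_le_pow_right₀ hK hj)
    have r3 : EX.Rep N ((K ^ e) ^ N) (fun s z => ∏ k, (ρ k s * z k) ^ β k) := by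
      have h : (fun (s : ℂ) (z : Fin e → ℂ) => ∏ k, (ρ k s * z k) ^ β k) =
          fun s z => (∏ k, ρ k s ^ β k) * ∏ k, z k ^ β k := by
        funext s z
        rw [← Finset.prod_mul_distrib]
        exact Finset.prod_congr rfl fun k _ => mul_pow _ _ _
      rw [h]
      refine EX.rep_mon β hβ (fun s => ∏ k, ρ k s ^ β k) ?_ ?_
      · exact DifferentiableOn.fun_finsetProd (fun k _ => (hρ k).pow _)
      · intro s hs
        rw [norm_prod]
        calc ∏ k, ‖ρ k s ^ β k‖ ≤ ∏ _k : Fin e, K ^ N := by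
              refine Finset.prod_le_prod (fun k _ => norm_nonneg _) fun k _ => ?_
              rw [norm_pow]
              exact (pow_le_pow_left₀ (norm_nonneg _) (cρ k s hs) _).trans
                (pow_le_pow_right₀ hK (hβ k))
          _ = (K ^ e) ^ N := by
              rw [Finset.prod_const, Finset.card_univ, Fintype.card_fin, ← pow_mul, ← pow_mul,
                mul_comm]
    have r23 := r1.mul (r2.mul r3)
    obtain ⟨r4, r5⟩ := EX.rep_AB hM0 rP rQ rS i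
    have hdeg : 4 * D * (N - i) + (0 + N) + 4 * D * i ≤ (4 * D + 1) * N := by
      have h1 : 4 * D * (N - i) + 4 * D * i = 4 * D * N := by
        rw [← Nat.mul_add, Nat.sub_add_cancel hi]
      have h2 : (4 * D + 1) * N = 4 * D * N + N := by ring
      rw [h2, ← h1]
      omega
    have hbd : M ^ (N - i) * (K ^ N * (K ^ e) ^ N) * (2 * M) ^ i ≤ (2 * M * (K * K ^ e)) ^ N := by
      have h1 : (2 * M * (K * K ^ e)) ^ N = (2 * M) ^ (N - i) * (2 * M) ^ i *
          (K ^ N * (K ^ e) ^ N) := by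
        rw [← pow_add, Nat.sub_add_cancel hi, mul_pow, mul_pow K]
      rw [h1]
      have h2 : M ^ (N - i) ≤ (2 * M) ^ (N - i) := pow_le_pow_left₀ hM0 (by linarith) _
      have h3 : 0 ≤ K ^ N * (K ^ e) ^ N := by positivity
      have h4 : 0 ≤ (2 * M) ^ i := by positivity
      calc M ^ (N - i) * (K ^ N * (K ^ e) ^ N) * (2 * M) ^ i
          = M ^ (N - i) * ((2 * M) ^ i * (K ^ N * (K ^ e) ^ N)) := by ring
        _ ≤ (2 * M) ^ (N - i) * ((2 * M) ^ i * (K ^ N * (K ^ e) ^ N)) :=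
            mul_le_mul_of_nonneg_right h2 (mul_nonneg h4 h3)
        _ = _ := by ring
    obtain ⟨a, ha, hac, haF⟩ := (r23.mul r4).mono hdeg hbd
    obtain ⟨a', ha', hac', haF'⟩ := (r23.mul r5).mono hdeg hbd
    exact ⟨a, a', ha, ha', fun _ _ _ => ⟨hac, hac', haF, haF'⟩⟩
  choose cA cB hA hB hcond using key
  refine ⟨2 * D * N, cA, cB, fun j i β μ => ⟨hA j i β μ, hB j i β μ⟩, ?_, ?_⟩
  · intro j i β μ hj hi hβ s hs
    obtain ⟨h1, h2, -, -⟩ := hcond j i β hj hi hβ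
    exact ⟨(Finset.single_le_sum (f := fun μ => ‖cA j i β μ s‖) (fun _ _ => norm_nonneg _)
        (Finset.mem_univ μ)).trans (h1 s hs),
      (Finset.single_le_sum (f := fun μ => ‖cB j i β μ s‖) (fun _ _ => norm_nonneg _)
        (Finset.mem_univ μ)).trans (h2 s hs)⟩
  · intro j i β hj hi hβ s z V V' _ hz hXs hYs hw hw'
    obtain ⟨-, -, h1, h2⟩ := hcond j i β hj hi hβ
    rw [← h1, ← h2]
    have hz0 : ∀ k, z k ≠ 0 := fun k hk => by
      have := hz k
      rw [hk, norm_zero] at this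
      exact zero_ne_one this
    have hZz : Z s z = (∏ k, z k) ^ D := Finset.prod_pow _ _ _
    have hOmz : Om s z = Z s z * (V + V') := by
      have e1 : V + V' = -∑ k, γ k s * mon z (b k) := eq_neg_of_add_eq_zero_left hw
      rw [e1, hZz]
      simp only [hOm]
      rw [mul_neg, Finset.mul_sum]
      congr 1
      refine Finset.sum_congr rfl fun k _ => ?_
      rw [EX.mon_shift hz0 D (b k) (hD k)]
      ring
    have hOsz : Os s z = Z s z * (starRingEnd ℂ) (V + V') := by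
      have e1 : (starRingEnd ℂ) (V + V') = -∑ k, γ' k s * mon z (-b k) :=
        eq_neg_of_add_eq_zero_left hw'
      rw [e1, hZz]
      simp only [hOs]
      rw [mul_neg, Finset.mul_sum]
      congr 1
      refine Finset.sum_congr rfl fun k _ => ?_
      rw [EX.mon_shift hz0 D (-b k) (hDneg k)]
      ring
    have hquad := EX.quad (V := V) (V' := V') rfl hXs hYs
    have hrel : P s z * V ^ 2 = Q s z * V - S s z := by
      simp only [hP, hQ, hS]
      rw [hOmz, hOsz]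
      linear_combination (Z s z) ^ 2 * hquad
    have hAB := EX.AB_spec hrel i
    have hPN : (starRingEnd ℂ) (V + V') ^ N * (∏ k, z k) ^ (2 * D * N) = P s z ^ (N - i) *
        P s z ^ i := by
      rw [← pow_add, Nat.sub_add_cancel hi]
      simp only [hP]
      rw [hOsz, hZz]
      ring
    rw [hPN]
    linear_combination (P s z ^ (N - i) * (τ s ^ j * ∏ k, (ρ k s * z k) ^ β k)) * hAB

end Pool.Agent.RS
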