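import Mathlib
import Pool.Agent.Lib.MP_c95b3b_ag_RS.Defs
import Pool.Agent.Lib.MP_c95b3b_ag_L3.TA
import Pool.Agent.Lib.MP_c95b3b_ag_L3.TC

/-! Project RS (MP_c95b3b_ag), module TA: an auxiliary polynomial which is small on analytic
arcs. -/

namespace Pool.Agent.RS

open Pool.Agent.L3 Module

namespace ArcAux

open Metric Finset

/-- Taylor expansion with remainder -/
theorem taylor (g : ℂ → ℂ) (hg : DifferentiableOn ℂ g (ball 0 3)) (W : ℝ)
    (hW : ∀ y ∈ closedBall (0 : ℂ) 2, ‖g y‖ ≤ W) :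
    ∃ c : ℕ → ℂ, (∀ k, ‖c k‖ ≤ W / 2 ^ k) ∧ ∀ y : ℂ, ‖y‖ ≤ 1 → ∀ T : ℕ,
      ‖g y - ∑ k ∈ range T, c k * y ^ k‖ ≤ 2 * W / 2 ^ T := by
  have hW0 : 0 ≤ W := (norm_nonneg _).trans (hW 0 (by simp))
  have hd : DifferentiableOn ℂ g (closedBall 0 ((2 : NNReal) : ℝ)) :=
    hg.mono (closedBall_subset_ball (by norm_num))
  have hp := hd.hasFPowerSeriesOnBall (by norm_num : (0 : NNReal) < 2)
  set p := cauchyPowerSeries g 0 ((2 : NNReal) : ℝ) with hpdef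
  have hc : ∀ k, ‖p.coeff k‖ ≤ W / 2 ^ k := by
    intro k
    rw [← FormalMultilinearSeries.norm_apply_eq_norm_coef, hpdef]
    refine (norm_cauchyPowerSeries_le g 0 _ k).trans ?_
    have h1 : ‖∫ θ : ℝ in (0 : ℝ)..2 * Real.pi, ‖g (circleMap 0 ((2 : NNReal) : ℝ) θ)‖‖ ≤
        W * |2 * Real.pi - 0| := by
      refine intervalIntegral.norm_integral_le_of_norm_le_const fun θ _ => ?_
      rw [norm_norm]
      refine hW _ ?_
      exact circleMap_mem_closedBall (0 : ℂ) (R := ((2 : NNReal) : ℝ)) (by norm_num) θ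
    have h2 : ∫ θ : ℝ in (0 : ℝ)..2 * Real.pi, ‖g (circleMap 0 ((2 : NNReal) : ℝ) θ)‖ ≤
        W * (2 * Real.pi) := by
      refine (le_abs_self _).trans ?_
      rw [← Real.norm_eq_abs]
      refine h1.trans_eq ?_
      rw [sub_zero, abs_of_pos (by positivity)]
    have h3 : |((2 : NNReal) : ℝ)|⁻¹ ^ k = 1 / 2 ^ k := by
      rw [show ((2 : NNReal) : ℝ) = 2 by norm_num, abs_of_pos (by norm_num : (0 : ℝ) < 2)]
      rw [inv_pow, one_div]
    rw [h3]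
    calc (2 * Real.pi)⁻¹ * (∫ θ : ℝ in (0 : ℝ)..2 * Real.pi,
          ‖g (circleMap 0 ((2 : NNReal) : ℝ) θ)‖) * (1 / 2 ^ k)
        ≤ (2 * Real.pi)⁻¹ * (W * (2 * Real.pi)) * (1 / 2 ^ k) := by
          gcongr
      _ = W / 2 ^ k := by
          have : (2 * Real.pi) ≠ 0 := by positivity
          field_simp
  refine ⟨p.coeff, hc, fun y hy T => ?_⟩
  have hsum : HasSum (fun n => p.coeff n * y ^ n) (g y) := by
    have h1 := hp.hasSum (y := y) (by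
      rw [Metric.eball_coe, mem_ball_zero_iff]
      have : ((2 : NNReal) : ℝ) = 2 := by norm_num
      rw [this]
      linarith)
    rw [zero_add] at h1
    have heq : (fun n => p.coeff n * y ^ n) = fun n => p n fun _ => y := by
      funext n
      rw [FormalMultilinearSeries.apply_eq_pow_smul_coeff, smul_eq_mul, mul_comm]
    rw [heq]
    exact h1
  have h2 := norm_sub_le_of_geometric_bound_of_hasSum (r := 1 / 2) (C := W) (by norm_num)
    (f := fun n => p.coeff n * y ^ n) (fun n => by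
      rw [norm_mul, norm_pow]
      have h3 : ‖y‖ ^ n ≤ 1 := pow_le_one₀ (norm_nonneg _) hy
      have h4 := hc n
      calc ‖p.coeff n‖ * ‖y‖ ^ n ≤ (W / 2 ^ n) * 1 := by
            gcongr
        _ = W * (1 / 2) ^ n := by rw [one_div, inv_pow]; ring) hsum T
  rw [← norm_neg, neg_sub]
  refine h2.trans_eq ?_
  rw [one_div, inv_pow]
  ring

theorem exists_bound {q : ℕ} (τ : Fin q → ℂ → ℂ) (hτ : ∀ l, DifferentiableOn ℂ (τ l) (ball 0 3)) :
    ∃ C : ℝ, 1 ≤ C ∧ ∀ l, ∀ y ∈ closedBall (0 : ℂ) 2, ‖τ l y‖ ≤ C := by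
  have h : ∀ l, ∃ C, ∀ y ∈ closedBall (0 : ℂ) 2, ‖τ l y‖ ≤ C := by
    intro l
    exact (isCompact_closedBall (0 : ℂ) 2).exists_bound_of_continuousOn
      ((hτ l).continuousOn.mono (closedBall_subset_ball (by norm_num)))
  choose C hC using h
  refine ⟨1 + ∑ l, |C l|, ?_, fun l y hy => ?_⟩
  · have : 0 ≤ ∑ l, |C l| := Finset.sum_nonneg fun _ _ => abs_nonneg _
    linarith
  · have h1 : |C l| ≤ ∑ l, |C l| :=
      Finset.single_le_sum (f := fun l => |C l|) (fun _ _ => abs_nonneg _) (Finset.mem_univ l)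
    have h2 := (hC l y hy).trans (le_abs_self _)
    linarith

/-- the polynomial of a table of integers -/
noncomputable def PS (c : ℕ → ℕ → ℤ) (n : ℕ) (X Y : ℂ) : ℂ :=
  ∑ a ∈ range (n + 1), ∑ b ∈ range (n + 1), (c a b : ℂ) * X ^ a * Y ^ b

theorem norm_PS_le (c : ℕ → ℕ → ℤ) (n : ℕ) (X Y : ℂ) (C : ℝ) (hC : 1 ≤ C) (hX : ‖X‖ ≤ C)
    (hY : ‖Y‖ ≤ C) (hc : ∑ a ∈ range (n + 1), ∑ b ∈ range (n + 1), |c a b| ≤ 4 ^ n) :
    ‖PS c n X Y‖ ≤ 4 ^ n * C ^ (2 * n) := by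
  have h1 : ‖PS c n X Y‖ ≤ ∑ a ∈ range (n + 1), ∑ b ∈ range (n + 1),
      (|c a b| : ℝ) * C ^ (2 * n) := by
    unfold PS
    refine (norm_sum_le _ _).trans (sum_le_sum fun a ha => ?_)
    refine (norm_sum_le _ _).trans (sum_le_sum fun b hb => ?_)
    rw [norm_mul, norm_mul, norm_pow, norm_pow, Complex.norm_intCast, mul_assoc]
    have ha' : a ≤ n := Nat.lt_succ_iff.1 (mem_range.1 ha)
    have hb' : b ≤ n := Nat.lt_succ_iff.1 (mem_range.1 hb)
    have h2 : ‖X‖ ^ a ≤ C ^ n :=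
      (pow_le_pow_left₀ (norm_nonneg _) hX a).trans (pow_le_pow_right₀ hC ha')
    have h3 : ‖Y‖ ^ b ≤ C ^ n :=
      (pow_le_pow_left₀ (norm_nonneg _) hY b).trans (pow_le_pow_right₀ hC hb')
    rw [two_mul, pow_add]
    gcongr
  refine h1.trans ?_
  simp only [← sum_mul]
  refine mul_le_mul_of_nonneg_right ?_ (by positivity)
  exact_mod_cast hc

/-- the polynomial in three variables -/
noncomputable def FP (N : ℕ) (p : ℕ → ℕ → ℤ) (cf : ℕ → ℕ → ℕ → ℤ) (z X Y : ℂ) : ℂ :=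
  ∑ i ∈ range (N + 1), ∑ j ∈ range (N + 1), (p i j : ℂ) * (PS (cf j) j X Y * z ^ i)

theorem continuous_FP (N : ℕ) (p : ℕ → ℕ → ℤ) (cf : ℕ → ℕ → ℕ → ℤ) :
    Continuous fun P : ℂ × ℂ × ℂ => FP N p cf P.1 P.2.1 P.2.2 := by
  unfold FP PS
  fun_prop

theorem val2_eq (N : ℕ) (p : ℕ → ℕ → ℤ) (A B : ℕ → ℕ → ℕ → ℤ)
    (h : ∀ (u : ℂ) (n : ℕ), u ^ n =
      (∑ a ∈ Finset.range (n + 1), ∑ b ∈ Finset.range (n + 1),
        (A n a b : ℂ) * ((‖u‖ ^ (2 * a) * ‖1 - u‖ ^ (2 * b) : ℝ) : ℂ)) * u +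
      ∑ a ∈ Finset.range (n + 1), ∑ b ∈ Finset.range (n + 1),
        (B n a b : ℂ) * ((‖u‖ ^ (2 * a) * ‖1 - u‖ ^ (2 * b) : ℝ) : ℂ)) (z w : ℂ) :
    val2 N p z w = w * FP N p A z ((‖w‖ ^ 2 : ℝ) : ℂ) ((‖1 - w‖ ^ 2 : ℝ) : ℂ) +
      FP N p B z ((‖w‖ ^ 2 : ℝ) : ℂ) ((‖1 - w‖ ^ 2 : ℝ) : ℂ) := by
  have h1 : ∀ (c : ℕ → ℕ → ℤ) (n : ℕ), PS c n ((‖w‖ ^ 2 : ℝ) : ℂ) ((‖1 - w‖ ^ 2 : ℝ) : ℂ) =
      ∑ a ∈ Finset.range (n + 1), ∑ b ∈ Finset.range (n + 1),
        (c a b : ℂ) * ((‖w‖ ^ (2 * a) * ‖1 - w‖ ^ (2 * b) : ℝ) : ℂ) := by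
    intro c n
    unfold PS
    refine sum_congr rfl fun a _ => sum_congr rfl fun b _ => ?_
    push_cast
    rw [pow_mul, pow_mul]
    ring
  unfold val2 FP
  rw [mul_sum, ← sum_add_distrib]
  refine sum_congr rfl fun i _ => ?_
  rw [mul_sum, ← sum_add_distrib]
  refine sum_congr rfl fun j _ => ?_
  rw [h w j, h1, h1]
  ring

/-- the linear forms and the pigeonhole principle -/
theorem exists_small {q : ℕ} (g : Fin q → Bool → ℕ → ℕ → ℂ → ℂ) (N T H L : ℕ) (W : ℝ)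
    (hg : ∀ l S i j, DifferentiableOn ℂ (g l S i j) (ball 0 3))
    (hW : ∀ l S i j, i ≤ N → j ≤ N → ∀ y ∈ closedBall (0 : ℂ) 2, ‖g l S i j y‖ ≤ W)
    (hL : 0 < L) (hc : L ^ (4 * q * T) < (H + 1) ^ ((N + 1) ^ 2)) :
    ∃ p : ℕ → ℕ → ℤ, (∃ i j, i ≤ N ∧ j ≤ N ∧ p i j ≠ 0) ∧ (∀ i j, |(p i j : ℝ)| ≤ H) ∧
      ∀ (l : Fin q) (S : Bool) (y : ℂ), ‖y‖ ≤ 1 →
        ‖∑ i ∈ range (N + 1), ∑ j ∈ range (N + 1), (p i j : ℂ) * g l S i j y‖ ≤
          T * (4 * (N + 1) ^ 2 * |W| * H / L) + (N + 1) ^ 2 * H * (2 * |W| / 2 ^ T) := by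
  have hW0 : 0 ≤ |W| := abs_nonneg W
  have h1 : ∀ l S (i j : Fin (N + 1)), ∃ c : ℕ → ℂ, (∀ k, ‖c k‖ ≤ |W| / 2 ^ k) ∧
      ∀ y : ℂ, ‖y‖ ≤ 1 → ∀ T : ℕ,
      ‖g l S i j y - ∑ k ∈ range T, c k * y ^ k‖ ≤ 2 * |W| / 2 ^ T := by
    intro l S i j
    refine taylor (g l S i j) (hg l S i j) |W| fun y hy => ?_
    exact (hW l S i j (Nat.lt_succ_iff.1 i.2) (Nat.lt_succ_iff.1 j.2) y hy).trans (le_abs_self W)
  choose c hc1 hc2 using h1
  set a : (Fin q × Bool × Fin T × Bool) → (Fin (N + 1) × Fin (N + 1)) → ℝ :=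
    fun J I => if J.2.2.2 then (c J.1 J.2.1 I.1 I.2 J.2.2.1).re else
      (c J.1 J.2.1 I.1 I.2 J.2.2.1).im with ha
  have haW : ∀ J I, |a J I| ≤ |W| := by
    intro J I
    have h2 : ‖c J.1 J.2.1 I.1 I.2 J.2.2.1‖ ≤ |W| := by
      refine (hc1 _ _ _ _ _).trans ?_
      exact div_le_self hW0 (one_le_pow₀ (by norm_num))
    simp only [ha]
    split_ifs
    · exact (Complex.abs_re_le_norm _).trans h2
    · exact (Complex.abs_im_le_norm _).trans h2
  obtain ⟨r, hr0, hrH, hr⟩ := pigeon a |W| haW H L hL (by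
    simp only [Fintype.card_prod, Fintype.card_fin, Fintype.card_bool]
    calc L ^ (q * (2 * (T * 2))) = L ^ (4 * q * T) := by congr 1; ring
      _ < (H + 1) ^ ((N + 1) ^ 2) := hc
      _ = (H + 1) ^ ((N + 1) * (N + 1)) := by congr 1; ring)
  have hcard : (Fintype.card (Fin (N + 1) × Fin (N + 1)) : ℝ) = (N + 1) ^ 2 := by
    simp only [Fintype.card_prod, Fintype.card_fin]
    push_cast
    ring
  rw [hcard] at hr
  set p : ℕ → ℕ → ℤ := fun i j => if h : i < N + 1 ∧ j < N + 1 then r (⟨i, h.1⟩, ⟨j, h.2⟩) else 0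
    with hp
  have hpr : ∀ i j : Fin (N + 1), p i j = r (i, j) := by
    intro i j
    simp only [hp]
    rw [dif_pos ⟨i.2, j.2⟩]
  refine ⟨p, ?_, ?_, ?_⟩
  · obtain ⟨I, hI⟩ := Function.ne_iff.1 hr0
    refine ⟨I.1, I.2, Nat.lt_succ_iff.1 I.1.2, Nat.lt_succ_iff.1 I.2.2, ?_⟩
    rw [hpr]
    exact hI
  · intro i j
    simp only [hp]
    split_ifs with h
    · have := hrH (⟨i, h.1⟩, ⟨j, h.2⟩)
      exact_mod_cast this
    · simp
  · intro l S y hy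
    have e1 : ∑ i ∈ range (N + 1), ∑ j ∈ range (N + 1), (p i j : ℂ) * g l S i j y =
        ∑ i : Fin (N + 1), ∑ j : Fin (N + 1), (r (i, j) : ℂ) * g l S i j y := by
      rw [Finset.sum_range fun i => ∑ j ∈ range (N + 1), (p i j : ℂ) * g l S i j y]
      refine sum_congr rfl fun i _ => ?_
      rw [Finset.sum_range fun j => (p i j : ℂ) * g l S i j y]
      refine sum_congr rfl fun j _ => ?_
      rw [hpr]
    have hrC : ∀ i j : Fin (N + 1), ‖((r (i, j) : ℤ) : ℂ)‖ ≤ H := by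
      intro i j
      rw [Complex.norm_intCast]
      exact_mod_cast hrH (i, j)
    -- the coefficients
    have e2 : ∀ k : Fin T, ‖∑ i : Fin (N + 1), ∑ j : Fin (N + 1), (r (i, j) : ℂ) * c l S i j k‖ ≤
        4 * (N + 1) ^ 2 * |W| * H / L := by
      intro k
      have h2 := hr (l, S, k, true)
      have h3 := hr (l, S, k, false)
      have h4 : (∑ i : Fin (N + 1), ∑ j : Fin (N + 1), (r (i, j) : ℂ) * c l S i j k).re =
          ∑ I, a (l, S, k, true) I * (r I : ℝ) := by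
        rw [Complex.re_sum, Fintype.sum_prod_type]
        refine sum_congr rfl fun i _ => ?_
        rw [Complex.re_sum]
        refine sum_congr rfl fun j _ => ?_
        simp only [ha, if_true]
        rw [← Complex.ofReal_intCast, Complex.re_ofReal_mul, mul_comm]
      have h5 : (∑ i : Fin (N + 1), ∑ j : Fin (N + 1), (r (i, j) : ℂ) * c l S i j k).im =
          ∑ I, a (l, S, k, false) I * (r I : ℝ) := by
        rw [Complex.im_sum, Fintype.sum_prod_type]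
        refine sum_congr rfl fun i _ => ?_
        rw [Complex.im_sum]
        refine sum_congr rfl fun j _ => ?_
        simp only [ha, Bool.false_eq_true, if_false]
        rw [← Complex.ofReal_intCast, Complex.im_ofReal_mul, mul_comm]
      refine (Complex.norm_le_abs_re_add_abs_im _).trans ?_
      rw [h4, h5]
      refine (add_le_add h2 h3).trans_eq ?_
      ring
    -- the decomposition
    have e3 : ∑ i : Fin (N + 1), ∑ j : Fin (N + 1), (r (i, j) : ℂ) * g l S i j y =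
        (∑ k : Fin T, (∑ i : Fin (N + 1), ∑ j : Fin (N + 1), (r (i, j) : ℂ) * c l S i j k) *
          y ^ (k : ℕ)) +
        ∑ i : Fin (N + 1), ∑ j : Fin (N + 1), (r (i, j) : ℂ) *
          (g l S i j y - ∑ k ∈ range T, c l S i j k * y ^ k) := by
      have h6 : (∑ k : Fin T, (∑ i : Fin (N + 1), ∑ j : Fin (N + 1), (r (i, j) : ℂ) * c l S i j k) *
          y ^ (k : ℕ)) = ∑ i : Fin (N + 1), ∑ j : Fin (N + 1), (r (i, j) : ℂ) *
            ∑ k ∈ range T, c l S i j k * y ^ k := by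
        simp only [Finset.sum_range, sum_mul, mul_sum]
        rw [sum_comm]
        refine sum_congr rfl fun i _ => ?_
        rw [sum_comm]
        refine sum_congr rfl fun j _ => sum_congr rfl fun k _ => ?_
        ring
      rw [h6, ← sum_add_distrib]
      refine sum_congr rfl fun i _ => ?_
      rw [← sum_add_distrib]
      refine sum_congr rfl fun j _ => ?_
      ring
    rw [e1, e3]
    refine (norm_add_le _ _).trans (add_le_add ?_ ?_)
    · refine (norm_sum_le _ _).trans ?_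
      calc ∑ k : Fin T, ‖(∑ i : Fin (N + 1), ∑ j : Fin (N + 1), (r (i, j) : ℂ) * c l S i j k) *
            y ^ (k : ℕ)‖ ≤ ∑ _k : Fin T, 4 * (N + 1) ^ 2 * |W| * H / L := by
            refine sum_le_sum fun k _ => ?_
            rw [norm_mul, norm_pow]
            have h7 : ‖y‖ ^ (k : ℕ) ≤ 1 := pow_le_one₀ (norm_nonneg _) hy
            calc _ ≤ (4 * ((N : ℝ) + 1) ^ 2 * |W| * H / L) * 1 := by
                  gcongr
                  exact e2 k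
              _ = _ := mul_one _
        _ = T * (4 * (N + 1) ^ 2 * |W| * H / L) := by
            rw [sum_const, card_univ, Fintype.card_fin, nsmul_eq_mul]
    · refine (norm_sum_le _ _).trans ?_
      calc ∑ i : Fin (N + 1), ‖∑ j : Fin (N + 1), (r (i, j) : ℂ) *
            (g l S i j y - ∑ k ∈ range T, c l S i j k * y ^ k)‖
          ≤ ∑ _i : Fin (N + 1), ∑ _j : Fin (N + 1), (H : ℝ) * (2 * |W| / 2 ^ T) := by
            refine sum_le_sum fun i _ => (norm_sum_le _ _).trans (sum_le_sum fun j _ => ?_)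
            rw [norm_mul]
            exact mul_le_mul (hrC i j) (hc2 l S i j y hy T) (norm_nonneg _) (Nat.cast_nonneg _)
        _ = (N + 1) ^ 2 * H * (2 * |W| / 2 ^ T) := by
            simp only [sum_const, card_univ, Fintype.card_fin, nsmul_eq_mul]
            push_cast
            ring

/-- choice of the parameters -/
theorem params (q : ℕ) (A C : ℝ) (hC : 1 ≤ C) : ∃ M N : ℕ, 1 ≤ N ∧
    4 * q * (M * N) * (M * N + 1) ≤ N * (N + 1) ^ 2 ∧
    (C + 2) * ((M * N : ℕ) * (4 * (N + 1) ^ 2 * (4 * C ^ 3) ^ N * Real.exp N /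
      Real.exp ((M * N : ℕ) : ℝ)) + (N + 1) ^ 2 * Real.exp N * (2 * (4 * C ^ 3) ^ N / 2 ^ (M * N))) ≤
      Real.exp (-(A * N)) / 2 := by
  set B : ℝ := 32 * Real.exp 1 * C ^ 3 * Real.exp A with hB
  have hB0 : 0 < B := by positivity
  obtain ⟨M, hM⟩ := pow_unbounded_of_one_lt (2 * B) (by norm_num : (1 : ℝ) < 2)
  set N : ℕ := 1 + 4 * q * M * (M + 1) + ⌈2 * (C + 2) * (4 * M + 2)⌉₊ with hN
  have hN1 : 1 ≤ N := by omega
  have hN2 : 4 * q * M * (M + 1) ≤ N := by omega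
  have hN3 : 2 * (C + 2) * (4 * M + 2) ≤ (2 : ℝ) ^ N := by
    have h1 : 2 * (C + 2) * (4 * M + 2) ≤ (N : ℝ) := by
      refine (Nat.le_ceil _).trans ?_
      exact_mod_cast (by omega : ⌈2 * (C + 2) * (4 * (M : ℝ) + 2)⌉₊ ≤ N)
    have h2 : (N : ℝ) ≤ 2 ^ N := by exact_mod_cast Nat.lt_two_pow_self.le
    exact h1.trans h2
  refine ⟨M, N, hN1, ?_, ?_⟩
  · have h1 : M * N + 1 ≤ (M + 1) * N := by nlinarith
    calc 4 * q * (M * N) * (M * N + 1) ≤ 4 * q * (M * N) * ((M + 1) * N) := by gcongr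
      _ = N * ((4 * q * M * (M + 1)) * N) := by ring
      _ ≤ N * (N * N) := by gcongr
      _ ≤ N * (N + 1) ^ 2 := by
          gcongr
          nlinarith
  · have hNr : ((N : ℝ) + 1) ≤ 2 ^ N := by exact_mod_cast Nat.lt_two_pow_self
    have h4 : ((N : ℝ) + 1) ^ 2 ≤ 4 ^ N := by
      calc ((N : ℝ) + 1) ^ 2 ≤ (2 ^ N) ^ 2 := by gcongr
        _ = 4 ^ N := by rw [← pow_mul, mul_comm, pow_mul]; norm_num
    have hT : (2 : ℝ) ^ (M * N) ≤ Real.exp ((M * N : ℕ) : ℝ) := by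
      have h5 : (2 : ℝ) ≤ Real.exp 1 := by
        have := Real.add_one_le_exp (1 : ℝ)
        linarith
      calc (2 : ℝ) ^ (M * N) ≤ (Real.exp 1) ^ (M * N) := by gcongr
        _ = Real.exp ((M * N : ℕ) : ℝ) := by rw [← Real.exp_nat_mul, mul_one]
    have hexpN : Real.exp (N : ℝ) = Real.exp 1 ^ N := by rw [← Real.exp_nat_mul, mul_one]
    have hexpA : Real.exp (A * N) = Real.exp A ^ N := by
      rw [← Real.exp_nat_mul, mul_comm]
    set W : ℝ := (4 * C ^ 3) ^ N with hW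
    have hW0 : 0 ≤ W := by positivity
    have h6 : ((M * N : ℕ) : ℝ) * (4 * ((N : ℝ) + 1) ^ 2 * W * Real.exp N /
        Real.exp ((M * N : ℕ) : ℝ)) + ((N : ℝ) + 1) ^ 2 * Real.exp N * (2 * W / 2 ^ (M * N)) ≤
        (4 * M + 2) * (4 ^ N * W * Real.exp 1 ^ N * 2 ^ N / (2 ^ M) ^ N) := by
      have h7 : 4 * ((N : ℝ) + 1) ^ 2 * W * Real.exp N / Real.exp ((M * N : ℕ) : ℝ) ≤
          4 * ((N : ℝ) + 1) ^ 2 * W * Real.exp N / 2 ^ (M * N) := by
        gcongr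
      calc ((M * N : ℕ) : ℝ) * (4 * ((N : ℝ) + 1) ^ 2 * W * Real.exp N /
            Real.exp ((M * N : ℕ) : ℝ)) + ((N : ℝ) + 1) ^ 2 * Real.exp N * (2 * W / 2 ^ (M * N))
          ≤ ((M * N : ℕ) : ℝ) * (4 * ((N : ℝ) + 1) ^ 2 * W * Real.exp N / 2 ^ (M * N)) +
            ((N : ℝ) + 1) ^ 2 * Real.exp N * (2 * W / 2 ^ (M * N)) := by gcongr
        _ = (4 * M * N + 2) * (((N : ℝ) + 1) ^ 2 * W * Real.exp N / 2 ^ (M * N)) := by
            push_cast
            ring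
        _ ≤ ((4 * M + 2) * 2 ^ N) * (4 ^ N * W * Real.exp N / 2 ^ (M * N)) := by
            gcongr
            have h8 : (N : ℝ) ≤ 2 ^ N := by linarith
            have h9 : (1 : ℝ) ≤ 2 ^ N := one_le_pow₀ (by norm_num)
            nlinarith [mul_le_mul_of_nonneg_left h8 (by positivity : (0 : ℝ) ≤ 4 * M)]
        _ = _ := by rw [hexpN, pow_mul]; ring
    have h10 : 4 ^ N * W * Real.exp 1 ^ N * 2 ^ N / (2 ^ M) ^ N * Real.exp (A * N) =
        (B / 2 ^ M) ^ N := by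
      rw [hexpA, hW, hB, div_pow, mul_pow, mul_pow, mul_pow, mul_pow,
        show (32 : ℝ) = 4 * 4 * 2 by norm_num, mul_pow, mul_pow]
      ring
    have h11 : (B / 2 ^ M) ^ N ≤ (1 / 2) ^ N := by
      apply pow_le_pow_left₀ (by positivity)
      rw [div_le_iff₀ (by positivity)]
      linarith
    have h12 : Real.exp (-(A * N)) = 1 / Real.exp (A * N) := by rw [Real.exp_neg, one_div]
    rw [h12]
    have hE : 0 < Real.exp (A * N) := Real.exp_pos _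
    rw [div_div, le_div_iff₀ (by positivity)]
    calc (C + 2) * (((M * N : ℕ) : ℝ) * (4 * ((N : ℝ) + 1) ^ 2 * W * Real.exp N /
          Real.exp ((M * N : ℕ) : ℝ)) + ((N : ℝ) + 1) ^ 2 * Real.exp N * (2 * W / 2 ^ (M * N))) *
          (Real.exp (A * N) * 2)
        ≤ (C + 2) * ((4 * M + 2) * (4 ^ N * W * Real.exp 1 ^ N * 2 ^ N / (2 ^ M) ^ N)) *
          (Real.exp (A * N) * 2) := by
          have : 0 ≤ C + 2 := by linarith
          gcongr
      _ = 2 * (C + 2) * (4 * M + 2) * (4 ^ N * W * Real.exp 1 ^ N * 2 ^ N / (2 ^ M) ^ N *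
          Real.exp (A * N)) := by ring
      _ ≤ 2 ^ N * (1 / 2) ^ N := by
          rw [h10]
          have h13 : 0 ≤ (B / 2 ^ M) ^ N := by positivity
          exact mul_le_mul hN3 h11 h13 (by positivity)
      _ = 1 := by rw [← mul_pow]; norm_num

end ArcAux

theorem arc_aux {q : ℕ} (τ X Y : Fin q → ℂ → ℂ)
    (hτ : ∀ l, DifferentiableOn ℂ (τ l) (Metric.ball 0 3))
    (hX : ∀ l, DifferentiableOn ℂ (X l) (Metric.ball 0 3))
    (hY : ∀ l, DifferentiableOn ℂ (Y l) (Metric.ball 0 3)) (A : ℝ) :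
    ∃ N : ℕ, 1 ≤ N ∧ ∃ η : ℝ, 0 < η ∧ ∃ p : ℕ → ℕ → ℤ,
      (∃ i j, i ≤ N ∧ j ≤ N ∧ p i j ≠ 0) ∧ (∀ i j, |(p i j : ℝ)| ≤ Real.exp N) ∧
      ∀ (l : Fin q) (y : ℝ) (z w : ℂ), |y| ≤ 1 → ‖z - τ l y‖ ≤ η →
        ‖((‖w‖ ^ 2 : ℝ) : ℂ) - X l y‖ ≤ η → ‖((‖1 - w‖ ^ 2 : ℝ) : ℂ) - Y l y‖ ≤ η →
        ‖val2 N p z w‖ ≤ Real.exp (-(A * N)) := by
  obtain ⟨C1, hC1, hb1⟩ := ArcAux.exists_bound τ hτ
  obtain ⟨C2, hC2, hb2⟩ := ArcAux.exists_bound X hX
  obtain ⟨C3, hC3, hb3⟩ := ArcAux.exists_bound Y hY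
  set C : ℝ := C1 + C2 + C3 with hCdef
  have hC : 1 ≤ C := by linarith
  obtain ⟨cA, cB, _, hcc, hpow⟩ := pow_reduce
  obtain ⟨M, N, hN1, hMN, hpar⟩ := ArcAux.params q A C hC
  -- the functions
  set g : Fin q → Bool → ℕ → ℕ → ℂ → ℂ := fun l S i j y =>
    ArcAux.PS ((if S then cA else cB) j) j (X l y) (Y l y) * τ l y ^ i with hg
  have hgd : ∀ l S i j, DifferentiableOn ℂ (g l S i j) (Metric.ball 0 3) := by
    intro l S i j
    simp only [hg, ArcAux.PS]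
    have h1 := hτ l
    have h2 := hX l
    have h3 := hY l
    fun_prop
  have hgW : ∀ l S i j, i ≤ N → j ≤ N → ∀ y ∈ Metric.closedBall (0 : ℂ) 2,
      ‖g l S i j y‖ ≤ (4 * C ^ 3) ^ N := by
    intro l S i j hi hj y hy
    have h1 : ‖τ l y‖ ≤ C := (hb1 l y hy).trans (by linarith)
    have h2 : ‖X l y‖ ≤ C := (hb2 l y hy).trans (by linarith)
    have h3 : ‖Y l y‖ ≤ C := (hb3 l y hy).trans (by linarith)
    have h4 : ‖ArcAux.PS ((if S then cA else cB) j) j (X l y) (Y l y)‖ ≤ 4 ^ j * C ^ (2 * j) := by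
      apply ArcAux.norm_PS_le _ _ _ _ C hC h2 h3
      cases S
      · simp only [Bool.false_eq_true, if_false]
        exact (hcc j).2
      · simp only [if_true]
        exact (hcc j).1
    simp only [hg]
    rw [norm_mul, norm_pow]
    calc ‖ArcAux.PS ((if S then cA else cB) j) j (X l y) (Y l y)‖ * ‖τ l y‖ ^ i
        ≤ (4 ^ j * C ^ (2 * j)) * C ^ i := by gcongr
      _ ≤ (4 ^ N * C ^ (2 * N)) * C ^ N := by
          gcongr
          · norm_num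
      _ = (4 * C ^ 3) ^ N := by rw [mul_pow, ← pow_mul, mul_assoc, ← pow_add]; ring_nf
  set H : ℕ := ⌊Real.exp N⌋₊ with hH
  set L : ℕ := ⌈Real.exp ((M * N : ℕ) : ℝ)⌉₊ with hLdef
  have hL : 0 < L := Nat.ceil_pos.2 (Real.exp_pos _)
  have hHr : (H : ℝ) ≤ Real.exp N := Nat.floor_le (Real.exp_pos _).le
  have hHr' : Real.exp N < (H : ℝ) + 1 := Nat.lt_floor_add_one _
  have hLr : Real.exp ((M * N : ℕ) : ℝ) ≤ L := Nat.le_ceil _
  have hLr' : (L : ℝ) ≤ Real.exp ((M * N : ℕ) + 1 : ℝ) := by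
    have h1 : (L : ℝ) < Real.exp ((M * N : ℕ) : ℝ) + 1 := Nat.ceil_lt_add_one (Real.exp_pos _).le
    have h2 : Real.exp ((M * N : ℕ) + 1 : ℝ) = Real.exp ((M * N : ℕ) : ℝ) * Real.exp 1 :=
      Real.exp_add _ _
    have h3 : (2 : ℝ) ≤ Real.exp 1 := by
      have := Real.add_one_le_exp (1 : ℝ)
      linarith
    have h4 : (1 : ℝ) ≤ Real.exp ((M * N : ℕ) : ℝ) := Real.one_le_exp (Nat.cast_nonneg _)
    rw [h2]
    nlinarith
  have hc : L ^ (4 * q * (M * N)) < (H + 1) ^ ((N + 1) ^ 2) := by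
    have h1 : (L : ℝ) ^ (4 * q * (M * N)) ≤ Real.exp N ^ ((N + 1) ^ 2) := by
      calc (L : ℝ) ^ (4 * q * (M * N)) ≤ (Real.exp ((M * N : ℕ) + 1 : ℝ)) ^ (4 * q * (M * N)) := by
            gcongr
        _ = Real.exp ((4 * q * (M * N) * (M * N + 1) : ℕ) : ℝ) := by
            rw [← Real.exp_nat_mul]
            congr 1
            push_cast
            ring
        _ ≤ Real.exp ((N * (N + 1) ^ 2 : ℕ) : ℝ) := by
            apply Real.exp_le_exp.2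
            exact_mod_cast hMN
        _ = Real.exp N ^ ((N + 1) ^ 2) := by
            rw [← Real.exp_nat_mul]
            congr 1
            push_cast
            ring
    have h2 : Real.exp N ^ ((N + 1) ^ 2) < ((H : ℝ) + 1) ^ ((N + 1) ^ 2) :=
      pow_lt_pow_left₀ hHr' (Real.exp_pos _).le (by positivity)
    exact_mod_cast h1.trans_lt h2
  obtain ⟨p, hp0, hpH, hp⟩ := ArcAux.exists_small g N (M * N) H L ((4 * C ^ 3) ^ N) hgd hgW hL hc
  have hWabs : |(4 * C ^ 3) ^ N| = (4 * C ^ 3) ^ N := abs_of_nonneg (by positivity)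
  rw [hWabs] at hp
  set Fb : ℝ := ((M * N : ℕ) : ℝ) * (4 * ((N : ℝ) + 1) ^ 2 * (4 * C ^ 3) ^ N * Real.exp N /
      Real.exp ((M * N : ℕ) : ℝ)) +
      ((N : ℝ) + 1) ^ 2 * Real.exp N * (2 * (4 * C ^ 3) ^ N / 2 ^ (M * N)) with hFb
  have hpF : ∀ (l : Fin q) (S : Bool) (y : ℂ), ‖y‖ ≤ 1 →
      ‖ArcAux.FP N p (if S then cA else cB) (τ l y) (X l y) (Y l y)‖ ≤ Fb := by
    intro l S y hy
    refine (hp l S y hy).trans ?_
    rw [hFb]
    gcongr
  -- the neighbourhood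
  set ε : ℝ := Real.exp (-(A * N)) / (2 * (C + 2)) with hε
  have hε0 : 0 < ε := by
    have : 0 < C + 2 := by linarith
    positivity
  have huc : ∀ cf : ℕ → ℕ → ℕ → ℤ, ∃ δ > 0, ∀ P ∈ Metric.closedBall (0 : ℂ × ℂ × ℂ) (C + 1),
      ∀ Q ∈ Metric.closedBall (0 : ℂ × ℂ × ℂ) (C + 1), dist P Q ≤ δ →
      dist (ArcAux.FP N p cf P.1 P.2.1 P.2.2) (ArcAux.FP N p cf Q.1 Q.2.1 Q.2.2) ≤ ε := by
    intro cf
    have h1 := (isCompact_closedBall (0 : ℂ × ℂ × ℂ) (C + 1)).uniformContinuousOn_of_continuous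
      (ArcAux.continuous_FP N p cf).continuousOn
    exact Metric.uniformContinuousOn_iff_le.1 h1 ε hε0
  obtain ⟨δA, hδA, hA⟩ := huc cA
  obtain ⟨δB, hδB, hB⟩ := huc cB
  refine ⟨N, hN1, min 1 (min δA δB), lt_min one_pos (lt_min hδA hδB), p, hp0,
    fun i j => (hpH i j).trans hHr, ?_⟩
  intro l y z w hy hz hu hv
  have hη1 : min 1 (min δA δB) ≤ 1 := min_le_left _ _
  have hηA : min 1 (min δA δB) ≤ δA := (min_le_right _ _).trans (min_le_left _ _)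
  have hηB : min 1 (min δA δB) ≤ δB := (min_le_right _ _).trans (min_le_right _ _)
  have hyn : ‖(y : ℂ)‖ ≤ 1 := by rwa [Complex.norm_real, Real.norm_eq_abs]
  have hymem : (y : ℂ) ∈ Metric.closedBall (0 : ℂ) 2 := by
    rw [mem_closedBall_zero_iff]
    linarith
  have h1 : ‖τ l y‖ ≤ C := (hb1 l y hymem).trans (by linarith)
  have h2 : ‖X l y‖ ≤ C := (hb2 l y hymem).trans (by linarith)
  have h3 : ‖Y l y‖ ≤ C := (hb3 l y hymem).trans (by linarith)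
  set P : ℂ × ℂ × ℂ := (τ l y, X l y, Y l y) with hP
  set Q : ℂ × ℂ × ℂ := (z, ((‖w‖ ^ 2 : ℝ) : ℂ), ((‖1 - w‖ ^ 2 : ℝ) : ℂ)) with hQ
  have hn : ∀ {a b : ℂ}, ‖a - b‖ ≤ min 1 (min δA δB) → ‖b‖ ≤ C → ‖a‖ ≤ C + 1 := by
    intro a b hab hb
    calc ‖a‖ = ‖(a - b) + b‖ := by rw [sub_add_cancel]
      _ ≤ ‖a - b‖ + ‖b‖ := norm_add_le _ _
      _ ≤ C + 1 := by linarith
  have hPm : P ∈ Metric.closedBall (0 : ℂ × ℂ × ℂ) (C + 1) := by
    rw [mem_closedBall_zero_iff, hP, Prod.norm_def, Prod.norm_def]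
    exact max_le (by linarith) (max_le (by linarith) (by linarith))
  have hQm : Q ∈ Metric.closedBall (0 : ℂ × ℂ × ℂ) (C + 1) := by
    rw [mem_closedBall_zero_iff, hQ, Prod.norm_def, Prod.norm_def]
    exact max_le (hn hz h1) (max_le (hn hu h2) (hn hv h3))
  have hd : dist Q P ≤ min 1 (min δA δB) := by
    rw [hP, hQ, Prod.dist_eq, Prod.dist_eq, dist_eq_norm, dist_eq_norm, dist_eq_norm]
    exact max_le hz (max_le hu hv)
  have hFA : ‖ArcAux.FP N p cA z ((‖w‖ ^ 2 : ℝ) : ℂ) ((‖1 - w‖ ^ 2 : ℝ) : ℂ)‖ ≤ Fb + ε := by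
    have h4 := hA Q hQm P hPm (hd.trans hηA)
    have h5 := hpF l true y hyn
    simp only [if_true] at h5
    rw [dist_eq_norm] at h4
    calc _ = ‖(ArcAux.FP N p cA Q.1 Q.2.1 Q.2.2 - ArcAux.FP N p cA P.1 P.2.1 P.2.2) +
          ArcAux.FP N p cA P.1 P.2.1 P.2.2‖ := by rw [sub_add_cancel]
      _ ≤ ε + Fb := (norm_add_le _ _).trans (add_le_add h4 h5)
      _ = Fb + ε := add_comm _ _
  have hFB : ‖ArcAux.FP N p cB z ((‖w‖ ^ 2 : ℝ) : ℂ) ((‖1 - w‖ ^ 2 : ℝ) : ℂ)‖ ≤ Fb + ε := by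
    have h4 := hB Q hQm P hPm (hd.trans hηB)
    have h5 := hpF l false y hyn
    simp only [Bool.false_eq_true, if_false] at h5
    rw [dist_eq_norm] at h4
    calc _ = ‖(ArcAux.FP N p cB Q.1 Q.2.1 Q.2.2 - ArcAux.FP N p cB P.1 P.2.1 P.2.2) +
          ArcAux.FP N p cB P.1 P.2.1 P.2.2‖ := by rw [sub_add_cancel]
      _ ≤ ε + Fb := (norm_add_le _ _).trans (add_le_add h4 h5)
      _ = Fb + ε := add_comm _ _
  have hw : ‖w‖ ≤ C + 1 := by
    have h6 := hn hu h2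
    rw [Complex.norm_real, Real.norm_of_nonneg (by positivity)] at h6
    nlinarith [norm_nonneg w]
  rw [ArcAux.val2_eq N p cA cB hpow]
  have hF0 : 0 ≤ Fb + ε := (norm_nonneg _).trans hFA
  have hC2 : 0 < C + 2 := by linarith
  calc ‖w * ArcAux.FP N p cA z ((‖w‖ ^ 2 : ℝ) : ℂ) ((‖1 - w‖ ^ 2 : ℝ) : ℂ) +
        ArcAux.FP N p cB z ((‖w‖ ^ 2 : ℝ) : ℂ) ((‖1 - w‖ ^ 2 : ℝ) : ℂ)‖
      ≤ (C + 1) * (Fb + ε) + (Fb + ε) := by
        refine (norm_add_le _ _).trans (add_le_add ?_ hFB)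
        rw [norm_mul]
        exact mul_le_mul hw hFA (norm_nonneg _) (by linarith)
    _ = (C + 2) * Fb + (C + 2) * ε := by ring
    _ ≤ Real.exp (-(A * N)) / 2 + Real.exp (-(A * N)) / 2 := by
        refine add_le_add hpar (le_of_eq ?_)
        rw [hε]
        field_simp
    _ = Real.exp (-(A * N)) := by ring

end Pool.Agent.RS
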