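import Mathlib
import Pool.Agent.Lib.MP_c95b3b_ag_RS.DefsD
import Pool.Agent.Lib.MP_c95b3b_ag_RS.ArcAux
import Pool.Agent.Lib.MP_c95b3b_ag_L3.TC

/-! Project RSd (MP_c95b3b_ag), module PT: Taylor coefficients and the pigeonhole principle. -/

namespace Pool.Agent.RS

open Pool.Agent.L3 Module

theorem taylor_pigeon {I : Type} [Fintype I] (L T H B : ℕ) (F : Fin L → I → ℂ → ℂ)
    (hF : ∀ l i, DifferentiableOn ℂ (F l i) (Metric.ball 0 3)) (W : ℝ)
    (hW : ∀ l i, ∀ s ∈ Metric.closedBall (0 : ℂ) 2, ‖F l i s‖ ≤ W) (hB : 0 < B)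
    (hc : B ^ (2 * L * T) < (H + 1) ^ Fintype.card I) :
    ∃ q : I → ℤ, q ≠ 0 ∧ (∀ i, |q i| ≤ H) ∧
      ∀ l, ∀ s ∈ Metric.closedBall (0 : ℂ) 1, ‖∑ i, (q i : ℂ) * F l i s‖ ≤
        4 * T * Fintype.card I * W * H / B + 2 * Fintype.card I * W * H / 2 ^ T := by
  classical
  have ht : ∀ l i, ∃ c : ℕ → ℂ, (∀ k, ‖c k‖ ≤ W / 2 ^ k) ∧ ∀ y : ℂ, ‖y‖ ≤ 1 → ∀ T : ℕ,
      ‖F l i y - ∑ k ∈ Finset.range T, c k * y ^ k‖ ≤ 2 * W / 2 ^ T := fun l i =>
    ArcAux.taylor (F l i) (hF l i) W (hW l i)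
  choose c hc1 hc2 using ht
  have hcW : ∀ l i k, ‖c l i k‖ ≤ W := by
    intro l i k
    have h0 : 0 ≤ W := by
      have := (norm_nonneg _).trans (hc1 l i 0)
      simpa using this
    exact (hc1 l i k).trans (div_le_self h0 (one_le_pow₀ (by norm_num)))
  let a : Fin L × Fin T × Bool → I → ℝ := fun j i =>
    if j.2.2 then (c j.1 i (j.2.1 : ℕ)).re else (c j.1 i (j.2.1 : ℕ)).im
  have ha : ∀ j i, |a j i| ≤ W := by
    intro j i
    have h1 := hcW j.1 i (j.2.1 : ℕ)
    show |if j.2.2 then (c j.1 i (j.2.1 : ℕ)).re else (c j.1 i (j.2.1 : ℕ)).im| ≤ W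
    split_ifs
    · exact (Complex.abs_re_le_norm _).trans h1
    · exact (Complex.abs_im_le_norm _).trans h1
  have hcard : Fintype.card (Fin L × Fin T × Bool) = 2 * L * T := by
    simp only [Fintype.card_prod, Fintype.card_fin, Fintype.card_bool]
    ring
  obtain ⟨q, hq0, hqH, hq⟩ := pigeon a W ha H B hB (by rw [hcard]; exact hc)
  refine ⟨q, hq0, hqH, fun l s hs => ?_⟩
  have hs1 : ‖s‖ ≤ 1 := by simpa using hs
  have hqH' : ∀ i, ‖(q i : ℂ)‖ ≤ H := by
    intro i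
    rw [Complex.norm_intCast]
    exact_mod_cast hqH i
  -- the main part
  have h1 : ∀ k, k < T → ‖∑ i, (q i : ℂ) * c l i k‖ ≤ 4 * Fintype.card I * W * H / B := by
    intro k hk
    have e1 := hq (l, ⟨k, hk⟩, true)
    have e2 := hq (l, ⟨k, hk⟩, false)
    have r1 : (∑ i, (q i : ℂ) * c l i k).re = ∑ i, a (l, ⟨k, hk⟩, true) i * q i := by
      rw [Complex.re_sum]
      refine Finset.sum_congr rfl fun i _ => ?_
      show ((q i : ℂ) * c l i k).re = (c l i k).re * q i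
      simp [mul_comm]
    have r2 : (∑ i, (q i : ℂ) * c l i k).im = ∑ i, a (l, ⟨k, hk⟩, false) i * q i := by
      rw [Complex.im_sum]
      refine Finset.sum_congr rfl fun i _ => ?_
      show ((q i : ℂ) * c l i k).im = (c l i k).im * q i
      simp [mul_comm]
    refine (Complex.norm_le_abs_re_add_abs_im _).trans ?_
    rw [r1, r2]
    refine (add_le_add e1 e2).trans (le_of_eq ?_)
    ring
  have h2 : ∑ i, (q i : ℂ) * F l i s = ∑ k ∈ Finset.range T, (∑ i, (q i : ℂ) * c l i k) * s ^ k +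
      ∑ i, (q i : ℂ) * (F l i s - ∑ k ∈ Finset.range T, c l i k * s ^ k) := by
    have e3 : ∑ k ∈ Finset.range T, (∑ i, (q i : ℂ) * c l i k) * s ^ k =
        ∑ i, (q i : ℂ) * ∑ k ∈ Finset.range T, c l i k * s ^ k := by
      simp only [Finset.sum_mul, Finset.mul_sum]
      rw [Finset.sum_comm]
      refine Finset.sum_congr rfl fun i _ => Finset.sum_congr rfl fun k _ => ?_
      ring
    rw [e3, ← Finset.sum_add_distrib]
    refine Finset.sum_congr rfl fun i _ => ?_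
    ring
  rw [h2]
  refine (norm_add_le _ _).trans (add_le_add ?_ ?_)
  · calc ‖∑ k ∈ Finset.range T, (∑ i, (q i : ℂ) * c l i k) * s ^ k‖
        ≤ ∑ k ∈ Finset.range T, 4 * Fintype.card I * W * H / B := by
          refine (norm_sum_le _ _).trans (Finset.sum_le_sum fun k hk => ?_)
          have hk := Finset.mem_range.1 hk
          have h3 := h1 k hk
          rw [norm_mul, norm_pow]
          calc ‖∑ i, (q i : ℂ) * c l i k‖ * ‖s‖ ^ k ≤ ‖∑ i, (q i : ℂ) * c l i k‖ * 1 :=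
                mul_le_mul_of_nonneg_left (pow_le_one₀ (norm_nonneg _) hs1) (norm_nonneg _)
            _ ≤ 4 * Fintype.card I * W * H / B := by rw [mul_one]; exact h3
      _ = 4 * T * Fintype.card I * W * H / B := by
          rw [Finset.sum_const, Finset.card_range, nsmul_eq_mul]
          ring
  · calc ‖∑ i, (q i : ℂ) * (F l i s - ∑ k ∈ Finset.range T, c l i k * s ^ k)‖
        ≤ ∑ _i : I, (H : ℝ) * (2 * W / 2 ^ T) := by
          refine (norm_sum_le _ _).trans (Finset.sum_le_sum fun i _ => ?_)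
          rw [norm_mul]
          exact mul_le_mul (hqH' i) (hc2 l i s hs1 T) (norm_nonneg _) (Nat.cast_nonneg _)
      _ = 2 * Fintype.card I * W * H / 2 ^ T := by
          rw [Finset.sum_const, Finset.card_univ, nsmul_eq_mul]
          ring

end Pool.Agent.RS
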