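import Mathlib
import Pool.Agent.Lib.MP_c95b3b_ag_RS.DefsD
import Pool.Agent.Lib.MP_c95b3b_ag_RS.PT
import Pool.Agent.Lib.MP_c95b3b_ag_RS.Expand

/-! Project RSd (MP_c95b3b_ag), module TE1: an auxiliary polynomial which is small at the points
lying exactly over finitely many analytic arcs. -/

namespace Pool.Agent.RS

open Pool.Agent.L3 Module

namespace ArcAuxD

open Metric Finset

/-- a common bound on the closed disc of radius two -/
theorem exists_bound {q : ℕ} (τ : Fin q → ℂ → ℂ) (hτ : ∀ l, DifferentiableOn ℂ (τ l) (ball 0 3)) :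
    ∃ C : ℝ, 1 ≤ C ∧ ∀ l, ∀ y ∈ closedBall (0 : ℂ) 2, ‖τ l y‖ ≤ C := by
  have h : ∀ l, ∃ C, ∀ y ∈ closedBall (0 : ℂ) 2, ‖τ l y‖ ≤ C := by
    intro l
    exact (isCompact_closedBall (0 : ℂ) 2).exists_bound_of_continuousOn
      ((hτ l).continuousOn.mono (closedBall_subset_ball (by norm_num)))
  choose C hC using h
  refine ⟨1 + ∑ l, |C l|, ?_, fun l y hy => ?_⟩
  · have : 0 ≤ ∑ l, |C l| := Finset.sum_nonneg fun _ _ => abs_nonneg _
    linarith
  · have h1 : |C l| ≤ ∑ l, |C l| :=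
      Finset.single_le_sum (f := fun l => |C l|) (fun _ _ => abs_nonneg _) (Finset.mem_univ l)
    have h2 := (hC l y hy).trans (le_abs_self _)
    linarith

/-- choice of the parameters -/
theorem params (q e C' : ℕ) (A C Cx : ℝ) (hC : 1 ≤ C) (hCx : 1 ≤ Cx) : ∃ M N : ℕ, 1 ≤ N ∧
    2 * (q * (2 * (C' * N + 1) ^ e)) * (M * N) * (M * N + 1) ≤ N * (N + 1) ^ (e + 2) ∧
    (Cx + 1) * ((C' * N + 1 : ℕ) : ℝ) ^ e * (4 * ((M * N : ℕ) : ℝ) * ((N : ℝ) + 1) ^ (e + 2) *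
      C ^ N * Real.exp N / Real.exp ((M * N : ℕ) : ℝ) +
      2 * ((N : ℝ) + 1) ^ (e + 2) * C ^ N * Real.exp N / 2 ^ (M * N)) ≤ Real.exp (-(A * N)) := by
  set B : ℝ := 2 ^ (2 * e + 3) * C * Real.exp 1 * Real.exp A with hB
  have hC0 : 0 < C := by linarith
  have hB0 : 0 < B := by positivity
  obtain ⟨M, hM⟩ := pow_unbounded_of_one_lt (2 * B) (by norm_num : (1 : ℝ) < 2)
  set N : ℕ := 1 + 4 * q * (C' + 1) ^ e * M * (M + 1) +
    ⌈(Cx + 1) * (C' + 1) ^ e * (4 * M + 2)⌉₊ with hN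
  have hN1 : 1 ≤ N := by omega
  have hN2 : 4 * q * (C' + 1) ^ e * M * (M + 1) ≤ N := by omega
  have hN3 : (Cx + 1) * (C' + 1) ^ e * (4 * M + 2) ≤ (2 : ℝ) ^ N := by
    have h1 : (Cx + 1) * (C' + 1) ^ e * (4 * M + 2) ≤ (N : ℝ) := by
      refine (Nat.le_ceil _).trans ?_
      exact_mod_cast (by omega : ⌈(Cx + 1) * (C' + 1) ^ e * (4 * (M : ℝ) + 2)⌉₊ ≤ N)
    have h2 : (N : ℝ) ≤ 2 ^ N := by exact_mod_cast Nat.lt_two_pow_self.le
    exact h1.trans h2
  have hCN : C' * N + 1 ≤ (C' + 1) * (N + 1) := by nlinarith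
  refine ⟨M, N, hN1, ?_, ?_⟩
  · have h1 : M * N + 1 ≤ (M + 1) * N := by nlinarith
    calc 2 * (q * (2 * (C' * N + 1) ^ e)) * (M * N) * (M * N + 1)
        ≤ 2 * (q * (2 * ((C' + 1) * (N + 1)) ^ e)) * (M * N) * ((M + 1) * N) := by gcongr
      _ = N * ((N + 1) ^ e * ((4 * q * (C' + 1) ^ e * M * (M + 1)) * N)) := by
          rw [mul_pow]
          ring
      _ ≤ N * ((N + 1) ^ e * (N * N)) := by gcongr
      _ ≤ N * ((N + 1) ^ e * (N + 1) ^ 2) := by
          gcongr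
          nlinarith
      _ = N * (N + 1) ^ (e + 2) := by rw [pow_add]
  · have hNr : ((N : ℝ) + 1) ≤ 2 ^ N := by exact_mod_cast Nat.lt_two_pow_self
    have hT : (2 : ℝ) ^ (M * N) ≤ Real.exp ((M * N : ℕ) : ℝ) := by
      have h5 : (2 : ℝ) ≤ Real.exp 1 := by
        have := Real.add_one_le_exp (1 : ℝ)
        linarith
      calc (2 : ℝ) ^ (M * N) ≤ (Real.exp 1) ^ (M * N) := by gcongr
        _ = Real.exp ((M * N : ℕ) : ℝ) := by rw [← Real.exp_nat_mul, mul_one]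
    have hexpN : Real.exp (N : ℝ) = Real.exp 1 ^ N := by rw [← Real.exp_nat_mul, mul_one]
    have hexpA : Real.exp (A * N) = Real.exp A ^ N := by
      rw [← Real.exp_nat_mul, mul_comm]
    set P : ℝ := ((N : ℝ) + 1) ^ (e + 2) * C ^ N * Real.exp N with hP
    have hP0 : 0 ≤ P := by positivity
    have hCN' : ((C' * N + 1 : ℕ) : ℝ) ^ e ≤ ((C' : ℝ) + 1) ^ e * ((N : ℝ) + 1) ^ e := by
      rw [← mul_pow]
      gcongr
      exact_mod_cast hCN
    have h6 : 4 * ((M * N : ℕ) : ℝ) * ((N : ℝ) + 1) ^ (e + 2) * C ^ N * Real.exp N /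
        Real.exp ((M * N : ℕ) : ℝ) + 2 * ((N : ℝ) + 1) ^ (e + 2) * C ^ N * Real.exp N /
        2 ^ (M * N) ≤ (4 * M + 2) * 2 ^ N * (P / 2 ^ (M * N)) := by
      calc 4 * ((M * N : ℕ) : ℝ) * ((N : ℝ) + 1) ^ (e + 2) * C ^ N * Real.exp N /
            Real.exp ((M * N : ℕ) : ℝ) + 2 * ((N : ℝ) + 1) ^ (e + 2) * C ^ N * Real.exp N /
            2 ^ (M * N)
          ≤ 4 * ((M * N : ℕ) : ℝ) * ((N : ℝ) + 1) ^ (e + 2) * C ^ N * Real.exp N /
            2 ^ (M * N) + 2 * ((N : ℝ) + 1) ^ (e + 2) * C ^ N * Real.exp N /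
            2 ^ (M * N) := by gcongr
        _ = (4 * M * N + 2) * (P / 2 ^ (M * N)) := by
            rw [hP]
            push_cast
            ring
        _ ≤ (4 * M + 2) * 2 ^ N * (P / 2 ^ (M * N)) := by
            gcongr
            have h8 : (N : ℝ) ≤ 2 ^ N := by linarith
            have h9 : (1 : ℝ) ≤ 2 ^ N := one_le_pow₀ (by norm_num)
            nlinarith [mul_le_mul_of_nonneg_left h8 (by positivity : (0 : ℝ) ≤ 4 * M)]
    have h10 : ((N : ℝ) + 1) ^ e * (2 ^ N * (P / 2 ^ (M * N))) * Real.exp (A * N) ≤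
        (B / 2 ^ M) ^ N := by
      have h11 : ((N : ℝ) + 1) ^ e * ((N : ℝ) + 1) ^ (e + 2) ≤ (2 ^ N) ^ (2 * e + 2) := by
        rw [← pow_add, show e + (e + 2) = 2 * e + 2 by ring]
        gcongr
      calc ((N : ℝ) + 1) ^ e * (2 ^ N * (P / 2 ^ (M * N))) * Real.exp (A * N)
          = (((N : ℝ) + 1) ^ e * ((N : ℝ) + 1) ^ (e + 2)) * 2 ^ N * C ^ N * Real.exp N *
            Real.exp (A * N) / 2 ^ (M * N) := by
            rw [hP]
            ring
        _ ≤ ((2 ^ N) ^ (2 * e + 2)) * 2 ^ N * C ^ N * Real.exp N *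
            Real.exp (A * N) / 2 ^ (M * N) := by gcongr
        _ = (B / 2 ^ M) ^ N := by
            have h13 : ((2 : ℝ) ^ N) ^ (2 * e + 2) * 2 ^ N = (2 ^ (2 * e + 3)) ^ N := by
              rw [← pow_mul, ← pow_mul, ← pow_add]
              congr 1
              ring
            rw [h13, hexpA, hexpN, hB, div_pow, mul_pow, mul_pow, mul_pow, pow_mul 2 M N]
    have h11 : (B / 2 ^ M) ^ N ≤ (1 / 2) ^ N := by
      apply pow_le_pow_left₀ (by positivity)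
      rw [div_le_iff₀ (by positivity)]
      linarith
    have h12 : Real.exp (-(A * N)) = 1 / Real.exp (A * N) := by rw [Real.exp_neg, one_div]
    rw [h12]
    have hE : 0 < Real.exp (A * N) := Real.exp_pos _
    rw [le_div_iff₀ hE]
    have hCx0 : 0 ≤ Cx + 1 := by linarith
    calc (Cx + 1) * ((C' * N + 1 : ℕ) : ℝ) ^ e * (4 * ((M * N : ℕ) : ℝ) *
          ((N : ℝ) + 1) ^ (e + 2) * C ^ N * Real.exp N / Real.exp ((M * N : ℕ) : ℝ) +
          2 * ((N : ℝ) + 1) ^ (e + 2) * C ^ N * Real.exp N / 2 ^ (M * N)) * Real.exp (A * N)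
        ≤ (Cx + 1) * (((C' : ℝ) + 1) ^ e * ((N : ℝ) + 1) ^ e) *
          ((4 * M + 2) * 2 ^ N * (P / 2 ^ (M * N))) * Real.exp (A * N) := by
          gcongr
      _ = ((Cx + 1) * (C' + 1) ^ e * (4 * M + 2)) *
          (((N : ℝ) + 1) ^ e * (2 ^ N * (P / 2 ^ (M * N))) * Real.exp (A * N)) := by ring
      _ ≤ 2 ^ N * (1 / 2) ^ N := by
          refine mul_le_mul hN3 (h10.trans h11) (by positivity) (by positivity)
      _ = 1 := by rw [← mul_pow]; norm_num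

/-- the exponent of a tuple -/
noncomputable def ex {n N : ℕ} (i : Fin n → Fin N) : Fin n →₀ ℕ := Finsupp.equivFunOnFinite.symm fun k => (i k : ℕ)

theorem ex_apply {n N : ℕ} (i : Fin n → Fin N) (k : Fin n) : ex i k = i k := rfl

theorem ex_inj {n N : ℕ} : Function.Injective (ex (n := n) (N := N)) := by
  intro i j h
  funext k
  have h1 := DFunLike.congr_fun h k
  rw [ex_apply, ex_apply] at h1
  exact Fin.ext h1

/-- the polynomial with the coefficients `r` -/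
noncomputable def QP {n N : ℕ} (r : (Fin n → Fin N) → ℤ) : MvPolynomial (Fin n) ℤ :=
  ∑ i, MvPolynomial.monomial (ex i) (r i)

theorem coeff_QP {n N : ℕ} (r : (Fin n → Fin N) → ℤ) (i : Fin n → Fin N) :
    (QP r).coeff (ex i) = r i := by
  rw [QP, MvPolynomial.coeff_sum, Finset.sum_eq_single i]
  · rw [MvPolynomial.coeff_monomial, if_pos rfl]
  · intro j _ hj
    rw [MvPolynomial.coeff_monomial, if_neg fun h => hj (ex_inj h)]
  · intro h
    exact absurd (Finset.mem_univ i) h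

theorem coeff_QP_eq {n N : ℕ} (r : (Fin n → Fin N) → ℤ) (m : Fin n →₀ ℕ) :
    (QP r).coeff m = 0 ∨ ∃ i, m = ex i ∧ (QP r).coeff m = r i := by
  by_cases h : ∃ i : Fin n → Fin N, m = ex i
  · obtain ⟨i, hi⟩ := h
    refine Or.inr ⟨i, hi, ?_⟩
    rw [hi, coeff_QP]
  · left
    rw [QP, MvPolynomial.coeff_sum]
    refine Finset.sum_eq_zero fun i _ => ?_
    rw [MvPolynomial.coeff_monomial, if_neg fun h' => h ⟨i, h'.symm⟩]

theorem QP_ne_zero {n N : ℕ} {r : (Fin n → Fin N) → ℤ} (hr : r ≠ 0) : QP r ≠ 0 := by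
  obtain ⟨i, hi⟩ := Function.ne_iff.1 hr
  intro h
  apply hi
  rw [← coeff_QP r i, h, MvPolynomial.coeff_zero]
  rfl

theorem degreeOf_QP {n N : ℕ} (r : (Fin n → Fin (N + 1)) → ℤ) (k : Fin n) :
    (QP r).degreeOf k ≤ N := by
  rw [MvPolynomial.degreeOf_le_iff]
  intro m hm
  rcases coeff_QP_eq r m with h | ⟨i, hi, _⟩
  · exact absurd h (MvPolynomial.mem_support_iff.1 hm)
  · rw [hi, ex_apply]
    exact Nat.lt_succ_iff.1 (i k).2

theorem aeval_QP {n N : ℕ} (r : (Fin n → Fin N) → ℤ) (x : Fin n → ℂ) :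
    MvPolynomial.aeval x (QP r) = ∑ i, (r i : ℂ) * ∏ k, x k ^ (i k : ℕ) := by
  rw [QP, map_sum]
  refine Finset.sum_congr rfl fun i _ => ?_
  rw [MvPolynomial.aeval_monomial, Finsupp.prod_fintype _ _ fun k => pow_zero _]
  rfl

theorem aeval_QP_pt {e N : ℕ} (r : (Fin (e + 2) → Fin N) → ℤ) (t V : ℂ) (y : Fin e → ℂ) :
    MvPolynomial.aeval (pt t V y) (QP r) = ∑ i, (r i : ℂ) *
      (t ^ (i 0 : ℕ) * V ^ (i 1 : ℕ) * ∏ k : Fin e, y k ^ (i k.succ.succ : ℕ)) := by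
  rw [aeval_QP]
  refine Finset.sum_congr rfl fun i _ => ?_
  rw [Fin.prod_univ_succ, Fin.prod_univ_succ]
  congr 1
  exact (mul_assoc _ _ _).symm

end ArcAuxD

theorem arc_aux_exact {q e g : ℕ} (b : Fin g → Fin e → ℤ) (τ X Y : Fin q → ℂ → ℂ)
    (ρ : Fin q → Fin e → ℂ → ℂ) (γ γ' : Fin q → Fin g → ℂ → ℂ)
    (hτ : ∀ l, DifferentiableOn ℂ (τ l) (Metric.ball 0 3))
    (hX : ∀ l, DifferentiableOn ℂ (X l) (Metric.ball 0 3))
    (hY : ∀ l, DifferentiableOn ℂ (Y l) (Metric.ball 0 3))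
    (hρ : ∀ l k, DifferentiableOn ℂ (ρ l k) (Metric.ball 0 3))
    (hγ : ∀ l k, DifferentiableOn ℂ (γ l k) (Metric.ball 0 3))
    (hγ' : ∀ l k, DifferentiableOn ℂ (γ' l k) (Metric.ball 0 3)) (A : ℝ) :
    ∃ N : ℕ, 1 ≤ N ∧ ∃ Q : MvPolynomial (Fin (e + 2)) ℤ, Q ≠ 0 ∧ (∀ i, Q.degreeOf i ≤ N) ∧
      (∀ m, |((Q.coeff m : ℤ) : ℝ)| ≤ Real.exp N) ∧
      ∀ (l : Fin q) (s : ℝ) (z : Fin e → ℂ) (V V' : ℂ), |s| ≤ 1 → (∀ k, ‖z k‖ = 1) →
        ((‖V‖ ^ 2 : ℝ) : ℂ) = X l s → ((‖V'‖ ^ 2 : ℝ) : ℂ) = Y l s →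
        V + V' + ∑ k, γ l k s * mon z (b k) = 0 →
        (starRingEnd ℂ) (V + V') + ∑ k, γ' l k s * mon z (-b k) = 0 →
        ‖V + V'‖ ^ N * ‖MvPolynomial.aeval (pt (τ l s) V (fun k => ρ l k s * z k)) Q‖ ≤
          Real.exp (-(A * N)) := by
  have hexp := fun l => expand b (τ l) (X l) (Y l) (ρ l) (γ l) (γ' l) (hτ l) (hX l) (hY l)
    (hρ l) (hγ l) (hγ' l)
  choose Cf Cf' hCf1 hexp using hexp
  obtain ⟨Cx, hCx, hbx⟩ := ArcAuxD.exists_bound X hX
  set C : ℝ := 1 + ∑ l, Cf l with hCdef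
  set C' : ℕ := ∑ l, Cf' l with hC'def
  have hCf0 : ∀ l, 0 ≤ Cf l := fun l => zero_le_one.trans (hCf1 l)
  have hC : 1 ≤ C := by
    have : 0 ≤ ∑ l, Cf l := Finset.sum_nonneg fun l _ => hCf0 l
    linarith
  have hCf : ∀ l, Cf l ≤ C := by
    intro l
    have h1 : Cf l ≤ ∑ l, Cf l :=
      Finset.single_le_sum (f := fun l => Cf l) (fun l _ => hCf0 l) (Finset.mem_univ l)
    linarith
  have hCf' : ∀ l, Cf' l ≤ C' := fun l =>
    Finset.single_le_sum (f := fun l => Cf' l) (fun _ _ => Nat.zero_le _) (Finset.mem_univ l)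
  obtain ⟨M, N, hN1, hMN, hpar⟩ := ArcAuxD.params q e C' A C Cx hC hCx
  have hexpN := fun l => hexp l N
  choose E cA cB hcd hcb hcx using hexpN
  -- the index types
  let Ξ : Type := Σ l : Fin q, Bool × (Fin e → Fin (Cf' l * N + 1))
  let L : ℕ := Fintype.card Ξ
  have hL : L ≤ q * (2 * (C' * N + 1) ^ e) := by
    have h1 : L = ∑ l : Fin q, 2 * (Cf' l * N + 1) ^ e := by
      show Fintype.card (Σ l : Fin q, Bool × (Fin e → Fin (Cf' l * N + 1))) = _
      rw [Fintype.card_sigma]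
      refine Finset.sum_congr rfl fun l _ => ?_
      rw [Fintype.card_prod, Fintype.card_bool, Fintype.card_fun, Fintype.card_fin,
        Fintype.card_fin]
    rw [h1]
    calc ∑ l : Fin q, 2 * (Cf' l * N + 1) ^ e ≤ ∑ _l : Fin q, 2 * (C' * N + 1) ^ e := by
          refine Finset.sum_le_sum fun l _ => ?_
          gcongr
          exact hCf' l
      _ = q * (2 * (C' * N + 1) ^ e) := by
          rw [Finset.sum_const, Finset.card_univ, Fintype.card_fin, smul_eq_mul]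
  let F0 : Ξ → (Fin (e + 2) → Fin (N + 1)) → ℂ → ℂ := fun ξ i =>
    if ξ.2.1 then cA ξ.1 (i 0) (i 1) (fun k => i k.succ.succ) ξ.2.2
    else cB ξ.1 (i 0) (i 1) (fun k => i k.succ.succ) ξ.2.2
  let F : Fin L → (Fin (e + 2) → Fin (N + 1)) → ℂ → ℂ := fun a i =>
    F0 ((Fintype.equivFin Ξ).symm a) i
  have hF0 : ∀ ξ i, F ((Fintype.equivFin Ξ) ξ) i = F0 ξ i := by
    intro ξ i
    show F0 ((Fintype.equivFin Ξ).symm ((Fintype.equivFin Ξ) ξ)) i = _
    rw [Equiv.symm_apply_apply]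
  have hle : ∀ (i : Fin (e + 2) → Fin (N + 1)) k, (i k : ℕ) ≤ N :=
    fun i k => Nat.lt_succ_iff.1 (i k).2
  have hFd : ∀ a i, DifferentiableOn ℂ (F a i) (Metric.ball 0 3) := by
    intro a i
    simp only [F, F0]
    split_ifs
    · exact (hcd _ _ _ _ _).1
    · exact (hcd _ _ _ _ _).2
  have hFW : ∀ a i, ∀ s ∈ Metric.closedBall (0 : ℂ) 2, ‖F a i s‖ ≤ C ^ N := by
    intro a i s hs
    have h1 := hcb ((Fintype.equivFin Ξ).symm a).1 (i 0) (i 1) (fun k => i k.succ.succ)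
      ((Fintype.equivFin Ξ).symm a).2.2 (hle i 0) (hle i 1) (fun k => hle i _) s hs
    have h2 : Cf ((Fintype.equivFin Ξ).symm a).1 ^ N ≤ C ^ N :=
      pow_le_pow_left₀ (hCf0 _) (hCf _) _
    simp only [F, F0]
    split_ifs
    · exact h1.1.trans h2
    · exact h1.2.trans h2
  set H : ℕ := ⌊Real.exp N⌋₊ with hH
  set B : ℕ := ⌈Real.exp ((M * N : ℕ) : ℝ)⌉₊ with hBdef
  have hB : 0 < B := Nat.ceil_pos.2 (Real.exp_pos _)
  have hHr : (H : ℝ) ≤ Real.exp N := Nat.floor_le (Real.exp_pos _).le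
  have hHr' : Real.exp N < (H : ℝ) + 1 := Nat.lt_floor_add_one _
  have hBr : Real.exp ((M * N : ℕ) : ℝ) ≤ B := Nat.le_ceil _
  have hBr' : (B : ℝ) ≤ Real.exp ((M * N : ℕ) + 1 : ℝ) := by
    have h1 : (B : ℝ) < Real.exp ((M * N : ℕ) : ℝ) + 1 := Nat.ceil_lt_add_one (Real.exp_pos _).le
    have h2 : Real.exp ((M * N : ℕ) + 1 : ℝ) = Real.exp ((M * N : ℕ) : ℝ) * Real.exp 1 :=
      Real.exp_add _ _
    have h3 : (2 : ℝ) ≤ Real.exp 1 := by
      have := Real.add_one_le_exp (1 : ℝ)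
      linarith
    have h4 : (1 : ℝ) ≤ Real.exp ((M * N : ℕ) : ℝ) := Real.one_le_exp (Nat.cast_nonneg _)
    rw [h2]
    nlinarith
  have hcard : Fintype.card (Fin (e + 2) → Fin (N + 1)) = (N + 1) ^ (e + 2) := by
    rw [Fintype.card_fun, Fintype.card_fin, Fintype.card_fin]
  have hc : B ^ (2 * L * (M * N)) < (H + 1) ^ Fintype.card (Fin (e + 2) → Fin (N + 1)) := by
    rw [hcard]
    have h0 : 2 * L * (M * N) * (M * N + 1) ≤ N * (N + 1) ^ (e + 2) := by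
      refine le_trans ?_ hMN
      gcongr
    have h1 : (B : ℝ) ^ (2 * L * (M * N)) ≤ Real.exp N ^ ((N + 1) ^ (e + 2)) := by
      calc (B : ℝ) ^ (2 * L * (M * N)) ≤
            (Real.exp ((M * N : ℕ) + 1 : ℝ)) ^ (2 * L * (M * N)) := by
            gcongr
        _ = Real.exp ((2 * L * (M * N) * (M * N + 1) : ℕ) : ℝ) := by
            rw [← Real.exp_nat_mul]
            congr 1
            push_cast
            ring
        _ ≤ Real.exp ((N * (N + 1) ^ (e + 2) : ℕ) : ℝ) := by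
            apply Real.exp_le_exp.2
            exact_mod_cast h0
        _ = Real.exp N ^ ((N + 1) ^ (e + 2)) := by
            rw [← Real.exp_nat_mul]
            congr 1
            push_cast
            ring
    have h2 : Real.exp N ^ ((N + 1) ^ (e + 2)) < ((H : ℝ) + 1) ^ ((N + 1) ^ (e + 2)) :=
      pow_lt_pow_left₀ hHr' (Real.exp_pos _).le (by positivity)
    exact_mod_cast h1.trans_lt h2
  obtain ⟨r, hr0, hrH, hr⟩ := taylor_pigeon L (M * N) H B F hFd (C ^ N) hFW hB hc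
  rw [hcard] at hr
  push_cast at hr
  refine ⟨N, hN1, ArcAuxD.QP r, ArcAuxD.QP_ne_zero hr0, fun i => ArcAuxD.degreeOf_QP r i, ?_, ?_⟩
  · intro m
    rcases ArcAuxD.coeff_QP_eq r m with h | ⟨i, _, h⟩
    · rw [h, Int.cast_zero, abs_zero]
      exact (Real.exp_pos _).le
    · rw [h]
      refine le_trans ?_ hHr
      exact_mod_cast hrH i
  · intro l s z V V' hs hz hVX hVY hid hid'
    have hsn : ‖(s : ℂ)‖ ≤ 1 := by rwa [Complex.norm_real, Real.norm_eq_abs]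
    have hs1 : (s : ℂ) ∈ Metric.closedBall (0 : ℂ) 1 := by
      rwa [mem_closedBall_zero_iff]
    have hs2 : (s : ℂ) ∈ Metric.closedBall (0 : ℂ) 2 := by
      rw [mem_closedBall_zero_iff]
      linarith
    set Fb : ℝ := 4 * ((M * N : ℕ) : ℝ) * ((N : ℝ) + 1) ^ (e + 2) *
      C ^ N * Real.exp N / Real.exp ((M * N : ℕ) : ℝ) +
      2 * ((N : ℝ) + 1) ^ (e + 2) * C ^ N * Real.exp N / 2 ^ (M * N) with hFb
    have hFb0 : 0 ≤ Fb := by
      have hC0 : 0 ≤ C := by linarith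
      rw [hFb]
      positivity
    have hrF : ∀ a : Fin L, ‖∑ i, (r i : ℂ) * F a i s‖ ≤ Fb := by
      intro a
      refine (hr a s hs1).trans ?_
      have hC0 : 0 ≤ C := by linarith
      rw [hFb]
      push_cast at hBr ⊢
      gcongr
    -- the two families
    have hA : ∀ μ, ‖∑ i : Fin (e + 2) → Fin (N + 1),
        (r i : ℂ) * cA l (i 0) (i 1) (fun k => i k.succ.succ) μ s‖ ≤ Fb := by
      intro μ
      have h1 := hrF ((Fintype.equivFin Ξ) ⟨l, true, μ⟩)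
      simp only [hF0, F0, if_true] at h1
      exact h1
    have hBb : ∀ μ, ‖∑ i : Fin (e + 2) → Fin (N + 1),
        (r i : ℂ) * cB l (i 0) (i 1) (fun k => i k.succ.succ) μ s‖ ≤ Fb := by
      intro μ
      have h1 := hrF ((Fintype.equivFin Ξ) ⟨l, false, μ⟩)
      simp only [hF0, F0, Bool.false_eq_true, if_false] at h1
      exact h1
    have hzn : ∀ μ : Fin e → Fin (Cf' l * N + 1), ‖∏ k, z k ^ (μ k : ℕ)‖ = 1 := by
      intro μ
      rw [norm_prod]
      refine Finset.prod_eq_one fun k _ => ?_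
      rw [norm_pow, hz k, one_pow]
    have hz1 : ‖∏ k, z k‖ = 1 := by
      rw [norm_prod]
      exact Finset.prod_eq_one fun k _ => hz k
    have hV : ‖V‖ ≤ Cx := by
      have h1 := hbx l s hs2
      rw [← hVX, Complex.norm_real, Real.norm_of_nonneg (by positivity)] at h1
      nlinarith [norm_nonneg V]
    have key : (starRingEnd ℂ) (V + V') ^ N * (∏ k, z k) ^ E l *
        MvPolynomial.aeval (pt (τ l s) V (fun k => ρ l k s * z k)) (ArcAuxD.QP r) =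
        (∑ μ, (∑ i : Fin (e + 2) → Fin (N + 1),
          (r i : ℂ) * cA l (i 0) (i 1) (fun k => i k.succ.succ) μ s) * ∏ k, z k ^ (μ k : ℕ)) * V +
        ∑ μ, (∑ i : Fin (e + 2) → Fin (N + 1),
          (r i : ℂ) * cB l (i 0) (i 1) (fun k => i k.succ.succ) μ s) * ∏ k, z k ^ (μ k : ℕ) := by
      rw [ArcAuxD.aeval_QP_pt, Finset.mul_sum]
      have h1 : ∀ i : Fin (e + 2) → Fin (N + 1), (starRingEnd ℂ) (V + V') ^ N *
          (∏ k, z k) ^ E l * ((r i : ℂ) * (τ l s ^ (i 0 : ℕ) * V ^ (i 1 : ℕ) *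
            ∏ k : Fin e, (ρ l k s * z k) ^ (i k.succ.succ : ℕ))) =
          (r i : ℂ) * ((∑ μ, cA l (i 0) (i 1) (fun k => i k.succ.succ) μ s *
            ∏ k, z k ^ (μ k : ℕ)) * V +
            ∑ μ, cB l (i 0) (i 1) (fun k => i k.succ.succ) μ s * ∏ k, z k ^ (μ k : ℕ)) := by
        intro i
        rw [← hcx l (i 0) (i 1) (fun k => i k.succ.succ) (hle i 0) (hle i 1) (fun k => hle i _)
          s z V V' hs hz hVX hVY hid hid']
        ring
      rw [Finset.sum_congr rfl fun i _ => h1 i]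
      have h2 : ∀ c : (Fin (e + 2) → Fin (N + 1)) → (Fin e → Fin (Cf' l * N + 1)) → ℂ,
          ∑ μ, (∑ i, (r i : ℂ) * c i μ) * ∏ k, z k ^ (μ k : ℕ) =
          ∑ i, (r i : ℂ) * ∑ μ, c i μ * ∏ k, z k ^ (μ k : ℕ) := by
        intro c
        simp only [Finset.sum_mul, Finset.mul_sum]
        rw [Finset.sum_comm]
        refine Finset.sum_congr rfl fun i _ => Finset.sum_congr rfl fun μ _ => ?_
        ring
      rw [h2 fun i μ => cA l (i 0) (i 1) (fun k => i k.succ.succ) μ s,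
        h2 fun i μ => cB l (i 0) (i 1) (fun k => i k.succ.succ) μ s, Finset.sum_mul,
        ← Finset.sum_add_distrib]
      refine Finset.sum_congr rfl fun i _ => ?_
      ring
    have h3 : ‖V + V'‖ ^ N *
        ‖MvPolynomial.aeval (pt (τ l s) V (fun k => ρ l k s * z k)) (ArcAuxD.QP r)‖ =
        ‖(starRingEnd ℂ) (V + V') ^ N * (∏ k, z k) ^ E l *
        MvPolynomial.aeval (pt (τ l s) V (fun k => ρ l k s * z k)) (ArcAuxD.QP r)‖ := by
      rw [norm_mul, norm_mul, norm_pow, norm_pow, hz1, one_pow, mul_one, RCLike.norm_conj]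
    rw [h3, key]
    have h4 : ∀ d : (Fin e → Fin (Cf' l * N + 1)) → ℂ, (∀ μ, ‖d μ‖ ≤ Fb) →
        ‖∑ μ, d μ * ∏ k, z k ^ (μ k : ℕ)‖ ≤ ((C' * N + 1 : ℕ) : ℝ) ^ e * Fb := by
      intro d hd
      refine (norm_sum_le _ _).trans ?_
      calc ∑ μ, ‖d μ * ∏ k, z k ^ (μ k : ℕ)‖ ≤
            ∑ _μ : Fin e → Fin (Cf' l * N + 1), Fb := by
            refine Finset.sum_le_sum fun μ _ => ?_
            rw [norm_mul, hzn, mul_one]
            exact hd μ
        _ = ((Cf' l * N + 1 : ℕ) : ℝ) ^ e * Fb := by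
            rw [Finset.sum_const, Finset.card_univ, Fintype.card_fun, Fintype.card_fin,
              Fintype.card_fin, nsmul_eq_mul, Nat.cast_pow]
        _ ≤ ((C' * N + 1 : ℕ) : ℝ) ^ e * Fb := by
            gcongr
            exact hCf' l
    calc ‖(∑ μ, (∑ i : Fin (e + 2) → Fin (N + 1),
          (r i : ℂ) * cA l (i 0) (i 1) (fun k => i k.succ.succ) μ s) * ∏ k, z k ^ (μ k : ℕ)) * V +
        ∑ μ, (∑ i : Fin (e + 2) → Fin (N + 1),
          (r i : ℂ) * cB l (i 0) (i 1) (fun k => i k.succ.succ) μ s) * ∏ k, z k ^ (μ k : ℕ)‖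
        ≤ (((C' * N + 1 : ℕ) : ℝ) ^ e * Fb) * Cx + ((C' * N + 1 : ℕ) : ℝ) ^ e * Fb := by
          refine (norm_add_le _ _).trans (add_le_add ?_ (h4 _ hBb))
          rw [norm_mul]
          exact mul_le_mul (h4 _ hA) hV (norm_nonneg _) (by positivity)
      _ = (Cx + 1) * ((C' * N + 1 : ℕ) : ℝ) ^ e * Fb := by ring
      _ ≤ Real.exp (-(A * N)) := hpar

end Pool.Agent.RS
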