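import Mathlib
import Pool.Agent.Lib.MP_c95b3b_ag_RS.DefsD
import Pool.Agent.Lib.MP_c95b3b_ag_RS.ArcAuxD

/-! Project RSd (MP_c95b3b_ag): auxiliary polynomial, points near charts (compactness). -/

namespace Pool.Agent.RS

open Pool.Agent.L3 Module

namespace ArcNear

open Filter Topology

theorem tendsto_of_diff {f : ℂ → ℂ} (hf : DifferentiableOn ℂ f (Metric.ball 0 3)) {s : ℕ → ℝ}
    {s0 : ℝ} (hs : Tendsto s atTop (𝓝 s0)) (h0 : |s0| ≤ 1) :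
    Tendsto (fun n => f (s n)) atTop (𝓝 (f s0)) := by
  have hmem : (s0 : ℂ) ∈ Metric.ball (0 : ℂ) 3 := by
    rw [mem_ball_zero_iff, Complex.norm_real, Real.norm_eq_abs]
    linarith
  have hc : ContinuousAt f (s0 : ℂ) :=
    (hf.differentiableAt (Metric.isOpen_ball.mem_nhds hmem)).continuousAt
  exact Tendsto.comp hc ((Complex.continuous_ofReal.tendsto s0).comp hs)

theorem exists_bound {f : ℂ → ℂ} (hf : DifferentiableOn ℂ f (Metric.ball 0 3)) :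
    ∃ C : ℝ, 0 ≤ C ∧ ∀ s : ℝ, |s| ≤ 1 → ‖f s‖ ≤ C := by
  have hcont : ContinuousOn (fun s : ℝ => f s) (Set.Icc (-1) 1) := by
    refine hf.continuousOn.comp Complex.continuous_ofReal.continuousOn fun s hs => ?_
    rw [mem_ball_zero_iff, Complex.norm_real, Real.norm_eq_abs]
    have := abs_le.2 hs
    linarith
  obtain ⟨C, hC⟩ := isCompact_Icc.exists_bound_of_continuousOn hcont
  exact ⟨max C 0, le_max_right _ _, fun s hs => (hC s (abs_le.1 hs)).trans (le_max_left _ _)⟩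

theorem tendsto_mon {e : ℕ} {z : ℕ → Fin e → ℂ} {z0 : Fin e → ℂ} (hz : Tendsto z atTop (𝓝 z0))
    (h0 : ∀ k, ‖z0 k‖ = 1) (b : Fin e → ℤ) :
    Tendsto (fun n => mon (z n) b) atTop (𝓝 (mon z0 b)) := by
  simp only [mon]
  refine tendsto_finsetProd _ fun j _ => ?_
  refine Tendsto.zpow₀ (tendsto_pi_nhds.1 hz j) (b j) (Or.inl ?_)
  intro h
  have := h0 j
  rw [h, norm_zero] at this
  exact zero_ne_one this

theorem tendsto_pt {e : ℕ} {t V : ℕ → ℂ} {y : ℕ → Fin e → ℂ} {t0 V0 : ℂ} {y0 : Fin e → ℂ}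
    (ht : Tendsto t atTop (𝓝 t0)) (hV : Tendsto V atTop (𝓝 V0)) (hy : Tendsto y atTop (𝓝 y0)) :
    Tendsto (fun n => pt (t n) (V n) (y n)) atTop (𝓝 (pt t0 V0 y0)) := by
  rw [tendsto_pi_nhds]
  intro i
  refine Fin.cases ht (fun i => ?_) i
  exact Fin.cases hV (fun i => tendsto_pi_nhds.1 hy i) i

theorem continuous_aeval {m : ℕ} (Q : MvPolynomial (Fin m) ℤ) :
    Continuous fun x : Fin m → ℂ => MvPolynomial.aeval x Q := by
  have h : (fun x : Fin m → ℂ => MvPolynomial.aeval x Q) =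
      fun x => MvPolynomial.eval x (MvPolynomial.map (Int.castRingHom ℂ) Q) := by
    funext x
    rw [MvPolynomial.eval_map, MvPolynomial.aeval_def]
    rfl
  rw [h]
  exact MvPolynomial.continuous_eval _

theorem eq_of_tendsto {u : ℕ → ℂ} {u0 : ℂ} (h : Tendsto u atTop (𝓝 u0)) {η : ℕ → ℝ}
    (hη : Tendsto η atTop (𝓝 0)) (hu : ∀ n, ‖u n‖ ≤ η n) : u0 = 0 := by
  have h1 : ‖u0‖ ≤ 0 := le_of_tendsto_of_tendsto' h.norm hη hu
  exact norm_le_zero_iff.1 h1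

/-- one chart -/
theorem one {e g N : ℕ} {Q : MvPolynomial (Fin (e + 2)) ℤ} {E E' : ℝ} (hE : E < E')
    (b : Fin g → Fin e → ℤ) (τ X Y : ℂ → ℂ) (ρ : Fin e → ℂ → ℂ) (γ γ' : Fin g → ℂ → ℂ)
    (hτ : DifferentiableOn ℂ τ (Metric.ball 0 3)) (hX : DifferentiableOn ℂ X (Metric.ball 0 3))
    (hY : DifferentiableOn ℂ Y (Metric.ball 0 3))
    (hρ : ∀ k, DifferentiableOn ℂ (ρ k) (Metric.ball 0 3))
    (hγ : ∀ k, DifferentiableOn ℂ (γ k) (Metric.ball 0 3))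
    (hγ' : ∀ k, DifferentiableOn ℂ (γ' k) (Metric.ball 0 3))
    (hex : ∀ (s : ℝ) (z : Fin e → ℂ) (V V' : ℂ), |s| ≤ 1 → (∀ k, ‖z k‖ = 1) →
        ((‖V‖ ^ 2 : ℝ) : ℂ) = X s → ((‖V'‖ ^ 2 : ℝ) : ℂ) = Y s →
        V + V' + ∑ k, γ k s * mon z (b k) = 0 →
        (starRingEnd ℂ) (V + V') + ∑ k, γ' k s * mon z (-b k) = 0 →
        ‖V + V'‖ ^ N * ‖MvPolynomial.aeval (pt (τ s) V (fun k => ρ k s * z k)) Q‖ ≤ E) :
    ∃ η : ℝ, 0 < η ∧ ∀ (s : ℝ) (z : Fin e → ℂ) (t V V' : ℂ) (y : Fin e → ℂ), |s| ≤ 1 →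
        (∀ k, ‖z k‖ = 1) → ‖t - τ s‖ ≤ η → (∀ k, ‖y k - ρ k s * z k‖ ≤ η) →
        ‖((‖V‖ ^ 2 : ℝ) : ℂ) - X s‖ ≤ η → ‖((‖V'‖ ^ 2 : ℝ) : ℂ) - Y s‖ ≤ η →
        ‖V + V' + ∑ k, γ k s * mon z (b k)‖ ≤ η →
        ‖(starRingEnd ℂ) (V + V') + ∑ k, γ' k s * mon z (-b k)‖ ≤ η →
        ‖V + V'‖ ^ N * ‖MvPolynomial.aeval (pt t V y) Q‖ ≤ E' := by
  by_contra hcon
  push Not at hcon
  have hpos : ∀ n : ℕ, (0 : ℝ) < 1 / ((n : ℝ) + 1) := fun n => by positivity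
  have hle : ∀ n : ℕ, 1 / ((n : ℝ) + 1) ≤ 1 := fun n => by
    rw [div_le_one (by positivity)]
    have : (0 : ℝ) ≤ n := Nat.cast_nonneg n
    linarith
  choose s z t V V' y hs hz h1 h2 h3 h4 h5 h6 h7 using fun n : ℕ => hcon _ (hpos n)
  -- bounds
  obtain ⟨C1, hC1, hτb⟩ := exists_bound hτ
  obtain ⟨C2, hC2, hXb⟩ := exists_bound hX
  obtain ⟨C3, hC3, hYb⟩ := exists_bound hY
  choose C4 hC4 hρb using fun k => exists_bound (hρ k)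
  have hsq : ∀ (v : ℂ) (x : ℂ) (C : ℝ), 0 ≤ C → ‖x‖ ≤ C → ‖((‖v‖ ^ 2 : ℝ) : ℂ) - x‖ ≤ 1 →
      ‖v‖ ≤ C + 1 := by
    intro v x C hC hx hv
    have h8 : ‖((‖v‖ ^ 2 : ℝ) : ℂ)‖ ≤ 1 + C := by
      calc ‖((‖v‖ ^ 2 : ℝ) : ℂ)‖ = ‖(((‖v‖ ^ 2 : ℝ) : ℂ) - x) + x‖ := by rw [sub_add_cancel]
        _ ≤ ‖((‖v‖ ^ 2 : ℝ) : ℂ) - x‖ + ‖x‖ := norm_add_le _ _
        _ ≤ 1 + C := add_le_add hv hx
    rw [Complex.norm_real, Real.norm_eq_abs, abs_of_nonneg (sq_nonneg _)] at h8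
    by_contra h9
    rw [not_le] at h9
    nlinarith [norm_nonneg v]
  set S4 : ℝ := ∑ k, C4 k with hS4
  have hS4n : 0 ≤ S4 := Finset.sum_nonneg fun k _ => hC4 k
  have hmem : ∀ n, (s n, z n, t n, V n, V' n, y n) ∈
      (Set.Icc (-1 : ℝ) 1) ×ˢ (Metric.closedBall (0 : Fin e → ℂ) 1) ×ˢ
      (Metric.closedBall (0 : ℂ) (C1 + 1)) ×ˢ (Metric.closedBall (0 : ℂ) (C2 + 1)) ×ˢ
      (Metric.closedBall (0 : ℂ) (C3 + 1)) ×ˢ (Metric.closedBall (0 : Fin e → ℂ) (S4 + 1)) := by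
    intro n
    simp only [Set.mem_prod, mem_closedBall_zero_iff]
    refine ⟨abs_le.1 (hs n), ?_, ?_, ?_, ?_, ?_⟩
    · rw [pi_norm_le_iff_of_nonneg zero_le_one]
      exact fun k => (hz n k).le
    · calc ‖t n‖ = ‖(t n - τ (s n)) + τ (s n)‖ := by rw [sub_add_cancel]
        _ ≤ ‖t n - τ (s n)‖ + ‖τ (s n)‖ := norm_add_le _ _
        _ ≤ 1 + C1 := add_le_add ((h1 n).trans (hle n)) (hτb _ (hs n))
        _ = C1 + 1 := add_comm _ _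
    · exact hsq _ _ _ hC2 (hXb _ (hs n)) ((h3 n).trans (hle n))
    · exact hsq _ _ _ hC3 (hYb _ (hs n)) ((h4 n).trans (hle n))
    · rw [pi_norm_le_iff_of_nonneg (by linarith)]
      intro k
      have h8 : C4 k ≤ S4 := Finset.single_le_sum (fun k _ => hC4 k) (Finset.mem_univ k)
      calc ‖y n k‖ = ‖(y n k - ρ k (s n) * z n k) + ρ k (s n) * z n k‖ := by
            rw [sub_add_cancel]
        _ ≤ ‖y n k - ρ k (s n) * z n k‖ + ‖ρ k (s n) * z n k‖ := norm_add_le _ _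
        _ ≤ 1 + C4 k := by
            refine add_le_add ((h2 n k).trans (hle n)) ?_
            rw [norm_mul, hz n k, mul_one]
            exact hρb k _ (hs n)
        _ ≤ S4 + 1 := by linarith
  have hK : IsCompact ((Set.Icc (-1 : ℝ) 1) ×ˢ (Metric.closedBall (0 : Fin e → ℂ) 1) ×ˢ
      (Metric.closedBall (0 : ℂ) (C1 + 1)) ×ˢ (Metric.closedBall (0 : ℂ) (C2 + 1)) ×ˢ
      (Metric.closedBall (0 : ℂ) (C3 + 1)) ×ˢ (Metric.closedBall (0 : Fin e → ℂ) (S4 + 1))) :=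
    isCompact_Icc.prod ((isCompact_closedBall _ _).prod ((isCompact_closedBall _ _).prod
      ((isCompact_closedBall _ _).prod ((isCompact_closedBall _ _).prod
        (isCompact_closedBall _ _)))))
  obtain ⟨⟨s0, z0, t0, V0, W0, y0⟩, hp, φ, hφ, hlim⟩ := hK.tendsto_subseq hmem
  have hs0 : |s0| ≤ 1 := abs_le.2 hp.1
  have lim : ∀ {α : Type} [TopologicalSpace α]
      (π : ℝ × (Fin e → ℂ) × ℂ × ℂ × ℂ × (Fin e → ℂ) → α), Continuous π →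
      Tendsto (fun n => π (s (φ n), z (φ n), t (φ n), V (φ n), V' (φ n), y (φ n))) atTop
        (𝓝 (π (s0, z0, t0, V0, W0, y0))) := fun π hπ => (hπ.tendsto _).comp hlim
  have ls : Tendsto (fun n => s (φ n)) atTop (𝓝 s0) := lim (fun p => p.1) (by fun_prop)
  have lz : Tendsto (fun n => z (φ n)) atTop (𝓝 z0) := lim (fun p => p.2.1) (by fun_prop)
  have lt : Tendsto (fun n => t (φ n)) atTop (𝓝 t0) := lim (fun p => p.2.2.1) (by fun_prop)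
  have lV : Tendsto (fun n => V (φ n)) atTop (𝓝 V0) := lim (fun p => p.2.2.2.1) (by fun_prop)
  have lW : Tendsto (fun n => V' (φ n)) atTop (𝓝 W0) := lim (fun p => p.2.2.2.2.1) (by fun_prop)
  have ly : Tendsto (fun n => y (φ n)) atTop (𝓝 y0) := lim (fun p => p.2.2.2.2.2) (by fun_prop)
  have hz0 : ∀ k, ‖z0 k‖ = 1 := by
    intro k
    have h8 : Tendsto (fun n => ‖z (φ n) k‖) atTop (𝓝 ‖z0 k‖) := (tendsto_pi_nhds.1 lz k).norm
    have h9 : Tendsto (fun n => ‖z (φ n) k‖) atTop (𝓝 1) := by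
      simp only [hz]
      exact tendsto_const_nhds
    exact tendsto_nhds_unique h8 h9
  have hη0 : Tendsto (fun n => 1 / ((φ n : ℝ) + 1)) atTop (𝓝 0) :=
    tendsto_one_div_add_atTop_nhds_zero_nat.comp hφ.tendsto_atTop
  have e1 : t0 = τ s0 := by
    have := eq_of_tendsto (lt.sub (tendsto_of_diff hτ ls hs0)) hη0 fun n => h1 (φ n)
    exact sub_eq_zero.1 this
  have e2 : y0 = fun k => ρ k s0 * z0 k := by
    funext k
    have := eq_of_tendsto ((tendsto_pi_nhds.1 ly k).sub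
      ((tendsto_of_diff (hρ k) ls hs0).mul (tendsto_pi_nhds.1 lz k))) hη0 fun n => h2 (φ n) k
    exact sub_eq_zero.1 this
  have e3 : ((‖V0‖ ^ 2 : ℝ) : ℂ) = X s0 := by
    have := eq_of_tendsto (((Complex.continuous_ofReal.tendsto _).comp
      (lV.norm.pow 2)).sub (tendsto_of_diff hX ls hs0)) hη0 fun n => h3 (φ n)
    exact sub_eq_zero.1 this
  have e4 : ((‖W0‖ ^ 2 : ℝ) : ℂ) = Y s0 := by
    have := eq_of_tendsto (((Complex.continuous_ofReal.tendsto _).comp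
      (lW.norm.pow 2)).sub (tendsto_of_diff hY ls hs0)) hη0 fun n => h4 (φ n)
    exact sub_eq_zero.1 this
  have e5 : V0 + W0 + ∑ k, γ k s0 * mon z0 (b k) = 0 := by
    refine eq_of_tendsto ((lV.add lW).add (tendsto_finsetSum _ fun k _ =>
      (tendsto_of_diff (hγ k) ls hs0).mul (tendsto_mon lz hz0 (b k)))) hη0 fun n => h5 (φ n)
  have e6 : (starRingEnd ℂ) (V0 + W0) + ∑ k, γ' k s0 * mon z0 (-b k) = 0 := by
    refine eq_of_tendsto ((((Complex.continuous_conj.tendsto _).comp (lV.add lW))).add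
      (tendsto_finsetSum _ fun k _ =>
      (tendsto_of_diff (hγ' k) ls hs0).mul (tendsto_mon lz hz0 (-b k)))) hη0 fun n => h6 (φ n)
  have e7 : E' ≤ ‖V0 + W0‖ ^ N * ‖MvPolynomial.aeval (pt t0 V0 y0) Q‖ := by
    have h8 : Tendsto (fun n => ‖V (φ n) + V' (φ n)‖ ^ N *
        ‖MvPolynomial.aeval (pt (t (φ n)) (V (φ n)) (y (φ n))) Q‖) atTop
        (𝓝 (‖V0 + W0‖ ^ N * ‖MvPolynomial.aeval (pt t0 V0 y0) Q‖)) := by
      refine ((lV.add lW).norm.pow N).mul (Tendsto.norm ?_)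
      exact ((continuous_aeval Q).tendsto _).comp (tendsto_pt lt lV ly)
    exact ge_of_tendsto' h8 fun n => (h7 (φ n)).le
  have e8 := hex s0 z0 V0 W0 hs0 hz0 e3 e4 e5 e6
  rw [← e1, ← e2] at e8
  exact absurd (e7.trans e8) (not_le.2 hE)

end ArcNear

theorem arc_aux_near {q e g : ℕ} (b : Fin g → Fin e → ℤ) (τ X Y : Fin q → ℂ → ℂ)
    (ρ : Fin q → Fin e → ℂ → ℂ) (γ γ' : Fin q → Fin g → ℂ → ℂ)
    (hτ : ∀ l, DifferentiableOn ℂ (τ l) (Metric.ball 0 3))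
    (hX : ∀ l, DifferentiableOn ℂ (X l) (Metric.ball 0 3))
    (hY : ∀ l, DifferentiableOn ℂ (Y l) (Metric.ball 0 3))
    (hρ : ∀ l k, DifferentiableOn ℂ (ρ l k) (Metric.ball 0 3))
    (hγ : ∀ l k, DifferentiableOn ℂ (γ l k) (Metric.ball 0 3))
    (hγ' : ∀ l k, DifferentiableOn ℂ (γ' l k) (Metric.ball 0 3)) (A : ℝ) :
    ∃ N : ℕ, 1 ≤ N ∧ ∃ η : ℝ, 0 < η ∧ ∃ Q : MvPolynomial (Fin (e + 2)) ℤ, Q ≠ 0 ∧
      (∀ i, Q.degreeOf i ≤ N) ∧ (∀ m, |((Q.coeff m : ℤ) : ℝ)| ≤ Real.exp N) ∧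
      ∀ (l : Fin q) (s : ℝ) (z : Fin e → ℂ) (t V V' : ℂ) (y : Fin e → ℂ), |s| ≤ 1 →
        (∀ k, ‖z k‖ = 1) → ‖t - τ l s‖ ≤ η → (∀ k, ‖y k - ρ l k s * z k‖ ≤ η) →
        ‖((‖V‖ ^ 2 : ℝ) : ℂ) - X l s‖ ≤ η → ‖((‖V'‖ ^ 2 : ℝ) : ℂ) - Y l s‖ ≤ η →
        ‖V + V' + ∑ k, γ l k s * mon z (b k)‖ ≤ η →
        ‖(starRingEnd ℂ) (V + V') + ∑ k, γ' l k s * mon z (-b k)‖ ≤ η →
        ‖V + V'‖ ^ N * ‖MvPolynomial.aeval (pt t V y) Q‖ ≤ Real.exp (-(A * N)) := by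
  obtain ⟨N, hN, Q, hQ, hdeg, hcoeff, hex⟩ :=
    arc_aux_exact b τ X Y ρ γ γ' hτ hX hY hρ hγ hγ' (A + 1)
  have hN' : (1 : ℝ) ≤ N := by exact_mod_cast hN
  have hlt : Real.exp (-((A + 1) * N)) < Real.exp (-(A * N)) := by
    rw [Real.exp_lt_exp]
    linarith
  choose η hη hnear using fun l : Fin q => ArcNear.one hlt b (τ l) (X l) (Y l) (ρ l) (γ l) (γ' l)
    (hτ l) (hX l) (hY l) (hρ l) (hγ l) (hγ' l) (hex l)
  have hsum : 0 ≤ ∑ l, (η l)⁻¹ := Finset.sum_nonneg fun l _ => (inv_pos.2 (hη l)).le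
  refine ⟨N, hN, (1 + ∑ l, (η l)⁻¹)⁻¹, inv_pos.2 (by linarith), Q, hQ, hdeg, hcoeff, ?_⟩
  intro l s z t V V' y hs hz h1 h2 h3 h4 h5 h6
  have hle : (1 + ∑ l, (η l)⁻¹)⁻¹ ≤ η l := by
    rw [inv_le_comm₀ (by linarith) (hη l)]
    have h7 : (η l)⁻¹ ≤ ∑ l, (η l)⁻¹ :=
      Finset.single_le_sum (f := fun l => (η l)⁻¹) (fun l _ => (inv_pos.2 (hη l)).le)
        (Finset.mem_univ l)
    linarith
  exact hnear l s z t V V' y hs hz (h1.trans hle) (fun k => (h2 k).trans hle) (h3.trans hle)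
    (h4.trans hle) (h5.trans hle) (h6.trans hle)

end Pool.Agent.RS
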