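import Mathlib
import Pool.Agent.Lib.MP_c95b3b_ag_RS.Defs

/-! Project RS (MP_c95b3b_ag), module PF: product formula. -/

namespace Pool.Agent.RS

open Pool.Agent.L3 Module

namespace PF

theorem pow_le {a : ℝ} (ha : 0 ≤ a) {i N : ℕ} (hi : i ≤ N) :
    a ^ i ≤ Real.exp (N * max 0 (Real.log a)) := by
  have h0 : 0 ≤ max 0 (Real.log a) := le_max_left _ _
  rcases le_or_gt a 1 with h1 | h1
  · calc a ^ i ≤ 1 := pow_le_one₀ ha h1
      _ = Real.exp 0 := Real.exp_zero.symm
      _ ≤ _ := Real.exp_le_exp.mpr (by positivity)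
  · have h2 : 0 < a := lt_trans one_pos h1
    calc a ^ i = Real.exp (i * Real.log a) := by
          rw [mul_comm, Real.exp_mul, Real.exp_log h2, Real.rpow_natCast]
      _ ≤ _ := by
          apply Real.exp_le_exp.mpr
          have h3 : (i : ℝ) ≤ N := by exact_mod_cast hi
          have h4 : Real.log a ≤ max 0 (Real.log a) := le_max_right _ _
          have h5 : (0 : ℝ) ≤ i := Nat.cast_nonneg i
          calc (i : ℝ) * Real.log a ≤ i * max 0 (Real.log a) := mul_le_mul_of_nonneg_left h4 h5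
            _ ≤ N * max 0 (Real.log a) := mul_le_mul_of_nonneg_right h3 h0

theorem pow_mul_pow_le {a b : ℝ} (ha : 0 ≤ a) (hb : 0 ≤ b) {i j N : ℕ} (hi : i ≤ N) (hj : j ≤ N) :
    a ^ i * b ^ j ≤ Real.exp (N * (max 0 (Real.log a) + max 0 (Real.log b))) := by
  rw [mul_add, Real.exp_add]
  exact mul_le_mul (pow_le ha hi) (pow_le hb hj) (pow_nonneg hb _) (Real.exp_pos _).le

section
variable {K : Type} [Field K] {R : Subring K} (P : Places K R)

theorem arch_bound (i : Fin P.D) (t U : K) (N : ℕ) (q : ℕ → ℕ → ℤ)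
    (hq : ∀ i j, |(q i j : ℝ)| ≤ Real.exp N) :
    ‖P.σ i (val2 N q t U)‖ ≤ Real.exp (3 * N +
      N * (max 0 (P.lg (.inl i) t) + max 0 (P.lg (.inl i) U))) := by
  rw [map_val2, val2]
  set E : ℝ := Real.exp (N * (max 0 (P.lg (.inl i) t) + max 0 (P.lg (.inl i) U))) with hE
  have h1 : ∀ k ∈ Finset.range (N + 1), ∀ j ∈ Finset.range (N + 1),
      ‖((q k j : ℤ) : ℂ) * P.σ i t ^ k * P.σ i U ^ j‖ ≤ Real.exp N * E := by
    intro k hk j hj
    have hk' : k ≤ N := Nat.lt_succ_iff.mp (Finset.mem_range.mp hk)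
    have hj' : j ≤ N := Nat.lt_succ_iff.mp (Finset.mem_range.mp hj)
    rw [norm_mul, norm_mul, norm_pow, norm_pow, mul_assoc]
    have h2 : ‖((q k j : ℤ) : ℂ)‖ ≤ Real.exp N := by
      rw [Complex.norm_intCast]
      exact hq k j
    have h3 := pow_mul_pow_le (norm_nonneg (P.σ i t)) (norm_nonneg (P.σ i U)) hk' hj'
    exact mul_le_mul h2 h3 (by positivity) (Real.exp_pos _).le
  calc ‖∑ k ∈ Finset.range (N + 1), ∑ j ∈ Finset.range (N + 1),
        ((q k j : ℤ) : ℂ) * P.σ i t ^ k * P.σ i U ^ j‖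
      ≤ ∑ k ∈ Finset.range (N + 1), ∑ j ∈ Finset.range (N + 1), Real.exp N * E := by
        refine (norm_sum_le _ _).trans (Finset.sum_le_sum fun k hk => ?_)
        exact (norm_sum_le _ _).trans (Finset.sum_le_sum fun j hj => h1 k hk j hj)
    _ = ((N : ℝ) + 1) * (((N : ℝ) + 1) * (Real.exp N * E)) := by
        simp only [Finset.sum_const, Finset.card_range, nsmul_eq_mul]
        push_cast
        ring
    _ ≤ Real.exp N * (Real.exp N * (Real.exp N * E)) := by
        have h4 : (N : ℝ) + 1 ≤ Real.exp N := Real.add_one_le_exp _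
        have h5 : (0 : ℝ) ≤ Real.exp N * E := by positivity
        have h6 : ((N : ℝ) + 1) * (Real.exp N * E) ≤ Real.exp N * (Real.exp N * E) :=
          mul_le_mul_of_nonneg_right h4 h5
        exact mul_le_mul h4 h6 (by positivity) (Real.exp_pos _).le
    _ = _ := by
        rw [hE, ← Real.exp_add, ← Real.exp_add, ← Real.exp_add]
        congr 1
        ring

theorem nonarch_bound (w : Fin P.m) (t U : K) (N : ℕ) (q : ℕ → ℕ → ℤ) :
    P.v w (val2 N q t U) ≤ Real.exp (N * (max 0 (P.lg (.inr w) t) + max 0 (P.lg (.inr w) U))) := by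
  rw [val2]
  refine P.v_sum_le w _ _ (Real.exp_pos _).le fun k hk => ?_
  refine P.v_sum_le w _ _ (Real.exp_pos _).le fun j hj => ?_
  have hk' : k ≤ N := Nat.lt_succ_iff.mp (Finset.mem_range.mp hk)
  have hj' : j ≤ N := Nat.lt_succ_iff.mp (Finset.mem_range.mp hj)
  rw [map_mul, map_mul, map_pow, map_pow, mul_assoc]
  have h3 := pow_mul_pow_le ((P.v w).nonneg t) ((P.v w).nonneg U) hk' hj'
  calc P.v w (q k j : K) * (P.v w t ^ k * P.v w U ^ j)
      ≤ 1 * (P.v w t ^ k * P.v w U ^ j) :=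
        mul_le_mul_of_nonneg_right (P.v_int w _)
          (mul_nonneg (pow_nonneg ((P.v w).nonneg t) _) (pow_nonneg ((P.v w).nonneg U) _))
    _ ≤ _ := by
        rw [one_mul]
        exact h3

end

end PF

open PF in
theorem pf {K : Type} [Field K] {R : Subring K} (P : Places K R) (t U : K) (ht : t ∈ R)
    (hU : U ∈ R) (B θ A : ℝ) (hθ : 0 < θ) (hA : 3 + 2 * B < θ * A)
    (htB : P.avg (fun w => max 0 (P.lg w t)) ≤ B) (hUB : P.avg (fun w => max 0 (P.lg w U)) ≤ B)
    (N : ℕ) (hN : 1 ≤ N) (q : ℕ → ℕ → ℤ) (hq : ∀ i j, |(q i j : ℝ)| ≤ Real.exp N)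
    (S : Finset (Fin P.D)) (hS : θ * P.D ≤ S.card)
    (hs : ∀ i ∈ S, ‖val2 N q (P.σ i t) (P.σ i U)‖ ≤ Real.exp (-(A * N))) :
    val2 N q t U = 0 := by
  classical
  by_contra hQ
  set Q := val2 N q t U with hQdef
  have hQR : Q ∈ R := val2_mem R N q ht hU
  have h0 := P.avg_lg_nonneg hQR hQ
  have hN' : (1 : ℝ) ≤ N := by exact_mod_cast hN
  have hD := P.D_cast_pos
  -- B and A are nonnegative
  have hB : 0 ≤ B := le_trans (P.avg_nonneg fun w => le_max_left _ _) htB
  have hA0 : 0 < A := by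
    by_contra h
    have : θ * A ≤ 0 := mul_nonpos_of_nonneg_of_nonpos hθ.le (not_lt.mp h)
    linarith
  set ind : P.Pl → ℝ := Sum.elim (fun i => if i ∈ S then (1 : ℝ) else 0) (fun _ => 0) with hind
  have hle : ∀ w, P.lg w Q ≤ (3 * N) * P.arch w +
      ((N : ℝ) * max 0 (P.lg w t) + (N : ℝ) * max 0 (P.lg w U)) - (A * N) * ind w := by
    intro w
    rcases w with i | j
    · have hpos : 0 < ‖P.σ i Q‖ := by
        rw [norm_pos_iff]
        intro h
        exact hQ ((map_eq_zero (P.σ i)).mp h)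
      rw [P.arch_inl, P.lg_inl]
      by_cases hi : i ∈ S
      · have h1 : Real.log ‖P.σ i Q‖ ≤ -(A * N) := by
          rw [Real.log_le_iff_le_exp hpos, hQdef, map_val2]
          exact hs i hi
        have h2 : ind (.inl i) = 1 := by simp [hind, hi]
        rw [h2]
        have h3 : 0 ≤ (N : ℝ) * max 0 (P.lg (.inl i) t) :=
          mul_nonneg (by positivity) (le_max_left _ _)
        have h4 : 0 ≤ (N : ℝ) * max 0 (P.lg (.inl i) U) :=
          mul_nonneg (by positivity) (le_max_left _ _)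
        linarith
      · have h2 : ind (.inl i) = 0 := by simp [hind, hi]
        rw [h2]
        have h1 : Real.log ‖P.σ i Q‖ ≤ _ :=
          (Real.log_le_iff_le_exp hpos).mpr (arch_bound P i t U N q hq)
        linarith
    · have hpos : 0 < P.v j Q := (P.v j).pos hQ
      rw [P.arch_inr, P.lg_inr]
      have h2 : ind (.inr j) = 0 := by simp [hind]
      rw [h2]
      have h1 : Real.log (P.v j Q) ≤ _ :=
        (Real.log_le_iff_le_exp hpos).mpr (nonarch_bound P j t U N q)
      linarith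
  have h1 := P.avg_mono hle
  rw [P.avg_sub, P.avg_add, P.avg_add, P.avg_const_arch, P.avg_mul, P.avg_mul, P.avg_mul] at h1
  have hind' : P.avg ind = S.card / P.D := by
    rw [Places.avg]
    congr 1
    rw [Fintype.sum_sum_type]
    simp [hind]
  have h2 : θ ≤ P.avg ind := by
    rw [hind', le_div_iff₀ hD]
    exact hS
  have h3 : (A * N) * θ ≤ (A * N) * P.avg ind := mul_le_mul_of_nonneg_left h2 (by positivity)
  have h4 : (N : ℝ) * P.avg (fun w => max 0 (P.lg w t)) ≤ N * B :=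
    mul_le_mul_of_nonneg_left htB (by positivity)
  have h5 : (N : ℝ) * P.avg (fun w => max 0 (P.lg w U)) ≤ N * B :=
    mul_le_mul_of_nonneg_left hUB (by positivity)
  have h6 : 0 ≤ (N : ℝ) * (3 + 2 * B - θ * A) := by
    calc (0 : ℝ) ≤ _ := h0
      _ ≤ _ := h1
      _ ≤ 3 * N + (N * B + N * B) - (A * N) * θ := by linarith
      _ = _ := by ring
  have h7 : (N : ℝ) * (3 + 2 * B - θ * A) < 0 :=
    mul_neg_of_pos_of_neg (by linarith) (by linarith)
  linarith

end Pool.Agent.RS
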