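import Mathlib
import Pool.Agent.Lib.MP_c95b3b_ag_RS.Defs
import Pool.Agent.Lib.MP_c95b3b_ag_RS.PF
import Pool.Agent.Lib.MP_c95b3b_ag_L3.TC

/-! Project RS (MP_c95b3b_ag), module T0: conjugates near finitely many points. -/

namespace Pool.Agent.RS

open Pool.Agent.L3 Module

namespace T0

/-- the coefficients of a polynomial in the first variable -/
def co (N : ℕ) (p : Fin (N + 1) → ℤ) (i j : ℕ) : ℤ :=
  if h : i < N + 1 then (if j = 0 then p ⟨i, h⟩ else 0) else 0

theorem val2_co {F : Type} [Field F] (N : ℕ) (p : Fin (N + 1) → ℤ) (x y : F) :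
    val2 N (co N p) x y = ∑ i : Fin (N + 1), (p i : F) * x ^ (i : ℕ) := by
  rw [val2, Finset.sum_range]
  refine Finset.sum_congr rfl fun i _ => ?_
  rw [Finset.sum_eq_single 0]
  · have hi : (i : ℕ) < N + 1 := i.2
    simp [co, hi]
  · intro j _ hj
    simp [co, hj]
  · simp

theorem co_le (N : ℕ) (p : Fin (N + 1) → ℤ) (b : ℝ) (hb : 0 ≤ b) (hp : ∀ i, |(p i : ℝ)| ≤ b)
    (i j : ℕ) : |(co N p i j : ℝ)| ≤ b := by
  unfold co
  split_ifs with h1 h2
  · exact hp _
  · simpa using hb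
  · simpa using hb

/-- the polynomial with the given coefficients -/
noncomputable def pol (N : ℕ) (p : Fin (N + 1) → ℤ) : Polynomial ℤ :=
  ∑ i : Fin (N + 1), Polynomial.C (p i) * Polynomial.X ^ (i : ℕ)

theorem aeval_pol {F : Type} [Field F] (N : ℕ) (p : Fin (N + 1) → ℤ) (x : F) :
    Polynomial.aeval x (pol N p) = ∑ i : Fin (N + 1), (p i : F) * x ^ (i : ℕ) := by
  simp [pol, map_sum]

theorem pol_ne_zero (N : ℕ) (p : Fin (N + 1) → ℤ) (hp : p ≠ 0) : pol N p ≠ 0 := by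
  intro h
  apply hp
  funext i0
  have h1 := congrArg (Polynomial.coeff · (i0 : ℕ)) h
  simp only [pol, Polynomial.finsetSum_coeff, Polynomial.coeff_C_mul, Polynomial.coeff_X_pow,
    Polynomial.coeff_zero] at h1
  rw [Finset.sum_eq_single i0] at h1
  · simpa using h1
  · intro b _ hb
    have : ¬ ((i0 : ℕ) = (b : ℕ)) := fun h => hb (Fin.ext h.symm)
    simp [this]
  · intro h2
    exact absurd (Finset.mem_univ _) h2

/-- the auxiliary polynomial -/
theorem aux {q : ℕ} (z : Fin q → ℂ) (A : ℝ) (hA : 0 ≤ A) :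
    ∃ (N : ℕ) (p : Fin (N + 1) → ℤ), 1 ≤ N ∧ p ≠ 0 ∧ (∀ i, |(p i : ℝ)| ≤ Real.exp N) ∧
      ∀ l, ‖∑ i : Fin (N + 1), (p i : ℂ) * z l ^ (i : ℕ)‖ < Real.exp (-(A * N)) := by
  classical
  set ρ : ℝ := 1 + ∑ l, ‖z l‖ with hρ
  have hsum : 0 ≤ ∑ l, ‖z l‖ := Finset.sum_nonneg fun l _ => norm_nonneg _
  have hρ1 : 1 ≤ ρ := by linarith
  have hρ0 : 0 < ρ := by linarith
  set C : ℝ := Real.log ρ + 5 with hC
  have hlog : 0 ≤ Real.log ρ := Real.log_nonneg hρ1
  obtain ⟨N0, hN0⟩ := exists_nat_gt (2 * q * (A + C + 1))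
  set N : ℕ := N0 + 1 with hN
  have hN1 : (1 : ℝ) ≤ N := by rw [hN]; push_cast; linarith [Nat.cast_nonneg (α := ℝ) N0]
  have hNbig : 2 * q * (A + C + 1) < N := by
    rw [hN]; push_cast; linarith
  set H : ℕ := ⌊Real.exp N⌋₊ with hH
  set L : ℕ := ⌈Real.exp ((A + C) * N)⌉₊ with hL
  have hACN : 0 ≤ (A + C) * N := by
    apply mul_nonneg _ (by linarith)
    linarith
  have hLpos : 0 < L := Nat.ceil_pos.mpr (Real.exp_pos _)
  have hLge : Real.exp ((A + C) * N) ≤ L := Nat.le_ceil _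
  have hLle : (L : ℝ) ≤ Real.exp ((A + C) * N + 1) := by
    have h1 : (L : ℝ) < Real.exp ((A + C) * N) + 1 := Nat.ceil_lt_add_one (Real.exp_pos _).le
    have h2 : (1 : ℝ) ≤ Real.exp ((A + C) * N) := Real.one_le_exp hACN
    rw [Real.exp_add]
    have h3 : (2 : ℝ) ≤ Real.exp 1 := by
      have := Real.add_one_le_exp (1 : ℝ)
      linarith
    nlinarith
  have hHle : (H : ℝ) ≤ Real.exp N := Nat.floor_le (Real.exp_pos _).le
  have hHgt : Real.exp N < (H : ℝ) + 1 := Nat.lt_floor_add_one _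
  -- counting
  have hcount : L ^ Fintype.card (Fin q × Fin 2) < (H + 1) ^ Fintype.card (Fin (N + 1)) := by
    have e1 : Fintype.card (Fin q × Fin 2) = 2 * q := by
      rw [Fintype.card_prod, Fintype.card_fin, Fintype.card_fin, mul_comm]
    rw [e1, Fintype.card_fin]
    have h1 : ((L : ℝ)) ^ (2 * q) ≤ Real.exp (2 * q * ((A + C) * N + 1)) := by
      calc ((L : ℝ)) ^ (2 * q) ≤ (Real.exp ((A + C) * N + 1)) ^ (2 * q) :=
            pow_le_pow_left₀ (Nat.cast_nonneg _) hLle _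
        _ = Real.exp (2 * q * ((A + C) * N + 1)) := by
            rw [← Real.exp_nat_mul]; push_cast; ring_nf
    have h2 : Real.exp (N * (N + 1)) ≤ ((H : ℝ) + 1) ^ (N + 1) := by
      calc Real.exp (N * (N + 1)) = (Real.exp N) ^ (N + 1) := by
            rw [← Real.exp_nat_mul]; push_cast; ring_nf
        _ ≤ _ := pow_le_pow_left₀ (Real.exp_pos _).le hHgt.le _
    have h3 : Real.exp (2 * q * ((A + C) * N + 1)) < Real.exp (N * (N + 1)) := by
      apply Real.exp_lt_exp.mpr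
      have hq0 : (0 : ℝ) ≤ 2 * q := by positivity
      calc 2 * q * ((A + C) * N + 1) ≤ 2 * q * ((A + C) * N + N) := by
            apply mul_le_mul_of_nonneg_left _ hq0
            linarith
        _ = (2 * q * (A + C + 1)) * N := by ring
        _ < N * N + N := by nlinarith
        _ = N * (N + 1) := by ring
    have h4 : ((L : ℝ)) ^ (2 * q) < ((H : ℝ) + 1) ^ (N + 1) := lt_of_le_of_lt h1 (h3.trans_le h2)
    exact_mod_cast h4
  let a : Fin q × Fin 2 → Fin (N + 1) → ℝ := fun j i =>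
    if j.2 = 0 then (z j.1 ^ (i : ℕ)).re else (z j.1 ^ (i : ℕ)).im
  have hW : ∀ j i, |a j i| ≤ ρ ^ N := by
    intro j i
    have hz : ‖z j.1‖ ≤ ρ := by
      have := Finset.single_le_sum (f := fun l => ‖z l‖) (fun l _ => norm_nonneg _)
        (Finset.mem_univ j.1)
      linarith
    have h1 : ‖z j.1 ^ (i : ℕ)‖ ≤ ρ ^ N := by
      rw [norm_pow]
      calc ‖z j.1‖ ^ (i : ℕ) ≤ ρ ^ (i : ℕ) := pow_le_pow_left₀ (norm_nonneg _) hz _
        _ ≤ ρ ^ N := pow_le_pow_right₀ hρ1 (Nat.lt_succ_iff.mp i.2)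
    simp only [a]
    split_ifs
    · exact (Complex.abs_re_le_norm _).trans h1
    · exact (Complex.abs_im_le_norm _).trans h1
  obtain ⟨p, hp0, hpH, hpj⟩ := pigeon a (ρ ^ N) hW H L hLpos hcount
  refine ⟨N, p, ?_, hp0, ?_, ?_⟩
  · rw [hN]; omega
  · intro i
    have h1 : ((|p i| : ℤ) : ℝ) ≤ ((H : ℤ) : ℝ) := by exact_mod_cast hpH i
    rw [Int.cast_abs] at h1
    calc |(p i : ℝ)| ≤ ((H : ℤ) : ℝ) := h1
      _ = (H : ℝ) := by push_cast; rfl
      _ ≤ _ := hHle
  · intro l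
    set s : ℂ := ∑ i : Fin (N + 1), (p i : ℂ) * z l ^ (i : ℕ) with hs
    have hre : s.re = ∑ i, a (l, 0) i * p i := by
      rw [hs, Complex.re_sum]
      refine Finset.sum_congr rfl fun i _ => ?_
      simp [a, mul_comm]
    have him : s.im = ∑ i, a (l, 1) i * p i := by
      rw [hs, Complex.im_sum]
      refine Finset.sum_congr rfl fun i _ => ?_
      simp [a, mul_comm]
    have h1 := hpj (l, 0)
    have h2 := hpj (l, 1)
    rw [← hre] at h1
    rw [← him] at h2
    rw [Fintype.card_fin] at h1 h2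
    have h3 : ‖s‖ ≤ |s.re| + |s.im| := Complex.norm_le_abs_re_add_abs_im s
    have hbound : 2 * ((N + 1 : ℕ) : ℝ) * ρ ^ N * H / L ≤
        2 * ((N : ℝ) + 1) * Real.exp (-(A * N) - 4 * N) := by
      rw [div_le_iff₀ (by exact_mod_cast hLpos)]
      have e1 : ρ ^ N = Real.exp (N * Real.log ρ) := by
        rw [mul_comm, Real.exp_mul, Real.exp_log hρ0, Real.rpow_natCast]
      have e2 : Real.exp (N * Real.log ρ) * Real.exp N =
          Real.exp (-(A * N) - 4 * N) * Real.exp ((A + C) * N) := by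
        rw [← Real.exp_add, ← Real.exp_add]
        congr 1
        rw [hC]; ring
      calc 2 * ((N + 1 : ℕ) : ℝ) * ρ ^ N * H
          ≤ 2 * ((N + 1 : ℕ) : ℝ) * ρ ^ N * Real.exp N := by
            apply mul_le_mul_of_nonneg_left hHle
            positivity
        _ = 2 * ((N : ℝ) + 1) * (Real.exp (N * Real.log ρ) * Real.exp N) := by
            rw [e1]; push_cast; ring
        _ = 2 * ((N : ℝ) + 1) * Real.exp (-(A * N) - 4 * N) * Real.exp ((A + C) * N) := by
            rw [e2]; ring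
        _ ≤ 2 * ((N : ℝ) + 1) * Real.exp (-(A * N) - 4 * N) * L := by
            apply mul_le_mul_of_nonneg_left hLge
            positivity
    have h4 : ‖s‖ ≤ 4 * ((N : ℝ) + 1) * Real.exp (-(A * N) - 4 * N) := by
      linarith
    have h5 : 4 * ((N : ℝ) + 1) * Real.exp (-(A * N) - 4 * N) < Real.exp (-(A * N)) := by
      have e3 : Real.exp (-(A * N) - 4 * N) = Real.exp (-(A * N)) * Real.exp (-(4 * N)) := by
        rw [← Real.exp_add]; congr 1
      have e4 : 4 * ((N : ℝ) + 1) * Real.exp (-(4 * N)) < 1 := by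
        rw [Real.exp_neg, mul_inv_lt_iff₀ (Real.exp_pos _), one_mul]
        have f1 : (N : ℝ) + 1 ≤ Real.exp N := Real.add_one_le_exp _
        have f2 : (2 : ℝ) ≤ Real.exp N := by linarith
        have f3 : Real.exp (4 * N) = Real.exp N * Real.exp N * Real.exp N * Real.exp N := by
          rw [← Real.exp_add, ← Real.exp_add, ← Real.exp_add]; congr 1; ring
        rw [f3]
        have f4 : 4 ≤ Real.exp N * Real.exp N := by nlinarith
        have f5 : 4 * Real.exp N < Real.exp N * Real.exp N * Real.exp N * Real.exp N := by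
          have : 4 * Real.exp N ≤ Real.exp N * Real.exp N * Real.exp N :=
            mul_le_mul_of_nonneg_right f4 (Real.exp_pos _).le
          have h0 : 0 < Real.exp N * Real.exp N * Real.exp N := by positivity
          nlinarith
        linarith
      rw [e3]
      have h0 := Real.exp_pos (-(A * N))
      nlinarith
    exact lt_of_le_of_lt h4 h5

end T0

open T0 in
theorem t0 {q : ℕ} (z : Fin q → ℂ) (B θ : ℝ) (hθ : 0 < θ) :
    ∃ δ : ℝ, 0 < δ ∧ ∃ f : Polynomial ℤ, f ≠ 0 ∧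
      ∀ (K : Type) [Field K] (R : Subring K) (P : Places K R) (t : K), t ∈ R →
        P.avg (fun w => max 0 (P.lg w t)) ≤ B →
        (∃ S : Finset (Fin P.D), θ * P.D ≤ S.card ∧ ∀ i ∈ S, ∃ l, ‖P.σ i t - z l‖ ≤ δ) →
        Polynomial.aeval t f = 0 := by
  classical
  set A : ℝ := (4 + 2 * |B|) / θ with hA
  have hA0 : 0 ≤ A := by rw [hA]; positivity
  obtain ⟨N, p, hN, hp, hpN, hz⟩ := aux z A hA0
  -- continuity
  have hδ : ∃ δ : ℝ, 0 < δ ∧ ∀ l, ∀ x : ℂ, ‖x - z l‖ ≤ δ →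
      ‖∑ i : Fin (N + 1), (p i : ℂ) * x ^ (i : ℕ)‖ ≤ Real.exp (-(A * N)) := by
    have hl : ∀ l, ∃ δ : ℝ, 0 < δ ∧ ∀ x : ℂ, ‖x - z l‖ ≤ δ →
        ‖∑ i : Fin (N + 1), (p i : ℂ) * x ^ (i : ℕ)‖ ≤ Real.exp (-(A * N)) := by
      intro l
      have hc : Continuous fun x : ℂ => ‖∑ i : Fin (N + 1), (p i : ℂ) * x ^ (i : ℕ)‖ := by
        fun_prop
      have h1 : ∀ᶠ x in nhds (z l), ‖∑ i : Fin (N + 1), (p i : ℂ) * x ^ (i : ℕ)‖ <
          Real.exp (-(A * N)) :=
        (hc.tendsto (z l)).eventually_lt_const (hz l)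
      obtain ⟨ε, hε, h2⟩ := Metric.eventually_nhds_iff.mp h1
      refine ⟨ε / 2, by positivity, fun x hx => (h2 ?_).le⟩
      rw [dist_eq_norm]
      linarith
    choose δ hδ0 hδ1 using hl
    by_cases hq : Nonempty (Fin q)
    · refine ⟨Finset.univ.inf' Finset.univ_nonempty δ, ?_, ?_⟩
      · rw [Finset.lt_inf'_iff]
        exact fun l _ => hδ0 l
      · intro l x hx
        exact hδ1 l x (hx.trans (Finset.inf'_le _ (Finset.mem_univ l)))
    · exact ⟨1, one_pos, fun l => absurd ⟨l⟩ hq⟩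
  obtain ⟨δ, hδ0, hδ1⟩ := hδ
  refine ⟨δ, hδ0, pol N p, pol_ne_zero N p hp, ?_⟩
  intro K _ R P t ht hB ⟨S, hS, hSi⟩
  have hB0 : 0 ≤ B := (P.avg_nonneg fun w => le_max_left _ _).trans hB
  have h1 := pf P t 1 ht R.one_mem B θ A hθ (by
      rw [hA, mul_div_cancel₀ _ hθ.ne', abs_of_nonneg hB0]
      linarith) hB (by
      have : (fun w => max 0 (P.lg w 1)) = fun _ : P.Pl => (0 : ℝ) := by
        funext w
        rw [P.lg_one]; simp
      rw [this]
      simpa [Places.avg] using hB0) N hN (co N p)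
      (co_le N p _ (Real.exp_pos _).le hpN) S hS (by
      intro i hi
      obtain ⟨l, hl⟩ := hSi i hi
      rw [val2_co]
      exact hδ1 l _ hl)
  rw [val2_co] at h1
  rw [aeval_pol]
  exact h1

end Pool.Agent.RS
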