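import Mathlib
import Pool.Agent.Lib.MP_c95b3b_ag_RS.DefsD

/-! Project RSd (MP_c95b3b_ag), module PFD: product formula in `n` variables. -/

namespace Pool.Agent.RS

open Pool.Agent.L3 Module

theorem pf0 {K : Type} [Field K] {R : Subring K} (P : Places K R) (z : K) (hz : z ∈ R)
    (h0 : z ≠ 0) (m : P.Pl → ℝ) (hm : ∀ w, 0 ≤ m w) (h1 : ∀ w, P.lg w z ≤ m w) (b Γ θ : ℝ)
    (hb : P.avg m ≤ b) (hΓ : 0 ≤ Γ) (S : Finset (Fin P.D)) (hS : θ * P.D ≤ S.card)
    (hs : ∀ i ∈ S, P.lg (.inl i) z ≤ -Γ) : θ * Γ ≤ b := by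
  classical
  have hav := P.avg_lg_nonneg hz h0
  have hD := P.D_cast_pos
  set ind : P.Pl → ℝ := Sum.elim (fun i => if i ∈ S then (1 : ℝ) else 0) (fun _ => 0) with hind
  have hle : ∀ w, P.lg w z ≤ m w - Γ * ind w := by
    intro w
    rcases w with i | j
    · by_cases hi : i ∈ S
      · have h2 : ind (.inl i) = 1 := by simp [hind, hi]
        rw [h2]
        have h3 := hs i hi
        have h4 := hm (.inl i)
        linarith
      · have h2 : ind (.inl i) = 0 := by simp [hind, hi]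
        rw [h2]
        have h3 := h1 (.inl i)
        linarith
    · have h2 : ind (.inr j) = 0 := by simp [hind]
      rw [h2]
      have h3 := h1 (.inr j)
      linarith
  have h2 := P.avg_mono hle
  rw [P.avg_sub, P.avg_mul] at h2
  have hind' : P.avg ind = S.card / P.D := by
    rw [Places.avg]
    congr 1
    rw [Fintype.sum_sum_type]
    simp [hind]
  have h3 : θ ≤ P.avg ind := by
    rw [hind', le_div_iff₀ hD]
    exact hS
  have h4 : Γ * θ ≤ Γ * P.avg ind := mul_le_mul_of_nonneg_left h3 hΓ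
  linarith

namespace PFD

theorem pow_le {a : ℝ} (ha : 0 ≤ a) {i N : ℕ} (hi : i ≤ N) :
    a ^ i ≤ Real.exp (N * max 0 (Real.log a)) := by
  have h0 : 0 ≤ max 0 (Real.log a) := le_max_left _ _
  rcases le_or_gt a 1 with h1 | h1
  · calc a ^ i ≤ 1 := pow_le_one₀ ha h1
      _ = Real.exp 0 := Real.exp_zero.symm
      _ ≤ _ := Real.exp_le_exp.mpr (by positivity)
  · have h2 : 0 < a := lt_trans one_pos h1
    calc a ^ i = Real.exp (i * Real.log a) := by
          rw [mul_comm, Real.exp_mul, Real.exp_log h2, Real.rpow_natCast]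
      _ ≤ _ := by
          apply Real.exp_le_exp.mpr
          have h3 : (i : ℝ) ≤ N := by exact_mod_cast hi
          have h4 : Real.log a ≤ max 0 (Real.log a) := le_max_right _ _
          have h5 : (0 : ℝ) ≤ i := Nat.cast_nonneg i
          calc (i : ℝ) * Real.log a ≤ i * max 0 (Real.log a) := mul_le_mul_of_nonneg_left h4 h5
            _ ≤ N * max 0 (Real.log a) := mul_le_mul_of_nonneg_right h3 h0

theorem prod_le {n : ℕ} {a : Fin n → ℝ} (ha : ∀ i, 0 ≤ a i) {d : Fin n → ℕ} {N : ℕ}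
    (hd : ∀ i, d i ≤ N) :
    ∏ i, a i ^ d i ≤ Real.exp (N * ∑ i, max 0 (Real.log (a i))) := by
  rw [Finset.mul_sum, Real.exp_sum]
  exact Finset.prod_le_prod (fun i _ => pow_nonneg (ha i) _) fun i _ => pow_le (ha i) (hd i)

theorem aeval_eq {F : Type} [Field F] {n : ℕ} (x : Fin n → F) (Q : MvPolynomial (Fin n) ℤ) :
    MvPolynomial.aeval x Q = ∑ d ∈ Q.support, ((Q.coeff d : ℤ) : F) * ∏ i, x i ^ d i := by
  rw [MvPolynomial.aeval_def, MvPolynomial.eval₂_eq']
  simp

theorem map_aeval {F G : Type} [Field F] [Field G] (f : F →+* G) {n : ℕ} (x : Fin n → F)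
    (Q : MvPolynomial (Fin n) ℤ) :
    f (MvPolynomial.aeval x Q) = MvPolynomial.aeval (fun j => f (x j)) Q := by
  rw [aeval_eq, aeval_eq]
  simp only [map_sum, map_mul, map_prod, map_pow, map_intCast]

theorem card_support_le {n : ℕ} (Q : MvPolynomial (Fin n) ℤ) {N : ℕ}
    (hQ : ∀ i, Q.degreeOf i ≤ N) : Q.support.card ≤ (N + 1) ^ n := by
  classical
  have h1 : Q.support.card ≤ (Fintype.piFinset fun _ : Fin n => Finset.range (N + 1)).card := by
    refine Finset.card_le_card_of_injOn (fun d => (d : Fin n → ℕ)) ?_ ?_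
    · intro d hd
      have hd' : d ∈ Q.support := hd
      refine Finset.mem_coe.mpr (Fintype.mem_piFinset.mpr fun i => Finset.mem_range.mpr ?_)
      exact Nat.lt_succ_of_le ((MvPolynomial.monomial_le_degreeOf i hd').trans (hQ i))
    · intro d _ d' _ h
      exact DFunLike.coe_injective h
  refine h1.trans ?_
  simp

section
variable {K : Type} [Field K] {R : Subring K} (P : Places K R)

theorem arch_bound {n : ℕ} (i : Fin P.D) (x : Fin n → K) (N : ℕ)
    (Q : MvPolynomial (Fin n) ℤ) (hQ : ∀ i, Q.degreeOf i ≤ N)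
    (hQ' : ∀ s, |((Q.coeff s : ℤ) : ℝ)| ≤ Real.exp N) :
    ‖P.σ i (MvPolynomial.aeval x Q)‖ ≤ Real.exp (((n : ℝ) + 1) * N +
      N * ∑ j, max 0 (P.lg (.inl i) (x j))) := by
  rw [map_aeval, aeval_eq]
  set E : ℝ := Real.exp (N * ∑ j, max 0 (P.lg (.inl i) (x j))) with hE
  have h1 : ∀ d ∈ Q.support, ‖((Q.coeff d : ℤ) : ℂ) * ∏ j, P.σ i (x j) ^ d j‖ ≤
      Real.exp N * E := by
    intro d hd
    rw [norm_mul, norm_prod]
    have h2 : ‖((Q.coeff d : ℤ) : ℂ)‖ ≤ Real.exp N := by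
      rw [Complex.norm_intCast]
      exact hQ' d
    have h3 : ∏ j, ‖P.σ i (x j) ^ d j‖ ≤ E := by
      simp only [norm_pow]
      exact prod_le (fun j => norm_nonneg _) fun j =>
        (MvPolynomial.monomial_le_degreeOf j hd).trans (hQ j)
    exact mul_le_mul h2 h3 (Finset.prod_nonneg fun _ _ => norm_nonneg _) (Real.exp_pos _).le
  have h4 : (0 : ℝ) ≤ Real.exp N * E := by positivity
  calc ‖∑ d ∈ Q.support, ((Q.coeff d : ℤ) : ℂ) * ∏ j, P.σ i (x j) ^ d j‖
      ≤ ∑ d ∈ Q.support, Real.exp N * E :=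
        (norm_sum_le _ _).trans (Finset.sum_le_sum h1)
    _ = (Q.support.card : ℝ) * (Real.exp N * E) := by
        rw [Finset.sum_const, nsmul_eq_mul]
    _ ≤ Real.exp N ^ n * (Real.exp N * E) := by
        refine mul_le_mul_of_nonneg_right ?_ h4
        calc (Q.support.card : ℝ) ≤ (((N + 1) ^ n : ℕ) : ℝ) := by
              exact_mod_cast card_support_le Q hQ
          _ = ((N : ℝ) + 1) ^ n := by push_cast; ring
          _ ≤ Real.exp N ^ n :=
              pow_le_pow_left₀ (by positivity) (Real.add_one_le_exp _) n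
    _ = _ := by
        rw [hE, ← Real.exp_nat_mul, ← Real.exp_add, ← Real.exp_add]
        congr 1
        ring

theorem nonarch_bound {n : ℕ} (w : Fin P.m) (x : Fin n → K) (N : ℕ)
    (Q : MvPolynomial (Fin n) ℤ) (hQ : ∀ i, Q.degreeOf i ≤ N) :
    P.v w (MvPolynomial.aeval x Q) ≤ Real.exp (N * ∑ j, max 0 (P.lg (.inr w) (x j))) := by
  rw [aeval_eq]
  refine P.v_sum_le w _ _ (Real.exp_pos _).le fun d hd => ?_
  rw [map_mul, map_prod]
  simp only [map_pow]
  have h3 : ∏ j, P.v w (x j) ^ d j ≤ Real.exp (N * ∑ j, max 0 (P.lg (.inr w) (x j))) :=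
    prod_le (fun j => (P.v w).nonneg _) fun j =>
      (MvPolynomial.monomial_le_degreeOf j hd).trans (hQ j)
  calc P.v w ((Q.coeff d : ℤ) : K) * ∏ j, P.v w (x j) ^ d j
      ≤ 1 * ∏ j, P.v w (x j) ^ d j :=
        mul_le_mul_of_nonneg_right (P.v_int w _)
          (Finset.prod_nonneg fun j _ => pow_nonneg ((P.v w).nonneg _) _)
    _ ≤ _ := by
        rw [one_mul]
        exact h3

theorem aeval_mem {n : ℕ} (x : Fin n → K) (hx : ∀ i, x i ∈ R) (Q : MvPolynomial (Fin n) ℤ) :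
    MvPolynomial.aeval x Q ∈ R := by
  rw [aeval_eq]
  refine R.sum_mem fun d _ => R.mul_mem (intCast_mem R _) ?_
  exact R.prod_mem fun j _ => R.pow_mem (hx j) _

end

end PFD

open PFD in
theorem pfd {n : ℕ} {K : Type} [Field K] {R : Subring K} (P : Places K R) (x : Fin n → K)
    (hx : ∀ i, x i ∈ R) (B θ A : ℝ) (hθ : 0 < θ) (hA : n + 1 + B < θ * A)
    (hB : P.avg (fun w => ∑ i, max 0 (P.lg w (x i))) ≤ B) (N : ℕ) (hN : 1 ≤ N)
    (Q : MvPolynomial (Fin n) ℤ) (hQ : ∀ i, Q.degreeOf i ≤ N)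
    (hQ' : ∀ s, |((Q.coeff s : ℤ) : ℝ)| ≤ Real.exp N)
    (S : Finset (Fin P.D)) (hS : θ * P.D ≤ S.card)
    (hs : ∀ i ∈ S, ‖MvPolynomial.aeval (fun j => P.σ i (x j)) Q‖ ≤ Real.exp (-(A * N))) :
    MvPolynomial.aeval x Q = 0 := by
  by_contra hne
  have hN' : (1 : ℝ) ≤ N := by exact_mod_cast hN
  have hB0 : 0 ≤ B :=
    le_trans (P.avg_nonneg fun w => Finset.sum_nonneg fun i _ => le_max_left _ _) hB
  have hA0 : 0 < A := by
    by_contra h
    have h1 : θ * A ≤ 0 := mul_nonpos_of_nonneg_of_nonpos hθ.le (not_lt.mp h)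
    have h2 : (0 : ℝ) ≤ n := Nat.cast_nonneg n
    linarith
  set m : P.Pl → ℝ := fun w => (((n : ℝ) + 1) * N) * P.arch w +
    (N : ℝ) * ∑ i, max 0 (P.lg w (x i)) with hm
  have hm0 : ∀ w, 0 ≤ m w := by
    intro w
    have h1 := P.arch_nonneg w
    have h2 : 0 ≤ ∑ i, max 0 (P.lg w (x i)) := Finset.sum_nonneg fun i _ => le_max_left _ _
    have h3 : (0 : ℝ) ≤ ((n : ℝ) + 1) * N := by positivity
    exact add_nonneg (mul_nonneg h3 h1) (mul_nonneg (by positivity) h2)
  have hle : ∀ w, P.lg w (MvPolynomial.aeval x Q) ≤ m w := by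
    intro w
    rcases w with i | j
    · have hpos : 0 < ‖P.σ i (MvPolynomial.aeval x Q)‖ := by
        rw [norm_pos_iff]
        intro h
        exact hne ((map_eq_zero (P.σ i)).mp h)
      rw [P.lg_inl, Real.log_le_iff_le_exp hpos, hm]
      simp only [P.arch_inl, mul_one]
      exact arch_bound P i x N Q hQ hQ'
    · have hpos : 0 < P.v j (MvPolynomial.aeval x Q) := (P.v j).pos hne
      rw [P.lg_inr, Real.log_le_iff_le_exp hpos, hm]
      simp only [P.arch_inr, mul_zero, zero_add]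
      exact nonarch_bound P j x N Q hQ
  have hav : P.avg m ≤ ((n : ℝ) + 1) * N + N * B := by
    rw [hm, P.avg_add, P.avg_const_arch, P.avg_mul]
    have h1 := mul_le_mul_of_nonneg_left hB (by positivity : (0 : ℝ) ≤ N)
    linarith
  have hfin := pf0 P (MvPolynomial.aeval x Q) (aeval_mem x hx Q) hne m hm0 hle _ (A * N) θ hav
    (by positivity) S hS ?_
  · have h1 : (N : ℝ) * (n + 1 + B - θ * A) < 0 :=
      mul_neg_of_pos_of_neg (by linarith) (by linarith)
    have h2 : 0 ≤ (N : ℝ) * (n + 1 + B - θ * A) := by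
      calc (0 : ℝ) ≤ ((n : ℝ) + 1) * N + N * B - θ * (A * N) := by linarith
        _ = _ := by ring
    linarith
  · intro i hi
    have hpos : 0 < ‖P.σ i (MvPolynomial.aeval x Q)‖ := by
      rw [norm_pos_iff]
      intro h
      exact hne ((map_eq_zero (P.σ i)).mp h)
    rw [P.lg_inl, Real.log_le_iff_le_exp hpos, map_aeval]
    exact hs i hi

end Pool.Agent.RS
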