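import Pool.Agent.Lib.MP_c95b3b_ag_RS.Defs

/-! Project RS (MP_c95b3b_ag), module AR: local analytic arcs of the zero set of
`∑ N i log |z - a i| + k`. -/

namespace Pool.Agent.RS

open Pool.Agent.L3 Module

namespace ArcAux

open Complex Filter Topology ComplexConjugate

/-- the holomorphic function with real part `phi` near `z0` -/
noncomputable def fz {M : ℕ} (a : Fin M → ℂ) (N : Fin M → ℝ) (z0 z : ℂ) : ℂ :=
  ∑ i, (N i : ℂ) * Complex.log ((z - a i) / (z0 - a i))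

/-- the neighbourhood of `z0` on which the logarithms are holomorphic -/
def U {M : ℕ} (a : Fin M → ℂ) (z0 : ℂ) : Set ℂ :=
  {z | ∀ i, (z - a i) / (z0 - a i) ∈ Complex.slitPlane}

variable {M : ℕ} {a : Fin M → ℂ} {N : Fin M → ℝ} {z0 : ℂ}

theorem isOpen_U : IsOpen (U a z0) := by
  have h : U a z0 = ⋂ i, (fun z : ℂ => (z - a i) / (z0 - a i)) ⁻¹' Complex.slitPlane := by
    ext z
    simp [U]
  rw [h]
  exact isOpen_iInter_of_finite fun i => isOpen_slitPlane.preimage (by fun_prop)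

theorem mem_U (h0 : ∀ i, z0 ≠ a i) : z0 ∈ U a z0 := by
  intro i
  rw [div_self (sub_ne_zero.2 (h0 i))]
  exact one_mem_slitPlane

theorem sub_ne_zero_of_mem {z : ℂ} (hz : z ∈ U a z0) (i : Fin M) : z - a i ≠ 0 := by
  have h1 := slitPlane_ne_zero (hz i)
  intro h
  rw [h, zero_div] at h1
  exact h1 rfl

theorem hasDerivAt_log' {z : ℂ} (hz : z ∈ U a z0) (h0 : ∀ i, z0 ≠ a i) (i : Fin M) :
    HasDerivAt (fun z => Complex.log ((z - a i) / (z0 - a i))) (1 / (z - a i)) z := by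
  have h1 : HasDerivAt (fun z : ℂ => (z - a i) / (z0 - a i)) (1 / (z0 - a i)) z :=
    ((hasDerivAt_id z).sub_const (a i)).div_const (z0 - a i)
  have h2 := h1.clog (hz i)
  have h3 : z0 - a i ≠ 0 := sub_ne_zero.2 (h0 i)
  have h4 : z - a i ≠ 0 := sub_ne_zero_of_mem hz i
  have h5 : 1 / (z0 - a i) / ((z - a i) / (z0 - a i)) = 1 / (z - a i) := by
    field_simp
  rwa [h5] at h2

theorem hasDerivAt_fz {z : ℂ} (hz : z ∈ U a z0) (h0 : ∀ i, z0 ≠ a i) :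
    HasDerivAt (fz a N z0) (∑ i, (N i : ℂ) / (z - a i)) z := by
  have h1 : ∀ i ∈ (Finset.univ : Finset (Fin M)),
      HasDerivAt (fun z => (N i : ℂ) * Complex.log ((z - a i) / (z0 - a i)))
        ((N i : ℂ) * (1 / (z - a i))) z :=
    fun i _ => (hasDerivAt_log' hz h0 i).const_mul _
  have h2 := HasDerivAt.fun_sum h1
  have h3 : ∑ i, (N i : ℂ) / (z - a i) = ∑ i, (N i : ℂ) * (1 / (z - a i)) :=
    Finset.sum_congr rfl fun i _ => by rw [mul_one_div]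
  rw [h3]
  exact h2

theorem re_log' {z : ℂ} (hz : z ∈ U a z0) (h0 : ∀ i, z0 ≠ a i) (i : Fin M) :
    (Complex.log ((z - a i) / (z0 - a i))).re = Real.log ‖z - a i‖ - Real.log ‖z0 - a i‖ := by
  rw [Complex.log_re, norm_div, Real.log_div (norm_ne_zero_iff.2 (sub_ne_zero_of_mem hz i))
    (norm_ne_zero_iff.2 (sub_ne_zero.2 (h0 i)))]

theorem fz_self (h0 : ∀ i, z0 ≠ a i) : fz a N z0 z0 = 0 := by
  unfold fz
  refine Finset.sum_eq_zero fun i _ => ?_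
  rw [div_self (sub_ne_zero.2 (h0 i)), Complex.log_one, mul_zero]

theorem re_fz {z : ℂ} (hz : z ∈ U a z0) (h0 : ∀ i, z0 ≠ a i) (k : ℝ) :
    (fz a N z0 z).re = phi a (N, k) z - phi a (N, k) z0 := by
  unfold fz phi
  rw [Complex.re_sum]
  simp only [Complex.re_ofReal_mul, re_log' hz h0, mul_sub, Finset.sum_sub_distrib]
  ring

/-- the symmetric extension of `log |τ y - a i|` -/
noncomputable def Gf (a : Fin M → ℂ) (z0 : ℂ) (τ : ℂ → ℂ) (i : Fin M) (y : ℂ) : ℂ :=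
  ((Real.log ‖z0 - a i‖ : ℝ) : ℂ) + (Complex.log ((τ y - a i) / (z0 - a i)) +
    conj (Complex.log ((τ (conj y) - a i) / (z0 - a i)))) / 2

theorem Gf_diff {τ : ℂ → ℂ} (h0 : ∀ i, z0 ≠ a i) {R : ℝ}
    (hτ : DifferentiableOn ℂ τ (Metric.ball 0 R)) (hU : ∀ y ∈ Metric.ball (0 : ℂ) R, τ y ∈ U a z0)
    (i : Fin M) : DifferentiableOn ℂ (Gf a z0 τ i) (Metric.ball 0 R) := by
  have key : ∀ y ∈ Metric.ball (0 : ℂ) R,
      DifferentiableAt ℂ (fun y => Complex.log ((τ y - a i) / (z0 - a i))) y := by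
    intro y hy
    have h1 : DifferentiableAt ℂ τ y := hτ.differentiableAt (Metric.isOpen_ball.mem_nhds hy)
    exact (hasDerivAt_log' (hU y hy) h0 i).differentiableAt.comp y h1
  intro y hy
  apply DifferentiableAt.differentiableWithinAt
  have hy' : conj y ∈ Metric.ball (0 : ℂ) R := by
    rw [mem_ball_zero_iff] at hy ⊢
    rwa [RCLike.norm_conj]
  have h2 := (key _ hy').conj_conj
  rw [Complex.conj_conj] at h2
  have h3 : DifferentiableAt ℂ
      (fun y => conj (Complex.log ((τ (conj y) - a i) / (z0 - a i)))) y := h2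
  exact (((key y hy).add h3).div_const 2).const_add _

theorem Gf_real {τ : ℂ → ℂ} (h0 : ∀ i, z0 ≠ a i) {y : ℝ} (hU : τ y ∈ U a z0) (i : Fin M) :
    Gf a z0 τ i y = ((Real.log ‖τ y - a i‖ : ℝ) : ℂ) := by
  unfold Gf
  rw [Complex.conj_ofReal, Complex.add_conj, re_log' hU h0]
  push_cast
  ring

end ArcAux

open Complex Filter Topology in
theorem exists_arc' {M : ℕ} (a : Fin M → ℂ) (d : (Fin M → ℝ) × ℝ) (z0 : ℂ)
    (h0 : ∀ i, z0 ≠ a i) (hz : phi a d z0 = 0) (hd : ∑ i, (d.1 i : ℂ) / (z0 - a i) ≠ 0) :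
    ∃ (τ : ℂ → ℂ) (G : Fin M → ℂ → ℂ), DifferentiableOn ℂ τ (Metric.ball 0 3) ∧
      (∀ i, DifferentiableOn ℂ (G i) (Metric.ball 0 3)) ∧
      (∀ y ∈ Metric.ball (0 : ℂ) 3, ∀ i, τ y ≠ a i) ∧
      (∀ y : ℝ, |y| ≤ 1 → ∀ i, τ y ≠ a i ∧ G i y = ((Real.log ‖τ y - a i‖ : ℝ) : ℂ)) ∧
      ∃ W ∈ nhds z0, ∀ η : ℝ, 0 < η → ∃ ε : ℝ, 0 < ε ∧ ∀ z ∈ W, |phi a d z| ≤ ε →
        ∃ y : ℝ, |y| ≤ 1 ∧ ‖z - τ y‖ ≤ η := by
  obtain ⟨N, k⟩ := d
  have hU0 : z0 ∈ ArcAux.U a z0 := ArcAux.mem_U h0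
  have hUn : ArcAux.U a z0 ∈ 𝓝 z0 := ArcAux.isOpen_U.mem_nhds hU0
  set f : ℂ → ℂ := ArcAux.fz a N z0 with hf
  have hfd : ∀ z ∈ ArcAux.U a z0, HasDerivAt f (∑ i, (N i : ℂ) / (z - a i)) z :=
    fun z hz => ArcAux.hasDerivAt_fz hz h0
  have hdo : DifferentiableOn ℂ f (ArcAux.U a z0) :=
    fun z hz => (hfd z hz).differentiableAt.differentiableWithinAt
  have hcd : ContDiffAt ℂ 1 f z0 := (hdo.analyticAt hUn).contDiffAt
  have hfe := (hfd z0 hU0).hasFDerivAt_equiv hd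
  have hstr := hcd.hasStrictFDerivAt' hfe one_ne_zero
  set ψ : ℂ → ℂ := hcd.localInverse hfe one_ne_zero with hψ
  have hf0 : f z0 = 0 := ArcAux.fz_self h0
  have hψ0 : ψ 0 = z0 := by
    have := hcd.localInverse_apply_image hfe one_ne_zero
    rwa [hf0] at this
  have hleft : ∀ᶠ z in 𝓝 z0, ψ (f z) = z := hstr.eventually_left_inverse
  have hψc : ContDiffAt ℂ 1 ψ 0 := by
    have := hcd.to_localInverse hfe one_ne_zero
    rwa [hf0] at this
  have e1 : ∀ᶠ y in 𝓝 (0 : ℂ), ContDiffAt ℂ 1 ψ y := hψc.eventually (by simp)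
  have e2 : ∀ᶠ y in 𝓝 (0 : ℂ), ψ y ∈ ArcAux.U a z0 := by
    apply hψc.continuousAt
    rw [hψ0]
    exact hUn
  obtain ⟨K, t, ht, hL⟩ := hψc.exists_lipschitzOnWith
  obtain ⟨ρ, hρ, hball⟩ := Metric.eventually_nhds_iff_ball.1 ((e1.and e2).and ht)
  have hs : 0 < ρ / 4 := by positivity
  set s : ℝ := ρ / 4 with hsdef
  have hin : ∀ y : ℂ, ‖y‖ < 3 → I * s * y ∈ Metric.ball (0 : ℂ) ρ := by
    intro y hy
    rw [mem_ball_zero_iff, norm_mul, norm_mul, norm_I, one_mul, Complex.norm_real,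
      Real.norm_of_nonneg hs.le]
    have : s * ‖y‖ ≤ s * 3 := by gcongr
    linarith
  set τ : ℂ → ℂ := fun y => ψ (I * s * y) with hτ
  have hτU : ∀ y ∈ Metric.ball (0 : ℂ) 3, τ y ∈ ArcAux.U a z0 := by
    intro y hy
    rw [mem_ball_zero_iff] at hy
    exact (hball _ (hin y hy)).1.2
  have hτd : DifferentiableOn ℂ τ (Metric.ball 0 3) := by
    intro y hy
    rw [mem_ball_zero_iff] at hy
    apply DifferentiableAt.differentiableWithinAt
    have h1 : DifferentiableAt ℂ ψ (I * s * y) :=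
      (hball _ (hin y hy)).1.1.differentiableAt one_ne_zero
    exact h1.comp y (by fun_prop)
  have hyb : ∀ y : ℝ, |y| ≤ 1 → (y : ℂ) ∈ Metric.ball (0 : ℂ) 3 := by
    intro y hy
    rw [mem_ball_zero_iff, Complex.norm_real, Real.norm_eq_abs]
    linarith
  refine ⟨τ, ArcAux.Gf a z0 τ, hτd, ArcAux.Gf_diff h0 hτd hτU,
    fun y hy i => sub_ne_zero.1 (ArcAux.sub_ne_zero_of_mem (hτU y hy) i),
    fun y hy i => ⟨?_, ?_⟩, ?_⟩
  · exact sub_ne_zero.1 (ArcAux.sub_ne_zero_of_mem (hτU _ (hyb y hy)) i)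
  · exact ArcAux.Gf_real h0 (hτU _ (hyb y hy)) i
  · have e3 : ∀ᶠ z in 𝓝 z0, ‖f z‖ < s := by
      have h1 : ContinuousAt (fun z => ‖f z‖) z0 := (hfd z0 hU0).continuousAt.norm
      have h2 : ‖f z0‖ < s := by rw [hf0, norm_zero]; exact hs
      exact h1.eventually_lt continuousAt_const h2
    refine ⟨{z | (z ∈ ArcAux.U a z0 ∧ ψ (f z) = z) ∧ ‖f z‖ < s},
      (((show ∀ᶠ z in 𝓝 z0, z ∈ ArcAux.U a z0 from hUn).and hleft).and e3), ?_⟩
    intro η hη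
    refine ⟨η / (K + 1), by positivity, ?_⟩
    rintro z ⟨⟨hzU, hzψ⟩, hzs⟩ hphi
    have him : |(f z).im| < s := (Complex.abs_im_le_norm _).trans_lt hzs
    refine ⟨(f z).im / s, ?_, ?_⟩
    · rw [abs_div, abs_of_pos hs, div_le_one hs]
      exact him.le
    · have h1 : I * s * (((f z).im / s : ℝ) : ℂ) = I * (f z).im := by
        have hs' : (s : ℂ) ≠ 0 := by exact_mod_cast hs.ne'
        push_cast
        field_simp
      have h2 : τ (((f z).im / s : ℝ) : ℂ) = ψ (I * (f z).im) := by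
        simp only [hτ, h1]
      have h3 : f z ∈ t := by
        apply (hball _ _).2
        rw [mem_ball_zero_iff]
        linarith
      have h4 : I * (f z).im ∈ t := by
        apply (hball _ _).2
        rw [mem_ball_zero_iff, norm_mul, norm_I, one_mul, Complex.norm_real, Real.norm_eq_abs]
        linarith
      have h5 := hL.dist_le_mul _ h3 _ h4
      rw [dist_eq_norm, dist_eq_norm, hzψ] at h5
      have h6 : f z - I * (f z).im = ((f z).re : ℂ) := by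
        linear_combination -(Complex.re_add_im (f z))
      have h7 : (f z).re = phi a (N, k) z := by
        rw [ArcAux.re_fz hzU h0 k, hz, sub_zero]
      rw [h6, Complex.norm_real, Real.norm_eq_abs, h7] at h5
      rw [h2]
      calc ‖z - ψ (I * (f z).im)‖ ≤ K * |phi a (N, k) z| := h5
        _ ≤ K * (η / (K + 1)) := by gcongr
        _ ≤ (K + 1) * (η / (K + 1)) := by
          gcongr
          linarith
        _ = η := by field_simp

theorem exists_arc {M : ℕ} (a : Fin M → ℂ) (d : (Fin M → ℝ) × ℝ) (z0 : ℂ)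
    (h0 : ∀ i, z0 ≠ a i) (hz : phi a d z0 = 0) (hd : ∑ i, (d.1 i : ℂ) / (z0 - a i) ≠ 0) :
    ∃ (τ : ℂ → ℂ) (G : Fin M → ℂ → ℂ), DifferentiableOn ℂ τ (Metric.ball 0 3) ∧
      (∀ i, DifferentiableOn ℂ (G i) (Metric.ball 0 3)) ∧
      (∀ y : ℝ, |y| ≤ 1 → ∀ i, τ y ≠ a i ∧ G i y = ((Real.log ‖τ y - a i‖ : ℝ) : ℂ)) ∧
      ∃ W ∈ nhds z0, ∀ η : ℝ, 0 < η → ∃ ε : ℝ, 0 < ε ∧ ∀ z ∈ W, |phi a d z| ≤ ε →
        ∃ y : ℝ, |y| ≤ 1 ∧ ‖z - τ y‖ ≤ η := by
  obtain ⟨τ, G, h1, h2, -, h3⟩ := exists_arc' a d z0 h0 hz hd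
  exact ⟨τ, G, h1, h2, h3⟩

end Pool.Agent.RS
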