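import Pool.Agent.Lib.MP_c95b3b_ag_RS.Defs
import Pool.Agent.Lib.MP_c95b3b_ag_RS.Arc

/-! Project RS (MP_c95b3b_ag), module CV: finitely many arcs cover the zeros of `phi` away from
the critical points. -/

namespace Pool.Agent.RS

open Pool.Agent.L3 Module

theorem isCompact_KR {M : ℕ} (a : Fin M → ℂ) (ρ : ℝ) : IsCompact (KR a ρ) := by
  have h1 : KR a ρ = Metric.closedBall 0 ρ ∩ ⋂ i, {z : ℂ | ρ⁻¹ ≤ ‖z - a i‖} := by
    ext z
    simp [KR]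
  rw [h1]
  refine (isCompact_closedBall (0 : ℂ) ρ).inter_right (isClosed_iInter fun i => ?_)
  exact isClosed_le continuous_const (continuous_id.sub continuous_const).norm

theorem crit_finite {M : ℕ} (a : Fin M → ℂ) (ha : Function.Injective a) (N : Fin M → ℝ)
    (hN : N ≠ 0) : {z : ℂ | (∀ i, z ≠ a i) ∧ ∑ i, (N i : ℂ) / (z - a i) = 0}.Finite := by
  classical
  set P : Polynomial ℂ := ∑ i, Polynomial.C (N i : ℂ) *
    ∏ j ∈ Finset.univ.erase i, (Polynomial.X - Polynomial.C (a j)) with hP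
  have heval : ∀ z : ℂ, P.eval z = ∑ i, (N i : ℂ) * ∏ j ∈ Finset.univ.erase i, (z - a j) := by
    intro z
    rw [hP, Polynomial.eval_finsetSum]
    refine Finset.sum_congr rfl fun i _ => ?_
    rw [Polynomial.eval_mul, Polynomial.eval_C, Polynomial.eval_prod]
    congr 1
    refine Finset.prod_congr rfl fun j _ => ?_
    simp
  have hP0 : P ≠ 0 := by
    obtain ⟨i, hi⟩ := Function.ne_iff.mp hN
    intro h
    have h1 := heval (a i)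
    rw [h, Polynomial.eval_zero] at h1
    rw [Finset.sum_eq_single i] at h1
    · have h2 : ∏ j ∈ Finset.univ.erase i, (a i - a j) ≠ 0 := by
        refine Finset.prod_ne_zero_iff.mpr fun j hj => ?_
        rw [sub_ne_zero]
        exact fun e => (Finset.ne_of_mem_erase hj) (ha e).symm
      have h3 : (N i : ℂ) ≠ 0 := by
        simpa using hi
      exact (mul_ne_zero h3 h2) h1.symm
    · intro j _ hji
      have : i ∈ Finset.univ.erase j := Finset.mem_erase.mpr ⟨hji.symm, Finset.mem_univ _⟩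
      rw [Finset.prod_eq_zero this (sub_self _), mul_zero]
    · intro hi'
      exact absurd (Finset.mem_univ i) hi'
  refine (P.roots.toFinset.finite_toSet).subset ?_
  rintro z ⟨hz, hs⟩
  rw [Finset.mem_coe, Multiset.mem_toFinset, Polynomial.mem_roots hP0, Polynomial.IsRoot.def,
    heval]
  have h1 : ∀ i : Fin M, (N i : ℂ) * ∏ j ∈ Finset.univ.erase i, (z - a j) =
      (∏ j, (z - a j)) * ((N i : ℂ) / (z - a i)) := by
    intro i
    have h2 : z - a i ≠ 0 := sub_ne_zero.mpr (hz i)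
    rw [← Finset.mul_prod_erase Finset.univ (fun j => z - a j) (Finset.mem_univ i)]
    field_simp
  rw [Finset.sum_congr rfl fun i _ => h1 i, ← Finset.mul_sum, hs, mul_zero]

namespace Cover

theorem continuousOn_phi {M : ℕ} (a : Fin M → ℂ) (d : (Fin M → ℝ) × ℝ) {ρ : ℝ} (hρ : 0 < ρ) :
    ContinuousOn (fun z => phi a d z) (KR a ρ) := by
  unfold phi
  refine ContinuousOn.add (continuousOn_finsetSum _ fun i _ => ?_) continuousOn_const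
  refine continuousOn_const.mul (ContinuousOn.log ?_ ?_)
  · exact (continuous_id.sub continuous_const).norm.continuousOn
  · intro z hz
    exact norm_ne_zero_iff.mpr (sub_ne_zero_of_mem_KR hρ hz i)

theorem exists_lower {q : ℕ} (f : Fin q → ℝ) (hf : ∀ l, 0 < f l) :
    ∃ ε : ℝ, 0 < ε ∧ ∀ l, ε ≤ f l := by
  rcases Nat.eq_zero_or_pos q with h | h
  · subst h
    exact ⟨1, one_pos, fun l => l.elim0⟩
  · have : Nonempty (Fin q) := ⟨⟨0, h⟩⟩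
    obtain ⟨l, hl⟩ := Finite.exists_min f
    exact ⟨f l, hf l, hl⟩

end Cover

theorem cover' {M : ℕ} (a : Fin M → ℂ) (d : (Fin M → ℝ) × ℝ) (ρ δ : ℝ) (hρ : 0 < ρ)
    (hδ : 0 < δ) :
    ∃ (q : ℕ) (τ : Fin q → ℂ → ℂ) (G : Fin q → Fin M → ℂ → ℂ),
      (∀ l, DifferentiableOn ℂ (τ l) (Metric.ball 0 3)) ∧
      (∀ l i, DifferentiableOn ℂ (G l i) (Metric.ball 0 3)) ∧
      (∀ l, ∀ y ∈ Metric.ball (0 : ℂ) 3, ∀ i, τ l y ≠ a i) ∧
      (∀ l, ∀ y : ℝ, |y| ≤ 1 → ∀ i, τ l y ≠ a i ∧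
        G l i y = ((Real.log ‖τ l y - a i‖ : ℝ) : ℂ)) ∧
      ∀ η : ℝ, 0 < η → ∃ ε : ℝ, 0 < ε ∧ ∀ z ∈ KR a ρ, |phi a d z| ≤ ε →
        (∀ z' : ℂ, (∀ i, z' ≠ a i) → ∑ i, (d.1 i : ℂ) / (z' - a i) = 0 → δ ≤ ‖z - z'‖) →
        ∃ (l : Fin q) (y : ℝ), |y| ≤ 1 ∧ ‖z - τ l y‖ ≤ η := by
  classical
  -- the points far from the critical points
  set Y : Set ℂ := {z | ∀ z' : ℂ, (∀ i, z' ≠ a i) → ∑ i, (d.1 i : ℂ) / (z' - a i) = 0 →
    δ ≤ ‖z - z'‖} with hY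
  have hYc : IsClosed Y := by
    have : Y = ⋂ (z' : ℂ) (_ : ∀ i, z' ≠ a i) (_ : ∑ i, (d.1 i : ℂ) / (z' - a i) = 0),
        {z : ℂ | δ ≤ ‖z - z'‖} := by
      ext z
      simp [hY]
    rw [this]
    refine isClosed_iInter fun z' => isClosed_iInter fun _ => isClosed_iInter fun _ => ?_
    exact isClosed_le continuous_const (continuous_id.sub continuous_const).norm
  have hX1 : IsCompact (KR a ρ ∩ Y) := (isCompact_KR a ρ).inter_right hYc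
  have hcont : ContinuousOn (fun z => phi a d z) (KR a ρ ∩ Y) :=
    (Cover.continuousOn_phi a d hρ).mono Set.inter_subset_left
  have hX0 : IsCompact ((KR a ρ ∩ Y) ∩ (fun z => phi a d z) ⁻¹' {0}) := by
    obtain ⟨u, hu, hu2⟩ := (continuousOn_iff_isClosed.mp hcont) {0} isClosed_singleton
    rw [Set.inter_comm, hu2, Set.inter_comm]
    exact hX1.inter_right hu
  -- local arcs
  have harc : ∀ z0 ∈ (KR a ρ ∩ Y) ∩ (fun z => phi a d z) ⁻¹' {0},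
      ∃ (τ : ℂ → ℂ) (G : Fin M → ℂ → ℂ), DifferentiableOn ℂ τ (Metric.ball 0 3) ∧
      (∀ i, DifferentiableOn ℂ (G i) (Metric.ball 0 3)) ∧
      (∀ y ∈ Metric.ball (0 : ℂ) 3, ∀ i, τ y ≠ a i) ∧
      (∀ y : ℝ, |y| ≤ 1 → ∀ i, τ y ≠ a i ∧ G i y = ((Real.log ‖τ y - a i‖ : ℝ) : ℂ)) ∧
      ∃ W ∈ nhds z0, ∀ η : ℝ, 0 < η → ∃ ε : ℝ, 0 < ε ∧ ∀ z ∈ W, |phi a d z| ≤ ε →
        ∃ y : ℝ, |y| ≤ 1 ∧ ‖z - τ y‖ ≤ η := by
    rintro z0 ⟨⟨hz0, hz0Y⟩, hz0p⟩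
    have hne : ∀ i, z0 ≠ a i := fun i => sub_ne_zero.mp (sub_ne_zero_of_mem_KR hρ hz0 i)
    refine exists_arc' a d z0 hne hz0p fun h => ?_
    have := hz0Y z0 hne h
    rw [sub_self, norm_zero] at this
    linarith
  choose! τ G hτ hG hball hval W hW hWη using harc
  obtain ⟨t, htX, htc⟩ := hX0.elim_nhds_subcover (fun z => interior (W z))
    (fun z hz => interior_mem_nhds.mpr (hW z hz))
  -- index by `Fin`
  let e : Fin t.card ≃ t := t.equivFin.symm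
  have he : ∀ l, ((e l : t) : ℂ) ∈ (KR a ρ ∩ Y) ∩ (fun z => phi a d z) ⁻¹' {0} :=
    fun l => htX _ (e l).2
  refine ⟨t.card, fun l => τ (e l), fun l => G (e l), fun l => hτ _ (he l),
    fun l i => hG _ (he l) i, fun l y hy i => hball _ (he l) y hy i,
    fun l y hy i => hval _ (he l) y hy i, ?_⟩
  intro η hη
  have hex : ∀ l : Fin t.card, ∃ ε : ℝ, 0 < ε ∧ ∀ z ∈ W (e l), |phi a d z| ≤ ε →
      ∃ y : ℝ, |y| ≤ 1 ∧ ‖z - τ (e l) y‖ ≤ η := fun l => hWη _ (he l) η hη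
  choose εl hεl hεl2 using hex
  obtain ⟨ε1, hε1, hε1l⟩ := Cover.exists_lower εl hεl
  -- the rest
  have hX2 : IsCompact ((KR a ρ ∩ Y) \ ⋃ x ∈ t, interior (W x)) :=
    hX1.diff (isOpen_biUnion fun x _ => isOpen_interior)
  have hpos : ∀ z ∈ (KR a ρ ∩ Y) \ ⋃ x ∈ t, interior (W x), 0 < |phi a d z| := by
    rintro z ⟨hz1, hz2⟩
    rw [abs_pos]
    intro h
    exact hz2 (htc ⟨hz1, h⟩)
  obtain ⟨ε0, hε0, hε0z⟩ := hX2.exists_forall_le' (f := fun z => |phi a d z|)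
    ((hcont.mono Set.sdiff_subset).abs) hpos
  refine ⟨min (ε0 / 2) ε1, lt_min (by linarith) hε1, ?_⟩
  intro z hz hzε hzY
  have hzX1 : z ∈ KR a ρ ∩ Y := ⟨hz, hzY⟩
  by_cases hzU : z ∈ ⋃ x ∈ t, interior (W x)
  · rw [Set.mem_iUnion₂] at hzU
    obtain ⟨x, hx, hzx⟩ := hzU
    have hex : ((e (e.symm ⟨x, hx⟩) : t) : ℂ) = x := by rw [Equiv.apply_symm_apply]
    have hzW : z ∈ W (e (e.symm ⟨x, hx⟩) : t) := by
      rw [hex]
      exact interior_subset hzx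
    obtain ⟨y, hy1, hy2⟩ := hεl2 (e.symm ⟨x, hx⟩) z hzW
      ((hzε.trans (min_le_right _ _)).trans (hε1l _))
    exact ⟨e.symm ⟨x, hx⟩, y, hy1, hy2⟩
  · exfalso
    have h1 := hε0z z ⟨hzX1, hzU⟩
    have h2 := hzε.trans (min_le_left _ _)
    linarith

theorem cover {M : ℕ} (a : Fin M → ℂ) (d : (Fin M → ℝ) × ℝ) (ρ δ : ℝ) (hρ : 0 < ρ)
    (hδ : 0 < δ) :
    ∃ (q : ℕ) (τ : Fin q → ℂ → ℂ) (G : Fin q → Fin M → ℂ → ℂ),
      (∀ l, DifferentiableOn ℂ (τ l) (Metric.ball 0 3)) ∧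
      (∀ l i, DifferentiableOn ℂ (G l i) (Metric.ball 0 3)) ∧
      (∀ l, ∀ y : ℝ, |y| ≤ 1 → ∀ i, τ l y ≠ a i ∧
        G l i y = ((Real.log ‖τ l y - a i‖ : ℝ) : ℂ)) ∧
      ∀ η : ℝ, 0 < η → ∃ ε : ℝ, 0 < ε ∧ ∀ z ∈ KR a ρ, |phi a d z| ≤ ε →
        (∀ z' : ℂ, (∀ i, z' ≠ a i) → ∑ i, (d.1 i : ℂ) / (z' - a i) = 0 → δ ≤ ‖z - z'‖) →
        ∃ (l : Fin q) (y : ℝ), |y| ≤ 1 ∧ ‖z - τ l y‖ ≤ η := by
  obtain ⟨q, τ, G, h1, h2, _, h4, h5⟩ := cover' a d ρ δ hρ hδ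
  exact ⟨q, τ, G, h1, h2, h4, h5⟩

end Pool.Agent.RS
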