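import Pool.Agent.Lib.MP_c95b3b_ag_RS.Defs
import Pool.Agent.Lib.MP_c95b3b_ag_RS.T0
import Pool.Agent.Lib.MP_c95b3b_ag_RS.Cover

/-!
# Project RS (MP_c95b3b_ag), module T0U: compact families of pairs
-/

namespace Pool.Agent.RS

open Pool.Agent.L3 Module

namespace T0U

theorem phi_cont {M : ℕ} (a : Fin M → ℂ) {d0 : (Fin M → ℝ) × ℝ} {z0 : ℂ}
    (h : ∀ i, z0 - a i ≠ 0) :
    ContinuousAt (fun x : ((Fin M → ℝ) × ℝ) × ℂ => phi a x.1 x.2) (d0, z0) := by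
  have h1 : ∀ i, ContinuousAt
      (fun x : ((Fin M → ℝ) × ℝ) × ℂ => x.1.1 i * Real.log ‖x.2 - a i‖) (d0, z0) := by
    intro i
    refine ContinuousAt.mul (by fun_prop) (ContinuousAt.log (by fun_prop) ?_)
    exact norm_ne_zero_iff.2 (h i)
  have h2 : ContinuousAt (fun x : ((Fin M → ℝ) × ℝ) × ℂ => x.1.2) (d0, z0) := by fun_prop
  have h3 : ContinuousAt (fun x : ((Fin M → ℝ) × ℝ) × ℂ =>
      ∑ i, x.1.1 i * Real.log ‖x.2 - a i‖) (d0, z0) :=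
    tendsto_finsetSum _ fun i _ => h1 i
  exact h3.add h2

/-- the sum of the absolute values of the two functions -/
noncomputable def hh {M : ℕ} (a : Fin M → ℂ)
    (x : (((Fin M → ℝ) × ℝ) × ((Fin M → ℝ) × ℝ)) × ℂ) : ℝ :=
  |phi a x.1.1 x.2| + |phi a x.1.2 x.2|

theorem hh_cont {M : ℕ} (a : Fin M → ℂ) {d0 : ((Fin M → ℝ) × ℝ) × ((Fin M → ℝ) × ℝ)} {z0 : ℂ}
    (h : ∀ i, z0 - a i ≠ 0) : ContinuousAt (hh a) (d0, z0) := by
  have h1 : ContinuousAt (fun x : (((Fin M → ℝ) × ℝ) × ((Fin M → ℝ) × ℝ)) × ℂ =>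
      phi a x.1.1 x.2) (d0, z0) := by
    have h2 : ContinuousAt (fun x : (((Fin M → ℝ) × ℝ) × ((Fin M → ℝ) × ℝ)) × ℂ =>
        (x.1.1, x.2)) (d0, z0) := by fun_prop
    exact ContinuousAt.comp (x := (d0, z0)) (f := fun x : (((Fin M → ℝ) × ℝ) ×
      ((Fin M → ℝ) × ℝ)) × ℂ => (x.1.1, x.2)) (g := fun x : ((Fin M → ℝ) × ℝ) × ℂ =>
      phi a x.1 x.2) (phi_cont a (d0 := d0.1) h) h2
  have h3 : ContinuousAt (fun x : (((Fin M → ℝ) × ℝ) × ((Fin M → ℝ) × ℝ)) × ℂ =>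
      phi a x.1.2 x.2) (d0, z0) := by
    have h4 : ContinuousAt (fun x : (((Fin M → ℝ) × ℝ) × ((Fin M → ℝ) × ℝ)) × ℂ =>
        (x.1.2, x.2)) (d0, z0) := by fun_prop
    exact ContinuousAt.comp (x := (d0, z0)) (f := fun x : (((Fin M → ℝ) × ℝ) ×
      ((Fin M → ℝ) × ℝ)) × ℂ => (x.1.2, x.2)) (g := fun x : ((Fin M → ℝ) × ℝ) × ℂ =>
      phi a x.1 x.2) (phi_cont a (d0 := d0.2) h) h4
  exact h1.abs.add h3.abs

/-- the bound away from the common zeros, near one pair -/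
theorem near {M : ℕ} (a : Fin M → ℂ) (d0 : ((Fin M → ℝ) × ℝ) × ((Fin M → ℝ) × ℝ)) {ρ δ : ℝ}
    (hρ : 0 < ρ) (hδ : 0 < δ) {q : ℕ} (zz : Fin q → ℂ)
    (hz : ∀ z, z ∈ KR a ρ → phi a d0.1 z = 0 → phi a d0.2 z = 0 → ∃ l, z = zz l) :
    ∃ c : ℝ, 0 < c ∧ ∀ᶠ d in nhds d0, ∀ z, z ∈ KR a ρ → hh a (d, z) ≤ c →
      ∃ l, ‖z - zz l‖ ≤ δ := by
  set Kd : Set ℂ := KR a ρ ∩ {z | ∀ l, δ ≤ ‖z - zz l‖} with hKd
  have hcl : IsClosed {z : ℂ | ∀ l, δ ≤ ‖z - zz l‖} := by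
    simp only [Set.ofPred_forall]
    exact isClosed_iInter fun l => isClosed_le continuous_const (by fun_prop)
  have hKc : IsCompact Kd := (isCompact_KR a ρ).inter_right hcl
  have hcont : ContinuousOn (fun z => hh a (d0, z)) Kd := by
    intro z hz
    have h1 := hh_cont a (d0 := d0) (fun i => sub_ne_zero_of_mem_KR hρ hz.1 i)
    have h2 : ContinuousAt (fun z : ℂ => (d0, z)) z := by fun_prop
    exact (ContinuousAt.comp (g := hh a) h1 h2).continuousWithinAt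
  have hpos : ∀ z ∈ Kd, 0 < hh a (d0, z) := by
    intro z hzK
    by_contra hcon
    have h1 : 0 ≤ |phi a d0.1 z| := abs_nonneg _
    have h2 : 0 ≤ |phi a d0.2 z| := abs_nonneg _
    have h3 : |phi a d0.1 z| + |phi a d0.2 z| ≤ 0 := not_lt.1 hcon
    have h4 : phi a d0.1 z = 0 := abs_eq_zero.1 (by linarith)
    have h5 : phi a d0.2 z = 0 := abs_eq_zero.1 (by linarith)
    obtain ⟨l, hl⟩ := hz z hzK.1 h4 h5
    have h6 := hzK.2 l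
    rw [hl, sub_self, norm_zero] at h6
    linarith
  obtain ⟨c, hc, hcK⟩ : ∃ c : ℝ, 0 < c ∧ ∀ z ∈ Kd, c < hh a (d0, z) := by
    rcases Kd.eq_empty_or_nonempty with he | hne
    · exact ⟨1, one_pos, fun z hz => by rw [he] at hz; exact absurd hz (Set.notMem_empty z)⟩
    · obtain ⟨z1, hz1, hmin⟩ := hKc.exists_isMinOn hne hcont
      refine ⟨hh a (d0, z1) / 2, half_pos (hpos z1 hz1), fun z hz => ?_⟩
      have h1 : hh a (d0, z1) ≤ hh a (d0, z) := hmin hz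
      have h2 := hpos z1 hz1
      linarith
  refine ⟨c, hc, ?_⟩
  have hev : ∀ᶠ d in nhds d0, ∀ z ∈ Kd, c < hh a (d, z) := by
    refine hKc.eventually_forall_of_forall_eventually fun z hz => ?_
    have h1 := hh_cont a (d0 := d0) (fun i => sub_ne_zero_of_mem_KR hρ hz.1 i)
    exact h1.eventually (lt_mem_nhds (hcK z hz))
  filter_upwards [hev] with d hd z hzK hle
  by_contra hcon
  simp only [not_exists, not_le] at hcon
  have := hd z ⟨hzK, fun l => (hcon l).le⟩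
  linarith

/-- the statement for a set of pairs -/
def Good {M : ℕ} (a : Fin M → ℂ) (ρ B θ : ℝ)
    (s : Set (((Fin M → ℝ) × ℝ) × ((Fin M → ℝ) × ℝ))) : Prop :=
  ∃ ε : ℝ, 0 < ε ∧ ∃ f : Polynomial ℤ, f ≠ 0 ∧
    ∀ (K : Type) [Field K] (R : Subring K) (P : Places K R) (t : K), t ∈ R →
      P.avg (fun w => max 0 (P.lg w t)) ≤ B →
      ∀ d ∈ s, (∃ S : Finset (Fin P.D), θ * P.D ≤ S.card ∧ ∀ i ∈ S, P.σ i t ∈ KR a ρ ∧
        |phi a d.1 (P.σ i t)| ≤ ε ∧ |phi a d.2 (P.σ i t)| ≤ ε) →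
      Polynomial.aeval t f = 0

end T0U

theorem t0_unif {M : ℕ} (a : Fin M → ℂ)
    (D : Set (((Fin M → ℝ) × ℝ) × ((Fin M → ℝ) × ℝ))) (hD : IsCompact D) (ρ B θ : ℝ)
    (hρ : 0 < ρ) (hθ : 0 < θ)
    (hfin : ∀ d ∈ D, {z : ℂ | z ∈ KR a ρ ∧ phi a d.1 z = 0 ∧ phi a d.2 z = 0}.Finite) :
    ∃ ε : ℝ, 0 < ε ∧ ∃ f : Polynomial ℤ, f ≠ 0 ∧
      ∀ (K : Type) [Field K] (R : Subring K) (P : Places K R) (t : K), t ∈ R →
        P.avg (fun w => max 0 (P.lg w t)) ≤ B →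
        ∀ d ∈ D, (∃ S : Finset (Fin P.D), θ * P.D ≤ S.card ∧ ∀ i ∈ S, P.σ i t ∈ KR a ρ ∧
          |phi a d.1 (P.σ i t)| ≤ ε ∧ |phi a d.2 (P.σ i t)| ≤ ε) →
        Polynomial.aeval t f = 0 := by
  refine hD.induction_on (p := T0U.Good a ρ B θ) ?_ ?_ ?_ ?_
  · exact ⟨1, one_pos, 1, one_ne_zero, fun K _ R P t _ _ d hd => absurd hd (Set.notMem_empty d)⟩
  · rintro s t hst ⟨ε, hε, f, hf, h⟩
    exact ⟨ε, hε, f, hf, fun K _ R P t ht hB d hd => h K R P t ht hB d (hst hd)⟩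
  · rintro s1 s2 ⟨ε1, hε1, f1, hf1, h1⟩ ⟨ε2, hε2, f2, hf2, h2⟩
    refine ⟨min ε1 ε2, lt_min hε1 hε2, f1 * f2, mul_ne_zero hf1 hf2, ?_⟩
    rintro K _ R P t ht hB d hd ⟨S, hS, hi⟩
    rw [map_mul]
    rcases hd with hd | hd
    · rw [h1 K R P t ht hB d hd ⟨S, hS, fun i his => ⟨(hi i his).1,
        (hi i his).2.1.trans (min_le_left _ _), (hi i his).2.2.trans (min_le_left _ _)⟩⟩, zero_mul]
    · rw [h2 K R P t ht hB d hd ⟨S, hS, fun i his => ⟨(hi i his).1,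
        (hi i his).2.1.trans (min_le_right _ _), (hi i his).2.2.trans (min_le_right _ _)⟩⟩,
        mul_zero]
  · intro d0 hd0
    have hf0 := hfin d0 hd0
    set Z := hf0.toFinset with hZ
    set zz : Fin Z.card → ℂ := fun l => (Z.equivFin.symm l : ℂ) with hzz
    obtain ⟨δ, hδ, f, hf, h⟩ := t0 zz B θ hθ
    obtain ⟨c, hc, hev⟩ := T0U.near a d0 hρ hδ zz (by
      intro z h1 h2 h3
      have hzZ : z ∈ Z := hf0.mem_toFinset.2 ⟨h1, h2, h3⟩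
      exact ⟨Z.equivFin ⟨z, hzZ⟩, by simp [hzz]⟩)
    refine ⟨_, mem_nhdsWithin_of_mem_nhds hev, c / 2, half_pos hc, f, hf, ?_⟩
    rintro K _ R P t ht hB d hd ⟨S, hS, hi⟩
    refine h K R P t ht hB ⟨S, hS, fun i his => ?_⟩
    obtain ⟨g1, g2, g3⟩ := hi i his
    refine hd (P.σ i t) g1 ?_
    have : T0U.hh a (d, P.σ i t) = |phi a d.1 (P.σ i t)| + |phi a d.2 (P.σ i t)| := rfl
    rw [this]
    linarith

end Pool.Agent.RS
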