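import Mathlib
import Pool.Agent.Lib.MP_c95b3b_ag_RS.Defs
import Pool.Agent.Lib.MP_c95b3b_ag_RS.Cover
import Pool.Agent.Lib.MP_c95b3b_ag_RS.T0Unif

/-! Project RS (MP_c95b3b_ag), module MN: the theorem over number fields. -/

namespace Pool.Agent.RS

open Pool.Agent.L3 Module

namespace MN

/-- Markov's inequality for a set of embeddings -/
theorem markov {K : Type} [Field K] {R : Subring K} (P : Places K R) (f : P.Pl → ℝ)
    (hf : ∀ w, 0 ≤ f w) {b κ c : ℝ} (hb : P.avg f ≤ b) (hc : 0 < c) (hbc : b ≤ c * (κ / 2))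
    (S0 : Finset (Fin P.D)) (hS0 : κ * P.D ≤ S0.card) :
    ∃ S ⊆ S0, κ / 2 * P.D ≤ S.card ∧ ∀ i ∈ S, f (.inl i) ≤ c := by
  classical
  refine ⟨S0.filter (fun i => f (.inl i) ≤ c), Finset.filter_subset _ _, ?_, fun i hi =>
    (Finset.mem_filter.mp hi).2⟩
  have h1 := P.sum_le_of_avg_le hb
  have h2 := P.sum_inl_le hf
  have h3 : c * (S0.filter (fun i => ¬ f (.inl i) ≤ c)).card ≤ ∑ i, f (.inl i) := by
    calc c * ((S0.filter (fun i => ¬ f (.inl i) ≤ c)).card : ℝ)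
        = ∑ i ∈ S0.filter (fun i => ¬ f (.inl i) ≤ c), c := by
          rw [Finset.sum_const, nsmul_eq_mul, mul_comm]
      _ ≤ ∑ i ∈ S0.filter (fun i => ¬ f (.inl i) ≤ c), f (.inl i) :=
          Finset.sum_le_sum fun i hi => (not_le.mp (Finset.mem_filter.mp hi).2).le
      _ ≤ ∑ i, f (.inl i) :=
          Finset.sum_le_sum_of_subset_of_nonneg (Finset.subset_univ _) fun i _ _ => hf _
  have h4 : ((S0.filter (fun i => f (.inl i) ≤ c)).card : ℝ) +
      ((S0.filter (fun i => ¬ f (.inl i) ≤ c)).card : ℝ) = S0.card := by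
    exact_mod_cast Finset.card_filter_add_card_filter_not (s := S0) (fun i => f (.inl i) ≤ c)
  have hD := P.D_cast_pos
  have h5 : b * P.D ≤ c * (κ / 2) * P.D := mul_le_mul_of_nonneg_right hbc hD.le
  have h6 : c * ((S0.filter (fun i => ¬ f (.inl i) ≤ c)).card : ℝ) ≤ c * (κ / 2 * P.D) := by
    linarith
  have h7 := le_of_mul_le_mul_left h6 hc
  linarith

theorem real_indep {m M : ℕ} {n : Fin m → Fin M → ℤ} (hn : LinearIndependent ℤ n)
    (r : Fin m → ℝ) (hr : ∀ i, ∑ j, r j * n j i = 0) : r = 0 := by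
  have h1 : LinearIndependent ℝ (fun j => algebraMap ℤ ℝ ∘ n j) :=
    linearIndependent_algebraMap_comp_iff.2 hn
  rw [Fintype.linearIndependent_iff] at h1
  funext j
  refine h1 r ?_ j
  funext i
  rw [Finset.sum_apply]
  simpa using hr i

/-- the data of `∑ r j log |x j|` -/
noncomputable def dat {m M : ℕ} (c : Fin m → ℂ) (n : Fin m → Fin M → ℤ)
    (r : EuclideanSpace ℝ (Fin m)) : (Fin M → ℝ) × ℝ :=
  (fun i => ∑ j, r j * n j i, ∑ j, r j * Real.log ‖c j‖)

/-- the data of `log |rf|` -/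
noncomputable def dat0 {M : ℕ} (c : ℂ) (n : Fin M → ℤ) : (Fin M → ℝ) × ℝ :=
  (fun i => (n i : ℝ), Real.log ‖c‖)

theorem phi_dat0 {M : ℕ} (a : Fin M → ℂ) {c : ℂ} (hc : c ≠ 0) (n : Fin M → ℤ) {z : ℂ}
    (hz : ∀ i, z - a i ≠ 0) : phi a (dat0 c n) z = Real.log ‖rf a c n z‖ := by
  rw [log_norm_rf a n hc hz, phi, dat0, add_comm]

theorem phi_dat {m M : ℕ} (a : Fin M → ℂ) {c : Fin m → ℂ} (hc : ∀ j, c j ≠ 0)
    (n : Fin m → Fin M → ℤ) (r : EuclideanSpace ℝ (Fin m)) {z : ℂ} (hz : ∀ i, z - a i ≠ 0) :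
    phi a (dat c n r) z = ∑ j, r j * Real.log ‖rf a (c j) (n j) z‖ := by
  have h1 : ∀ j, r j * Real.log ‖rf a (c j) (n j) z‖ =
      r j * Real.log ‖c j‖ + ∑ i, r j * n j i * Real.log ‖z - a i‖ := by
    intro j
    rw [log_norm_rf a (n j) (hc j) hz, mul_add, Finset.mul_sum]
    congr 1
    exact Finset.sum_congr rfl fun i _ => by ring
  rw [phi, dat, Finset.sum_congr rfl fun j _ => h1 j, Finset.sum_add_distrib, add_comm]
  congr 1
  rw [Finset.sum_comm]
  refine Finset.sum_congr rfl fun i _ => ?_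
  rw [Finset.sum_mul]

theorem continuous_dat {m M : ℕ} (c : Fin m → ℂ) (n : Fin m → Fin M → ℤ) :
    Continuous (dat c n) := by
  unfold dat
  refine Continuous.prodMk ?_ ?_
  · refine continuous_pi fun i => ?_
    fun_prop
  · fun_prop

theorem dat_add {m M : ℕ} (c : Fin m → ℂ) (n : Fin m → Fin M → ℤ)
    (r s : EuclideanSpace ℝ (Fin m)) : dat c n (r + s) = dat c n r + dat c n s := by
  unfold dat
  ext i
  · simp [add_mul, Finset.sum_add_distrib]
  · simp [add_mul, Finset.sum_add_distrib]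

theorem phi_add {M : ℕ} (a : Fin M → ℂ) (d e : (Fin M → ℝ) × ℝ) (z : ℂ) :
    phi a (d + e) z = phi a d z + phi a e z := by
  simp only [phi, Prod.fst_add, Prod.snd_add, Pi.add_apply, add_mul, Finset.sum_add_distrib]
  ring

theorem continuousOn_phi {M : ℕ} (a : Fin M → ℂ) (d : (Fin M → ℝ) × ℝ) {ρ : ℝ} (hρ : 0 < ρ) :
    ContinuousOn (phi a d) (KR a ρ) := by
  unfold phi
  refine ContinuousOn.add (continuousOn_finsetSum _ fun i _ => ?_) continuousOn_const
  refine ContinuousOn.mul continuousOn_const (ContinuousOn.log ?_ fun z hz => ?_)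
  · fun_prop
  · exact norm_ne_zero_iff.mpr (sub_ne_zero_of_mem_KR hρ hz i)

theorem phi_bdd {M : ℕ} (a : Fin M → ℂ) (d : (Fin M → ℝ) × ℝ) {ρ : ℝ} (hρ : 0 < ρ) :
    ∃ C : ℝ, 0 ≤ C ∧ ∀ z ∈ KR a ρ, |phi a d z| ≤ C := by
  obtain ⟨C, hC⟩ := (isCompact_KR a ρ).exists_bound_of_continuousOn (continuousOn_phi a d hρ)
  exact ⟨max C 0, le_max_right _ _, fun z hz => (hC z hz).trans (le_max_left _ _)⟩

/-- a polynomial in the first variable -/
theorem aeval_first {F : Type} [Field F] (f : Polynomial ℤ) (x y : F) :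
    MvPolynomial.aeval ![x, y] (Polynomial.aeval (MvPolynomial.X 0 : MvPolynomial (Fin 2) ℤ) f) =
      Polynomial.aeval x f := by
  have h := (Polynomial.aeval_algHom_apply
    (MvPolynomial.aeval ![x, y] : MvPolynomial (Fin 2) ℤ →ₐ[ℤ] F) (MvPolynomial.X 0) f).symm
  rw [MvPolynomial.aeval_X] at h
  exact h

theorem first_ne_zero {f : Polynomial ℤ} (hf : f ≠ 0) :
    Polynomial.aeval (MvPolynomial.X 0 : MvPolynomial (Fin 2) ℤ) f ≠ 0 := by
  intro h
  have h1 := MvPolynomial.transcendental_X ℤ (0 : Fin 2)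
  rw [transcendental_iff] at h1
  exact hf (h1 f h)

theorem t0_pairs {m M : ℕ} (a : Fin M → ℂ) (c : Fin m → ℂ) (hc : ∀ j, c j ≠ 0)
    (n : Fin m → Fin M → ℤ) (hNC : NC {t : ℂ | ∀ i, t ≠ a i} (fun j => rf a (c j) (n j)))
    (ρ B θ : ℝ) (hρ : 0 < ρ) (hθ : 0 < θ) :
    ∃ ε : ℝ, 0 < ε ∧ ∃ f : Polynomial ℤ, f ≠ 0 ∧
      ∀ (K : Type) [Field K] (R : Subring K) (P : Places K R) (t : K), t ∈ R →
        P.avg (fun w => max 0 (P.lg w t)) ≤ B →
        ∀ r s : EuclideanSpace ℝ (Fin m), ‖r‖ = 1 → ‖s‖ = 1 → inner ℝ r s = 0 →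
        (∃ S : Finset (Fin P.D), θ * P.D ≤ S.card ∧ ∀ i ∈ S, P.σ i t ∈ KR a ρ ∧
          |phi a (dat c n r) (P.σ i t)| ≤ ε ∧ |phi a (dat c n s) (P.σ i t)| ≤ ε) →
        Polynomial.aeval t f = 0 := by
  let T : Set (EuclideanSpace ℝ (Fin m) × EuclideanSpace ℝ (Fin m)) :=
    {x | ‖x.1‖ = 1 ∧ ‖x.2‖ = 1 ∧ inner ℝ x.1 x.2 = 0}
  have hT : IsCompact T := by
    refine Metric.isCompact_of_isClosed_isBounded ?_ ?_
    · refine IsClosed.inter ?_ (IsClosed.inter ?_ ?_)
      · exact isClosed_eq (by fun_prop) continuous_const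
      · exact isClosed_eq (by fun_prop) continuous_const
      · exact isClosed_eq (by fun_prop) continuous_const
    · refine (Metric.isBounded_closedBall (x := (0 : EuclideanSpace ℝ (Fin m) ×
        EuclideanSpace ℝ (Fin m))) (r := 1)).subset fun x hx => ?_
      rw [mem_closedBall_zero_iff, Prod.norm_def]
      exact max_le hx.1.le hx.2.1.le
  let D : Set (((Fin M → ℝ) × ℝ) × ((Fin M → ℝ) × ℝ)) :=
    (fun x : EuclideanSpace ℝ (Fin m) × EuclideanSpace ℝ (Fin m) =>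
      (dat c n x.1, dat c n x.2)) '' T
  have hD : IsCompact D := by
    refine hT.image ?_
    exact ((continuous_dat c n).comp continuous_fst).prodMk
      ((continuous_dat c n).comp continuous_snd)
  have hfin : ∀ d ∈ D, {z : ℂ | z ∈ KR a ρ ∧ phi a d.1 z = 0 ∧ phi a d.2 z = 0}.Finite := by
    rintro d ⟨⟨r, s⟩, ⟨hr, hs, hrs⟩, rfl⟩
    simp only at hr hs hrs
    have hli : LinearIndependent ℝ ![(r : Fin m → ℝ), (s : Fin m → ℝ)] := by
      rw [LinearIndependent.pair_iff]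
      intro x y hxy
      have h1 : x • r + y • s = 0 := by
        ext j
        have := congrFun hxy j
        simpa using this
      have h2 : inner ℝ r (x • r + y • s) = x := by
        rw [inner_add_right, inner_smul_right, inner_smul_right, hrs, real_inner_self_eq_norm_sq,
          hr]
        ring
      have h3 : inner ℝ s (x • r + y • s) = y := by
        rw [inner_add_right, inner_smul_right, inner_smul_right, real_inner_comm, hrs,
          real_inner_self_eq_norm_sq, hs]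
        ring
      rw [h1, inner_zero_right] at h2 h3
      exact ⟨h2.symm, h3.symm⟩
    refine (hNC r s hli).subset ?_
    rintro z ⟨hz, hz1, hz2⟩
    have hz' : ∀ i, z - a i ≠ 0 := fun i => sub_ne_zero_of_mem_KR hρ hz i
    simp only at hz1 hz2
    rw [phi_dat a hc n _ hz'] at hz1 hz2
    exact ⟨fun i => sub_ne_zero.mp (hz' i), hz1, hz2⟩
  obtain ⟨ε, hε, f, hf, H⟩ := t0_unif a D hD ρ B θ hρ hθ hfin
  refine ⟨ε, hε, f, hf, fun K _ R P t ht hB r s hr hs hrs hS => ?_⟩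
  exact H K R P t ht hB (dat c n r, dat c n s) ⟨(r, s), ⟨hr, hs, hrs⟩, rfl⟩ hS

end MN

end Pool.Agent.RS
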