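import Pool.Agent.Lib.MP_c95b3b_ag_RS.DefsD

/-! Project RSd (MP_c95b3b_ag), module LAD: linear algebra of `d + 1` relations. -/

namespace Pool.Agent.RS

open Pool.Agent.L3 Module

theorem lin_alg_d {d m : ℕ} (V : Submodule ℝ ((Fin d → ℝ) × EuclideanSpace ℝ (Fin m)))
    (hV : d + 1 ≤ finrank ℝ V) :
    (∃ r s : EuclideanSpace ℝ (Fin m), ‖r‖ = 1 ∧ ‖s‖ = 1 ∧ inner ℝ r s = 0 ∧
      (0, r) ∈ V ∧ (0, s) ∈ V) ∨
    (∃ (r : EuclideanSpace ℝ (Fin m)) (M : (Fin d → ℝ) →ₗ[ℝ] EuclideanSpace ℝ (Fin m)),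
      ‖r‖ = 1 ∧ (0, r) ∈ V ∧ ∀ κ, inner ℝ r (M κ) = 0 ∧ (κ, -M κ) ∈ V) := by
  set V0 : Submodule ℝ (EuclideanSpace ℝ (Fin m)) :=
    V.comap (LinearMap.inr ℝ (Fin d → ℝ) (EuclideanSpace ℝ (Fin m))) with hV0
  have hmem : ∀ r, r ∈ V0 → (0, r) ∈ V := fun r hr => by
    rw [hV0, Submodule.mem_comap] at hr
    exact hr
  let π : V →ₗ[ℝ] (Fin d → ℝ) :=
    (LinearMap.fst ℝ (Fin d → ℝ) (EuclideanSpace ℝ (Fin m))).comp V.subtype
  have hker : ∀ x : LinearMap.ker π, x.1.1.1 = 0 := fun x => LinearMap.mem_ker.1 x.2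
  let j : LinearMap.ker π →ₗ[ℝ] V0 :=
    { toFun := fun x => ⟨x.1.1.2, by
        rw [hV0, Submodule.mem_comap]
        have h1 : (LinearMap.inr ℝ (Fin d → ℝ) (EuclideanSpace ℝ (Fin m))) x.1.1.2 = x.1.1 := by
          refine Prod.ext ?_ rfl
          exact (hker x).symm
        rw [h1]
        exact x.1.2⟩
      map_add' := fun x y => rfl
      map_smul' := fun c x => rfl }
  have hj : Function.Injective j := by
    intro x y hxy
    have h1 : x.1.1.2 = y.1.1.2 := congrArg Subtype.val hxy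
    refine Subtype.ext (Subtype.ext (Prod.ext ?_ h1))
    rw [hker x, hker y]
  have h1 : finrank ℝ (LinearMap.ker π) ≤ finrank ℝ V0 :=
    LinearMap.finrank_le_finrank_of_injective hj
  have h2 := LinearMap.finrank_range_add_finrank_ker π
  have h22 : finrank ℝ (Fin d → ℝ) = d := by simp
  have h3 : finrank ℝ (LinearMap.range π) ≤ d := by
    have := Submodule.finrank_le (LinearMap.range π)
    rwa [h22] at this
  let b := stdOrthonormalBasis ℝ V0
  have hnorm : ∀ i, ‖(b i : EuclideanSpace ℝ (Fin m))‖ = 1 := fun i => by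
    have := b.orthonormal.1 i
    rwa [Submodule.coe_norm] at this
  by_cases h4 : 2 ≤ finrank ℝ V0
  · left
    refine ⟨b ⟨0, by omega⟩, b ⟨1, by omega⟩, hnorm _, hnorm _, ?_, hmem _ (b _).2, hmem _ (b _).2⟩
    have h9 : inner ℝ (b ⟨0, by omega⟩) (b ⟨1, by omega⟩) = 0 :=
      b.orthonormal.2 (i := ⟨0, by omega⟩) (j := ⟨1, by omega⟩) (by simp)
    rwa [Submodule.coe_inner] at h9
  · right
    have h5 : finrank ℝ (LinearMap.range π) = d := by omega
    have h6 : LinearMap.range π = ⊤ := by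
      refine Submodule.eq_top_of_finrank_eq ?_
      rw [h5, h22]
    have h7 : 0 < finrank ℝ V0 := by omega
    obtain ⟨s, hs⟩ := π.exists_rightInverse_of_surjective h6
    have hr := hnorm ⟨0, h7⟩
    have hrV := hmem _ (b ⟨0, h7⟩).2
    set r : EuclideanSpace ℝ (Fin m) := (b ⟨0, h7⟩ : EuclideanSpace ℝ (Fin m)) with hrdef
    let S : (Fin d → ℝ) →ₗ[ℝ] EuclideanSpace ℝ (Fin m) :=
      (LinearMap.snd ℝ (Fin d → ℝ) (EuclideanSpace ℝ (Fin m))).comp (V.subtype.comp s)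
    have hS : ∀ κ, (κ, S κ) ∈ V := by
      intro κ
      have h8 : (κ, S κ) = (s κ).1 := by
        refine Prod.ext ?_ rfl
        exact (LinearMap.congr_fun hs κ).symm
      rw [h8]
      exact (s κ).2
    let I : (Fin d → ℝ) →ₗ[ℝ] ℝ := ((innerSL ℝ r).toLinearMap).comp S
    have hI : ∀ κ, I κ = inner ℝ r (S κ) := fun κ => rfl
    refine ⟨r, I.smulRight r - S, hr, hrV, fun κ => ⟨?_, ?_⟩⟩
    · rw [LinearMap.sub_apply, LinearMap.smulRight_apply, inner_sub_right, inner_smul_right,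
        real_inner_self_eq_norm_sq, hr, hI]
      ring
    · have h9 : (κ, -((I.smulRight r - S) κ)) = (κ, S κ) - (I κ) • ((0 : Fin d → ℝ), r) := by
        refine Prod.ext ?_ ?_
        · simp
        · rw [LinearMap.sub_apply, LinearMap.smulRight_apply]
          simp
      rw [h9]
      exact V.sub_mem (hS κ) (V.smul_mem _ hrV)

end Pool.Agent.RS
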