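import Mathlib
import Pool.Agent.Lib.MP_c95b3b_ag_RS.DefsD
import Pool.Agent.Lib.MP_c95b3b_ag_RS.PFD
import Pool.Agent.Lib.MP_c95b3b_ag_RS.ArcNear

/-! Project RSd (MP_c95b3b_ag), module T1D: conjugates near finitely many charts. -/

namespace Pool.Agent.RS

open Pool.Agent.L3 Module

namespace T1D

theorem le_exp_log {a : ℝ} (ha : 0 ≤ a) : a ≤ Real.exp (max 0 (Real.log a)) := by
  rcases ha.eq_or_lt with h | h
  · rw [← h]; exact (Real.exp_pos _).le
  · calc a = Real.exp (Real.log a) := (Real.exp_log h).symm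
      _ ≤ _ := Real.exp_le_exp.2 (le_max_right _ _)

theorem lg_add_le {K : Type} [Field K] {R : Subring K} (P : Places K R) (x y : K)
    (h : x + y ≠ 0) (w : P.Pl) :
    P.lg w (x + y) ≤ max 0 (P.lg w x) + max 0 (P.lg w y) + Real.log 2 * P.arch w := by
  rcases w with i | j
  · rw [P.arch_inl, mul_one, P.lg_inl, P.lg_inl, P.lg_inl]
    have h0 : 0 < ‖P.σ i (x + y)‖ := norm_pos_iff.2 ((map_ne_zero (P.σ i)).2 h)
    have h1 := le_exp_log (norm_nonneg (P.σ i x))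
    have h2 := le_exp_log (norm_nonneg (P.σ i y))
    have h3 : 1 ≤ Real.exp (max 0 (Real.log ‖P.σ i x‖)) := Real.one_le_exp (le_max_left _ _)
    have h4 : 1 ≤ Real.exp (max 0 (Real.log ‖P.σ i y‖)) := Real.one_le_exp (le_max_left _ _)
    have h5 : ‖P.σ i (x + y)‖ ≤ 2 * (Real.exp (max 0 (Real.log ‖P.σ i x‖)) *
        Real.exp (max 0 (Real.log ‖P.σ i y‖))) := by
      have h6 : ‖P.σ i (x + y)‖ ≤ ‖P.σ i x‖ + ‖P.σ i y‖ := by
        rw [map_add]; exact norm_add_le _ _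
      nlinarith [mul_nonneg (sub_nonneg.2 h3) (sub_nonneg.2 h4)]
    have h7 := Real.log_le_log h0 h5
    rw [Real.log_mul (by norm_num) (by positivity), ← Real.exp_add, Real.log_exp] at h7
    linarith
  · rw [P.arch_inr, mul_zero, add_zero, P.lg_inr, P.lg_inr, P.lg_inr]
    have h0 : 0 < P.v j (x + y) := (P.v j).pos h
    have h1 := le_exp_log ((P.v j).nonneg x)
    have h2 := le_exp_log ((P.v j).nonneg y)
    have h5 : P.v j (x + y) ≤ Real.exp (max 0 (Real.log (P.v j x)) + max 0 (Real.log (P.v j y))) := by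
      refine (P.nonarch j x y).trans (max_le (h1.trans ?_) (h2.trans ?_))
      · exact Real.exp_le_exp.2 (le_add_of_nonneg_right (le_max_left _ _))
      · exact Real.exp_le_exp.2 (le_add_of_nonneg_left (le_max_left _ _))
    have h7 := Real.log_le_log h0 h5
    rwa [Real.log_exp] at h7

end T1D

theorem t1d {q e g : ℕ} (b : Fin g → Fin e → ℤ) (τ X Y : Fin q → ℂ → ℂ)
    (ρ : Fin q → Fin e → ℂ → ℂ) (γ γ' : Fin q → Fin g → ℂ → ℂ)
    (hτ : ∀ l, DifferentiableOn ℂ (τ l) (Metric.ball 0 3))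
    (hX : ∀ l, DifferentiableOn ℂ (X l) (Metric.ball 0 3))
    (hY : ∀ l, DifferentiableOn ℂ (Y l) (Metric.ball 0 3))
    (hρ : ∀ l k, DifferentiableOn ℂ (ρ l k) (Metric.ball 0 3))
    (hγ : ∀ l k, DifferentiableOn ℂ (γ l k) (Metric.ball 0 3))
    (hγ' : ∀ l k, DifferentiableOn ℂ (γ' l k) (Metric.ball 0 3)) (B θ : ℝ) (hθ : 0 < θ) :
    ∃ η : ℝ, 0 < η ∧ ∃ Q : MvPolynomial (Fin (e + 2)) ℤ, Q ≠ 0 ∧
      ∀ (K : Type) [Field K] (R : Subring K) (P : Places K R) (t V V' : K) (y : Fin e → K),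
        t ∈ R → V ∈ R → V' ∈ R → (∀ k, y k ∈ R) →
        P.avg (fun w => max 0 (P.lg w t) + max 0 (P.lg w V) + max 0 (P.lg w V') +
          ∑ k, max 0 (P.lg w (y k))) ≤ B →
        (∃ S : Finset (Fin P.D), θ * P.D ≤ S.card ∧ ∀ i ∈ S, ∃ (l : Fin q) (s : ℝ)
          (z : Fin e → ℂ), |s| ≤ 1 ∧ (∀ k, ‖z k‖ = 1) ∧ ‖P.σ i t - τ l s‖ ≤ η ∧
          (∀ k, ‖P.σ i (y k) - ρ l k s * z k‖ ≤ η) ∧
          ‖((‖P.σ i V‖ ^ 2 : ℝ) : ℂ) - X l s‖ ≤ η ∧ ‖((‖P.σ i V'‖ ^ 2 : ℝ) : ℂ) - Y l s‖ ≤ η ∧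
          ‖P.σ i V + P.σ i V' + ∑ k, γ l k s * mon z (b k)‖ ≤ η ∧
          ‖(starRingEnd ℂ) (P.σ i V + P.σ i V') + ∑ k, γ' l k s * mon z (-b k)‖ ≤ η) →
        V + V' = 0 ∨ MvPolynomial.aeval (pt t V y) Q = 0 := by
  set Γ : ℝ := (|B| + Real.log 2 + 1) * (2 / θ) with hΓ
  have hlog2 : 0 < Real.log 2 := Real.log_pos (by norm_num)
  have hΓ0 : 0 < Γ := by rw [hΓ]; positivity
  have hΓθ : θ / 2 * Γ = |B| + Real.log 2 + 1 := by rw [hΓ]; field_simp
  set A' : ℝ := (e + 4 + |B|) * (2 / θ) with hA'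
  have hA'θ : θ / 2 * A' = e + 4 + |B| := by rw [hA']; field_simp
  obtain ⟨N, hN, η, hη, Q, hQ0, hdeg, hcoef, hQ⟩ :=
    arc_aux_near b τ X Y ρ γ γ' hτ hX hY hρ hγ hγ' (A' + Γ)
  refine ⟨η, hη, Q, hQ0, ?_⟩
  intro K _ R P t V V' y ht hV hV' hy havg hS
  obtain ⟨S, hScard, hS⟩ := hS
  by_cases hz : V + V' = 0
  · exact Or.inl hz
  right
  have hD := P.D_cast_pos
  have hsplit : ((S.filter fun i => ‖P.σ i (V + V')‖ < Real.exp (-Γ)).card : ℝ) +
      ((S.filter fun i => ¬ ‖P.σ i (V + V')‖ < Real.exp (-Γ)).card : ℝ) = S.card := by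
    rw [← Nat.cast_add, Finset.card_filter_add_card_filter_not]
  rcases le_or_gt (θ / 2 * P.D) ((S.filter fun i => ‖P.σ i (V + V')‖ < Real.exp (-Γ)).card : ℝ)
    with h1 | h1
  · -- many small values of `V + V'`
    exfalso
    have hm : ∀ w, 0 ≤ max 0 (P.lg w V) + max 0 (P.lg w V') + Real.log 2 * P.arch w := by
      intro w
      have := le_max_left 0 (P.lg w V)
      have := le_max_left 0 (P.lg w V')
      have := mul_nonneg hlog2.le (P.arch_nonneg w)
      linarith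
    have hb : P.avg (fun w => max 0 (P.lg w V) + max 0 (P.lg w V') + Real.log 2 * P.arch w) ≤
        |B| + Real.log 2 := by
      rw [P.avg_add, P.avg_const_arch]
      have h2 : P.avg (fun w => max 0 (P.lg w V) + max 0 (P.lg w V')) ≤ B := by
        refine le_trans (P.avg_mono fun w => ?_) havg
        have h3 := le_max_left 0 (P.lg w t)
        have h4 : 0 ≤ ∑ k, max 0 (P.lg w (y k)) := Finset.sum_nonneg fun k _ => le_max_left _ _
        linarith
      have := le_abs_self B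
      linarith
    have h2 := pf0 P (V + V') (R.add_mem hV hV') hz
      (fun w => max 0 (P.lg w V) + max 0 (P.lg w V') + Real.log 2 * P.arch w) hm
      (T1D.lg_add_le P V V' hz) (|B| + Real.log 2) Γ (θ / 2) hb hΓ0.le _ h1 (by
        intro i hi
        rw [Finset.mem_filter] at hi
        have h0 : 0 < ‖P.σ i (V + V')‖ := norm_pos_iff.2 ((map_ne_zero (P.σ i)).2 hz)
        rw [P.lg_inl]
        have h3 := Real.log_le_log h0 hi.2.le
        rwa [Real.log_exp] at h3)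
    linarith
  · have h2 : θ / 2 * P.D ≤ ((S.filter fun i => ¬ ‖P.σ i (V + V')‖ < Real.exp (-Γ)).card : ℝ) := by
      have : θ * P.D = θ / 2 * P.D + θ / 2 * P.D := by ring
      linarith
    refine pfd P (pt t V y) (fun i => forall_pt ht hV hy i) B (θ / 2) A' (by positivity) ?_ ?_ N hN Q
      hdeg hcoef _ h2 ?_
    · rw [hA'θ]
      have := le_abs_self B
      push_cast
      linarith
    · refine le_trans (P.avg_mono fun w => ?_) havg
      rw [sum_pt (fun x => max 0 (P.lg w x)) t V y]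
      have h3 := le_max_left 0 (P.lg w V')
      linarith
    · intro i hi
      rw [Finset.mem_filter] at hi
      obtain ⟨l, s, z, hs, hz1, e1, e2, e3, e4, e5, e6⟩ := hS i hi.1
      have h3 := hQ l s z (P.σ i t) (P.σ i V) (P.σ i V') (fun k => P.σ i (y k)) hs hz1 e1 e2 e3 e4 e5 e6
      rw [map_pt (P.σ i) t V y]
      have h4 : Real.exp (-Γ) ≤ ‖P.σ i V + P.σ i V'‖ := by
        rw [← map_add]; exact not_lt.1 hi.2
      have h5 : Real.exp (-Γ) ^ N ≤ ‖P.σ i V + P.σ i V'‖ ^ N :=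
        pow_le_pow_left₀ (Real.exp_pos _).le h4 N
      set v := ‖MvPolynomial.aeval (pt (P.σ i t) (P.σ i V) (fun j => P.σ i (y j))) Q‖ with hv
      have hv0 : 0 ≤ v := norm_nonneg _
      have h6 : Real.exp (-Γ) ^ N * v ≤ Real.exp (-((A' + Γ) * N)) :=
        (mul_le_mul_of_nonneg_right h5 hv0).trans h3
      have h7 : Real.exp (-((A' + Γ) * N)) = Real.exp (-Γ) ^ N * Real.exp (-(A' * N)) := by
        rw [← Real.exp_nat_mul, ← Real.exp_add]
        congr 1; ring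
      rw [h7] at h6
      exact le_of_mul_le_mul_left h6 (by positivity)

end Pool.Agent.RS
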