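import Mathlib
import Pool.Agent.Lib.MP_c95b3b_ag_RS.DefsD
import Pool.Agent.Lib.MP_c95b3b_ag_RS.T0
import Pool.Agent.Lib.MP_c95b3b_ag_RS.T1D
import Pool.Agent.Lib.MP_c95b3b_ag_RS.Cover

/-! Project RSd (MP_c95b3b_ag), module TFD: one real curve, fixed data. -/

namespace Pool.Agent.RS

open Pool.Agent.L3 Module

namespace T1FixedD

/-- uniform continuity near the diagonal -/
theorem unif {E F : Type} [NormedAddCommGroup E] [ProperSpace E] [NormedAddCommGroup F]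
    (K1 : Set ℂ) (hK : IsCompact K1) (f : ℂ × E → F)
    (hf : ContinuousOn f (K1 ×ˢ Set.univ)) (η : ℝ) (hη : 0 < η) :
    ∃ η' : ℝ, 0 < η' ∧ ∀ z ∈ K1, ∀ τ ∈ K1, ∀ u : E, ‖z - τ‖ ≤ η' → ‖u‖ ≤ η' →
      ‖f (z, u) - f (τ, 0)‖ ≤ η := by
  have hc : IsCompact (K1 ×ˢ Metric.closedBall (0 : E) 1) :=
    hK.prod (isCompact_closedBall 0 1)
  have hf1 : ContinuousOn f (K1 ×ˢ Metric.closedBall (0 : E) 1) :=
    hf.mono (Set.prod_mono le_rfl (Set.subset_univ _))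
  have hu := hc.uniformContinuousOn_of_continuous hf1
  obtain ⟨δ, hδ, h1⟩ := Metric.uniformContinuousOn_iff.mp hu η hη
  refine ⟨min 1 (δ / 2), by positivity, ?_⟩
  intro z hz τ hτ u h2 h3
  have h4 : ‖u‖ ≤ 1 := h3.trans (min_le_left _ _)
  have h5 : dist ((z, u) : ℂ × E) (τ, 0) < δ := by
    rw [Prod.dist_eq, max_lt_iff]
    have h6 : min 1 (δ / 2) < δ := (min_le_right _ _).trans_lt (by linarith)
    refine ⟨?_, ?_⟩
    · rw [dist_eq_norm]
      exact h2.trans_lt h6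
    · rw [dist_eq_norm, sub_zero]
      exact h3.trans_lt h6
  have h7 := h1 (z, u) ⟨hz, by simpa using h4⟩ (τ, 0) ⟨hτ, by simp⟩ h5
  rw [dist_eq_norm] at h7
  exact h7.le

theorem KR_mono {M : ℕ} {a : Fin M → ℂ} {ρ : ℝ} (hρ : 0 < ρ) {z : ℂ} (hz : z ∈ KR a ρ) :
    z ∈ KR a (2 * ρ) := by
  refine ⟨hz.1.trans (by linarith), fun i => le_trans ?_ (hz.2 i)⟩
  exact inv_anti₀ hρ (by linarith)

theorem near_KR {M : ℕ} {a : Fin M → ℂ} {ρ : ℝ} (hρ : 0 < ρ) {z τ : ℂ} (hz : z ∈ KR a ρ)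
    (h1 : ‖z - τ‖ ≤ ρ) (h2 : ‖z - τ‖ ≤ (2 * ρ)⁻¹) : τ ∈ KR a (2 * ρ) := by
  refine ⟨?_, fun i => ?_⟩
  · have h3 : ‖τ‖ ≤ ‖z‖ + ‖z - τ‖ := by
      have := norm_sub_le z (z - τ)
      rwa [sub_sub_cancel] at this
    have := hz.1
    linarith
  · have h3 : ‖z - a i‖ ≤ ‖z - τ‖ + ‖τ - a i‖ := by
      have := norm_add_le (z - τ) (τ - a i)
      rwa [sub_add_sub_cancel] at this
    have h4 := hz.2 i
    have h5 : ρ⁻¹ = (2 * ρ)⁻¹ + (2 * ρ)⁻¹ := by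
      field_simp
      norm_num
    linarith

theorem continuousOn_rf {M : ℕ} (a : Fin M → ℂ) (c : ℂ) (n : Fin M → ℤ) {ρ : ℝ} (hρ : 0 < ρ) :
    ContinuousOn (fun z => rf a c n z) (KR a ρ) := by
  unfold rf
  refine continuousOn_const.mul (continuousOn_finsetProd _ fun i _ => ?_)
  refine ContinuousOn.zpow₀ ?_ _ ?_
  · exact (continuous_id.sub continuous_const).continuousOn
  · intro z hz
    exact Or.inl (sub_ne_zero_of_mem_KR hρ hz i)

/-- the data which must be compared -/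
noncomputable def cmp {M e g : ℕ} (a : Fin M → ℂ) (dX dY : (Fin M → ℝ) × ℝ)
    (dρ : Fin e → (Fin M → ℝ) × ℝ) (cg : Fin g → ℂ) (ng : Fin g → Fin M → ℤ)
    (b : Fin g → Fin e → ℤ) (p : ℂ × (Fin e → ℝ) × ℝ × ℝ) :
    (Fin e → ℝ) × ℝ × ℝ × (Fin g → ℂ) :=
  (fun k => Real.exp (phi a (dρ k) p.1 + p.2.1 k),
    Real.exp (2 * (phi a dX p.1 + p.2.2.1)), Real.exp (2 * (phi a dY p.1 + p.2.2.2)),
    fun k => rf a (cg k) (ng k) p.1 *
      mon (fun j => ((Real.exp (phi a (dρ j) p.1 + p.2.1 j) : ℝ) : ℂ)) (b k))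

theorem continuousOn_cmp {M e g : ℕ} (a : Fin M → ℂ) (dX dY : (Fin M → ℝ) × ℝ)
    (dρ : Fin e → (Fin M → ℝ) × ℝ) (cg : Fin g → ℂ) (ng : Fin g → Fin M → ℤ)
    (b : Fin g → Fin e → ℤ) {ρ : ℝ} (hρ : 0 < ρ) :
    ContinuousOn (cmp a dX dY dρ cg ng b) (KR a ρ ×ˢ Set.univ) := by
  have hphi : ∀ d : (Fin M → ℝ) × ℝ, ContinuousOn
      (fun p : ℂ × (Fin e → ℝ) × ℝ × ℝ => phi a d p.1) (KR a ρ ×ˢ Set.univ) := fun d =>
    (Cover.continuousOn_phi a d hρ).comp continuousOn_fst fun p hp => hp.1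
  have hrf : ∀ k, ContinuousOn
      (fun p : ℂ × (Fin e → ℝ) × ℝ × ℝ => rf a (cg k) (ng k) p.1) (KR a ρ ×ˢ Set.univ) :=
    fun k => (continuousOn_rf a (cg k) (ng k) hρ).comp continuousOn_fst fun p hp => hp.1
  have hu : ∀ j, Continuous (fun p : ℂ × (Fin e → ℝ) × ℝ × ℝ => p.2.1 j) := fun j => by
    fun_prop
  have he : ∀ j, ContinuousOn (fun p : ℂ × (Fin e → ℝ) × ℝ × ℝ =>
      Real.exp (phi a (dρ j) p.1 + p.2.1 j)) (KR a ρ ×ˢ Set.univ) := fun j =>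
    Real.continuous_exp.comp_continuousOn ((hphi _).add (hu j).continuousOn)
  have h1 : Continuous (fun p : ℂ × (Fin e → ℝ) × ℝ × ℝ => p.2.2.1) := by fun_prop
  have h2 : Continuous (fun p : ℂ × (Fin e → ℝ) × ℝ × ℝ => p.2.2.2) := by fun_prop
  unfold cmp
  refine ContinuousOn.prodMk (continuousOn_pi.mpr fun k => he k) (ContinuousOn.prodMk ?_
    (ContinuousOn.prodMk ?_ (continuousOn_pi.mpr fun k => ?_)))
  · exact Real.continuous_exp.comp_continuousOn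
      (continuousOn_const.mul ((hphi _).add h1.continuousOn))
  · exact Real.continuous_exp.comp_continuousOn
      (continuousOn_const.mul ((hphi _).add h2.continuousOn))
  · refine (hrf k).mul ?_
    unfold mon
    refine continuousOn_finsetProd _ fun j _ => ?_
    refine ContinuousOn.zpow₀ (Complex.continuous_ofReal.comp_continuousOn (he j)) _ ?_
    intro p _
    exact Or.inl (Complex.ofReal_ne_zero.mpr (Real.exp_ne_zero _))

theorem errors {M e g : ℕ} (a : Fin M → ℂ) (dX dY : (Fin M → ℝ) × ℝ)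
    (dρ : Fin e → (Fin M → ℝ) × ℝ) (cg : Fin g → ℂ) (ng : Fin g → Fin M → ℤ)
    (b : Fin g → Fin e → ℤ) (ρ0 : ℝ) (hρ : 0 < ρ0) (η : ℝ) (hη : 0 < η) :
    ∃ η' : ℝ, 0 < η' ∧ ∀ z ∈ KR a ρ0, ∀ τ : ℂ, ‖z - τ‖ ≤ η' → ∀ (V V' : ℂ) (y : Fin e → ℂ),
      V ≠ 0 → V' ≠ 0 → (∀ k, y k ≠ 0) → |Real.log ‖V‖ - phi a dX z| ≤ η' →
      |Real.log ‖V'‖ - phi a dY z| ≤ η' → (∀ k, |Real.log ‖y k‖ - phi a (dρ k) z| ≤ η') →
      V + V' + ∑ k, rf a (cg k) (ng k) z * mon y (b k) = 0 →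
      (∀ k, ‖y k - ((Real.exp (phi a (dρ k) τ) : ℝ) : ℂ) * (y k / (‖y k‖ : ℂ))‖ ≤ η) ∧
      ‖((‖V‖ ^ 2 : ℝ) : ℂ) - ((Real.exp (2 * phi a dX τ) : ℝ) : ℂ)‖ ≤ η ∧
      ‖((‖V'‖ ^ 2 : ℝ) : ℂ) - ((Real.exp (2 * phi a dY τ) : ℝ) : ℂ)‖ ≤ η ∧
      ‖V + V' + ∑ k, rf a (cg k) (ng k) τ *
        mon (fun j => ((Real.exp (phi a (dρ j) τ) : ℝ) : ℂ)) (b k) *
        mon (fun j => y j / (‖y j‖ : ℂ)) (b k)‖ ≤ η := by
  have hρ2 : 0 < 2 * ρ0 := by linarith
  have hg : (0 : ℝ) < g + 1 := by positivity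
  obtain ⟨η1, hη1, h1⟩ := unif (KR a (2 * ρ0)) (isCompact_KR a _) (cmp a dX dY dρ cg ng b)
    (continuousOn_cmp a dX dY dρ cg ng b hρ2) (η / (g + 1)) (by positivity)
  refine ⟨min η1 (min ρ0 (2 * ρ0)⁻¹), by positivity, ?_⟩
  intro z hz τ hzτ V V' y hV hV' hy hdX hdY hdρ hrel
  have hη' : η / (g + 1) ≤ η := by
    rw [div_le_iff₀ hg]
    nlinarith [(Nat.cast_nonneg g : (0 : ℝ) ≤ g)]
  have hτ : τ ∈ KR a (2 * ρ0) := near_KR hρ hz
    (hzτ.trans ((min_le_right _ _).trans (min_le_left _ _)))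
    (hzτ.trans ((min_le_right _ _).trans (min_le_right _ _)))
  have h2 := h1 z (KR_mono hρ hz) τ hτ (fun k => Real.log ‖y k‖ - phi a (dρ k) z,
    Real.log ‖V‖ - phi a dX z, Real.log ‖V'‖ - phi a dY z) (hzτ.trans (min_le_left _ _)) (by
      refine norm_prod_le_iff.mpr ⟨?_, norm_prod_le_iff.mpr ⟨?_, ?_⟩⟩
      · refine (pi_norm_le_iff_of_nonneg hη1.le).mpr fun k => ?_
        exact (hdρ k).trans (min_le_left _ _)
      · exact hdX.trans (min_le_left _ _)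
      · exact hdY.trans (min_le_left _ _))
  have hVn : Real.exp (2 * Real.log ‖V‖) = ‖V‖ ^ 2 := by
    rw [two_mul, Real.exp_add, Real.exp_log (norm_pos_iff.mpr hV), sq]
  have hVn' : Real.exp (2 * Real.log ‖V'‖) = ‖V'‖ ^ 2 := by
    rw [two_mul, Real.exp_add, Real.exp_log (norm_pos_iff.mpr hV'), sq]
  have hyn : ∀ k, Real.exp (Real.log ‖y k‖) = ‖y k‖ := fun k =>
    Real.exp_log (norm_pos_iff.mpr (hy k))
  have hyc : ∀ k, ((‖y k‖ : ℝ) : ℂ) ≠ 0 := fun k =>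
    Complex.ofReal_ne_zero.mpr (norm_ne_zero_iff.mpr (hy k))
  simp only [cmp, Pi.zero_apply, Prod.fst_zero, Prod.snd_zero, add_zero, add_sub_cancel, hVn,
    hVn', hyn] at h2
  obtain ⟨h3, h4⟩ := norm_prod_le_iff.mp h2
  obtain ⟨h5, h6⟩ := norm_prod_le_iff.mp h4
  obtain ⟨h7, h8⟩ := norm_prod_le_iff.mp h6
  have hη0 : 0 ≤ η / (g + 1) := by positivity
  have h3' := (pi_norm_le_iff_of_nonneg hη0).mp h3
  have h8' := (pi_norm_le_iff_of_nonneg hη0).mp h8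
  simp only [Prod.fst_sub, Prod.snd_sub, Pi.sub_apply] at h3' h5 h7 h8'
  have hz1 : ∀ k, ‖y k / (‖y k‖ : ℂ)‖ = 1 := by
    intro k
    rw [norm_div, Complex.norm_real, norm_norm, div_self (norm_ne_zero_iff.mpr (hy k))]
  refine ⟨fun k => ?_, ?_, ?_, ?_⟩
  · have h9 : y k - ((Real.exp (phi a (dρ k) τ) : ℝ) : ℂ) * (y k / (‖y k‖ : ℂ)) =
        ((‖y k‖ - Real.exp (phi a (dρ k) τ) : ℝ) : ℂ) * (y k / (‖y k‖ : ℂ)) := by
      push_cast
      rw [sub_mul, mul_div_cancel₀ _ (hyc k)]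
    rw [h9, norm_mul, hz1, mul_one, Complex.norm_real]
    exact (h3' k).trans hη'
  · rw [← Complex.ofReal_sub, Complex.norm_real]
    exact h5.trans hη'
  · rw [← Complex.ofReal_sub, Complex.norm_real]
    exact h7.trans hη'
  · have h9 : ∀ k, mon y (b k) = mon (fun j => ((‖y j‖ : ℝ) : ℂ)) (b k) *
        mon (fun j => y j / (‖y j‖ : ℂ)) (b k) := by
      intro k
      rw [← mon_mul]
      congr 1
      funext j
      rw [mul_div_cancel₀ _ (hyc j)]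
    have h10 : V + V' + ∑ k, rf a (cg k) (ng k) τ *
        mon (fun j => ((Real.exp (phi a (dρ j) τ) : ℝ) : ℂ)) (b k) *
        mon (fun j => y j / (‖y j‖ : ℂ)) (b k) =
        -∑ k, (rf a (cg k) (ng k) z * mon (fun j => ((‖y j‖ : ℝ) : ℂ)) (b k) -
          rf a (cg k) (ng k) τ * mon (fun j => ((Real.exp (phi a (dρ j) τ) : ℝ) : ℂ)) (b k)) *
          mon (fun j => y j / (‖y j‖ : ℂ)) (b k) := by
      have h11 : V + V' = -∑ k, rf a (cg k) (ng k) z * mon y (b k) :=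
        eq_neg_of_add_eq_zero_left hrel
      rw [h11, neg_add_eq_sub, ← Finset.sum_sub_distrib, ← Finset.sum_neg_distrib]
      refine Finset.sum_congr rfl fun k _ => ?_
      rw [h9 k]
      ring
    rw [h10, norm_neg]
    refine (norm_sum_le _ _).trans ?_
    refine (Finset.sum_le_sum (g := fun _ => η / (g + 1)) fun k _ => ?_).trans ?_
    · rw [norm_mul, norm_mon_one hz1, mul_one]
      exact h8' k
    · rw [Finset.sum_const, Finset.card_univ, Fintype.card_fin, nsmul_eq_mul, ← mul_div_assoc,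
        div_le_iff₀ hg]
      nlinarith

/-- the extension of `phi` along a chart -/
noncomputable def PG {M : ℕ} (G : Fin M → ℂ → ℂ) (d : (Fin M → ℝ) × ℝ) (s : ℂ) : ℂ :=
  ∑ i, (d.1 i : ℂ) * G i s + (d.2 : ℂ)

theorem PG_real {M : ℕ} (a : Fin M → ℂ) (G : Fin M → ℂ → ℂ) (d : (Fin M → ℝ) × ℝ) (s τ : ℂ)
    (h : ∀ i, G i s = ((Real.log ‖τ - a i‖ : ℝ) : ℂ)) :
    PG G d s = ((phi a d τ : ℝ) : ℂ) := by
  simp only [PG, phi, h]
  push_cast
  rfl

theorem differentiableOn_PG {M : ℕ} (G : Fin M → ℂ → ℂ) (d : (Fin M → ℝ) × ℝ) {U : Set ℂ}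
    (h : ∀ i, DifferentiableOn ℂ (G i) U) : DifferentiableOn ℂ (PG G d) U := by
  unfold PG
  refine DifferentiableOn.add ?_ (differentiableOn_const _)
  exact DifferentiableOn.fun_sum fun i _ => (differentiableOn_const _).mul (h i)

/-- the coefficient functions along a chart -/
noncomputable def gam {M e : ℕ} (a : Fin M → ℂ) (τ : ℂ → ℂ) (G : Fin M → ℂ → ℂ)
    (dρ : Fin e → (Fin M → ℝ) × ℝ) (c : ℂ) (n : Fin M → ℤ) (b : Fin e → ℤ) (s : ℂ) : ℂ :=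
  rf a c n (τ s) * mon (fun j => Complex.exp (PG G (dρ j) s)) b

theorem differentiableOn_gam {M e : ℕ} (a : Fin M → ℂ) (τ : ℂ → ℂ) (G : Fin M → ℂ → ℂ)
    (dρ : Fin e → (Fin M → ℝ) × ℝ) (c : ℂ) (n : Fin M → ℤ) (b : Fin e → ℤ) {U : Set ℂ}
    (hτ : DifferentiableOn ℂ τ U) (h : ∀ i, DifferentiableOn ℂ (G i) U)
    (ha : ∀ s ∈ U, ∀ i, τ s ≠ a i) :
    DifferentiableOn ℂ (gam a τ G dρ c n b) U := by
  unfold gam rf mon
  refine DifferentiableOn.mul ((differentiableOn_const _).mul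
    (DifferentiableOn.fun_finsetProd fun i _ => ?_)) (DifferentiableOn.fun_finsetProd fun j _ => ?_)
  · exact (hτ.sub (differentiableOn_const _)).zpow
      (Or.inl fun s hs => sub_ne_zero.mpr (ha s hs i))
  · exact (differentiableOn_PG G (dρ j) h).cexp.zpow (Or.inl fun s _ => Complex.exp_ne_zero _)

/-- the conjugate function -/
noncomputable def cj (f : ℂ → ℂ) (s : ℂ) : ℂ := (starRingEnd ℂ) (f ((starRingEnd ℂ) s))

theorem differentiableOn_cj (f : ℂ → ℂ) (hf : DifferentiableOn ℂ f (Metric.ball 0 3)) :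
    DifferentiableOn ℂ (cj f) (Metric.ball 0 3) := by
  intro s hs
  have h1 : (starRingEnd ℂ) s ∈ Metric.ball (0 : ℂ) 3 := by
    simpa using hs
  have h2 : DifferentiableAt ℂ f ((starRingEnd ℂ) s) :=
    hf.differentiableAt (Metric.isOpen_ball.mem_nhds h1)
  have h3 := differentiableAt_conj_conj_iff.mpr h2
  exact h3.differentiableWithinAt

theorem cj_real (f : ℂ → ℂ) (s : ℝ) : cj f s = (starRingEnd ℂ) (f s) := by
  rw [cj, Complex.conj_ofReal]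

theorem aeval_X_ne_zero {e : ℕ} (f : Polynomial ℤ) (hf : f ≠ 0) :
    Polynomial.aeval (MvPolynomial.X 0 : MvPolynomial (Fin (e + 2)) ℤ) f ≠ 0 := by
  intro h
  exact hf ((transcendental_iff.mp (MvPolynomial.transcendental_X ℤ (0 : Fin (e + 2)))) f h)

end T1FixedD

theorem t1_fixed_d {M e g : ℕ} (a : Fin M → ℂ) (ha : Function.Injective a)
    (d dX dY : (Fin M → ℝ) × ℝ) (dρ : Fin e → (Fin M → ℝ) × ℝ) (hd : d.1 ≠ 0)
    (cg : Fin g → ℂ) (ng : Fin g → Fin M → ℤ) (b : Fin g → Fin e → ℤ) (ρ0 B θ : ℝ)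
    (hρ : 0 < ρ0) (hθ : 0 < θ) :
    ∃ ε : ℝ, 0 < ε ∧ ∃ Q : MvPolynomial (Fin (e + 2)) ℤ, Q ≠ 0 ∧
      ∀ (K : Type) [Field K] (R : Subring K) (P : Places K R) (t V V' : K) (y : Fin e → K),
        t ∈ R → V ∈ R → V' ∈ R → (∀ k, y k ∈ R) → V ≠ 0 → V' ≠ 0 → (∀ k, y k ≠ 0) →
        P.avg (fun w => max 0 (P.lg w t) + max 0 (P.lg w V) + max 0 (P.lg w V') +
          ∑ k, max 0 (P.lg w (y k))) ≤ B →
        (∃ S : Finset (Fin P.D), θ * P.D ≤ S.card ∧ ∀ i ∈ S, P.σ i t ∈ KR a ρ0 ∧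
          |phi a d (P.σ i t)| ≤ ε ∧ |Real.log ‖P.σ i V‖ - phi a dX (P.σ i t)| ≤ ε ∧
          |Real.log ‖P.σ i V'‖ - phi a dY (P.σ i t)| ≤ ε ∧
          (∀ k, |Real.log ‖P.σ i (y k)‖ - phi a (dρ k) (P.σ i t)| ≤ ε) ∧
          P.σ i V + P.σ i V' + ∑ k, rf a (cg k) (ng k) (P.σ i t) *
            mon (fun j => P.σ i (y j)) (b k) = 0) →
        V + V' = 0 ∨ MvPolynomial.aeval (pt t V y) Q = 0 := by
  classical
  -- critical points
  have hfin := crit_finite a ha d.1 hd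
  set Z : Finset ℂ := hfin.toFinset with hZ
  have hmem : ∀ z : ℂ, z ∈ Z ↔ (∀ i, z ≠ a i) ∧ ∑ i, (d.1 i : ℂ) / (z - a i) = 0 := by
    intro z
    rw [hZ, Set.Finite.mem_toFinset]
    rfl
  let eZ : Fin Z.card ≃ Z := Z.equivFin.symm
  obtain ⟨δ0, hδ0, f0, hf0, ht0⟩ := t0 (fun l => ((eZ l : Z) : ℂ)) B (θ / 2) (by positivity)
  -- charts
  obtain ⟨q, τ, G, hτ, hG, hball, hval, hcov⟩ := cover' a d ρ0 δ0 hρ hδ0
  have hex : ∀ (d' : (Fin M → ℝ) × ℝ) (l : Fin q),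
      DifferentiableOn ℂ (T1FixedD.PG (G l) d') (Metric.ball 0 3) := fun d' l =>
    T1FixedD.differentiableOn_PG (G l) d' (hG l)
  have hgam : ∀ (l : Fin q) (k : Fin g), DifferentiableOn ℂ
      (T1FixedD.gam a (τ l) (G l) dρ (cg k) (ng k) (b k)) (Metric.ball 0 3) := fun l k =>
    T1FixedD.differentiableOn_gam a (τ l) (G l) dρ _ _ _ (hτ l) (hG l) (hball l)
  obtain ⟨η, hη, Q1, hQ1, ht1⟩ := t1d b τ
    (fun l s => Complex.exp (2 * T1FixedD.PG (G l) dX s))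
    (fun l s => Complex.exp (2 * T1FixedD.PG (G l) dY s))
    (fun l k s => Complex.exp (T1FixedD.PG (G l) (dρ k) s))
    (fun l k => T1FixedD.gam a (τ l) (G l) dρ (cg k) (ng k) (b k))
    (fun l k => T1FixedD.cj (T1FixedD.gam a (τ l) (G l) dρ (cg k) (ng k) (b k)))
    hτ (fun l => ((differentiableOn_const _).mul (hex dX l)).cexp)
    (fun l => ((differentiableOn_const _).mul (hex dY l)).cexp)
    (fun l k => (hex (dρ k) l).cexp) hgam
    (fun l k => T1FixedD.differentiableOn_cj _ (hgam l k)) B (θ / 2) (by positivity)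
  obtain ⟨η1, hη1, herr⟩ := T1FixedD.errors a dX dY dρ cg ng b ρ0 hρ η hη
  obtain ⟨ε1, hε1, hcov1⟩ := hcov (min η1 η) (by positivity)
  refine ⟨min ε1 η1, by positivity,
    Polynomial.aeval (MvPolynomial.X 0 : MvPolynomial (Fin (e + 2)) ℤ) f0 * Q1,
    mul_ne_zero (T1FixedD.aeval_X_ne_zero f0 hf0) hQ1, ?_⟩
  rintro K _ R P t V V' y ht hV hV' hy hV0 hV0' hy0 hB ⟨S, hS, hs⟩
  rw [map_mul, ← Polynomial.aeval_algHom_apply, MvPolynomial.aeval_X, pt_zero]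
  -- near the critical points or not
  set S1 := S.filter (fun i => ∃ l, ‖P.σ i t - ((eZ l : Z) : ℂ)‖ ≤ δ0) with hS1
  set S2 := S.filter (fun i => ¬ ∃ l, ‖P.σ i t - ((eZ l : Z) : ℂ)‖ ≤ δ0) with hS2
  have hcard : (S1.card : ℝ) + S2.card = S.card := by
    rw [hS1, hS2]
    exact_mod_cast Finset.card_filter_add_card_filter_not _
  by_cases hc : θ / 2 * P.D ≤ S1.card
  · right
    have h1 : P.avg (fun w => max 0 (P.lg w t)) ≤ B := by
      refine (P.avg_mono fun w => ?_).trans hB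
      have h2 : 0 ≤ max 0 (P.lg w V) := le_max_left _ _
      have h3 : 0 ≤ max 0 (P.lg w V') := le_max_left _ _
      have h4 : 0 ≤ ∑ k, max 0 (P.lg w (y k)) :=
        Finset.sum_nonneg fun k _ => le_max_left _ _
      linarith
    rw [ht0 K R P t ht h1 ⟨S1, hc, fun i hi => (Finset.mem_filter.mp hi).2⟩, zero_mul]
  · have hc2 : θ / 2 * P.D ≤ S2.card := by
      push Not at hc
      linarith
    refine (ht1 K R P t V V' y ht hV hV' hy hB ⟨S2, hc2, fun i hi => ?_⟩).imp_right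
      fun h => by rw [h, mul_zero]
    obtain ⟨hiS, hi2⟩ := Finset.mem_filter.mp hi
    obtain ⟨hK, hd1, hX1, hY1, hρ1, hrel⟩ := hs i hiS
    obtain ⟨l, s, hs1, hs2⟩ := hcov1 (P.σ i t) hK (hd1.trans (min_le_left _ _)) (by
      intro z' hz' hz''
      by_contra h
      push Not at h
      apply hi2
      refine ⟨eZ.symm ⟨z', (hmem z').mpr ⟨hz', hz''⟩⟩, ?_⟩
      rw [Equiv.apply_symm_apply]
      exact h.le)
    have hV1 : P.σ i V ≠ 0 := by simpa using hV0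
    have hV1' : P.σ i V' ≠ 0 := by simpa using hV0'
    have hy1 : ∀ k, P.σ i (y k) ≠ 0 := fun k => by simpa using hy0 k
    obtain ⟨h1, h2, h3, h4⟩ := herr (P.σ i t) hK (τ l s) (hs2.trans (min_le_left _ _))
      (P.σ i V) (P.σ i V') (fun k => P.σ i (y k)) hV1 hV1' hy1 (hX1.trans (min_le_right _ _))
      (hY1.trans (min_le_right _ _)) (fun k => (hρ1 k).trans (min_le_right _ _)) hrel
    have hPG : ∀ d' : (Fin M → ℝ) × ℝ, T1FixedD.PG (G l) d' s =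
        ((phi a d' (τ l s) : ℝ) : ℂ) := fun d' =>
      T1FixedD.PG_real a (G l) d' s (τ l s) fun i => (hval l s hs1 i).2
    have hexp : ∀ d' : (Fin M → ℝ) × ℝ, Complex.exp (T1FixedD.PG (G l) d' s) =
        ((Real.exp (phi a d' (τ l s)) : ℝ) : ℂ) := fun d' => by
      rw [hPG, Complex.ofReal_exp]
    have hexp2 : ∀ d' : (Fin M → ℝ) × ℝ, Complex.exp (2 * T1FixedD.PG (G l) d' s) =
        ((Real.exp (2 * phi a d' (τ l s)) : ℝ) : ℂ) := fun d' => by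
      rw [hPG, Complex.ofReal_exp]
      push_cast
      rfl
    have hgr : ∀ k, T1FixedD.gam a (τ l) (G l) dρ (cg k) (ng k) (b k) s =
        rf a (cg k) (ng k) (τ l s) *
          mon (fun j => ((Real.exp (phi a (dρ j) (τ l s)) : ℝ) : ℂ)) (b k) := by
      intro k
      simp only [T1FixedD.gam, hexp]
    have hz1 : ∀ k, ‖P.σ i (y k) / (‖P.σ i (y k)‖ : ℂ)‖ = 1 := by
      intro k
      rw [norm_div, Complex.norm_real, norm_norm, div_self (norm_ne_zero_iff.mpr (hy1 k))]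
    refine ⟨l, s, fun j => P.σ i (y j) / (‖P.σ i (y j)‖ : ℂ), hs1, hz1,
      hs2.trans (min_le_right _ _), fun k => ?_, ?_, ?_, ?_, ?_⟩
    · rw [hexp]
      exact h1 k
    · rw [hexp2]
      exact h2
    · rw [hexp2]
      exact h3
    · simp only [hgr]
      exact h4
    · have h5 : (starRingEnd ℂ) (P.σ i V + P.σ i V') + ∑ k,
          T1FixedD.cj (T1FixedD.gam a (τ l) (G l) dρ (cg k) (ng k) (b k)) s *
            mon (fun j => P.σ i (y j) / (‖P.σ i (y j)‖ : ℂ)) (-b k) =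
          (starRingEnd ℂ) (P.σ i V + P.σ i V' + ∑ k, rf a (cg k) (ng k) (τ l s) *
            mon (fun j => ((Real.exp (phi a (dρ j) (τ l s)) : ℝ) : ℂ)) (b k) *
            mon (fun j => P.σ i (y j) / (‖P.σ i (y j)‖ : ℂ)) (b k)) := by
        rw [map_add (starRingEnd ℂ) (P.σ i V + P.σ i V'), map_sum]
        congr 1
        refine Finset.sum_congr rfl fun k _ => ?_
        rw [map_mul (starRingEnd ℂ) _ (mon (fun j => P.σ i (y j) / (‖P.σ i (y j)‖ : ℂ)) (b k)),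
          conj_mon hz1, T1FixedD.cj_real, hgr]
      rw [h5, RCLike.norm_conj]
      exact h4

end Pool.Agent.RS
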