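import Mathlib
import Pool.Agent.Lib.MP_c95b3b_ag_RS.DefsD
import Pool.Agent.Lib.MP_c95b3b_ag_RS.T1FixedD

/-! Project RSd (MP_c95b3b_ag), module TUD: compact families of data. -/

namespace Pool.Agent.RS

open Pool.Agent.L3 Module

namespace T1UnifD

theorem phi_sub_le {M : ℕ} (a : Fin M → ℂ) {ρ0 : ℝ} (hρ : 0 < ρ0) (d d0 : (Fin M → ℝ) × ℝ)
    {z : ℂ} (hz : z ∈ KR a ρ0) {r : ℝ} (hr : ‖d - d0‖ ≤ r) :
    |phi a d z - phi a d0 z| ≤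
      (∑ i, (|Real.log ρ0| + |Real.log (ρ0 + ‖a i‖)|) + 1) * r := by
  have hr0 : 0 ≤ r := (norm_nonneg _).trans hr
  have h1 : phi a d z - phi a d0 z =
      ∑ i, (d.1 i - d0.1 i) * Real.log ‖z - a i‖ + (d.2 - d0.2) := by
    simp only [phi, sub_mul, Finset.sum_sub_distrib]
    ring
  have h2 : ∀ i, |Real.log ‖z - a i‖| ≤ |Real.log ρ0| + |Real.log (ρ0 + ‖a i‖)| := by
    intro i
    have hp : 0 < ρ0⁻¹ := inv_pos.mpr hρ
    have h3 : ρ0⁻¹ ≤ ‖z - a i‖ := hz.2 i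
    have h4 : ‖z - a i‖ ≤ ρ0 + ‖a i‖ := (norm_sub_le _ _).trans (by linarith [hz.1])
    have h5 : Real.log ρ0⁻¹ ≤ Real.log ‖z - a i‖ := Real.log_le_log hp h3
    have h6 : Real.log ‖z - a i‖ ≤ Real.log (ρ0 + ‖a i‖) :=
      Real.log_le_log (lt_of_lt_of_le hp h3) h4
    rw [Real.log_inv] at h5
    rw [abs_le]
    constructor
    · have := le_abs_self (Real.log ρ0)
      have := abs_nonneg (Real.log (ρ0 + ‖a i‖))
      linarith
    · have := le_abs_self (Real.log (ρ0 + ‖a i‖))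
      have := abs_nonneg (Real.log ρ0)
      linarith
  have h7 : ∀ i, |d.1 i - d0.1 i| ≤ r := by
    intro i
    have h8 : ‖(d - d0).1 i‖ ≤ ‖(d - d0).1‖ := norm_le_pi_norm _ i
    have h9 : ‖(d - d0).1‖ ≤ ‖d - d0‖ := norm_fst_le _
    have h10 : |d.1 i - d0.1 i| = ‖(d - d0).1 i‖ := by
      rw [Real.norm_eq_abs]
      rfl
    rw [h10]
    exact h8.trans (h9.trans hr)
  have h11 : |d.2 - d0.2| ≤ r := by
    have h12 : ‖(d - d0).2‖ ≤ ‖d - d0‖ := norm_snd_le _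
    have h13 : |d.2 - d0.2| = ‖(d - d0).2‖ := by
      rw [Real.norm_eq_abs]
      rfl
    rw [h13]
    exact h12.trans hr
  rw [h1]
  calc |∑ i, (d.1 i - d0.1 i) * Real.log ‖z - a i‖ + (d.2 - d0.2)|
      ≤ |∑ i, (d.1 i - d0.1 i) * Real.log ‖z - a i‖| + |d.2 - d0.2| := abs_add_le _ _
    _ ≤ ∑ i, |(d.1 i - d0.1 i) * Real.log ‖z - a i‖| + r :=
        add_le_add (Finset.abs_sum_le_sum_abs _ _) h11
    _ ≤ ∑ i, (|Real.log ρ0| + |Real.log (ρ0 + ‖a i‖)|) * r + r := by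
        gcongr with i
        rw [abs_mul, mul_comm]
        exact mul_le_mul (h2 i) (h7 i) (abs_nonneg _)
          (add_nonneg (abs_nonneg _) (abs_nonneg _))
    _ = (∑ i, (|Real.log ρ0| + |Real.log (ρ0 + ‖a i‖)|) + 1) * r := by
        rw [← Finset.sum_mul]
        ring

end T1UnifD

theorem t1_unif_d {M e g : ℕ} (a : Fin M → ℂ) (ha : Function.Injective a)
    (D : Set (((Fin M → ℝ) × ℝ) × ((Fin M → ℝ) × ℝ) × ((Fin M → ℝ) × ℝ) ×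
      (Fin e → (Fin M → ℝ) × ℝ))) (hD : IsCompact D) (hD0 : ∀ d ∈ D, d.1.1 ≠ 0)
    (cg : Fin g → ℂ) (ng : Fin g → Fin M → ℤ) (b : Fin g → Fin e → ℤ) (ρ0 B θ : ℝ)
    (hρ : 0 < ρ0) (hθ : 0 < θ) :
    ∃ Q : MvPolynomial (Fin (e + 2)) ℤ, Q ≠ 0 ∧
      ∀ (K : Type) [Field K] (R : Subring K) (P : Places K R) (t V V' : K) (y : Fin e → K),
        t ∈ R → V ∈ R → V' ∈ R → (∀ k, y k ∈ R) → V ≠ 0 → V' ≠ 0 → (∀ k, y k ≠ 0) →
        P.avg (fun w => max 0 (P.lg w t) + max 0 (P.lg w V) + max 0 (P.lg w V') +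
          ∑ k, max 0 (P.lg w (y k))) ≤ B →
        ∀ d ∈ D, (∃ S : Finset (Fin P.D), θ * P.D ≤ S.card ∧ ∀ i ∈ S, P.σ i t ∈ KR a ρ0 ∧
          phi a d.1 (P.σ i t) = 0 ∧ Real.log ‖P.σ i V‖ = phi a d.2.1 (P.σ i t) ∧
          Real.log ‖P.σ i V'‖ = phi a d.2.2.1 (P.σ i t) ∧
          (∀ k, Real.log ‖P.σ i (y k)‖ = phi a (d.2.2.2 k) (P.σ i t)) ∧
          P.σ i V + P.σ i V' + ∑ k, rf a (cg k) (ng k) (P.σ i t) *
            mon (fun j => P.σ i (y j)) (b k) = 0) →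
        V + V' = 0 ∨ MvPolynomial.aeval (pt t V y) Q = 0 := by
  refine hD.induction_on (p := fun D' => ∃ Q : MvPolynomial (Fin (e + 2)) ℤ, Q ≠ 0 ∧
      ∀ (K : Type) [Field K] (R : Subring K) (P : Places K R) (t V V' : K) (y : Fin e → K),
        t ∈ R → V ∈ R → V' ∈ R → (∀ k, y k ∈ R) → V ≠ 0 → V' ≠ 0 → (∀ k, y k ≠ 0) →
        P.avg (fun w => max 0 (P.lg w t) + max 0 (P.lg w V) + max 0 (P.lg w V') +
          ∑ k, max 0 (P.lg w (y k))) ≤ B →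
        ∀ d ∈ D', (∃ S : Finset (Fin P.D), θ * P.D ≤ S.card ∧ ∀ i ∈ S, P.σ i t ∈ KR a ρ0 ∧
          phi a d.1 (P.σ i t) = 0 ∧ Real.log ‖P.σ i V‖ = phi a d.2.1 (P.σ i t) ∧
          Real.log ‖P.σ i V'‖ = phi a d.2.2.1 (P.σ i t) ∧
          (∀ k, Real.log ‖P.σ i (y k)‖ = phi a (d.2.2.2 k) (P.σ i t)) ∧
          P.σ i V + P.σ i V' + ∑ k, rf a (cg k) (ng k) (P.σ i t) *
            mon (fun j => P.σ i (y j)) (b k) = 0) →
        V + V' = 0 ∨ MvPolynomial.aeval (pt t V y) Q = 0) ?_ ?_ ?_ ?_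
  · exact ⟨1, one_ne_zero, fun K _ R P t V V' y _ _ _ _ _ _ _ _ d hd => absurd hd (by simp)⟩
  · rintro s u hsu ⟨Q, hQ, h⟩
    exact ⟨Q, hQ, fun K _ R P t V V' y h1 h2 h3 h4 h5 h6 h7 h8 d hd =>
      h K R P t V V' y h1 h2 h3 h4 h5 h6 h7 h8 d (hsu hd)⟩
  · rintro s u ⟨Q, hQ, h⟩ ⟨Q', hQ', h'⟩
    refine ⟨Q * Q', mul_ne_zero hQ hQ', fun K _ R P t V V' y h1 h2 h3 h4 h5 h6 h7 h8 d hd hS => ?_⟩
    rw [map_mul]
    rcases hd with hd | hd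
    · rcases h K R P t V V' y h1 h2 h3 h4 h5 h6 h7 h8 d hd hS with h9 | h9
      · exact Or.inl h9
      · exact Or.inr (by rw [h9, zero_mul])
    · rcases h' K R P t V V' y h1 h2 h3 h4 h5 h6 h7 h8 d hd hS with h9 | h9
      · exact Or.inl h9
      · exact Or.inr (by rw [h9, mul_zero])
  · intro d0 hd0
    obtain ⟨ε, hε, Q, hQ, h⟩ := t1_fixed_d a ha d0.1 d0.2.1 d0.2.2.1 d0.2.2.2 (hD0 d0 hd0)
      cg ng b ρ0 B θ hρ hθ
    have hC : 0 < ∑ i, (|Real.log ρ0| + |Real.log (ρ0 + ‖a i‖)|) + 1 :=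
      add_pos_of_nonneg_of_pos (Finset.sum_nonneg fun i _ =>
        add_nonneg (abs_nonneg _) (abs_nonneg _)) one_pos
    set C := ∑ i, (|Real.log ρ0| + |Real.log (ρ0 + ‖a i‖)|) + 1 with hCdef
    refine ⟨Metric.ball d0 (ε / C), mem_nhdsWithin_of_mem_nhds
      (Metric.ball_mem_nhds _ (div_pos hε hC)), Q, hQ, ?_⟩
    intro K _ R P t V V' y h1 h2 h3 h4 h5 h6 h7 h8 d hd hS
    obtain ⟨S, hS1, hS2⟩ := hS
    refine h K R P t V V' y h1 h2 h3 h4 h5 h6 h7 h8 ⟨S, hS1, fun i hi => ?_⟩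
    obtain ⟨g1, g2, g3, g4, g5, g6⟩ := hS2 i hi
    have hn : ‖d - d0‖ ≤ ε / C := by
      rw [← dist_eq_norm]
      exact (Metric.mem_ball.mp hd).le
    have key : ∀ x x0 : (Fin M → ℝ) × ℝ, ‖x - x0‖ ≤ ‖d - d0‖ →
        |phi a x (P.σ i t) - phi a x0 (P.σ i t)| ≤ ε := by
      intro x x0 hx
      refine (T1UnifD.phi_sub_le a hρ x x0 g1 (hx.trans hn)).trans (le_of_eq ?_)
      rw [← hCdef]
      field_simp
    refine ⟨g1, ?_, ?_, ?_, ?_, g6⟩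
    · have := key d.1 d0.1 (norm_fst_le (d - d0))
      rw [g2, zero_sub, abs_neg] at this
      exact this
    · rw [g3]
      exact key _ _ ((norm_fst_le (d - d0).2).trans (norm_snd_le (d - d0)))
    · rw [g4]
      exact key _ _ ((norm_fst_le (d - d0).2.2).trans
        ((norm_snd_le (d - d0).2).trans (norm_snd_le (d - d0))))
    · intro k
      rw [g5 k]
      refine key _ _ ?_
      have k1 : ‖(d - d0).2.2.2 k‖ ≤ ‖(d - d0).2.2.2‖ := norm_le_pi_norm _ k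
      exact k1.trans ((norm_snd_le (d - d0).2.2).trans
        ((norm_snd_le (d - d0).2).trans (norm_snd_le (d - d0))))

end Pool.Agent.RS
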