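import Mathlib
import Pool.Agent.Lib.MP_c95b3b_ag_RS.MainA
import Pool.Agent.Lib.MP_c95b3b_ag_RS.DefsD
import Pool.Agent.Lib.MP_c95b3b_ag_RS.T1UnifD

/-! Project RSd (MP_c95b3b_ag), module MND, second part: preparations. -/

namespace Pool.Agent.RS

open Pool.Agent.L3 Module

namespace MND

open MN

theorem t1_tuples {m M e g : ℕ} (a : Fin M → ℂ) (ha : Function.Injective a) (c : Fin m → ℂ)
    (n : Fin m → Fin M → ℤ) (hn : LinearIndependent ℤ n) (dα dβ : (Fin M → ℝ) × ℝ)
    (cg : Fin g → ℂ) (ng : Fin g → Fin M → ℤ) (b : Fin g → Fin e → ℤ)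
    (Λ ρ B θ : ℝ) (hρ : 0 < ρ) (hθ : 0 < θ) :
    ∃ Q : MvPolynomial (Fin (e + 2)) ℤ, Q ≠ 0 ∧
      ∀ (K : Type) [Field K] (R : Subring K) (P : Places K R) (t V V' : K) (y : Fin e → K),
        t ∈ R → V ∈ R → V' ∈ R → (∀ k, y k ∈ R) → V ≠ 0 → V' ≠ 0 → (∀ k, y k ≠ 0) →
        P.avg (fun w => max 0 (P.lg w t) + max 0 (P.lg w V) + max 0 (P.lg w V') +
          ∑ k, max 0 (P.lg w (y k))) ≤ B →
        ∀ (r μ1 μ2 : EuclideanSpace ℝ (Fin m)) (μ : Fin e → EuclideanSpace ℝ (Fin m)), ‖r‖ = 1 →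
        ‖μ1‖ ≤ Λ → ‖μ2‖ ≤ Λ → (∀ k, ‖μ k‖ ≤ Λ) →
        (∃ S : Finset (Fin P.D), θ * P.D ≤ S.card ∧ ∀ i ∈ S, P.σ i t ∈ KR a ρ ∧
          phi a (dat c n r) (P.σ i t) = 0 ∧
          Real.log ‖P.σ i V‖ = phi a dα (P.σ i t) + phi a (dat c n μ1) (P.σ i t) ∧
          Real.log ‖P.σ i V'‖ = phi a dβ (P.σ i t) + phi a (dat c n μ2) (P.σ i t) ∧
          (∀ k, Real.log ‖P.σ i (y k)‖ = phi a (dat c n (μ k)) (P.σ i t)) ∧
          P.σ i V + P.σ i V' + ∑ k, rf a (cg k) (ng k) (P.σ i t) *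
            mon (fun j => P.σ i (y j)) (b k) = 0) →
        V + V' = 0 ∨ MvPolynomial.aeval (pt t V y) Q = 0 := by
  let E := EuclideanSpace ℝ (Fin m)
  let T : Set (E × E × E × (Fin e → E)) :=
    {x | ‖x.1‖ = 1 ∧ ‖x.2.1‖ ≤ Λ ∧ ‖x.2.2.1‖ ≤ Λ ∧ ∀ k, ‖x.2.2.2 k‖ ≤ Λ}
  have hT : IsCompact T := by
    refine Metric.isCompact_of_isClosed_isBounded ?_ ?_
    · refine IsClosed.inter ?_ (IsClosed.inter ?_ (IsClosed.inter ?_ ?_))
      · exact isClosed_eq continuous_fst.norm continuous_const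
      · exact isClosed_le (continuous_fst.comp continuous_snd).norm continuous_const
      · exact isClosed_le (continuous_fst.comp (continuous_snd.comp continuous_snd)).norm
          continuous_const
      · have h1 : {x : E × E × E × (Fin e → E) | ∀ k, ‖x.2.2.2 k‖ ≤ Λ} =
            ⋂ k, {x : E × E × E × (Fin e → E) | ‖x.2.2.2 k‖ ≤ Λ} := by
          ext x
          simp
        change IsClosed {x : E × E × E × (Fin e → E) | ∀ k, ‖x.2.2.2 k‖ ≤ Λ}
        rw [h1]
        exact isClosed_iInter fun k => isClosed_le ((continuous_apply k).comp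
          (continuous_snd.comp (continuous_snd.comp continuous_snd))).norm continuous_const
    · refine (Metric.isBounded_closedBall (x := (0 : E × E × E × (Fin e → E)))
        (r := max 1 Λ)).subset fun x hx => ?_
      rw [mem_closedBall_zero_iff, Prod.norm_def, Prod.norm_def, Prod.norm_def]
      refine max_le (hx.1.le.trans (le_max_left _ _)) (max_le (hx.2.1.trans (le_max_right _ _))
        (max_le (hx.2.2.1.trans (le_max_right _ _)) ?_))
      refine (pi_norm_le_iff_of_nonneg (zero_le_one.trans (le_max_left _ _))).mpr fun k => ?_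
      exact (hx.2.2.2 k).trans (le_max_right _ _)
  let f : E × E × E × (Fin e → E) → ((Fin M → ℝ) × ℝ) × ((Fin M → ℝ) × ℝ) ×
      ((Fin M → ℝ) × ℝ) × (Fin e → (Fin M → ℝ) × ℝ) :=
    fun x => (dat c n x.1, dα + dat c n x.2.1, dβ + dat c n x.2.2.1,
      fun k => dat c n (x.2.2.2 k))
  have hf : Continuous f := by
    have h := continuous_dat c n
    refine Continuous.prodMk (h.comp continuous_fst) (Continuous.prodMk ?_
      (Continuous.prodMk ?_ ?_))
    · exact continuous_const.add (h.comp (continuous_fst.comp continuous_snd))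
    · exact continuous_const.add
        (h.comp (continuous_fst.comp (continuous_snd.comp continuous_snd)))
    · exact continuous_pi fun k => h.comp ((continuous_apply k).comp
        (continuous_snd.comp (continuous_snd.comp continuous_snd)))
  have hD : IsCompact (f '' T) := hT.image hf
  have hD0 : ∀ d ∈ f '' T, d.1.1 ≠ 0 := by
    rintro d ⟨⟨r, μ1, μ2, μ⟩, ⟨hr, _, _, _⟩, rfl⟩
    simp only at hr
    intro h0
    have h1 : (r : Fin m → ℝ) = 0 := real_indep hn r fun i => by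
      have := congrFun h0 i
      simpa [f, dat] using this
    have h2 : r = 0 := by
      ext j
      simpa using congrFun h1 j
    rw [h2, norm_zero] at hr
    exact zero_ne_one hr
  obtain ⟨Q, hQ, H⟩ := t1_unif_d a ha (f '' T) hD hD0 cg ng b ρ B θ hρ hθ
  refine ⟨Q, hQ, fun K _ R P t V V' y ht hV hV' hy hV0 hV0' hy0 hB r μ1 μ2 μ hr h1 h2 h3 hS => ?_⟩
  refine H K R P t V V' y ht hV hV' hy hV0 hV0' hy0 hB (f (r, μ1, μ2, μ))
    ⟨(r, μ1, μ2, μ), ⟨hr, h1, h2, h3⟩, rfl⟩ ?_
  obtain ⟨S, hS1, hS2⟩ := hS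
  refine ⟨S, hS1, fun i hi => ?_⟩
  obtain ⟨g1, g2, g3, g4, g5, g6⟩ := hS2 i hi
  refine ⟨g1, g2, ?_, ?_, g5, g6⟩
  · simp only [f]
    rw [phi_add, g3]
  · simp only [f]
    rw [phi_add, g4]

/-- the exponent vectors of the monomials -/
def expo {e g : ℕ} (b : Fin g → Fin e → ℤ) : Fin 2 ⊕ Fin g → Fin (e + 2) → ℝ :=
  Sum.elim ![pt 1 0 0, pt 0 1 0] (fun k => pt 0 0 (fun j => (b k j : ℝ)))

theorem span_bound {m e g : ℕ} (hg : 0 < g) (b : Fin g → Fin e → ℤ)
    (hspan : ∀ s : Fin e → ℝ, (∀ k l, ∑ j, s j * ((b k j : ℝ) - b l j) = 0) → s = 0) :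
    ∃ C : ℝ, 0 ≤ C ∧ ∀ (T : (Fin (e + 2) → ℝ) →ₗ[ℝ] EuclideanSpace ℝ (Fin m)) (Λ : ℝ),
      (∀ k l, ‖T (expo b k) - T (expo b l)‖ ≤ Λ) → ∀ j, ‖T (Pi.single j 1)‖ ≤ C * Λ := by
  classical
  let I := Fin 2 ⊕ Fin g
  let D : I × I → (Fin (e + 2) → ℝ) := fun p => expo b p.1 - expo b p.2
  have htop : Submodule.span ℝ (Set.range D) = ⊤ := by
    by_contra hne
    obtain ⟨f, hf, hle⟩ := Submodule.exists_le_ker_of_lt_top _ (lt_top_iff_ne_top.mpr hne)
    apply hf
    have hD : ∀ p, f (D p) = 0 := fun p => by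
      have := hle (Submodule.subset_span ⟨p, rfl⟩)
      simpa using this
    have hfe : ∀ x : Fin (e + 2) → ℝ, f x = ∑ i, x i * f (Pi.single i 1) := by
      intro x
      conv_lhs => rw [← Finset.univ_sum_single x]
      rw [map_sum]
      refine Finset.sum_congr rfl fun i _ => ?_
      have : (Pi.single i (x i) : Fin (e + 2) → ℝ) = x i • Pi.single i 1 := by
        rw [← Pi.single_smul, smul_eq_mul, mul_one]
      rw [this, map_smul, smul_eq_mul]
    have hpt : ∀ (x y : ℝ) (z : Fin e → ℝ), f (pt x y z) = x * f (Pi.single 0 1) +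
        y * f (Pi.single 1 1) + ∑ j, z j * f (Pi.single j.succ.succ 1) := by
      intro x y z
      rw [hfe, Fin.sum_univ_succ, Fin.sum_univ_succ]
      exact (add_assoc _ _ _).symm
    have hexp : ∀ k l : I, f (expo b k) = f (expo b l) := by
      intro k l
      have := hD (k, l)
      simp only [D, map_sub] at this
      linarith
    have h1 : (fun j : Fin e => f (Pi.single j.succ.succ 1)) = 0 := by
      apply hspan
      intro k l
      have h2 := hexp (.inr k) (.inr l)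
      simp only [expo, Sum.elim_inr, hpt, zero_mul, zero_add] at h2
      have h3 : ∑ j, f (Pi.single (M := fun _ => ℝ) (Fin.succ (Fin.succ j)) 1) *
          ((b k j : ℝ) - b l j) = ∑ j, (b k j : ℝ) * f (Pi.single j.succ.succ 1) -
          ∑ j, (b l j : ℝ) * f (Pi.single j.succ.succ 1) := by
        rw [← Finset.sum_sub_distrib]
        exact Finset.sum_congr rfl fun j _ => by ring
      rw [h3, h2, sub_self]
    have h1' : ∀ j : Fin e, f (Pi.single j.succ.succ 1) = 0 := fun j => congrFun h1 j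
    have hb0 : ∀ k : Fin g, f (expo b (.inr k)) = 0 := by
      intro k
      simp only [expo, Sum.elim_inr, hpt, zero_mul, zero_add, h1', mul_zero,
        Finset.sum_const_zero]
    have h20 : f (Pi.single 0 1) = 0 := by
      have h2 := hexp (.inl 0) (.inr ⟨0, hg⟩)
      rw [hb0] at h2
      simpa [expo, hpt, h1'] using h2
    have h21 : f (Pi.single 1 1) = 0 := by
      have h2 := hexp (.inl 1) (.inr ⟨0, hg⟩)
      rw [hb0] at h2
      simpa [expo, hpt, h1'] using h2
    refine LinearMap.ext fun x => ?_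
    rw [hfe, Fin.sum_univ_succ, Fin.sum_univ_succ]
    have h22 : f (Pi.single (Fin.succ 0) 1) = 0 := h21
    rw [h20, h22]
    simp [h1']
  have hc : ∀ j : Fin (e + 2), ∃ c : I × I → ℝ, ∑ p, c p • D p = Pi.single j 1 := by
    intro j
    have : (Pi.single j 1 : Fin (e + 2) → ℝ) ∈ Submodule.span ℝ (Set.range D) := by
      rw [htop]
      trivial
    exact (Submodule.mem_span_range_iff_exists_fun ℝ).mp this
  choose c hc using hc
  refine ⟨∑ j, ∑ p, |c j p|, by positivity, fun T Λ hT j => ?_⟩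
  have hΛ : 0 ≤ Λ := (norm_nonneg _).trans (hT (.inl 0) (.inl 0))
  rw [← hc j, map_sum]
  calc ‖∑ p, T (c j p • D p)‖ ≤ ∑ p, ‖T (c j p • D p)‖ := norm_sum_le _ _
    _ ≤ ∑ p, |c j p| * Λ := by
        refine Finset.sum_le_sum fun p _ => ?_
        rw [map_smul, norm_smul, Real.norm_eq_abs]
        refine mul_le_mul_of_nonneg_left ?_ (abs_nonneg _)
        simp only [D, map_sub]
        exact hT p.1 p.2
    _ = (∑ p, |c j p|) * Λ := by rw [Finset.sum_mul]
    _ ≤ (∑ j, ∑ p, |c j p|) * Λ := by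
        refine mul_le_mul_of_nonneg_right ?_ hΛ
        exact Finset.single_le_sum (f := fun j => ∑ p, |c j p|)
          (fun j _ => Finset.sum_nonneg fun p _ => abs_nonneg _) (Finset.mem_univ j)

end MND

end Pool.Agent.RS
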