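import Pool.Agent.Lib.MP_c95b3b_ag_RS.DefsD

/-! Project RSd (MP_c95b3b_ag), module RLD: real relations from integer relations. -/

namespace Pool.Agent.RS

open Pool.Agent.L3 Module

namespace RelD

/-- the coordinates of a pair of integer vectors -/
def flat (d m : ℕ) : ((Fin d → ℤ) × (Fin m → ℤ)) →ₗ[ℤ] (Fin d ⊕ Fin m → ℤ) where
  toFun c := Sum.elim c.1 c.2
  map_add' c c' := by
    funext i
    rcases i with i | i <;> rfl
  map_smul' a c := by
    funext i
    rcases i with i | i <;> rfl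

theorem flat_ker (d m : ℕ) : LinearMap.ker (flat d m) = ⊥ := by
  rw [LinearMap.ker_eq_bot']
  intro c hc
  refine Prod.ext ?_ ?_
  · funext k
    exact congrFun hc (Sum.inl k)
  · funext j
    exact congrFun hc (Sum.inr j)

/-- the pair of real vectors with given coordinates -/
noncomputable def unflat (d m : ℕ) :
    (Fin d ⊕ Fin m → ℝ) →ₗ[ℝ] ((Fin d → ℝ) × EuclideanSpace ℝ (Fin m)) where
  toFun g := (fun k => g (Sum.inl k), WithLp.toLp 2 (fun j => g (Sum.inr j)))
  map_add' _ _ := rfl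
  map_smul' _ _ := rfl

theorem unflat_ker (d m : ℕ) : LinearMap.ker (unflat d m) = ⊥ := by
  rw [LinearMap.ker_eq_bot']
  intro g hg
  have h1 : ∀ k, g (Sum.inl k) = 0 := fun k => congrArg (fun c => c.1 k) hg
  have h2 : ∀ j, g (Sum.inr j) = 0 := fun j => congrArg (fun c => c.2 j) hg
  funext i
  rcases i with i | i
  · exact h1 i
  · exact h2 i

/-- the pairs of real vectors satisfying the relation at all places -/
noncomputable def rel {K : Type} [Field K] {R : Subring K} (P : Places K R) {d m : ℕ}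
    (u : Fin d → K) (x : Fin m → K) :
    Submodule ℝ ((Fin d → ℝ) × EuclideanSpace ℝ (Fin m)) where
  carrier := {c | ∀ w, ∑ k, c.1 k * P.lg w (u k) + ∑ j, c.2 j * P.lg w (x j) = 0}
  add_mem' := by
    intro c c' hc hc' w
    have h1 := hc w
    have h2 := hc' w
    have h3 : ∑ j, (c + c').2 j * P.lg w (x j) =
        ∑ j, c.2 j * P.lg w (x j) + ∑ j, c'.2 j * P.lg w (x j) := by
      rw [← Finset.sum_add_distrib]
      refine Finset.sum_congr rfl fun j _ => ?_
      have : (c + c').2 j = c.2 j + c'.2 j := rfl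
      rw [this, add_mul]
    have h4 : ∑ k, (c + c').1 k * P.lg w (u k) =
        ∑ k, c.1 k * P.lg w (u k) + ∑ k, c'.1 k * P.lg w (u k) := by
      rw [← Finset.sum_add_distrib]
      refine Finset.sum_congr rfl fun k _ => ?_
      have : (c + c').1 k = c.1 k + c'.1 k := rfl
      rw [this, add_mul]
    rw [h3, h4]
    linear_combination h1 + h2
  zero_mem' := by
    intro w
    have h3 : ∑ j, (0 : (Fin d → ℝ) × EuclideanSpace ℝ (Fin m)).2 j * P.lg w (x j) = 0 := by
      refine Finset.sum_eq_zero fun j _ => ?_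
      have : (0 : (Fin d → ℝ) × EuclideanSpace ℝ (Fin m)).2 j = 0 := rfl
      rw [this, zero_mul]
    have h4 : ∑ k, (0 : (Fin d → ℝ) × EuclideanSpace ℝ (Fin m)).1 k * P.lg w (u k) = 0 := by
      refine Finset.sum_eq_zero fun k _ => ?_
      have : (0 : (Fin d → ℝ) × EuclideanSpace ℝ (Fin m)).1 k = 0 := rfl
      rw [this, zero_mul]
    rw [h3, h4, add_zero]
  smul_mem' := by
    intro a c hc w
    have h1 := hc w
    have h3 : ∑ j, (a • c).2 j * P.lg w (x j) = a * ∑ j, c.2 j * P.lg w (x j) := by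
      rw [Finset.mul_sum]
      refine Finset.sum_congr rfl fun j _ => ?_
      have : (a • c).2 j = a * c.2 j := rfl
      rw [this, mul_assoc]
    have h4 : ∑ k, (a • c).1 k * P.lg w (u k) = a * ∑ k, c.1 k * P.lg w (u k) := by
      rw [Finset.mul_sum]
      refine Finset.sum_congr rfl fun k _ => ?_
      have : (a • c).1 k = a * c.1 k := rfl
      rw [this, mul_assoc]
    rw [h3, h4]
    linear_combination a * h1

theorem mem_rel {K : Type} [Field K] {R : Subring K} (P : Places K R) {d m : ℕ}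
    (u : Fin d → K) (x : Fin m → K) (hu : ∀ k, u k ≠ 0) (hx : ∀ j, x j ≠ 0)
    (c : (Fin d → ℤ) × (Fin m → ℤ)) (h : (∏ k, u k ^ c.1 k) * ∏ j, x j ^ c.2 j = 1) :
    unflat d m (algebraMap ℤ ℝ ∘ flat d m c) ∈ rel P u x := by
  intro w
  have h0 : P.lg w ((∏ k, u k ^ c.1 k) * ∏ j, x j ^ c.2 j) = 0 := by rw [h, P.lg_one]
  have h1 : ∀ j ∈ Finset.univ, x j ^ c.2 j ≠ 0 := fun j _ => zpow_ne_zero _ (hx j)
  have h2 : ∀ k ∈ Finset.univ, u k ^ c.1 k ≠ 0 := fun k _ => zpow_ne_zero _ (hu k)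
  rw [P.lg_mul w (Finset.prod_ne_zero_iff.mpr h2) (Finset.prod_ne_zero_iff.mpr h1),
    lg_prod P w _ _ h1, lg_prod P w _ _ h2] at h0
  simp only [P.lg_zpow] at h0
  exact h0

end RelD

theorem exists_rel_d {K : Type} [Field K] {R : Subring K} (P : Places K R) {d m : ℕ}
    (u : Fin d → K) (x : Fin m → K) (hu : ∀ k, u k ≠ 0) (hx : ∀ j, x j ≠ 0)
    (Λ : Submodule ℤ ((Fin d → ℤ) × (Fin m → ℤ))) (n : ℕ) (hΛ : n ≤ finrank ℤ Λ)
    (h : ∀ c ∈ Λ, (∏ k, u k ^ c.1 k) * ∏ j, x j ^ c.2 j = 1) :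
    ∃ V : Submodule ℝ ((Fin d → ℝ) × EuclideanSpace ℝ (Fin m)), n ≤ finrank ℝ V ∧
      ∀ c ∈ V, ∀ w, ∑ k, c.1 k * P.lg w (u k) + ∑ j, c.2 j * P.lg w (x j) = 0 := by
  refine ⟨RelD.rel P u x, ?_, fun c hc => hc⟩
  obtain ⟨f, hf⟩ := exists_linearIndependent_of_le_finrank hΛ
  have h0 : LinearIndependent ℤ (fun j => (f j : (Fin d → ℤ) × (Fin m → ℤ))) :=
    hf.map' Λ.subtype (Submodule.ker_subtype Λ)
  have h1 : LinearIndependent ℤ (fun j => RelD.flat d m (f j : (Fin d → ℤ) × (Fin m → ℤ))) :=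
    h0.map' (RelD.flat d m) (RelD.flat_ker d m)
  have h2 : LinearIndependent ℝ
      (fun j => algebraMap ℤ ℝ ∘ RelD.flat d m (f j : (Fin d → ℤ) × (Fin m → ℤ))) :=
    linearIndependent_algebraMap_comp_iff.2 h1
  have h3 : LinearIndependent ℝ (fun j => RelD.unflat d m
      (algebraMap ℤ ℝ ∘ RelD.flat d m (f j : (Fin d → ℤ) × (Fin m → ℤ)))) :=
    h2.map' (RelD.unflat d m) (RelD.unflat_ker d m)
  let g : Fin n → RelD.rel P u x := fun j =>
    ⟨RelD.unflat d m (algebraMap ℤ ℝ ∘ RelD.flat d m (f j : (Fin d → ℤ) × (Fin m → ℤ))),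
      RelD.mem_rel P u x hu hx _ (h _ (f j).2)⟩
  have h4 : LinearIndependent ℝ g := LinearIndependent.of_comp (RelD.rel P u x).subtype h3
  have h5 := h4.fintype_card_le_finrank
  simpa using h5

end Pool.Agent.RS
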