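import Mathlib
import Pool.Agent.Lib.MP_c95b3b_ag_RS.DefsD
import Pool.Agent.Lib.MP_c95b3b_ag_RS.PFD

/-! Project RSd (MP_c95b3b_ag), module SC: classes of monomials of comparable size. -/

namespace Pool.Agent.RS

open Pool.Agent.L3 Module

namespace SC

/-- the scales -/
noncomputable def Ls (C : ℝ) : ℕ → ℝ
  | 0 => 1
  | i + 1 => C * (1 + Ls C i)

theorem Ls_pos (C : ℝ) (hC : 2 ≤ C) (i : ℕ) : 1 ≤ Ls C i := by
  induction i with
  | zero => exact le_refl _
  | succ i ih => simp only [Ls]; nlinarith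

theorem Ls_succ (C : ℝ) (hC : 2 ≤ C) (i : ℕ) : 2 * Ls C i ≤ Ls C (i + 1) := by
  have h := Ls_pos C hC i
  simp only [Ls]; nlinarith

theorem Ls_mono (C : ℝ) (hC : 2 ≤ C) : Monotone (Ls C) := by
  refine monotone_nat_of_le_succ fun i => ?_
  have h := Ls_pos C hC i
  have h2 := Ls_succ C hC i
  linarith

/-- a gap in the scales -/
theorem exists_gap {T : Type} [Fintype T] (C : ℝ) (hC : 2 ≤ C) (x : T → ℝ) :
    ∃ i ≤ Fintype.card T, ∀ t, x t < Ls C i ∨ Ls C (i + 1) ≤ x t := by
  classical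
  by_contra h
  push Not at h
  have h' : ∀ i : Fin (Fintype.card T + 1), ∃ t, Ls C i ≤ x t ∧ x t < Ls C (i + 1) :=
    fun i => h i (Nat.lt_succ_iff.mp i.2)
  choose f hf using h'
  have hinj : Function.Injective f := by
    intro i j hij
    rcases lt_trichotomy i j with h1 | h1 | h1
    · have h2 : Ls C (i + 1) ≤ Ls C j := Ls_mono C hC h1
      have h3 := (hf i).2
      have h4 := (hf j).1
      rw [← hij] at h4
      linarith
    · exact h1
    · have h2 : Ls C (j + 1) ≤ Ls C i := Ls_mono C hC h1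
      have h3 := (hf j).2
      have h4 := (hf i).1
      rw [hij] at h4
      linarith
  have := Fintype.card_le_of_injective f hinj
  rw [Fintype.card_fin] at this
  omega

end SC

open SC in
theorem scales {I : Type} [Fintype I] [DecidableEq I] (m : ℕ) (θ : ℝ) (hθ : 0 < θ) :
    ∃ θ' : ℝ, 0 < θ' ∧ ∀ ε C1 C2 : ℝ, 0 < ε → ∃ Λ : ℝ,
    ∀ (K : Type) [Field K] (R : Subring K) (P : Places K R) (S : Finset (Fin P.D)) (v : I → K)
      (σ : I → EuclideanSpace ℝ (Fin m)) (mu : P.Pl → EuclideanSpace ℝ (Fin m))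
      (A : I → P.Pl → ℝ), θ * P.D ≤ S.card →
      (∀ k, v k ≠ 0 ∧ v k ∈ R ∧ (v k)⁻¹ ∈ R) → ∑ k, v k = 0 →
      (∀ k w, P.lg w (v k) = A k w + inner ℝ (σ k) (mu w)) →
      (∀ k, P.avg (fun w => |A k w|) ≤ C1) → P.avg (fun w => ‖mu w‖) ≤ C1 →
      (∀ k, ∀ i ∈ S, |A k (.inl i)| ≤ C2) →
      (∀ k l, σ k ≠ σ l → ((S.filter (fun i =>
        |inner ℝ (σ k - σ l) (mu (.inl i))| ≤ ε * ‖σ k - σ l‖)).card : ℝ) ≤ θ' * P.D) →
      (∃ J : Finset I, J.Nonempty ∧ J ≠ Finset.univ ∧ ∑ k ∈ J, v k = 0) ∨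
        ∀ k l, ‖σ k - σ l‖ ≤ Λ := by
  classical
  rcases isEmpty_or_nonempty I with hI | hI
  · refine ⟨1, one_pos, fun ε C1 C2 hε => ⟨0, ?_⟩⟩
    intro K _ R P S v σ mu A _ _ _ _ _ _ _ _
    right
    intro k
    exact (hI.false k).elim
  set n : ℝ := (Fintype.card I : ℝ) with hn
  have hn1 : 1 ≤ n := by
    rw [hn]; exact_mod_cast Fintype.card_pos
  have hn0 : 0 < n := by linarith
  have hlogn : 0 ≤ Real.log n := Real.log_nonneg hn1
  refine ⟨θ / (2 * n ^ 2), by positivity, fun ε C1 C2 hε => ?_⟩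
  set C0 : ℝ := 2 * |C2| + Real.log n + 1 +
    (2 * n / θ) * (2 * n * |C1| + |C1| + Real.log n) with hC0
  have hC00 : 0 ≤ C0 := by positivity
  set C' : ℝ := max 2 (C0 / ε) with hC'
  have hC2' : 2 ≤ C' := le_max_left _ _
  have hCε : C0 ≤ ε * C' := by
    have := le_max_right 2 (C0 / ε)
    rw [div_le_iff₀ hε] at this
    rw [mul_comm]; exact this
  set Λ : ℝ := Ls C' (Fintype.card (I × I)) with hΛ
  refine ⟨Λ, ?_⟩
  intro K _ R P S v σ mu A hS hv hsum hlg hA hmu hAS hbad
  have hD : (0 : ℝ) < P.D := P.D_cast_pos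
  obtain ⟨i0, hi0, hgap⟩ := exists_gap C' hC2' (fun p : I × I => ‖σ p.1 - σ p.2‖)
  set L : ℝ := Ls C' i0 with hL
  set L' : ℝ := Ls C' (i0 + 1) with hL'
  have hL1 : 1 ≤ L := Ls_pos C' hC2' i0
  have hLL' : 2 * L ≤ L' := Ls_succ C' hC2' i0
  have hL'eq : L' = C' * (1 + L) := rfl
  have hgap' : ∀ k l, ‖σ k - σ l‖ < L ∨ L' ≤ ‖σ k - σ l‖ := fun k l => hgap (k, l)
  have htrans : ∀ k l j, ‖σ k - σ l‖ < L → ‖σ l - σ j‖ < L → ‖σ k - σ j‖ < L := by
    intro k l j h1 h2
    rcases hgap' k j with h | h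
    · exact h
    · have h3 : ‖σ k - σ j‖ ≤ ‖σ k - σ l‖ + ‖σ l - σ j‖ := norm_sub_le_norm_sub_add_norm_sub _ _ _
      linarith
  by_cases hall : ∀ k l, ‖σ k - σ l‖ < L
  · right
    intro k l
    exact (hall k l).le.trans (Ls_mono C' hC2' hi0)
  left
  push Not at hall
  obtain ⟨k1, l1, hk1⟩ := hall
  -- the good embeddings
  set Bad : I × I → Finset (Fin P.D) := fun p => if L' ≤ ‖σ p.1 - σ p.2‖ then
    S.filter (fun i => |inner ℝ (σ p.1 - σ p.2) (mu (.inl i))| ≤ ε * ‖σ p.1 - σ p.2‖) else ∅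
    with hBad
  have hBadc : ∀ p, ((Bad p).card : ℝ) ≤ θ / (2 * n ^ 2) * P.D := by
    intro p
    by_cases h : L' ≤ ‖σ p.1 - σ p.2‖
    · rw [hBad]
      simp only [h, if_true]
      refine hbad p.1 p.2 ?_
      intro h1
      rw [h1, sub_self, norm_zero] at h
      linarith
    · rw [hBad]
      simp only [h, if_false, Finset.card_empty, Nat.cast_zero]
      positivity
  set G : Finset (Fin P.D) := S \ Finset.univ.biUnion Bad with hG
  have hGc : θ / 2 * P.D ≤ (G.card : ℝ) := by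
    have h1 : ((Finset.univ.biUnion Bad).card : ℝ) ≤ θ / 2 * P.D := by
      calc ((Finset.univ.biUnion Bad).card : ℝ) ≤ ((∑ p : I × I, (Bad p).card : ℕ) : ℝ) := by
            exact_mod_cast Finset.card_biUnion_le
        _ = ∑ p : I × I, ((Bad p).card : ℝ) := by push_cast; rfl
        _ ≤ ∑ _p : I × I, θ / (2 * n ^ 2) * P.D := Finset.sum_le_sum fun p _ => hBadc p
        _ = θ / 2 * P.D := by
            rw [Finset.sum_const, Finset.card_univ, Fintype.card_prod, nsmul_eq_mul]
            push_cast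
            rw [← hn]
            field_simp
    have h2 : (S.card : ℝ) ≤ (G.card : ℝ) + ((Finset.univ.biUnion Bad).card : ℝ) := by
      have h3 : S.card ≤ G.card + (Finset.univ.biUnion Bad).card := by
        have h4 := Finset.le_card_sdiff (Finset.univ.biUnion Bad) S
        rw [← hG] at h4
        omega
      exact_mod_cast h3
    linarith
  have hGgood : ∀ i ∈ G, i ∈ S ∧ ∀ k l, L' ≤ ‖σ k - σ l‖ →
      ε * L' < |inner ℝ (σ k - σ l) (mu (.inl i))| := by
    intro i hi
    rw [hG, Finset.mem_sdiff] at hi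
    refine ⟨hi.1, fun k l hkl => ?_⟩
    by_contra h
    push Not at h
    apply hi.2
    rw [Finset.mem_biUnion]
    refine ⟨(k, l), Finset.mem_univ _, ?_⟩
    rw [hBad]
    simp only [hkl, if_true, Finset.mem_filter]
    exact ⟨hi.1, h.trans (mul_le_mul_of_nonneg_left hkl hε.le)⟩
  -- the index with maximal absolute value
  have hmax : ∀ i : Fin P.D, ∃ k0 : I, ∀ k, P.lg (.inl i) (v k) ≤ P.lg (.inl i) (v k0) := by
    intro i
    obtain ⟨k0, _, hk0⟩ := Finset.exists_max_image Finset.univ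
      (fun k => P.lg (.inl i) (v k)) Finset.univ_nonempty
    exact ⟨k0, fun k => hk0 k (Finset.mem_univ k)⟩
  choose km hkm using hmax
  obtain ⟨k0, hk0⟩ : ∃ k0 : I, θ / (2 * n) * P.D ≤ ((G.filter (fun i => km i = k0)).card : ℝ) := by
    by_contra h
    push Not at h
    have h1 : (G.card : ℝ) = ∑ k : I, ((G.filter (fun i => km i = k)).card : ℝ) := by
      have := Finset.card_eq_sum_card_fiberwise (f := km) (s := G) (t := Finset.univ)
        (fun i _ => Finset.mem_univ _)
      rw [this]; push_cast; rfl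
    have h2 : ∑ k : I, ((G.filter (fun i => km i = k)).card : ℝ) <
        ∑ _k : I, θ / (2 * n) * P.D :=
      Finset.sum_lt_sum_of_nonempty Finset.univ_nonempty fun k _ => h k
    rw [Finset.sum_const, Finset.card_univ, nsmul_eq_mul, ← hn] at h2
    have h3 : n * (θ / (2 * n) * P.D) = θ / 2 * P.D := by field_simp
    rw [h3] at h2
    linarith
  set T : Finset (Fin P.D) := G.filter (fun i => km i = k0) with hT
  have hTG : ∀ i ∈ T, i ∈ G ∧ ∀ k, P.lg (.inl i) (v k) ≤ P.lg (.inl i) (v k0) := by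
    intro i hi
    rw [hT, Finset.mem_filter] at hi
    refine ⟨hi.1, fun k => ?_⟩
    rw [← hi.2]; exact hkm i k
  -- the class of `k0`
  set J : Finset I := Finset.univ.filter (fun k => ‖σ k - σ k0‖ < L) with hJ
  have hk0J : k0 ∈ J := by
    rw [hJ, Finset.mem_filter]
    refine ⟨Finset.mem_univ _, ?_⟩
    rw [sub_self, norm_zero]; linarith
  have hJne : J ≠ Finset.univ := by
    intro h
    have h1 : ∀ k, ‖σ k - σ k0‖ < L := by
      intro k
      have : k ∈ J := by rw [h]; exact Finset.mem_univ k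
      rw [hJ, Finset.mem_filter] at this
      exact this.2
    have h2 := htrans k1 k0 l1 (h1 k1) (by rw [norm_sub_rev]; exact h1 l1)
    linarith
  refine ⟨J, ⟨k0, hk0J⟩, hJne, ?_⟩
  set z : K := ∑ k ∈ J, v k * (v k0)⁻¹ with hz
  have hv0 : v k0 ≠ 0 := (hv k0).1
  have hzv : z * v k0 = ∑ k ∈ J, v k := by
    rw [hz, Finset.sum_mul]
    refine Finset.sum_congr rfl fun k _ => ?_
    rw [mul_assoc, inv_mul_cancel₀ hv0, mul_one]
  have hzR : z ∈ R := R.sum_mem fun k _ => R.mul_mem (hv k).2.1 (hv k0).2.2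
  suffices h : z = 0 by rw [← hzv, h, zero_mul]
  by_contra hz0
  have hz' : z = - ∑ k ∈ Jᶜ, v k * (v k0)⁻¹ := by
    rw [eq_neg_iff_add_eq_zero, hz, Finset.sum_add_sum_compl, ← Finset.sum_mul, hsum, zero_mul]
  -- the quotients
  have hq : ∀ k w, P.lg w (v k * (v k0)⁻¹) =
      A k w - A k0 w + inner ℝ (σ k - σ k0) (mu w) := by
    intro k w
    rw [P.lg_mul w (hv k).1 (inv_ne_zero hv0), P.lg_inv, hlg, hlg, inner_sub_left]
    ring
  set mm : P.Pl → ℝ := fun w => (∑ k, (|A k w| + |A k0 w|) + L * ‖mu w‖) +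
    Real.log n * P.arch w with hmm
  have hmm0 : ∀ w, 0 ≤ mm w := by
    intro w
    have h1 : 0 ≤ ∑ k, (|A k w| + |A k0 w|) := Finset.sum_nonneg fun k _ => by positivity
    have h2 : 0 ≤ L * ‖mu w‖ := mul_nonneg (by linarith) (norm_nonneg _)
    have h3 : 0 ≤ Real.log n * P.arch w := mul_nonneg hlogn (P.arch_nonneg w)
    rw [hmm]; positivity
  have hqJ : ∀ w, ∀ k ∈ J, P.lg w (v k * (v k0)⁻¹) ≤
      ∑ k, (|A k w| + |A k0 w|) + L * ‖mu w‖ := by
    intro w k hk
    rw [hJ, Finset.mem_filter] at hk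
    rw [hq]
    have h1 : |A k w| + |A k0 w| ≤ ∑ k, (|A k w| + |A k0 w|) :=
      Finset.single_le_sum (f := fun k => |A k w| + |A k0 w|) (fun k _ => by positivity)
        (Finset.mem_univ k)
    have h2 : inner ℝ (σ k - σ k0) (mu w) ≤ L * ‖mu w‖ := by
      refine (real_inner_le_norm _ _).trans ?_
      exact mul_le_mul_of_nonneg_right hk.2.le (norm_nonneg _)
    have h3 := le_abs_self (A k w)
    have h4 := neg_abs_le (A k0 w)
    linarith
  have hlgz : ∀ w, P.lg w z ≤ mm w := by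
    intro w
    set E : ℝ := ∑ k, (|A k w| + |A k0 w|) + L * ‖mu w‖ with hE
    rcases w with i | j
    · rw [P.lg_inl]
      have h1 : ‖P.σ i z‖ ≤ n * Real.exp E := by
        rw [hz, map_sum]
        refine (norm_sum_le _ _).trans ?_
        calc ∑ k ∈ J, ‖P.σ i (v k * (v k0)⁻¹)‖ ≤ ∑ _k ∈ J, Real.exp E := by
              refine Finset.sum_le_sum fun k hk => ?_
              have h2 := hqJ (.inl i) k hk
              rw [P.lg_inl] at h2
              have h3 : 0 < ‖P.σ i (v k * (v k0)⁻¹)‖ := by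
                rw [norm_pos_iff, Ne, map_eq_zero]
                exact mul_ne_zero (hv k).1 (inv_ne_zero hv0)
              rw [← Real.log_le_iff_le_exp h3]
              exact h2
          _ = (J.card : ℝ) * Real.exp E := by rw [Finset.sum_const, nsmul_eq_mul]
          _ ≤ n * Real.exp E := by
              refine mul_le_mul_of_nonneg_right ?_ (Real.exp_pos _).le
              rw [hn]; exact_mod_cast Finset.card_le_univ J
      have h4 : 0 < ‖P.σ i z‖ := by rw [norm_pos_iff, Ne, map_eq_zero]; exact hz0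
      have h5 := Real.log_le_log h4 h1
      rw [Real.log_mul hn0.ne' (Real.exp_pos _).ne', Real.log_exp] at h5
      show _ ≤ E + Real.log n * P.arch (.inl i)
      rw [P.arch_inl]; linarith
    · rw [P.lg_inr]
      have h1 : P.v j z ≤ Real.exp E := by
        rw [hz]
        refine P.v_sum_le j _ _ (Real.exp_pos _).le fun k hk => ?_
        have h2 := hqJ (.inr j) k hk
        rw [P.lg_inr] at h2
        have h3 : 0 < P.v j (v k * (v k0)⁻¹) :=
          (P.v j).pos (mul_ne_zero (hv k).1 (inv_ne_zero hv0))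
        rw [← Real.log_le_iff_le_exp h3]
        exact h2
      have h4 : 0 < P.v j z := (P.v j).pos hz0
      have h5 := Real.log_le_log h4 h1
      rw [Real.log_exp] at h5
      show _ ≤ E + Real.log n * P.arch (.inr j)
      rw [P.arch_inr]; linarith
  have havg : P.avg mm ≤ 2 * n * |C1| + L * |C1| + Real.log n := by
    have h1 : P.avg mm = (∑ k, (P.avg (fun w => |A k w|) + P.avg (fun w => |A k0 w|)) +
        L * P.avg (fun w => ‖mu w‖)) + Real.log n := by
      rw [hmm, P.avg_add, P.avg_add, P.avg_const_arch, P.avg_mul, P.avg_sum]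
      congr 2
      refine Finset.sum_congr rfl fun k _ => ?_
      rw [P.avg_add]
    rw [h1]
    have h2 : ∑ k, (P.avg (fun w => |A k w|) + P.avg (fun w => |A k0 w|)) ≤ 2 * n * |C1| := by
      calc ∑ k, (P.avg (fun w => |A k w|) + P.avg (fun w => |A k0 w|))
          ≤ ∑ _k : I, (|C1| + |C1|) := Finset.sum_le_sum fun k _ =>
            add_le_add ((hA k).trans (le_abs_self _)) ((hA k0).trans (le_abs_self _))
        _ = 2 * n * |C1| := by
            rw [Finset.sum_const, Finset.card_univ, nsmul_eq_mul, ← hn]; ring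
    have h3 : L * P.avg (fun w => ‖mu w‖) ≤ L * |C1| :=
      mul_le_mul_of_nonneg_left (hmu.trans (le_abs_self _)) (by linarith)
    linarith
  set Γ : ℝ := ε * L' - 2 * |C2| - Real.log n with hΓ
  have hΓbig : 1 + (2 * n / θ) * (2 * n * |C1| + L * |C1| + Real.log n) ≤ Γ := by
    have h1 : C0 * (1 + L) ≤ ε * L' := by
      rw [hL'eq, ← mul_assoc]
      exact mul_le_mul_of_nonneg_right hCε (by linarith)
    have h2 : 2 * |C2| + Real.log n + 1 +
        (2 * n / θ) * (2 * n * |C1| + L * |C1| + Real.log n) ≤ C0 * (1 + L) := by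
      have e1 : 0 ≤ |C1| := abs_nonneg _
      have e2 : 0 ≤ |C2| := abs_nonneg _
      have e3 : 0 ≤ 2 * n / θ := by positivity
      have e4 : 0 ≤ L := by linarith
      have e5 : 2 * n * |C1| + L * |C1| + Real.log n ≤
          (2 * n * |C1| + |C1| + Real.log n) * (1 + L) := by
        have : 0 ≤ 2 * n * |C1| * L := by positivity
        have : 0 ≤ Real.log n * L := by positivity
        nlinarith
      have e6 := mul_le_mul_of_nonneg_left e5 e3
      have e7 : 0 ≤ (2 * |C2| + Real.log n + 1) * L := by positivity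
      rw [hC0]
      nlinarith
    rw [hΓ]; linarith
  have hΓ0 : 0 ≤ Γ := by
    have : 0 ≤ (2 * n / θ) * (2 * n * |C1| + L * |C1| + Real.log n) := by
      have : 0 ≤ L := by linarith
      positivity
    linarith
  have hsm : ∀ i ∈ T, P.lg (.inl i) z ≤ -Γ := by
    intro i hi
    obtain ⟨hiG, himax⟩ := hTG i hi
    obtain ⟨hiS, hgood⟩ := hGgood i hiG
    have h1 : ∀ k ∈ Jᶜ, ‖P.σ i (v k * (v k0)⁻¹)‖ ≤ Real.exp (-(ε * L' - 2 * |C2|)) := by
      intro k hk
      have hk' : L' ≤ ‖σ k - σ k0‖ := by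
        rcases hgap' k k0 with h | h
        · exfalso
          rw [Finset.mem_compl, hJ, Finset.mem_filter] at hk
          exact hk ⟨Finset.mem_univ _, h⟩
        · exact h
      have h2 := hgood k k0 hk'
      have h3 := hq k (.inl i)
      have h4 : P.lg (.inl i) (v k * (v k0)⁻¹) ≤ 0 := by
        rw [P.lg_mul _ (hv k).1 (inv_ne_zero hv0), P.lg_inv]
        have := himax k
        linarith
      have h5 : |A k (.inl i)| ≤ |C2| := (hAS k i hiS).trans (le_abs_self _)
      have h6 : |A k0 (.inl i)| ≤ |C2| := (hAS k0 i hiS).trans (le_abs_self _)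
      have h7 : P.lg (.inl i) (v k * (v k0)⁻¹) ≤ -(ε * L' - 2 * |C2|) := by
        rw [h3]
        rw [h3] at h4
        have a1 := abs_le.mp h5
        have a2 := abs_le.mp h6
        rcases abs_cases (inner ℝ (σ k - σ k0) (mu (.inl i)) : ℝ) with ⟨h8, _⟩ | ⟨h8, _⟩
        · rw [h8] at h2
          -- the inner product is positive and large: impossible, unless small
          have : ε * L' ≤ 2 * |C2| := by linarith
          have h9 : 0 ≤ (2 * n / θ) * (2 * n * |C1| + L * |C1| + Real.log n) := by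
            have : 0 ≤ L := by linarith
            positivity
          have : Γ ≤ 0 := by rw [hΓ]; linarith
          linarith
        · rw [h8] at h2
          linarith
      rw [P.lg_inl] at h7
      have h8 : 0 < ‖P.σ i (v k * (v k0)⁻¹)‖ := by
        rw [norm_pos_iff, Ne, map_eq_zero]
        exact mul_ne_zero (hv k).1 (inv_ne_zero hv0)
      rwa [Real.log_le_iff_le_exp h8] at h7
    have h2 : ‖P.σ i z‖ ≤ n * Real.exp (-(ε * L' - 2 * |C2|)) := by
      rw [hz', map_neg, norm_neg, map_sum]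
      refine (norm_sum_le _ _).trans ?_
      calc ∑ k ∈ Jᶜ, ‖P.σ i (v k * (v k0)⁻¹)‖ ≤
            ∑ _k ∈ Jᶜ, Real.exp (-(ε * L' - 2 * |C2|)) := Finset.sum_le_sum h1
        _ = ((Jᶜ).card : ℝ) * Real.exp (-(ε * L' - 2 * |C2|)) := by
            rw [Finset.sum_const, nsmul_eq_mul]
        _ ≤ n * Real.exp (-(ε * L' - 2 * |C2|)) := by
            refine mul_le_mul_of_nonneg_right ?_ (Real.exp_pos _).le
            rw [hn]; exact_mod_cast Finset.card_le_univ _
    have h3 : 0 < ‖P.σ i z‖ := by rw [norm_pos_iff, Ne, map_eq_zero]; exact hz0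
    have h4 := Real.log_le_log h3 h2
    rw [Real.log_mul hn0.ne' (Real.exp_pos _).ne', Real.log_exp] at h4
    rw [P.lg_inl, hΓ]
    linarith
  have hfin := pf0 P z hzR hz0 mm hmm0 hlgz _ Γ (θ / (2 * n)) havg hΓ0 T hk0 hsm
  have h1 : θ / (2 * n) * (1 + (2 * n / θ) * (2 * n * |C1| + L * |C1| + Real.log n)) ≤
      θ / (2 * n) * Γ := mul_le_mul_of_nonneg_left hΓbig (by positivity)
  have h2 : θ / (2 * n) * (1 + (2 * n / θ) * (2 * n * |C1| + L * |C1| + Real.log n)) =
      θ / (2 * n) + (2 * n * |C1| + L * |C1| + Real.log n) := by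
    field_simp
  have h3 : 0 < θ / (2 * n) := by positivity
  linarith

end Pool.Agent.RS
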