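import Mathlib
import Pool.Agent.Lib.MP_c95b3b_ag_RS.DefsD

/-! Project RSd (MP_c95b3b_ag): vanishing subsums give a polynomial. -/

namespace Pool.Agent.RS

open Pool.Agent.L3 Module

namespace SP

variable {K0 : Type} [Field K0] {M e g : ℕ}

/-- the polynomial `c ∏ (X_0 - a i) ^ n i ∏ X_(j+2) ^ β j` -/
noncomputable def pol (a : Fin M → K0) (c : K0) (n : Fin M → ℕ) (β : Fin e → ℕ) :
    MvPolynomial (Fin (e + 2)) K0 :=
  MvPolynomial.C c * (∏ i, (MvPolynomial.X 0 - MvPolynomial.C (a i)) ^ n i) *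
    ∏ j : Fin e, MvPolynomial.X j.succ.succ ^ β j

theorem aeval_pol {R : Type} [CommRing R] [Algebra K0 R] (a : Fin M → K0) (c : K0)
    (n : Fin M → ℕ) (β : Fin e → ℕ) (τ v : R) (η : Fin e → R) :
    MvPolynomial.aeval (pt τ v η) (pol a c n β) =
      algebraMap K0 R c * (∏ i, (τ - algebraMap K0 R (a i)) ^ n i) * ∏ j, η j ^ β j := by
  simp only [pol, map_mul, map_prod, map_pow, map_sub, MvPolynomial.aeval_X, pt_zero, pt_succ,
    MvPolynomial.algHom_C]

/-- the point with `X_0 = X`, `X_(j+2)` the variables of `K0[X][y]` -/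
noncomputable def gpt (v : MvPolynomial (Fin e) (Polynomial K0)) :
    Fin (e + 2) → MvPolynomial (Fin e) (Polynomial K0) :=
  pt (MvPolynomial.C Polynomial.X) v fun j => MvPolynomial.X j

theorem aeval_gpt (a : Fin M → K0) (c : K0) (n : Fin M → ℕ) (β : Fin e → ℕ)
    (v : MvPolynomial (Fin e) (Polynomial K0)) :
    MvPolynomial.aeval (gpt v) (pol a c n β) =
      MvPolynomial.monomial (Finsupp.equivFunOnFinite.symm β)
        (Polynomial.C c * ∏ i, (Polynomial.X - Polynomial.C (a i)) ^ n i) := by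
  have h1 : ∀ x : K0, algebraMap K0 (MvPolynomial (Fin e) (Polynomial K0)) x =
      MvPolynomial.C (Polynomial.C x) := fun x => rfl
  rw [gpt, aeval_pol, MvPolynomial.monomial_eq, Finsupp.prod_fintype _ _ fun i => pow_zero _]
  simp only [h1, map_mul, map_prod, map_pow, map_sub, Finsupp.equivFunOnFinite_symm_apply_apply]

theorem coef_ne_zero (a : Fin M → K0) {c : K0} (hc : c ≠ 0) (n : Fin M → ℕ) :
    (Polynomial.C c * ∏ i, (Polynomial.X - Polynomial.C (a i)) ^ n i : Polynomial K0) ≠ 0 := by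
  refine mul_ne_zero (Polynomial.C_ne_zero.2 hc) (Finset.prod_ne_zero_iff.2 fun i _ => ?_)
  exact pow_ne_zero _ (Polynomial.X_sub_C_ne_zero _)

theorem sum_ne_zero (a : Fin M → K0) {c : Fin g → K0} (hc : ∀ k, c k ≠ 0)
    (n : Fin g → Fin M → ℕ) {β : Fin g → Fin e → ℕ} (hβ : Function.Injective β)
    {S : Finset (Fin g)} (hS : S.Nonempty) (v : MvPolynomial (Fin e) (Polynomial K0)) :
    MvPolynomial.aeval (gpt v) (∑ k ∈ S, pol a (c k) (n k) (β k)) ≠ 0 := by
  classical
  obtain ⟨k0, hk0⟩ := hS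
  intro h
  have h1 := congrArg (MvPolynomial.coeff (Finsupp.equivFunOnFinite.symm (β k0))) h
  rw [map_sum, MvPolynomial.coeff_sum, MvPolynomial.coeff_zero, Finset.sum_eq_single k0] at h1
  · rw [aeval_gpt, MvPolynomial.coeff_monomial, if_pos rfl] at h1
    exact coef_ne_zero a (hc k0) _ h1
  · intro k _ hk
    rw [aeval_gpt, MvPolynomial.coeff_monomial, if_neg]
    intro h2
    exact hk (hβ (Finsupp.equivFunOnFinite.symm.injective h2))
  · intro h2
    exact absurd hk0 h2

theorem toNat_pow {K : Type} [Field K] {x : K} (hx : x ≠ 0) (E : ℕ) (n : ℤ)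
    (h : n.natAbs ≤ E) : x ^ ((E : ℤ) + n).toNat = x ^ E * x ^ n := by
  have h1 : (((E : ℤ) + n).toNat : ℤ) = (E : ℤ) + n := Int.toNat_of_nonneg (by omega)
  rw [← zpow_natCast x ((E : ℤ) + n).toNat, h1, zpow_add₀ hx, zpow_natCast]

theorem sum_J {K : Type} [AddCommMonoid K] (V V' : K) (G : Fin g → K)
    (J : Finset (Fin 2 ⊕ Fin g)) [DecidablePred fun k : Fin g => Sum.inr k ∈ J]
    [Decidable (Sum.inl 0 ∈ J)] [Decidable (Sum.inl 1 ∈ J)] :
    ∑ k ∈ J, Sum.elim ![V, V'] G k =
      (if Sum.inl 0 ∈ J then V else 0) + (if Sum.inl 1 ∈ J then V' else 0) +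
        ∑ k ∈ Finset.univ.filter (fun k : Fin g => Sum.inr k ∈ J), G k := by
  classical
  have h1 : ∑ k ∈ J, Sum.elim ![V, V'] G k =
      ∑ k, if k ∈ J then Sum.elim ![V, V'] G k else 0 := by
    rw [Finset.sum_ite_mem, Finset.univ_inter]
  rw [h1, Fintype.sum_sum_type, Fin.sum_univ_two, Finset.sum_filter]
  simp

end SP

open SP in
theorem subsum_poly (K0 : Type) [Field K0] {M e g : ℕ} (a : Fin M → K0) (cg : Fin g → K0)
    (hcg : ∀ k, cg k ≠ 0) (ng : Fin g → Fin M → ℤ) (b : Fin g → Fin e → ℤ)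
    (hb : Function.Injective b) :
    ∃ F : MvPolynomial (Fin (e + 2)) K0, F ≠ 0 ∧
      ∀ (K : Type) [Field K] [Algebra K0 K] (t V V' : K) (y : Fin e → K) (G : Fin g → K),
        (∀ i, t ≠ algebraMap K0 K (a i)) → (∀ j, y j ≠ 0) →
        (∀ k, G k = rf (fun i => algebraMap K0 K (a i)) (algebraMap K0 K (cg k)) (ng k) t *
          mon y (b k)) → V + V' + ∑ k, G k = 0 →
        (∃ J : Finset (Fin 2 ⊕ Fin g), J.Nonempty ∧ J ≠ Finset.univ ∧
          ∑ k ∈ J, Sum.elim ![V, V'] G k = 0) →
        MvPolynomial.aeval (pt t V y) F = 0 := by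
  classical
  -- bounds for the exponents
  obtain ⟨E, hE⟩ : ∃ E : ℕ, ∀ k i, (ng k i).natAbs ≤ E :=
    ⟨∑ k, ∑ i, (ng k i).natAbs, fun k i =>
      (Finset.single_le_sum (f := fun i => (ng k i).natAbs) (fun _ _ => Nat.zero_le _)
        (Finset.mem_univ i)).trans
      (Finset.single_le_sum (f := fun k => ∑ i, (ng k i).natAbs) (fun _ _ => Nat.zero_le _)
        (Finset.mem_univ k))⟩
  obtain ⟨D, hD⟩ : ∃ D : ℕ, ∀ k j, (b k j).natAbs ≤ D :=
    ⟨∑ k, ∑ j, (b k j).natAbs, fun k j =>
      (Finset.single_le_sum (f := fun j => (b k j).natAbs) (fun _ _ => Nat.zero_le _)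
        (Finset.mem_univ j)).trans
      (Finset.single_le_sum (f := fun k => ∑ j, (b k j).natAbs) (fun _ _ => Nat.zero_le _)
        (Finset.mem_univ k))⟩
  set n : Fin g → Fin M → ℕ := fun k i => ((E : ℤ) + ng k i).toNat with hn
  set β : Fin g → Fin e → ℕ := fun k j => ((D : ℤ) + b k j).toNat with hβdef
  have hβ : Function.Injective β := by
    intro k k' h
    apply hb
    funext j
    have h1 : ((D : ℤ) + b k j).toNat = ((D : ℤ) + b k' j).toNat := congrFun h j
    have h2 := hD k j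
    have h3 := hD k' j
    omega
  set A : Finset (Fin g) → MvPolynomial (Fin (e + 2)) K0 :=
    fun S => ∑ k ∈ S, pol a (cg k) (n k) (β k) with hA
  set Z : MvPolynomial (Fin (e + 2)) K0 := pol a 1 (fun _ => E) (fun _ => D) with hZ
  have hA0 : ∀ S : Finset (Fin g), S.Nonempty → A S ≠ 0 := by
    intro S hS h
    apply sum_ne_zero a hcg n hβ hS 0
    change MvPolynomial.aeval (gpt 0) (A S) = 0
    rw [h, map_zero]
  have hAv : ∀ (S : Finset (Fin g)) (v : MvPolynomial (Fin e) (Polynomial K0)),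
      MvPolynomial.aeval (gpt v) (A S) = MvPolynomial.aeval (gpt 0) (A S) := by
    intro S v
    simp only [hA, map_sum, aeval_gpt]
  have hB0 : ∀ S : Finset (Fin g), MvPolynomial.X 1 * Z + A S ≠ 0 := by
    intro S h
    have h0 := congrArg (MvPolynomial.aeval (gpt (0 : MvPolynomial (Fin e) (Polynomial K0)))) h
    have h1 := congrArg (MvPolynomial.aeval (gpt (1 : MvPolynomial (Fin e) (Polynomial K0)))) h
    rw [map_add, map_mul, map_zero, MvPolynomial.aeval_X] at h0 h1
    have e0 : gpt (0 : MvPolynomial (Fin e) (Polynomial K0)) 1 = 0 := rfl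
    have e1 : gpt (1 : MvPolynomial (Fin e) (Polynomial K0)) 1 = 1 := rfl
    rw [e0, zero_mul, zero_add] at h0
    rw [e1, one_mul, hAv, h0, add_zero, hZ, aeval_gpt, MvPolynomial.monomial_eq_zero] at h1
    exact coef_ne_zero a one_ne_zero _ h1
  refine ⟨(∏ S ∈ Finset.univ.filter fun S : Finset (Fin g) => S.Nonempty, A S) *
    ∏ S : Finset (Fin g), (MvPolynomial.X 1 * Z + A S), ?_, ?_⟩
  · refine mul_ne_zero (Finset.prod_ne_zero_iff.2 fun S hS => ?_)
      (Finset.prod_ne_zero_iff.2 fun S _ => hB0 S)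
    exact hA0 S (Finset.mem_filter.1 hS).2
  · intro K _ _ t V V' y G ht hy hG hV hJ
    -- values of the polynomials
    set ζ : K := (∏ i, (t - algebraMap K0 K (a i)) ^ E) * ∏ j, y j ^ D with hζ
    have hZv : MvPolynomial.aeval (pt t V y) Z = ζ := by
      rw [hZ, aeval_pol, map_one, one_mul]
    have hp : ∀ k, MvPolynomial.aeval (pt t V y) (pol a (cg k) (n k) (β k)) = ζ * G k := by
      intro k
      rw [aeval_pol, hG k, hζ, rf, mon]
      have h1 : (∏ i, (t - algebraMap K0 K (a i)) ^ n k i) =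
          (∏ i, (t - algebraMap K0 K (a i)) ^ E) *
            ∏ i, (t - algebraMap K0 K (a i)) ^ ng k i := by
        rw [← Finset.prod_mul_distrib]
        exact Finset.prod_congr rfl fun i _ => toNat_pow (sub_ne_zero.2 (ht i)) E _ (hE k i)
      have h2 : (∏ j, y j ^ β k j) = (∏ j, y j ^ D) * ∏ j, y j ^ b k j := by
        rw [← Finset.prod_mul_distrib]
        exact Finset.prod_congr rfl fun j _ => toNat_pow (hy j) D _ (hD k j)
      rw [h1, h2]
      ring
    have hAval : ∀ S : Finset (Fin g), MvPolynomial.aeval (pt t V y) (A S) =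
        ζ * ∑ k ∈ S, G k := by
      intro S
      rw [hA, map_sum, Finset.mul_sum]
      exact Finset.sum_congr rfl fun k _ => hp k
    have hBval : ∀ S : Finset (Fin g), MvPolynomial.aeval (pt t V y)
        (MvPolynomial.X 1 * Z + A S) = ζ * (V + ∑ k ∈ S, G k) := by
      intro S
      rw [map_add, map_mul, hAval, hZv, MvPolynomial.aeval_X, pt_one]
      ring
    have useA : ∀ S : Finset (Fin g), S.Nonempty → ∑ k ∈ S, G k = 0 →
        MvPolynomial.aeval (pt t V y)
          ((∏ S ∈ Finset.univ.filter fun S : Finset (Fin g) => S.Nonempty, A S) *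
            ∏ S : Finset (Fin g), (MvPolynomial.X 1 * Z + A S)) = 0 := by
      intro S hS h
      rw [map_mul, map_prod]
      apply mul_eq_zero_of_left
      refine Finset.prod_eq_zero (Finset.mem_filter.2 ⟨Finset.mem_univ S, hS⟩) ?_
      rw [hAval, h, mul_zero]
    have useB : ∀ S : Finset (Fin g), V + ∑ k ∈ S, G k = 0 →
        MvPolynomial.aeval (pt t V y)
          ((∏ S ∈ Finset.univ.filter fun S : Finset (Fin g) => S.Nonempty, A S) *
            ∏ S : Finset (Fin g), (MvPolynomial.X 1 * Z + A S)) = 0 := by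
      intro S h
      rw [map_mul]
      apply mul_eq_zero_of_right
      rw [map_prod]
      refine Finset.prod_eq_zero (Finset.mem_univ S) ?_
      rw [hBval, h, mul_zero]
    -- the subsum
    obtain ⟨J, hJ1, hJ2, hJ3⟩ := hJ
    rw [sum_J] at hJ3
    set J' : Finset (Fin g) := Finset.univ.filter fun k : Fin g => Sum.inr k ∈ J with hJ'
    have hcompl : ∑ k ∈ J', G k + ∑ k ∈ J'ᶜ, G k = ∑ k, G k := Finset.sum_add_sum_compl J' G
    by_cases h0 : Sum.inl 0 ∈ J
    · by_cases h1 : Sum.inl 1 ∈ J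
      · rw [if_pos h0, if_pos h1] at hJ3
        refine useA J'ᶜ ?_ ?_
        · rw [Finset.nonempty_iff_ne_empty]
          intro h2
          apply hJ2
          have h3 : J' = Finset.univ := by
            rw [← compl_compl J', h2, Finset.compl_empty]
          refine Finset.eq_univ_iff_forall.2 ?_
          rintro (i | k)
          · fin_cases i
            · exact h0
            · exact h1
          · have h4 : k ∈ J' := by rw [h3]; exact Finset.mem_univ k
            exact (Finset.mem_filter.1 h4).2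
        · linear_combination hcompl + hV - hJ3
      · rw [if_pos h0, if_neg h1, add_zero] at hJ3
        exact useB J' hJ3
    · by_cases h1 : Sum.inl 1 ∈ J
      · rw [if_neg h0, if_pos h1, zero_add] at hJ3
        refine useB J'ᶜ ?_
        linear_combination hcompl + hV - hJ3
      · rw [if_neg h0, if_neg h1, add_zero, zero_add] at hJ3
        refine useA J' ?_ hJ3
        obtain ⟨k, hk⟩ := hJ1
        rcases k with i | k
        · fin_cases i
          · exact absurd hk h0
          · exact absurd hk h1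
        · exact ⟨k, Finset.mem_filter.2 ⟨Finset.mem_univ k, hk⟩⟩

end Pool.Agent.RS
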