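import Mathlib
import Pool.Agent.Lib.MP_c95b3b_ag_RS.MainB
import Pool.Agent.Lib.MP_c95b3b_ag_RS.Height
import Pool.Agent.Lib.MP_c95b3b_ag_RS.PlaceS
import Pool.Agent.Lib.MP_c95b3b_ag_RS.Scales
import Pool.Agent.Lib.MP_c95b3b_ag_RS.LinAlgD
import Pool.Agent.Lib.MP_c95b3b_ag_RS.RelD
import Pool.Agent.Lib.MP_c95b3b_ag_RS.Subsum

/-! Project RSd (MP_c95b3b_ag), module MND: the theorem over number fields. -/

namespace Pool.Agent.RS

open Pool.Agent.L3 Module

namespace MND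

open MN

/-- the integer polynomial `Q`, with coefficients in a field -/
theorem aeval_toK {K0 K : Type} [Field K0] [Field K] [Algebra K0 K] {n : ℕ}
    (Q : MvPolynomial (Fin n) ℤ) (x : Fin n → K) :
    MvPolynomial.aeval x (MvPolynomial.map (Int.castRingHom K0) Q) = MvPolynomial.aeval x Q := by
  rw [MvPolynomial.aeval_def, MvPolynomial.aeval_def, MvPolynomial.eval₂_map]
  congr 1
  exact Subsingleton.elim _ _

theorem toK_ne_zero {K0 : Type} [Field K0] [CharZero K0] {n : ℕ} {Q : MvPolynomial (Fin n) ℤ}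
    (hQ : Q ≠ 0) : MvPolynomial.map (Int.castRingHom K0) Q ≠ 0 := by
  intro h
  apply hQ
  apply MvPolynomial.map_injective (Int.castRingHom K0) (Int.cast_injective)
  rw [h, map_zero]

/-- a polynomial in the first variable -/
theorem aeval_first' {F : Type} [Field F] {e : ℕ} (f : Polynomial ℤ) (x V : F) (y : Fin e → F) :
    MvPolynomial.aeval (pt x V y)
      (Polynomial.aeval (MvPolynomial.X 0 : MvPolynomial (Fin (e + 2)) ℤ) f) =
      Polynomial.aeval x f := by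
  have h := (Polynomial.aeval_algHom_apply
    (MvPolynomial.aeval (pt x V y) : MvPolynomial (Fin (e + 2)) ℤ →ₐ[ℤ] F)
    (MvPolynomial.X 0) f).symm
  rw [MvPolynomial.aeval_X] at h
  exact h

theorem first_ne_zero' {e : ℕ} {f : Polynomial ℤ} (hf : f ≠ 0) :
    Polynomial.aeval (MvPolynomial.X 0 : MvPolynomial (Fin (e + 2)) ℤ) f ≠ 0 := by
  intro h
  have h1 := MvPolynomial.transcendental_X ℤ (0 : Fin (e + 2))
  rw [transcendental_iff] at h1
  exact hf (h1 f h)

/-- a place in `KR` -/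
theorem mem_KR {M : ℕ} {a : Fin M → ℂ} {z : ℂ} {c : ℝ} (h0 : max 0 (Real.log ‖z‖) ≤ c)
    (h1 : ∀ i, |Real.log ‖z - a i‖| ≤ c) (h2 : ∀ i, z - a i ≠ 0) : z ∈ KR a (Real.exp c) := by
  constructor
  · by_cases hz : z = 0
    · rw [hz, norm_zero]
      exact (Real.exp_pos c).le
    · have h3 : 0 < ‖z‖ := norm_pos_iff.mpr hz
      rw [← Real.exp_log h3]
      exact Real.exp_le_exp.mpr ((le_max_right _ _).trans h0)
  · intro i
    have h3 : 0 < ‖z - a i‖ := norm_pos_iff.mpr (h2 i)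
    rw [← Real.exp_neg, ← Real.exp_log h3]
    apply Real.exp_le_exp.mpr
    have := abs_le.mp (h1 i)
    linarith [this.1]

theorem inner_toLp {m : ℕ} (r : EuclideanSpace ℝ (Fin m)) (x : Fin m → ℝ) :
    inner ℝ r (WithLp.toLp 2 x) = ∑ j, r j * x j := by
  rw [PiLp.inner_apply]
  refine Finset.sum_congr rfl fun j _ => ?_
  simp [mul_comm]

theorem norm_toLp_le {m : ℕ} (x : Fin m → ℝ) :
    ‖(WithLp.toLp 2 x : EuclideanSpace ℝ (Fin m))‖ ≤ ∑ j, |x j| := by
  have h1 : (WithLp.toLp 2 x : EuclideanSpace ℝ (Fin m)) =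
      ∑ j, x j • EuclideanSpace.single j (1 : ℝ) := by
    ext i
    simp [Finset.sum_apply, Pi.single_apply]
  rw [h1]
  refine (norm_sum_le _ _).trans (Finset.sum_le_sum fun j _ => ?_)
  rw [norm_smul, PiLp.norm_single, norm_one, mul_one, Real.norm_eq_abs]

theorem avg_lgrf {K : Type} [Field K] {R : Subring K} (P : Places K R) {M : ℕ} (a : Fin M → K)
    {c : K} (n : Fin M → ℤ) {t : K} (hc : c ≠ 0) (ht : ∀ i, t - a i ≠ 0) {B C : ℝ}
    (hB : ∀ i, P.avg (fun w => |P.lg w (t - a i)|) ≤ B) (hC : P.avg (fun w => |P.lg w c|) ≤ C) :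
    P.avg (fun w => |P.lg w (rf a c n t)|) ≤ C + (∑ i, |(n i : ℝ)|) * B := by
  have h1 : ∀ w, |P.lg w (rf a c n t)| ≤
      |P.lg w c| + ∑ i, |(n i : ℝ)| * |P.lg w (t - a i)| := by
    intro w
    rw [lg_rf P w a n hc ht]
    refine (abs_add_le _ _).trans (add_le_add le_rfl ?_)
    refine (Finset.abs_sum_le_sum_abs _ _).trans (Finset.sum_le_sum fun i _ => ?_)
    rw [abs_mul]
  refine (P.avg_mono h1).trans ?_
  rw [P.avg_add, P.avg_sum, Finset.sum_mul]
  refine add_le_add hC (Finset.sum_le_sum fun i _ => ?_)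
  rw [P.avg_mul]
  exact mul_le_mul_of_nonneg_left (hB i) (abs_nonneg _)

/-- the data of one point: places, embeddings, relations -/
theorem point_data (K0 : Type) [Field K0] [NumberField K0] (φ0 : K0 →+* ℂ) (K : Type) [Field K]
    [NumberField K] [Algebra K0 K] (X : Finset K) :
    ∃ (R : Subring K) (P : Places K R) (S : Finset (Fin P.D)), P.D = finrank ℚ K0 * S.card ∧
      (∀ i ∈ S, ∀ x : K0, P.σ i (algebraMap K0 K x) = φ0 x) ∧
      ∀ x ∈ X, x ∈ R ∧ x⁻¹ ∈ R := by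
  classical
  obtain ⟨P, S, hD, hS⟩ := exists_places_over K0 φ0 K (X.erase 0) (fun x hx =>
    Finset.ne_of_mem_erase hx)
  refine ⟨_, P, S, hD, fun i hi x => ?_, fun x hx => ?_⟩
  · rw [← hS i hi]
    rfl
  · by_cases h0 : x = 0
    · rw [h0, inv_zero]
      exact ⟨Subring.zero_mem _, Subring.zero_mem _⟩
    · have h1 : x ∈ X.erase 0 := Finset.mem_erase.mpr ⟨h0, hx⟩
      exact ⟨Subring.subset_closure (Or.inl h1), Subring.subset_closure (Or.inr ⟨x, h1, rfl⟩)⟩

end MND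

open MN MND in
theorem rsd_nf (K0 : Type) [Field K0] [NumberField K0] (φ0 : K0 →+* ℂ) {M m e g : ℕ}
    (a : Fin M → K0) (ha : Function.Injective a) (c : Fin m → K0) (hc : ∀ j, c j ≠ 0)
    (n : Fin m → Fin M → ℤ) (hn : LinearIndependent ℤ n) (cα cβ : K0) (hα : cα ≠ 0)
    (hβ : cβ ≠ 0) (nα nβ : Fin M → ℤ) (cg : Fin g → K0) (hcg : ∀ k, cg k ≠ 0)
    (ng : Fin g → Fin M → ℤ) (hg : 0 < g) (b : Fin g → Fin e → ℤ) (hb : Function.Injective b)
    (hspan : ∀ s : Fin e → ℝ, (∀ k l, ∑ j, s j * ((b k j : ℝ) - b l j) = 0) → s = 0)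
    (hNC : NC {t : ℂ | ∀ i, t ≠ φ0 (a i)} (fun j => rf (fun i => φ0 (a i)) (φ0 (c j)) (n j))) :
    ∃ F : MvPolynomial (Fin (e + 2)) K0, F ≠ 0 ∧
      ∀ (K : Type) [Field K] [NumberField K] [Algebra K0 K] (t u v : K) (y : Fin e → K),
        (∀ i, t ≠ algebraMap K0 K (a i)) → u ≠ 0 → v ≠ 0 → (∀ k, y k ≠ 0) →
        rf (fun i => algebraMap K0 K (a i)) (algebraMap K0 K cα) nα t * u +
          rf (fun i => algebraMap K0 K (a i)) (algebraMap K0 K cβ) nβ t * v +
          ∑ k, rf (fun i => algebraMap K0 K (a i)) (algebraMap K0 K (cg k)) (ng k) t *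
            mon y (b k) = 0 →
        (∃ Λ : Submodule ℤ ((Fin (e + 2) → ℤ) × (Fin m → ℤ)), e + 3 ≤ finrank ℤ Λ ∧
          ∀ r ∈ Λ, mon (pt u v y) r.1 *
            ∏ j, (rf (fun i => algebraMap K0 K (a i)) (algebraMap K0 K (c j)) (n j) t) ^ r.2 j
              = 1) →
        MvPolynomial.aeval
          (pt t (rf (fun i => algebraMap K0 K (a i)) (algebraMap K0 K cα) nα t * u) y) F = 0 := by
  classical
  -- constants
  obtain ⟨B1, hB1⟩ := height_t K0 a ha c hc n (fun r hr => real_indep hn r hr)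
  have hd0 : (0 : ℝ) < finrank ℚ K0 := by exact_mod_cast (finrank_pos : 0 < finrank ℚ K0)
  set d0 : ℝ := ((finrank ℚ K0 : ℕ) : ℝ) with hd0def
  let aC : Fin M → ℂ := fun i => φ0 (a i)
  let cC : Fin m → ℂ := fun j => φ0 (c j)
  have haC : Function.Injective aC := φ0.injective.comp ha
  have hcC : ∀ j, cC j ≠ 0 := fun j => (map_ne_zero φ0).mpr (hc j)
  set b1 : ℝ := (M + 1) * |B1| + 1 with hb1
  have hb1pos : 0 < b1 := by positivity
  set c1 : ℝ := 2 * d0 * b1 with hc1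
  have hc1pos : 0 < c1 := by positivity
  have hρ : 0 < Real.exp c1 := Real.exp_pos _
  set θ : ℝ := 1 / d0 / 2 with hθdef
  have hθ : 0 < θ := by positivity
  obtain ⟨θ', hθ', Hsc⟩ := scales (I := Fin 2 ⊕ Fin g) m θ hθ
  have hθ'' : 0 < min θ θ' := lt_min hθ hθ'
  obtain ⟨ε, hε, f0, hf0, H0⟩ := t0_pairs aC cC hcC n hNC (Real.exp c1) B1 (min θ θ') hρ hθ''
  choose Cc hCc using fun j => const_avg K0 (c j)
  obtain ⟨Cα, hCα⟩ := const_avg K0 cα
  obtain ⟨Cβ, hCβ⟩ := const_avg K0 cβ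
  choose Cg hCg using fun k => const_avg K0 (cg k)
  set Kα : ℝ := |Cα + (∑ i, |(nα i : ℝ)|) * B1| with hKα
  set Kβ : ℝ := |Cβ + (∑ i, |(nβ i : ℝ)|) * B1| with hKβ
  set Kg : Fin g → ℝ := fun k => |Cg k + (∑ i, |(ng k i : ℝ)|) * B1| with hKg
  set Kc : Fin m → ℝ := fun j => |Cc j + (∑ i, |(n j i : ℝ)|) * B1| with hKc
  set C1 : ℝ := Kα + Kβ + ∑ k, Kg k + ∑ j, Kc j with hC1
  have hKα0 : 0 ≤ Kα := abs_nonneg _
  have hKβ0 : 0 ≤ Kβ := abs_nonneg _
  have hKg0 : ∀ k, 0 ≤ Kg k := fun k => abs_nonneg _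
  have hKc0 : ∀ j, 0 ≤ Kc j := fun j => abs_nonneg _
  have hsKg0 : 0 ≤ ∑ k, Kg k := Finset.sum_nonneg fun k _ => hKg0 k
  have hsKc0 : 0 ≤ ∑ j, Kc j := Finset.sum_nonneg fun k _ => hKc0 k
  have hC10 : 0 ≤ C1 := by positivity
  obtain ⟨Dα, hDα0, hDα⟩ := phi_bdd aC (dat0 (φ0 cα) nα) hρ
  obtain ⟨Dβ, hDβ0, hDβ⟩ := phi_bdd aC (dat0 (φ0 cβ) nβ) hρ
  choose Dg hDg0 hDg using fun k => phi_bdd aC (dat0 (φ0 (cg k)) (ng k)) hρ
  set C2 : ℝ := Dα + Dβ + ∑ k, Dg k with hC2
  have hsDg0 : 0 ≤ ∑ k, Dg k := Finset.sum_nonneg fun k _ => hDg0 k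
  obtain ⟨Λ1, HΛ⟩ := Hsc ε C1 C2 hε
  obtain ⟨Csp, hCsp, Hsp⟩ := span_bound (m := m) hg b hspan
  set Λ2 : ℝ := Csp * Λ1 with hΛ2
  set B2 : ℝ := B1 + (C1 + |Λ2| * C1) + (C1 + |Λ2| * C1) + e * (|Λ2| * C1) with hB2
  obtain ⟨Q, hQ, HQ⟩ := t1_tuples aC haC cC n hn (dat0 (φ0 cα) nα) (dat0 (φ0 cβ) nβ)
    (fun k => φ0 (cg k)) ng b Λ2 (Real.exp c1) B2 θ hρ hθ
  obtain ⟨F1, hF1, HF1⟩ := subsum_poly K0 a cg hcg ng b hb
  refine ⟨MvPolynomial.map (Int.castRingHom K0)
    (Polynomial.aeval (MvPolynomial.X 0 : MvPolynomial (Fin (e + 2)) ℤ) f0) * F1 *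
    MvPolynomial.map (Int.castRingHom K0) Q,
    mul_ne_zero (mul_ne_zero (toK_ne_zero (first_ne_zero' hf0)) hF1) (toK_ne_zero hQ), ?_⟩
  intro K _ _ _ t u v y ht hu hv hy hrel hΛ'
  obtain ⟨Λ, hΛ, hr⟩ := hΛ'
  rw [map_mul, map_mul, aeval_toK, aeval_toK, aeval_first']
  -- notation
  set aK : Fin M → K := fun i => algebraMap K0 K (a i) with haK
  have htK : ∀ i, t - aK i ≠ 0 := fun i => sub_ne_zero.mpr (ht i)
  have hinj : ∀ {x : K0}, x ≠ 0 → algebraMap K0 K x ≠ 0 := fun hx =>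
    (map_ne_zero (algebraMap K0 K)).mpr hx
  set x : Fin m → K := fun j => rf aK (algebraMap K0 K (c j)) (n j) t with hx
  have hx0 : ∀ j, x j ≠ 0 := fun j => rf_ne_zero _ (hinj (hc j)) htK
  set αt : K := rf aK (algebraMap K0 K cα) nα t with hαt
  set βt : K := rf aK (algebraMap K0 K cβ) nβ t with hβt
  have hαt0 : αt ≠ 0 := rf_ne_zero _ (hinj hα) htK
  have hβt0 : βt ≠ 0 := rf_ne_zero _ (hinj hβ) htK
  set γt : Fin g → K := fun k => rf aK (algebraMap K0 K (cg k)) (ng k) t with hγt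
  have hγt0 : ∀ k, γt k ≠ 0 := fun k => rf_ne_zero _ (hinj (hcg k)) htK
  set V : K := αt * u with hV
  set V' : K := βt * v with hV'
  set G : Fin g → K := fun k => γt k * mon y (b k) with hG
  have hV0 : V ≠ 0 := mul_ne_zero hαt0 hu
  have hV0' : V' ≠ 0 := mul_ne_zero hβt0 hv
  have hG0 : ∀ k, G k ≠ 0 := fun k => mul_ne_zero (hγt0 k) (mon_ne_zero hy _)
  have hrel' : V + V' + ∑ k, G k = 0 := hrel
  -- places
  obtain ⟨R, P, S0, hPD, hσ, hR⟩ := point_data K0 φ0 K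
    (Finset.univ.image (fun i => t - aK i) ∪ {t, V, V'} ∪ Finset.univ.image y ∪
      Finset.univ.image G)
  have hRt : t ∈ R := (hR t (by simp)).1
  have hRV := hR V (by simp)
  have hRV' := hR V' (by simp)
  have hRy : ∀ k, y k ∈ R ∧ (y k)⁻¹ ∈ R := fun k => hR (y k) (by simp)
  have hRG : ∀ k, G k ∈ R ∧ (G k)⁻¹ ∈ R := fun k => hR (G k) (by simp)
  have hRa : ∀ i, t - aK i ∈ R ∧ (t - aK i)⁻¹ ∈ R := fun i => hR (t - aK i) (by simp)
  -- relations
  obtain ⟨W, hW, HW⟩ := exists_rel_d P (pt u v y) x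
    (fun k => forall_pt (p := fun z => z ≠ 0) hu hv hy k) hx0 Λ (e + 3) hΛ hr
  set mu : P.Pl → EuclideanSpace ℝ (Fin m) := fun w => WithLp.toLp 2 (fun j => P.lg w (x j))
    with hmu
  have hinner : ∀ (q : EuclideanSpace ℝ (Fin m)) (w : P.Pl),
      inner ℝ q (mu w) = ∑ j, q j * P.lg w (x j) := fun q w => inner_toLp q _
  have hptsum : ∀ (p q : ℝ) (z : Fin e → ℝ) (w : P.Pl),
      ∑ k, pt p q z k * P.lg w (pt u v y k) =
        p * P.lg w u + q * P.lg w v + ∑ j, z j * P.lg w (y j) := by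
    intro p q z w
    rw [Fin.sum_univ_succ, Fin.sum_univ_succ]
    exact (add_assoc _ _ _).symm
  -- embeddings
  have hσrf : ∀ i ∈ S0, ∀ (c0 : K0) (n0 : Fin M → ℤ),
      P.σ i (rf aK (algebraMap K0 K c0) n0 t) = rf aC (φ0 c0) n0 (P.σ i t) := by
    intro i hi c0 n0
    rw [map_rf, hσ i hi c0]
    congr 1
    funext k
    exact hσ i hi (a k)
  have hσt : ∀ i ∈ S0, ∀ k, P.σ i t - aC k ≠ 0 := by
    intro i hi k
    have h1 : P.σ i (t - aK k) = P.σ i t - aC k := by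
      rw [map_sub]
      congr 1
      exact hσ i hi (a k)
    rw [← h1]
    exact (map_ne_zero (P.σ i)).mpr (htK k)
  have hlg0 : ∀ i ∈ S0, ∀ (c0 : K0) (_ : c0 ≠ 0) (n0 : Fin M → ℤ),
      P.lg (.inl i) (rf aK (algebraMap K0 K c0) n0 t) =
        phi aC (dat0 (φ0 c0) n0) (P.σ i t) := by
    intro i hi c0 hc0 n0
    rw [P.lg_inl, hσrf i hi, phi_dat0 aC ((map_ne_zero φ0).mpr hc0) n0 (hσt i hi)]
  have hlgr : ∀ i ∈ S0, ∀ q : EuclideanSpace ℝ (Fin m),
      phi aC (dat cC n q) (P.σ i t) = inner ℝ q (mu (.inl i)) := by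
    intro i hi q
    rw [phi_dat aC hcC n q (hσt i hi), hinner]
    refine Finset.sum_congr rfl fun j _ => ?_
    rw [P.lg_inl]
    have h1 : P.σ i (x j) = rf aC (cC j) (n j) (P.σ i t) := hσrf i hi (c j) (n j)
    rw [h1]
  -- the height of t
  have hheight : ∀ q : EuclideanSpace ℝ (Fin m), ‖q‖ = 1 → ((0 : Fin (e + 2) → ℝ), q) ∈ W →
      P.avg (fun w => max 0 (P.lg w t)) ≤ B1 ∧
        ∀ i, P.avg (fun w => |P.lg w (t - aK i)|) ≤ B1 := by
    intro q hq hqW
    refine hB1 K R P t (fun i => ⟨htK i, hRa i⟩) ⟨q, ?_, fun w => ?_⟩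
    · intro h0
      have h1 : q = 0 := by
        ext j
        simpa using congrFun h0 j
      rw [h1, norm_zero] at hq
      exact zero_ne_one hq
    · have h1 := HW _ hqW w
      simpa using h1
  have hzero : ∀ q : EuclideanSpace ℝ (Fin m), ((0 : Fin (e + 2) → ℝ), q) ∈ W → ∀ w,
      inner ℝ q (mu w) = 0 := by
    intro q hqW w
    rw [hinner]
    have h1 := HW _ hqW w
    simpa using h1
  have hgood : (P.avg (fun w => max 0 (P.lg w t)) ≤ B1 ∧
      ∀ i, P.avg (fun w => |P.lg w (t - aK i)|) ≤ B1) → ∃ S1 ⊆ S0, θ * P.D ≤ S1.card ∧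
      ∀ i ∈ S1, P.σ i t ∈ KR aC (Real.exp c1) := by
    rintro ⟨ht1, ht2⟩
    have hb : P.avg (fun w => max 0 (P.lg w t) + ∑ i, |P.lg w (t - aK i)|) ≤ b1 := by
      rw [P.avg_add, P.avg_sum]
      have h1 : ∑ i, P.avg (fun w => |P.lg w (t - aK i)|) ≤ ∑ _i : Fin M, |B1| :=
        Finset.sum_le_sum fun i _ => (ht2 i).trans (le_abs_self _)
      rw [Finset.sum_const, Finset.card_univ, Fintype.card_fin, nsmul_eq_mul] at h1
      have h2 := le_abs_self B1
      rw [hb1]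
      linarith
    have hbc : b1 ≤ c1 * (1 / d0 / 2) := by
      rw [hc1]
      have : 2 * d0 * b1 * (1 / d0 / 2) = b1 := by
        field_simp
      rw [this]
    have hcard : 1 / d0 * P.D ≤ S0.card := by
      have h1 : (P.D : ℝ) = d0 * S0.card := by
        have h2 : (P.D : ℝ) = ((finrank ℚ K0 * S0.card : ℕ) : ℝ) := congrArg _ hPD
        rw [h2, Nat.cast_mul]
      rw [h1, ← mul_assoc, one_div, inv_mul_cancel₀ hd0.ne', one_mul]
    obtain ⟨S1, hS1, hc, hf⟩ := markov P (fun w => max 0 (P.lg w t) +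
      ∑ i, |P.lg w (t - aK i)|) (fun w => add_nonneg (le_max_left _ _)
        (Finset.sum_nonneg fun i _ => abs_nonneg _)) hb hc1pos hbc S0 hcard
    refine ⟨S1, hS1, hc, fun i hi => ?_⟩
    have h3 := hf i hi
    have hs : 0 ≤ ∑ k, |P.lg (.inl i) (t - aK k)| := Finset.sum_nonneg fun k _ => abs_nonneg _
    apply mem_KR
    · have h4 : max 0 (P.lg (.inl i) t) ≤ c1 := by linarith
      exact h4
    · intro k
      have h5 : |P.lg (.inl i) (t - aK k)| ≤ ∑ k, |P.lg (.inl i) (t - aK k)| :=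
        Finset.single_le_sum (f := fun k => |P.lg (.inl i) (t - aK k)|)
          (fun k _ => abs_nonneg _) (Finset.mem_univ k)
      have h6 : P.lg (.inl i) (t - aK k) = Real.log ‖P.σ i t - aC k‖ := by
        rw [P.lg_inl, map_sub]
        congr 3
        exact hσ i (hS1 hi) (a k)
      rw [← h6]
      have h7 := le_max_left 0 (P.lg (.inl i) t)
      linarith
    · exact hσt i (hS1 hi)
  rcases lin_alg_d W hW with ⟨r, s, hr1, hs1, hrs, hrW, hsW⟩ | ⟨r, T, hr1, hrW, hT⟩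
  · -- two relations on the base
    have hh := hheight r hr1 hrW
    obtain ⟨S1, hS1, hcard, hKR⟩ := hgood hh
    have h0 : Polynomial.aeval t f0 = 0 := by
      refine H0 K R P t hRt hh.1 r s hr1 hs1 hrs ⟨S1, ?_, fun i hi => ⟨hKR i hi, ?_, ?_⟩⟩
      · exact (mul_le_mul_of_nonneg_right (min_le_left _ _) P.D_cast_pos.le).trans hcard
      · rw [hlgr i (hS1 hi), hzero r hrW, abs_zero]
        exact hε.le
      · rw [hlgr i (hS1 hi), hzero s hsW, abs_zero]
        exact hε.le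
    rw [h0, zero_mul, zero_mul]
  · by_cases h0 : Polynomial.aeval t f0 = 0
    · rw [h0, zero_mul, zero_mul]
    have hh := hheight r hr1 hrW
    obtain ⟨S1, hS1, hcard, hKR⟩ := hgood hh
    have hkey : ∀ (κ : Fin (e + 2) → ℝ) (w : P.Pl),
        ∑ k, κ k * P.lg w (pt u v y k) = inner ℝ (T κ) (mu w) := by
      intro κ w
      have h1 := HW _ (hT κ).2 w
      rw [hinner]
      simp only [PiLp.neg_apply, neg_mul, Finset.sum_neg_distrib] at h1
      linarith
    let A : Fin 2 ⊕ Fin g → P.Pl → ℝ :=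
      Sum.elim ![fun w => P.lg w αt, fun w => P.lg w βt] (fun k w => P.lg w (γt k))
    let vv : Fin 2 ⊕ Fin g → K := Sum.elim ![V, V'] G
    let sg : Fin 2 ⊕ Fin g → EuclideanSpace ℝ (Fin m) := fun k => T (expo b k)
    -- sizes of the coordinates
    have hlgu : ∀ w, P.lg w u = inner ℝ (T (pt 1 0 0)) (mu w) := by
      intro w
      rw [← hkey, hptsum]
      simp
    have hlgv : ∀ w, P.lg w v = inner ℝ (T (pt 0 1 0)) (mu w) := by
      intro w
      rw [← hkey, hptsum]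
      simp
    have hlgm : ∀ k w, P.lg w (mon y (b k)) =
        inner ℝ (T (pt 0 0 (fun j => (b k j : ℝ)))) (mu w) := by
      intro k w
      rw [← hkey, hptsum, lg_mon P w hy]
      simp
    have hlgy : ∀ k w, P.lg w (y k) = inner ℝ (T (Pi.single k.succ.succ 1)) (mu w) := by
      intro k w
      rw [← hkey, Finset.sum_eq_single k.succ.succ]
      · rw [Pi.single_eq_same, one_mul, pt_succ]
      · intro j _ hj
        rw [Pi.single_eq_of_ne hj, zero_mul]
      · intro h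
        exact absurd (Finset.mem_univ _) h
    have hvv : ∀ k w, P.lg w (vv k) = A k w + inner ℝ (sg k) (mu w) := by
      intro k w
      rcases k with k | k
      · fin_cases k
        · change P.lg w V = P.lg w αt + inner ℝ (T (pt 1 0 0)) (mu w)
          rw [hV, P.lg_mul w hαt0 hu, hlgu]
        · change P.lg w V' = P.lg w βt + inner ℝ (T (pt 0 1 0)) (mu w)
          rw [hV', P.lg_mul w hβt0 hv, hlgv]
      · change P.lg w (γt k * mon y (b k)) =
          P.lg w (γt k) + inner ℝ (T (pt 0 0 (fun j => (b k j : ℝ)))) (mu w)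
        rw [P.lg_mul w (hγt0 k) (mon_ne_zero hy _), hlgm]
    have hvvR : ∀ k, vv k ≠ 0 ∧ vv k ∈ R ∧ (vv k)⁻¹ ∈ R := by
      intro k
      rcases k with k | k
      · fin_cases k
        · exact ⟨hV0, hRV⟩
        · exact ⟨hV0', hRV'⟩
      · exact ⟨hG0 k, hRG k⟩
    have hvvs : ∑ k, vv k = 0 := by
      rw [Fintype.sum_sum_type, Fin.sum_univ_two]
      exact hrel'
    -- averages
    have hAα : P.avg (fun w => |P.lg w αt|) ≤ Kα :=
      (avg_lgrf P aK nα (hinj hα) htK hh.2 (hCα K R P)).trans (le_abs_self _)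
    have hAβ : P.avg (fun w => |P.lg w βt|) ≤ Kβ :=
      (avg_lgrf P aK nβ (hinj hβ) htK hh.2 (hCβ K R P)).trans (le_abs_self _)
    have hAg : ∀ k, P.avg (fun w => |P.lg w (γt k)|) ≤ Kg k := fun k =>
      (avg_lgrf P aK (ng k) (hinj (hcg k)) htK hh.2 (hCg k K R P)).trans (le_abs_self _)
    have hAx : ∀ j, P.avg (fun w => |P.lg w (x j)|) ≤ Kc j := fun j =>
      (avg_lgrf P aK (n j) (hinj (hc j)) htK hh.2 (hCc j K R P)).trans (le_abs_self _)
    have hKg1 : ∀ k, Kg k ≤ ∑ k, Kg k := fun k =>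
      Finset.single_le_sum (fun k _ => hKg0 k) (Finset.mem_univ k)
    have hAvg : ∀ k, P.avg (fun w => |A k w|) ≤ C1 := by
      intro k
      rcases k with k | k
      · fin_cases k
        · refine hAα.trans ?_
          rw [hC1]
          linarith
        · refine hAβ.trans ?_
          rw [hC1]
          linarith
      · refine (hAg k).trans ?_
        have := hKg1 k
        rw [hC1]
        linarith
    have hmuavg : P.avg (fun w => ‖mu w‖) ≤ C1 := by
      have h1 : ∀ w, ‖mu w‖ ≤ ∑ j, |P.lg w (x j)| := fun w => norm_toLp_le _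
      refine (P.avg_mono h1).trans ?_
      rw [P.avg_sum]
      refine (Finset.sum_le_sum fun j _ => hAx j).trans ?_
      rw [hC1]
      linarith
    -- archimedean sizes of the coefficients
    have hDg1 : ∀ k, Dg k ≤ ∑ k, Dg k := fun k =>
      Finset.single_le_sum (fun k _ => hDg0 k) (Finset.mem_univ k)
    have hA2 : ∀ k, ∀ i ∈ S1, |A k (.inl i)| ≤ C2 := by
      intro k i hi
      have hz := hKR i hi
      rcases k with k | k
      · fin_cases k
        · change |P.lg (.inl i) αt| ≤ C2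
          rw [hαt, hlg0 i (hS1 hi) cα hα nα]
          refine (hDα _ hz).trans ?_
          rw [hC2]
          linarith
        · change |P.lg (.inl i) βt| ≤ C2
          rw [hβt, hlg0 i (hS1 hi) cβ hβ nβ]
          refine (hDβ _ hz).trans ?_
          rw [hC2]
          linarith
      · change |P.lg (.inl i) (rf aK (algebraMap K0 K (cg k)) (ng k) t)| ≤ C2
        rw [hlg0 i (hS1 hi) (cg k) (hcg k) (ng k)]
        refine (hDg k _ hz).trans ?_
        have := hDg1 k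
        rw [hC2]
        linarith
    -- differences of the exponents are not small
    have hsmall : ∀ k l, sg k ≠ sg l → ((S1.filter (fun i =>
        |inner ℝ (sg k - sg l) (mu (.inl i))| ≤ ε * ‖sg k - sg l‖)).card : ℝ) ≤ θ' * P.D := by
      intro k l hkl
      by_contra hcon
      apply h0
      have hn0 : ‖sg k - sg l‖ ≠ 0 := norm_ne_zero_iff.mpr (sub_ne_zero.mpr hkl)
      set q : EuclideanSpace ℝ (Fin m) := ‖sg k - sg l‖⁻¹ • (sg k - sg l) with hq
      have hq1 : ‖q‖ = 1 := by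
        rw [hq, norm_smul, norm_inv, norm_norm, inv_mul_cancel₀ hn0]
      have hrq : inner ℝ r q = 0 := by
        rw [hq, inner_smul_right, inner_sub_right, (hT _).1, (hT _).1]
        simp
      refine H0 K R P t hRt hh.1 r q hr1 hq1 hrq ⟨_, (mul_le_mul_of_nonneg_right
        (min_le_right _ _) P.D_cast_pos.le).trans (not_le.mp hcon).le, fun i hi => ?_⟩
      obtain ⟨hi1, hi2⟩ := Finset.mem_filter.mp hi
      refine ⟨hKR i hi1, ?_, ?_⟩
      · rw [hlgr i (hS1 hi1), hzero r hrW, abs_zero]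
        exact hε.le
      · rw [hlgr i (hS1 hi1), hq, inner_smul_left, abs_mul]
        have h1 : |(starRingEnd ℝ) ‖sg k - sg l‖⁻¹| = ‖sg k - sg l‖⁻¹ := by
          rw [conj_trivial, abs_of_nonneg (inv_nonneg.mpr (norm_nonneg _))]
        rw [h1]
        calc ‖sg k - sg l‖⁻¹ * |inner ℝ (sg k - sg l) (mu (.inl i))|
            ≤ ‖sg k - sg l‖⁻¹ * (ε * ‖sg k - sg l‖) :=
              mul_le_mul_of_nonneg_left hi2 (inv_nonneg.mpr (norm_nonneg _))
          _ = ε := by field_simp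
    have hsub : (∃ J : Finset (Fin 2 ⊕ Fin g), J.Nonempty ∧ J ≠ Finset.univ ∧
        ∑ k ∈ J, vv k = 0) → MvPolynomial.aeval (pt t V y) F1 = 0 := fun hJ =>
      HF1 K t V V' y G ht hy (fun k => rfl) hrel' hJ
    rcases HΛ K R P S1 vv sg mu A hcard hvvR hvvs hvv hAvg hmuavg hA2 hsmall with hJ | hΛ1
    · rw [hsub hJ, mul_zero, zero_mul]
    have hTΛ := Hsp T Λ1 hΛ1
    have hpt0 : (pt 1 0 0 : Fin (e + 2) → ℝ) = Pi.single 0 1 := by
      funext i
      refine Fin.cases ?_ (fun i => ?_) i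
      · rw [Pi.single_eq_same]
        rfl
      · rw [Pi.single_eq_of_ne (Fin.succ_ne_zero i)]
        exact Fin.cases rfl (fun i => rfl) i
    have hpt1 : (pt 0 1 0 : Fin (e + 2) → ℝ) = Pi.single 1 1 := by
      funext i
      refine Fin.cases ?_ (fun i => ?_) i
      · rw [Pi.single_eq_of_ne (by simp)]
        rfl
      · refine Fin.cases ?_ (fun i => ?_) i
        · exact (Pi.single_eq_same (M := fun _ => ℝ) (1 : Fin (e + 2)) 1).symm
        · rw [Pi.single_eq_of_ne]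
          · rfl
          · intro h
            have := congrArg Fin.val h
            simp at this
    have hbd : ∀ (q : EuclideanSpace ℝ (Fin m)), ‖q‖ ≤ Λ2 → ∀ w,
        |inner ℝ q (mu w)| ≤ |Λ2| * ‖mu w‖ := by
      intro q hq w
      refine (abs_real_inner_le_norm _ _).trans ?_
      exact mul_le_mul_of_nonneg_right (hq.trans (le_abs_self _)) (norm_nonneg _)
    have hmax : ∀ x y : ℝ, max 0 (x + y) ≤ |x| + |y| := by
      intro x y
      refine max_le (by positivity) ?_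
      exact add_le_add (le_abs_self _) (le_abs_self _)
    have hΛ2C : P.avg (fun w => |Λ2| * ‖mu w‖) ≤ |Λ2| * C1 := by
      rw [P.avg_mul]
      exact mul_le_mul_of_nonneg_left hmuavg (abs_nonneg _)
    have hu0 : ‖T (pt 1 0 0)‖ ≤ Λ2 := by
      rw [hpt0]
      exact hTΛ 0
    have hv0 : ‖T (pt 0 1 0)‖ ≤ Λ2 := by
      rw [hpt1]
      exact hTΛ 1
    have hVavg : P.avg (fun w => max 0 (P.lg w V)) ≤ C1 + |Λ2| * C1 := by
      have h1 : ∀ w, max 0 (P.lg w V) ≤ |P.lg w αt| + |Λ2| * ‖mu w‖ := by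
        intro w
        rw [hV, P.lg_mul w hαt0 hu, hlgu]
        exact (hmax _ _).trans (add_le_add le_rfl (hbd _ hu0 w))
      refine (P.avg_mono h1).trans ?_
      rw [P.avg_add]
      exact add_le_add (hAvg (.inl 0)) hΛ2C
    have hVavg' : P.avg (fun w => max 0 (P.lg w V')) ≤ C1 + |Λ2| * C1 := by
      have h1 : ∀ w, max 0 (P.lg w V') ≤ |P.lg w βt| + |Λ2| * ‖mu w‖ := by
        intro w
        rw [hV', P.lg_mul w hβt0 hv, hlgv]
        exact (hmax _ _).trans (add_le_add le_rfl (hbd _ hv0 w))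
      refine (P.avg_mono h1).trans ?_
      rw [P.avg_add]
      exact add_le_add (hAvg (.inl 1)) hΛ2C
    have hyavg : ∀ k, P.avg (fun w => max 0 (P.lg w (y k))) ≤ |Λ2| * C1 := by
      intro k
      have h1 : ∀ w, max 0 (P.lg w (y k)) ≤ |Λ2| * ‖mu w‖ := by
        intro w
        rw [hlgy]
        exact max_le (by positivity) ((le_abs_self _).trans (hbd _ (hTΛ _) w))
      exact (P.avg_mono h1).trans hΛ2C
    have hB2' : P.avg (fun w => max 0 (P.lg w t) + max 0 (P.lg w V) + max 0 (P.lg w V') +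
        ∑ k, max 0 (P.lg w (y k))) ≤ B2 := by
      rw [P.avg_add, P.avg_add, P.avg_add, P.avg_sum]
      have h1 : ∑ k, P.avg (fun w => max 0 (P.lg w (y k))) ≤ ∑ _k : Fin e, |Λ2| * C1 :=
        Finset.sum_le_sum fun k _ => hyavg k
      rw [Finset.sum_const, Finset.card_univ, Fintype.card_fin, nsmul_eq_mul] at h1
      rw [hB2]
      have := hh.1
      linarith
    have hfinal := HQ K R P t V V' y hRt hRV.1 hRV'.1 (fun k => (hRy k).1) hV0 hV0' hy hB2'
      r (T (pt 1 0 0)) (T (pt 0 1 0)) (fun k => T (Pi.single k.succ.succ 1)) hr1 hu0 hv0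
      (fun k => hTΛ _) ⟨S1, hcard, fun i hi => ?_⟩
    · rcases hfinal with hVV | hQ0
      · have hJ0 : ∑ k ∈ ({.inl 0, .inl 1} : Finset (Fin 2 ⊕ Fin g)), vv k = 0 := by
          rw [Finset.sum_pair (by simp)]
          exact hVV
        rw [hsub ⟨{.inl 0, .inl 1}, ⟨.inl 0, by simp⟩, ?_, hJ0⟩, mul_zero, zero_mul]
        intro h
        have h1 : (.inr ⟨0, hg⟩ : Fin 2 ⊕ Fin g) ∈
            ({.inl 0, .inl 1} : Finset (Fin 2 ⊕ Fin g)) := by
          rw [h]
          exact Finset.mem_univ _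
        simp at h1
      · rw [hQ0, mul_zero]
    · have hi0 := hS1 hi
      refine ⟨hKR i hi, ?_, ?_, ?_, fun k => ?_, ?_⟩
      · rw [hlgr i hi0, hzero r hrW]
      · rw [← P.lg_inl, hV, P.lg_mul _ hαt0 hu, hαt, hlg0 i hi0 cα hα nα, hlgu, hlgr i hi0]
      · rw [← P.lg_inl, hV', P.lg_mul _ hβt0 hv, hβt, hlg0 i hi0 cβ hβ nβ, hlgv, hlgr i hi0]
      · rw [← P.lg_inl, hlgy, hlgr i hi0]
      · have h1 := congrArg (P.σ i) hrel'
        rw [map_zero, map_add, map_add, map_sum] at h1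
        rw [← h1]
        congr 1
        refine Finset.sum_congr rfl fun k _ => ?_
        rw [← map_mon, ← hσrf i hi0, ← map_mul]

end Pool.Agent.RS
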