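import Mathlib
import Pool.Agent.Lib.MP_c95b3b_ag_RS.DefsD
import Pool.Agent.Lib.MP_c95b3b_ag_RS.MainD
import Pool.Agent.Lib.MP_c95b3b_ag_L3.FD1

/-! Project RSd (MP_c95b3b_ag), module CXD: from number fields to complex points. -/

namespace Pool.Agent.RS

open Pool.Agent.L3 Module

namespace CXD

section
variable {K0 : Type} [Field K0] {A : Type} [CommRing A] [Algebra K0 A] {M e : ℕ}

/-- the value of the rational function `c * ∏ i, (T - a i) ^ n i` as a unit, the values of the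
factors being the units `w i` -/
def uf (w : Fin M → Aˣ) (c : K0ˣ) (n : Fin M → ℤ) : Aˣ :=
  Units.map (algebraMap K0 A : K0 →* A) c * ∏ i, w i ^ n i

theorem map_uf {L : Type} [Field L] (s : A →+* L) (a : Fin M → K0) (t : A) (w : Fin M → Aˣ)
    (hw : ∀ i, (w i : A) = t - algebraMap K0 A (a i)) (c : K0ˣ) (n : Fin M → ℤ) :
    s (uf w c n : A) =
      rf (fun i => s (algebraMap K0 A (a i))) (s (algebraMap K0 A c)) n (s t) := by
  have h1 : s (uf w c n : A) = ((Units.map (s : A →* L) (uf w c n) : Lˣ) : L) := rfl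
  rw [h1, uf, map_mul, map_prod, Units.val_mul, Units.coe_prod, rf]
  congr 1
  refine Finset.prod_congr rfl fun i _ => ?_
  rw [map_zpow, Units.val_zpow_eq_zpow_val]
  congr 1
  show s (w i : A) = _
  rw [hw i, map_sub]

/-- the monomial in units -/
def um {n : ℕ} (y : Fin n → Aˣ) (b : Fin n → ℤ) : Aˣ := ∏ j, y j ^ b j

theorem map_um {n : ℕ} {L : Type} [Field L] (s : A →+* L) (y : Fin n → Aˣ) (b : Fin n → ℤ) :
    s (um y b : A) = mon (fun j => s (y j : A)) b := by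
  have h1 : s (um y b : A) = ((Units.map (s : A →* L) (um y b) : Lˣ) : L) := rfl
  rw [h1, um, map_prod, Units.coe_prod, mon]
  refine Finset.prod_congr rfl fun i _ => ?_
  rw [map_zpow, Units.val_zpow_eq_zpow_val]
  rfl

theorem map_rel {L : Type} [Field L] (s : A →+* L) (a : Fin M → K0) (t : A) (w : Fin M → Aˣ)
    (hw : ∀ i, (w i : A) = t - algebraMap K0 A (a i)) {m : ℕ} (c : Fin m → K0ˣ)
    (n : Fin m → Fin M → ℤ) (u v : Aˣ) (y : Fin e → Aˣ)
    (r : (Fin (e + 2) → ℤ) × (Fin m → ℤ)) :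
    s ((um (pt u v y) r.1 * ∏ j, uf w (c j) (n j) ^ r.2 j : Aˣ) : A) =
      mon (pt (s u) (s v) (fun j => s (y j : A))) r.1 *
        ∏ j, (rf (fun i => s (algebraMap K0 A (a i))) (s (algebraMap K0 A (c j))) (n j) (s t)) ^
          r.2 j := by
  rw [Units.val_mul, map_mul, map_um, map_pt (fun x : Aˣ => s (x : A))]
  congr 1
  have h1 : s ((∏ j, uf w (c j) (n j) ^ r.2 j : Aˣ) : A) =
      ((Units.map (s : A →* L) (∏ j, uf w (c j) (n j) ^ r.2 j) : Lˣ) : L) := rfl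
  rw [h1, map_prod, Units.coe_prod]
  refine Finset.prod_congr rfl fun j _ => ?_
  rw [map_zpow, Units.val_zpow_eq_zpow_val, ← map_uf s a t w hw (c j) (n j)]
  rfl

end

end CXD

theorem rsd_complex {M m e g : ℕ} (a : Fin M → ℂ) (ha : Function.Injective a) (c : Fin m → ℂ)
    (hc : ∀ j, c j ≠ 0) (n : Fin m → Fin M → ℤ) (hn : LinearIndependent ℤ n) (cα cβ : ℂ)
    (hα : cα ≠ 0) (hβ : cβ ≠ 0) (nα nβ : Fin M → ℤ) (cg : Fin g → ℂ) (hcg : ∀ k, cg k ≠ 0)
    (ng : Fin g → Fin M → ℤ) (hg : 0 < g) (b : Fin g → Fin e → ℤ) (hb : Function.Injective b)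
    (hspan : ∀ s : Fin e → ℝ, (∀ k l, ∑ j, s j * ((b k j : ℝ) - b l j) = 0) → s = 0)
    (ha' : ∀ i, IsAlgebraic ℚ (a i)) (hc' : ∀ j, IsAlgebraic ℚ (c j))
    (hα' : IsAlgebraic ℚ cα) (hβ' : IsAlgebraic ℚ cβ) (hcg' : ∀ k, IsAlgebraic ℚ (cg k))
    (hNC : NC {t : ℂ | ∀ i, t ≠ a i} (fun j => rf a (c j) (n j))) :
    ∃ F : MvPolynomial (Fin (e + 2)) ℂ, F ≠ 0 ∧
      ∀ (t u v : ℂ) (y : Fin e → ℂ), (∀ i, t ≠ a i) → u ≠ 0 → v ≠ 0 → (∀ k, y k ≠ 0) →
        rf a cα nα t * u + rf a cβ nβ t * v + ∑ k, rf a (cg k) (ng k) t * mon y (b k) = 0 →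
        (∃ Λ : Submodule ℤ ((Fin (e + 2) → ℤ) × (Fin m → ℤ)), e + 3 ≤ finrank ℤ Λ ∧
          ∀ r ∈ Λ, mon (pt u v y) r.1 * ∏ j, (rf a (c j) (n j) t) ^ r.2 j = 1) →
        MvPolynomial.aeval (pt t (rf a cα nα t * u) y) F = 0 := by
  set S : Set ℂ := (Set.range a ∪ Set.range c) ∪ Set.range cg ∪ {cα, cβ} with hS
  have hSfin : S.Finite := (((Set.finite_range a).union (Set.finite_range c)).union
    (Set.finite_range cg)).union (Set.toFinite _)
  let K0 : IntermediateField ℚ ℂ := IntermediateField.adjoin ℚ S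
  have hfin : FiniteDimensional ℚ K0 := by
    have : Finite S := hSfin
    refine IntermediateField.finiteDimensional_adjoin fun z hz => ?_
    rcases hz with ((⟨i, rfl⟩ | ⟨i, rfl⟩) | ⟨i, rfl⟩) | hz
    · exact (ha' i).isIntegral
    · exact (hc' i).isIntegral
    · exact (hcg' i).isIntegral
    · rcases hz with rfl | hz
      · exact hα'.isIntegral
      · rw [Set.mem_singleton_iff.mp hz]
        exact hβ'.isIntegral
  have : NumberField K0 := ⟨⟩
  have hSK : ∀ z ∈ S, z ∈ K0 := fun z hz => IntermediateField.subset_adjoin ℚ S hz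
  let a0 : Fin M → K0 := fun i => ⟨a i, hSK _ (Or.inl (Or.inl (Or.inl ⟨i, rfl⟩)))⟩
  let c0 : Fin m → K0 := fun i => ⟨c i, hSK _ (Or.inl (Or.inl (Or.inr ⟨i, rfl⟩)))⟩
  let cg0 : Fin g → K0 := fun i => ⟨cg i, hSK _ (Or.inl (Or.inr ⟨i, rfl⟩))⟩
  let cα0 : K0 := ⟨cα, hSK _ (Or.inr (Or.inl rfl))⟩
  let cβ0 : K0 := ⟨cβ, hSK _ (Or.inr (Or.inr rfl))⟩
  have ha0 : Function.Injective a0 := fun i j h => ha (congrArg Subtype.val h)
  have hc0 : ∀ j, c0 j ≠ 0 := fun j h => hc j (congrArg Subtype.val h)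
  have hcg0 : ∀ j, cg0 j ≠ 0 := fun j h => hcg j (congrArg Subtype.val h)
  have hα0 : cα0 ≠ 0 := fun h => hα (congrArg Subtype.val h)
  have hβ0 : cβ0 ≠ 0 := fun h => hβ (congrArg Subtype.val h)
  obtain ⟨F, hF, H⟩ := rsd_nf K0 (algebraMap K0 ℂ) a0 ha0 c0 hc0 n hn cα0 cβ0 hα0 hβ0 nα nβ
    cg0 hcg0 ng hg b hb hspan hNC
  refine ⟨MvPolynomial.map (algebraMap K0 ℂ) F, ?_, fun t u v y ht hu hv hy huv hΛ => ?_⟩
  · intro h
    apply hF
    apply MvPolynomial.map_injective (algebraMap K0 ℂ) (algebraMap K0 ℂ).injective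
    rw [h, map_zero]
  obtain ⟨Λ, hΛ3, hΛ⟩ := hΛ
  rw [MvPolynomial.aeval_map_algebraMap]
  by_contra hne
  let d : ℂ := MvPolynomial.aeval (pt t (rf a cα nα t * u) y) F
  have hd : d ≠ 0 := hne
  let T : Set ℂ := {t, u, v, u⁻¹, v⁻¹, d⁻¹} ∪ Set.range (fun i => (t - a i)⁻¹) ∪
    (Set.range y ∪ Set.range (fun i => (y i)⁻¹))
  have hTfin : T.Finite := ((Set.toFinite _).union (Set.finite_range _)).union
    ((Set.finite_range _).union (Set.finite_range _))
  let A : Subalgebra K0 ℂ := Algebra.adjoin K0 T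
  have hA : Algebra.FiniteType K0 A := by
    rw [← Subalgebra.fg_iff_finiteType]
    exact Subalgebra.fg_def.mpr ⟨T, hTfin, rfl⟩
  obtain ⟨K, _, _, _, ⟨φ⟩⟩ := FD.exists_point K0 A
  have hTA : ∀ z ∈ T, z ∈ A := fun z hz => Algebra.subset_adjoin hz
  let t' : A := ⟨t, hTA _ (Or.inl (Or.inl (by simp)))⟩
  let u' : Aˣ := ⟨⟨u, hTA _ (Or.inl (Or.inl (by simp)))⟩,
    ⟨u⁻¹, hTA _ (Or.inl (Or.inl (by simp)))⟩,
    Subtype.ext (mul_inv_cancel₀ hu), Subtype.ext (inv_mul_cancel₀ hu)⟩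
  let v' : Aˣ := ⟨⟨v, hTA _ (Or.inl (Or.inl (by simp)))⟩,
    ⟨v⁻¹, hTA _ (Or.inl (Or.inl (by simp)))⟩,
    Subtype.ext (mul_inv_cancel₀ hv), Subtype.ext (inv_mul_cancel₀ hv)⟩
  let y' : Fin e → Aˣ := fun i => ⟨⟨y i, hTA _ (Or.inr (Or.inl ⟨i, rfl⟩))⟩,
    ⟨(y i)⁻¹, hTA _ (Or.inr (Or.inr ⟨i, rfl⟩))⟩,
    Subtype.ext (mul_inv_cancel₀ (hy i)), Subtype.ext (inv_mul_cancel₀ (hy i))⟩
  let E' : A := ⟨d⁻¹, hTA _ (Or.inl (Or.inl (by simp)))⟩
  let w : Fin M → Aˣ := fun i => ⟨t' - algebraMap K0 A (a0 i),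
    ⟨(t - a i)⁻¹, hTA _ (Or.inl (Or.inr ⟨i, rfl⟩))⟩,
    Subtype.ext (mul_inv_cancel₀ (sub_ne_zero.mpr (ht i))),
    Subtype.ext (inv_mul_cancel₀ (sub_ne_zero.mpr (ht i)))⟩
  have hw : ∀ i, (w i : A) = t' - algebraMap K0 A (a0 i) := fun i => rfl
  let cu : Fin m → K0ˣ := fun j => Units.mk0 (c0 j) (hc0 j)
  let gu : Fin g → K0ˣ := fun j => Units.mk0 (cg0 j) (hcg0 j)
  let αu : K0ˣ := Units.mk0 cα0 hα0
  let βu : K0ˣ := Units.mk0 cβ0 hβ0
  have hcomm : ∀ z : K0, (φ : A →+* K) (algebraMap K0 A z) = algebraMap K0 K z := φ.commutes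
  -- the linear relation in `A`
  have e1 : (CXD.uf w αu nα : A) * (u' : A) + (CXD.uf w βu nβ : A) * (v' : A) +
      ∑ k, (CXD.uf w (gu k) (ng k) : A) * (CXD.um y' (b k) : A) = 0 := by
    apply Subtype.val_injective
    show A.subtype ((CXD.uf w αu nα : A) * (u' : A) + (CXD.uf w βu nβ : A) * (v' : A) +
      ∑ k, (CXD.uf w (gu k) (ng k) : A) * (CXD.um y' (b k) : A)) = 0
    rw [map_add, map_add, map_mul, map_mul, map_sum]
    simp only [map_mul, CXD.map_uf A.subtype a0 t' w hw, CXD.map_um A.subtype y']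
    exact huv
  -- the multiplicative relations in `A`
  have e2 : ∀ x ∈ Λ, (CXD.um (pt u' v' y') x.1 * ∏ j, CXD.uf w (cu j) (n j) ^ x.2 j : Aˣ) =
      1 := by
    intro x hx
    apply Units.ext
    apply Subtype.val_injective
    show A.subtype ((CXD.um (pt u' v' y') x.1 * ∏ j, CXD.uf w (cu j) (n j) ^ x.2 j : Aˣ) : A) =
      1
    rw [CXD.map_rel A.subtype a0 t' w hw]
    exact hΛ x hx
  have h0 := H K ((φ : A →+* K) t') ((φ : A →+* K) u') ((φ : A →+* K) v')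
    (fun j => (φ : A →+* K) (y' j : A)) (by
      intro i h
      have h1 : (φ : A →+* K) (w i : A) = 0 := by rw [hw, map_sub, hcomm, h, sub_self]
      exact ((w i).map ((φ : A →+* K) : A →* K)).ne_zero h1)
    (u'.map ((φ : A →+* K) : A →* K)).ne_zero (v'.map ((φ : A →+* K) : A →* K)).ne_zero
    (fun k => ((y' k).map ((φ : A →+* K) : A →* K)).ne_zero) (by
      have h1 := congrArg (φ : A →+* K) e1
      rw [map_add, map_add, map_mul, map_mul, map_sum, map_zero] at h1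
      simp only [map_mul, CXD.map_uf (φ : A →+* K) a0 t' w hw, CXD.map_um (φ : A →+* K) y',
        hcomm] at h1
      exact h1)
    ⟨Λ, hΛ3, by
      intro x hx
      have h1 := CXD.map_rel (φ : A →+* K) a0 t' w hw cu n u' v' y' x
      rw [e2 x hx, Units.val_one, map_one] at h1
      simp only [hcomm] at h1
      exact h1.symm⟩
  let G : A := MvPolynomial.aeval (pt t' ((CXD.uf w αu nα : A) * (u' : A))
    (fun j => (y' j : A))) F
  have h1 : φ G = 0 := by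
    rw [← h0]
    have h2 : φ G = MvPolynomial.aeval (fun i => φ (pt t' ((CXD.uf w αu nα : A) * (u' : A))
        (fun j => (y' j : A)) i)) F := by
      rw [← MvPolynomial.comp_aeval_apply]
    rw [h2, map_pt]
    have h3 : φ ((CXD.uf w αu nα : A) * (u' : A)) =
        rf (fun i => algebraMap K0 K (a0 i)) (algebraMap K0 K cα0) nα ((φ : A →+* K) t') *
          (φ : A →+* K) u' := by
      rw [map_mul]
      have h4 := CXD.map_uf (φ : A →+* K) a0 t' w hw αu nα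
      simp only [hcomm] at h4
      rw [← RingHom.coe_coe, h4]
      rfl
    rw [h3]
    rfl
  have h2 : A.val G = d := by
    have h2 : A.val G = MvPolynomial.aeval (fun i => A.val (pt t' ((CXD.uf w αu nα : A) *
        (u' : A)) (fun j => (y' j : A)) i)) F := by
      rw [← MvPolynomial.comp_aeval_apply]
    rw [h2, map_pt]
    have h3 : A.val ((CXD.uf w αu nα : A) * (u' : A)) = rf a cα nα t * u := by
      show A.subtype ((CXD.uf w αu nα : A) * (u' : A)) = _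
      rw [map_mul, CXD.map_uf A.subtype a0 t' w hw]
      rfl
    rw [h3]
    rfl
  have h3 : G * E' = 1 := Subtype.ext (by
    change A.val G * d⁻¹ = 1
    rw [h2]
    exact mul_inv_cancel₀ hd)
  have h4 := congrArg φ h3
  rw [map_mul, h1, zero_mul, map_one] at h4
  exact zero_ne_one h4

end Pool.Agent.RS
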