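import Mathlib
import Pool.Agent.Lib.MP_c95b3b_ag_RS.Defs

/-! Project RSd (MP_c95b3b_ag), module NC3: the condition (NC) holds for the curve
`(t - p 0, t - p 1, t - p 2)`. -/

namespace Pool.Agent.RS

open Pool.Agent.L3 Module

namespace NC3

/-- generalised polynomials with real exponents -/
def GP (f : ℝ → ℝ) : Prop :=
  ∃ (n : ℕ) (c e : Fin n → ℝ), ∀ s : ℝ, 0 < s → f s = ∑ i, c i * s ^ e i

theorem GP.mono (c e : ℝ) : GP (fun s => c * s ^ e) :=
  ⟨1, fun _ => c, fun _ => e, fun s _ => by simp⟩

theorem GP.rpow (e : ℝ) : GP (fun s => s ^ e) :=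
  ⟨1, fun _ => 1, fun _ => e, fun s _ => by simp⟩

theorem GP.const (c : ℝ) : GP (fun _ => c) :=
  ⟨1, fun _ => c, fun _ => 0, fun s _ => by simp⟩

theorem GP.id : GP (fun s => s) :=
  ⟨1, fun _ => 1, fun _ => 1, fun s _ => by simp⟩

theorem GP.add {f g : ℝ → ℝ} (hf : GP f) (hg : GP g) : GP (fun s => f s + g s) := by
  obtain ⟨n, c, e, hf⟩ := hf
  obtain ⟨n', c', e', hg⟩ := hg
  refine ⟨n + n', Fin.append c c', Fin.append e e', fun s hs => ?_⟩
  show f s + g s = _
  rw [Fin.sum_univ_add, hf s hs, hg s hs]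
  simp

theorem GP.mul {f g : ℝ → ℝ} (hf : GP f) (hg : GP g) : GP (fun s => f s * g s) := by
  obtain ⟨n, c, e, hf⟩ := hf
  obtain ⟨n', c', e', hg⟩ := hg
  refine ⟨n * n', fun i => c (finProdFinEquiv.symm i).1 * c' (finProdFinEquiv.symm i).2,
    fun i => e (finProdFinEquiv.symm i).1 + e' (finProdFinEquiv.symm i).2, fun s hs => ?_⟩
  show f s * g s = _
  rw [hf s hs, hg s hs, Finset.sum_mul_sum, ← Finset.sum_product', Finset.univ_product_univ]
  refine Fintype.sum_equiv finProdFinEquiv _ _ fun i => ?_
  simp only [Equiv.symm_apply_apply, Real.rpow_add hs]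
  ring

theorem GP.sub {f g : ℝ → ℝ} (hf : GP f) (hg : GP g) : GP (fun s => f s - g s) := by
  have h := hf.add ((GP.const (-1)).mul hg)
  refine (by simpa [sub_eq_add_neg] using h)

/-- Rolle: finitely many zeros of the derivative -/
theorem finite_of_deriv {g : ℝ → ℝ} (hg : ∀ s, 0 < s → DifferentiableAt ℝ g s)
    (h : {s : ℝ | 0 < s ∧ deriv g s = 0}.Finite) : {s : ℝ | 0 < s ∧ g s = 0}.Finite := by
  classical
  by_contra hinf
  have hinf : {s : ℝ | 0 < s ∧ g s = 0}.Infinite := hinf
  obtain ⟨T, hT, hcard⟩ := hinf.exists_subset_card_eq (h.toFinset.card + 2)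
  set N := h.toFinset.card with hN
  let o := T.orderEmbOfFin hcard
  have ho : ∀ i, 0 < o i ∧ g (o i) = 0 := fun i => hT (T.orderEmbOfFin_mem hcard i)
  have hex : ∀ i : Fin (N + 1), ∃ ξ, ξ ∈ Set.Ioo (o i.castSucc) (o i.succ) ∧ deriv g ξ = 0 := by
    intro i
    have hlt : o i.castSucc < o i.succ := o.strictMono Fin.castSucc_lt_succ
    obtain ⟨ξ, hξ, h0⟩ := exists_deriv_eq_zero hlt
      (fun x hx => (hg x (lt_of_lt_of_le (ho _).1 hx.1)).continuousAt.continuousWithinAt)
      ((ho _).2.trans (ho _).2.symm)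
    exact ⟨ξ, hξ, h0⟩
  choose ξ hξ h0 using hex
  have hmono : StrictMono ξ := by
    intro i j hij
    refine (hξ i).2.trans_le (le_trans ?_ (hξ j).1.le)
    exact o.monotone (Fin.succ_le_castSucc_iff.mpr hij)
  have h1 : Finset.univ.image ξ ⊆ h.toFinset := by
    intro x hx
    obtain ⟨i, _, rfl⟩ := Finset.mem_image.mp hx
    rw [Set.Finite.mem_toFinset]
    exact ⟨(ho _).1.trans (hξ i).1, h0 i⟩
  have h2 := Finset.card_le_card h1
  rw [Finset.card_image_of_injective _ hmono.injective, Finset.card_univ, Fintype.card_fin] at h2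
  omega

theorem dichotomy (n : ℕ) : ∀ (c e : Fin n → ℝ),
    (∀ s : ℝ, 0 < s → ∑ i, c i * s ^ e i = 0) ∨
      {s : ℝ | 0 < s ∧ ∑ i, c i * s ^ e i = 0}.Finite := by
  induction n with
  | zero => intro c e; left; intro s _; simp
  | succ n ih =>
    intro c e
    set g : ℝ → ℝ := fun s => c 0 + ∑ i : Fin n, c i.succ * s ^ (e i.succ - e 0) with hg
    have hfg : ∀ s : ℝ, 0 < s → ∑ i, c i * s ^ e i = s ^ e 0 * g s := by
      intro s hs
      rw [Fin.sum_univ_succ, hg]
      simp only [mul_add, Finset.mul_sum]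
      congr 1
      · ring
      · refine Finset.sum_congr rfl fun i _ => ?_
        rw [mul_left_comm, ← Real.rpow_add hs, add_sub_cancel]
    have hz : ∀ s : ℝ, 0 < s → (∑ i, c i * s ^ e i = 0 ↔ g s = 0) := by
      intro s hs
      rw [hfg s hs, mul_eq_zero]
      have := (Real.rpow_pos_of_pos hs (e 0)).ne'
      tauto
    have hder : ∀ s : ℝ, 0 < s → HasDerivAt g
        (∑ i : Fin n, (c i.succ * (e i.succ - e 0)) * s ^ (e i.succ - e 0 - 1)) s := by
      intro s hs
      have h1 : HasDerivAt (fun s : ℝ => ∑ i : Fin n, c i.succ * s ^ (e i.succ - e 0))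
          (∑ i : Fin n, (c i.succ * (e i.succ - e 0)) * s ^ (e i.succ - e 0 - 1)) s := by
        refine HasDerivAt.fun_sum fun i _ => ?_
        have h2 := (Real.hasDerivAt_rpow_const (p := e i.succ - e 0) (Or.inl hs.ne')).const_mul
          (c i.succ)
        rw [← mul_assoc] at h2
        exact h2
      exact h1.const_add (c 0)
    rcases ih (fun i => c i.succ * (e i.succ - e 0)) (fun i => e i.succ - e 0 - 1) with h | h
    · -- `g` is constant on the positive reals
      have hconst : ∀ s : ℝ, 0 < s → g s = g 1 := by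
        intro s hs
        have h3 : ∀ x ∈ Set.Ioi (0 : ℝ), HasDerivWithinAt g 0 (Set.Ioi 0) x := by
          intro x hx
          have h4 := hder x hx
          rw [h x hx] at h4
          exact h4.hasDerivWithinAt
        have h5 := (convex_Ioi (0 : ℝ)).norm_image_sub_le_of_norm_hasDerivWithin_le (C := 0) h3
          (fun x _ => by simp) (Set.mem_Ioi.mpr one_pos) (Set.mem_Ioi.mpr hs)
        rw [zero_mul] at h5
        have h6 := norm_le_zero_iff.mp h5
        linarith
      by_cases h1 : g 1 = 0
      · left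
        intro s hs
        rw [hz s hs, hconst s hs, h1]
      · right
        convert Set.finite_empty (α := ℝ)
        rw [Set.eq_empty_iff_forall_notMem]
        rintro s ⟨hs, h0⟩
        rw [hz s hs, hconst s hs] at h0
        exact h1 h0
    · right
      have h1 : {s : ℝ | 0 < s ∧ g s = 0}.Finite := by
        refine finite_of_deriv (fun s hs => (hder s hs).differentiableAt) (h.subset ?_)
        rintro s ⟨hs, h0⟩
        rw [(hder s hs).deriv] at h0
        exact ⟨hs, h0⟩
      refine h1.subset ?_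
      rintro s ⟨hs, h0⟩
      exact ⟨hs, (hz s hs).mp h0⟩

theorem GP.finite {f : ℝ → ℝ} (hf : GP f) (h : ∃ s, 0 < s ∧ f s ≠ 0) :
    {s : ℝ | 0 < s ∧ f s = 0}.Finite := by
  obtain ⟨n, c, e, hf⟩ := hf
  rcases dichotomy n c e with h1 | h1
  · obtain ⟨s, hs, h0⟩ := h
    exact absurd ((hf s hs).trans (h1 s hs)) h0
  · refine h1.subset ?_
    rintro s ⟨hs, h0⟩
    exact ⟨hs, (hf s hs).symm.trans h0⟩

/-- the case `p 0 = 0`, `a = p 1`, `b = p 2` -/
theorem three (a b : ℂ) (ha : a ≠ 0) (hb : b ≠ 0) (hab : a ≠ b) (α β : ℝ) :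
    {z : ℂ | z ≠ 0 ∧ z ≠ a ∧ z ≠ b ∧ Real.log ‖z - a‖ = α * Real.log ‖z‖ ∧
      Real.log ‖z - b‖ = β * Real.log ‖z‖}.Finite := by
  -- the square of the absolute value, and the real parts of `conj a * z`, `conj b * z`
  have key : ∀ (c : ℂ) (γ : ℝ) (z : ℂ), z ≠ 0 → z ≠ c →
      Real.log ‖z - c‖ = γ * Real.log ‖z‖ →
      z.re * c.re + z.im * c.im =
        (Complex.normSq z + Complex.normSq c - (Complex.normSq z) ^ γ) / 2 := by
    intro c γ z hz hzc h
    have h1 : 0 < ‖z‖ := norm_pos_iff.mpr hz
    have h2 : 0 < ‖z - c‖ := norm_pos_iff.mpr (sub_ne_zero.mpr hzc)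
    have h3 : ‖z - c‖ = ‖z‖ ^ γ := by
      rw [← Real.exp_log h2, h, Real.rpow_def_of_pos h1, mul_comm]
    have h4 : Complex.normSq (z - c) = (Complex.normSq z) ^ γ := by
      rw [Complex.normSq_eq_norm_sq, Complex.normSq_eq_norm_sq, h3, ← Real.rpow_natCast,
        ← Real.rpow_natCast, ← Real.rpow_mul h1.le, ← Real.rpow_mul h1.le, mul_comm]
    rw [← h4]
    simp only [Complex.normSq_apply, Complex.sub_re, Complex.sub_im]
    ring
  set na : ℝ := Complex.normSq a with hna
  set nb : ℝ := Complex.normSq b with hnb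
  have hna0 : 0 < na := Complex.normSq_pos.mpr ha
  have hnb0 : 0 < nb := Complex.normSq_pos.mpr hb
  set A : ℝ → ℝ := fun s => (s + na - s ^ α) / 2 with hA
  set B : ℝ → ℝ := fun s => (s + nb - s ^ β) / 2 with hB
  have hAgp : GP A := by
    have h := (GP.const (1 / 2)).mul ((GP.id.add (GP.const na)).sub (GP.rpow α))
    refine (by simpa [hA, div_eq_inv_mul] using h)
  have hBgp : GP B := by
    have h := (GP.const (1 / 2)).mul ((GP.id.add (GP.const nb)).sub (GP.rpow β))
    refine (by simpa [hB, div_eq_inv_mul] using h)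
  set D : ℝ := a.re * b.im - a.im * b.re with hD
  by_cases hD0 : D = 0
  · -- `b` is a real multiple of `a`
    set Z : Set ℝ := {s : ℝ | 0 < s ∧ na * B s - (a.re * b.re + a.im * b.im) * A s = 0} with hZ
    have hc2 : (a.re * b.re + a.im * b.im) ^ 2 = na * nb := by
      have : (a.re * b.re + a.im * b.im) ^ 2 + D ^ 2 = na * nb := by
        rw [hD, hna, hnb, Complex.normSq_apply, Complex.normSq_apply]; ring
      rw [← this, hD0]; ring
    have hZfin : Z.Finite := by
      refine GP.finite (((GP.const na).mul hBgp).sub ((GP.const _).mul hAgp)) ⟨1, one_pos, ?_⟩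
      show na * B 1 - (a.re * b.re + a.im * b.im) * A 1 ≠ 0
      simp only [hA, hB, Real.one_rpow]
      intro h0
      have h1 : (a.re * b.re + a.im * b.im) * na = na * nb := by linarith
      have h2 : a.re * b.re + a.im * b.im = nb := by
        have := mul_left_cancel₀ hna0.ne' ((mul_comm _ _).trans h1)
        exact this
      have h3 : na = nb := by
        rw [h2] at hc2
        have : nb * nb = na * nb := by nlinarith
        exact (mul_right_cancel₀ hnb0.ne' this).symm
      apply hab
      have h4 : Complex.normSq (a - b) = 0 := by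
        have : Complex.normSq (a - b) = na + nb - 2 * (a.re * b.re + a.im * b.im) := by
          rw [hna, hnb, Complex.normSq_apply, Complex.normSq_apply, Complex.normSq_apply,
            Complex.sub_re, Complex.sub_im]
          ring
        rw [this, h2, h3]; ring
      exact sub_eq_zero.mp (Complex.normSq_eq_zero.mp h4)
    -- for every `s` at most two points
    have hfib : ∀ s : ℝ, {z : ℂ | Complex.normSq z = s ∧ z.re * a.re + z.im * a.im = A s}.Finite := by
      intro s
      set w : ℝ := Real.sqrt (s * na - A s ^ 2) with hw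
      refine (Set.Finite.subset (s := {((⟨A s, w⟩ : ℂ) * a / na), ((⟨A s, -w⟩ : ℂ) * a / na)})
        (Set.toFinite _) ?_)
      rintro z ⟨h1, h2⟩
      have hi : (z.im * a.re - z.re * a.im) ^ 2 = s * na - A s ^ 2 := by
        rw [← h2, ← h1, hna, Complex.normSq_apply, Complex.normSq_apply]; ring
      have hz : z = (⟨z.re * a.re + z.im * a.im, z.im * a.re - z.re * a.im⟩ : ℂ) * a / na := by
        rw [eq_div_iff (by exact_mod_cast hna0.ne')]
        apply Complex.ext
        · simp only [Complex.mul_re, Complex.ofReal_re, Complex.ofReal_im, hna,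
            Complex.normSq_apply]
          ring
        · simp only [Complex.mul_im, Complex.ofReal_re, Complex.ofReal_im, hna,
            Complex.normSq_apply]
          ring
      have hw2 : w ^ 2 = s * na - A s ^ 2 := by
        rw [hw, Real.sq_sqrt]
        rw [← hi]; exact sq_nonneg _
      rw [← hw2] at hi
      rw [h2] at hz
      rcases sq_eq_sq_iff_eq_or_eq_neg.mp hi with h3 | h3
      · left; rw [hz, h3]
      · right
        rw [Set.mem_singleton_iff, hz, h3]
    refine (hZfin.biUnion (t := fun s => {z : ℂ | Complex.normSq z = s ∧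
      z.re * a.re + z.im * a.im = A s}) fun s _ => hfib s).subset ?_
    rintro z ⟨hz0, hza, hzb, h1, h2⟩
    have k1 := key a α z hz0 hza h1
    have k2 := key b β z hz0 hzb h2
    refine Set.mem_biUnion (x := Complex.normSq z) ?_ ⟨rfl, k1⟩
    refine ⟨Complex.normSq_pos.mpr hz0, ?_⟩
    have e1 : A (Complex.normSq z) = z.re * a.re + z.im * a.im := k1.symm
    have e2 : B (Complex.normSq z) = z.re * b.re + z.im * b.im := k2.symm
    rw [e1, e2, hna, Complex.normSq_apply]
    have : (a.re * a.re + a.im * a.im) * (z.re * b.re + z.im * b.im) -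
        (a.re * b.re + a.im * b.im) * (z.re * a.re + z.im * a.im) =
        D * (a.re * z.im - a.im * z.re) := by rw [hD]; ring
    rw [this, hD0, zero_mul]
  · -- `z` is determined by `s`
    set c : ℝ := a.re * b.re + a.im * b.im with hc
    have hcD : c ^ 2 + D ^ 2 = na * nb := by
      rw [hc, hD, hna, hnb, Complex.normSq_apply, Complex.normSq_apply]; ring
    set E : ℝ → ℝ := fun s => nb * (A s * A s) - 2 * c * (A s * B s) + na * (B s * B s) - D ^ 2 * s
      with hE
    have hEgp : GP E :=
      ((((GP.const nb).mul (hAgp.mul hAgp)).sub ((GP.const (2 * c)).mul (hAgp.mul hBgp))).add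
        ((GP.const na).mul (hBgp.mul hBgp))).sub ((GP.const (D ^ 2)).mul GP.id)
    have hEne : ∃ s, 0 < s ∧ E s ≠ 0 := by
      by_contra hno
      have hE0 : ∀ s, 0 < s → E s = 0 := by
        intro s hs
        by_contra h
        exact hno ⟨s, hs, h⟩
      -- the quadratic form is positive definite
      have hbA : ∀ s, 0 < s → A s ^ 2 ≤ na * s ∧ B s ^ 2 ≤ nb * s := by
        intro s hs
        have h0 := hE0 s hs
        have hD2 : 0 < D ^ 2 := by positivity
        constructor
        · have h1 : D ^ 2 * A s ^ 2 + (na * B s - c * A s) ^ 2 = D ^ 2 * (na * s) := by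
            rw [hE] at h0
            simp only at h0
            linear_combination na * h0 + A s ^ 2 * hcD
          have h2 := sq_nonneg (na * B s - c * A s)
          nlinarith
        · have h1 : D ^ 2 * B s ^ 2 + (nb * A s - c * B s) ^ 2 = D ^ 2 * (nb * s) := by
            rw [hE] at h0
            simp only at h0
            linear_combination nb * h0 + B s ^ 2 * hcD
          have h2 := sq_nonneg (nb * A s - c * B s)
          nlinarith
      -- an exponent different from `0` is impossible
      have hexp : ∀ (n γ : ℝ), 0 < n → (∀ s : ℝ, 0 < s → ((s + n - s ^ γ) / 2) ^ 2 ≤ n * s) →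
          γ = 0 := by
        intro n γ hn h
        have h1 : Filter.Tendsto (fun s : ℝ => (s + n - s ^ γ) / 2) (nhdsWithin 0 (Set.Ioi 0))
            (nhds 0) := by
          have h2 : Filter.Tendsto (fun s : ℝ => Real.sqrt (n * s)) (nhdsWithin 0 (Set.Ioi 0))
              (nhds 0) := by
            have h3 : Continuous fun s : ℝ => Real.sqrt (n * s) :=
              Real.continuous_sqrt.comp (continuous_const.mul continuous_id)
            have h4 := (h3.tendsto 0).mono_left
              (nhdsWithin_le_nhds (s := Set.Ioi (0 : ℝ)))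
            simpa using h4
          refine squeeze_zero_norm' ?_ h2
          filter_upwards [self_mem_nhdsWithin] with s hs
          rw [Real.norm_eq_abs]
          exact Real.abs_le_sqrt (h s hs)
        have h3 : Filter.Tendsto (fun s : ℝ => s) (nhdsWithin 0 (Set.Ioi 0)) (nhds 0) :=
          nhdsWithin_le_nhds
        have h4 : Filter.Tendsto (fun s : ℝ => s ^ γ) (nhdsWithin 0 (Set.Ioi 0)) (nhds n) := by
          have h5 := ((h3.add_const n).sub (h1.const_mul 2))
          have h6 : (fun s : ℝ => s + n - 2 * ((s + n - s ^ γ) / 2)) = fun s => s ^ γ := by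
            funext s; ring
          rw [h6] at h5
          simpa using h5
        rcases lt_trichotomy γ 0 with hg | hg | hg
        · exfalso
          have h5 : Filter.Tendsto (fun s : ℝ => s ^ γ) (nhdsWithin 0 (Set.Ioi 0))
              Filter.atTop := by
            have h6 := (tendsto_rpow_atTop (neg_pos.mpr hg)).comp
              (tendsto_inv_nhdsGT_zero (𝕜 := ℝ))
            refine h6.congr' ?_
            filter_upwards [self_mem_nhdsWithin] with s hs
            show (s⁻¹) ^ (-γ) = s ^ γ
            rw [Real.inv_rpow (le_of_lt hs), Real.rpow_neg (le_of_lt hs), inv_inv]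
          exact not_tendsto_nhds_of_tendsto_atTop h5 n h4
        · exact hg
        · exfalso
          have h5 : Filter.Tendsto (fun s : ℝ => s ^ γ) (nhdsWithin 0 (Set.Ioi 0)) (nhds 0) := by
            have h6 := (Real.continuous_rpow_const hg.le).tendsto (0 : ℝ)
            rw [Real.zero_rpow hg.ne'] at h6
            exact h6.mono_left nhdsWithin_le_nhds
          exact hn.ne' (tendsto_nhds_unique h4 h5)
      have hα : α = 0 := hexp na α hna0 fun s hs => (hbA s hs).1
      have hβ : β = 0 := hexp nb β hnb0 fun s hs => (hbA s hs).2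
      -- now `E` is a polynomial of degree `2`
      have hA' : ∀ s, A s = (s + na - 1) / 2 := fun s => by simp [hA, hα]
      have hB' : ∀ s, B s = (s + nb - 1) / 2 := fun s => by simp [hB, hβ]
      have e1 := hE0 1 one_pos
      have e2 := hE0 2 two_pos
      have e3 := hE0 3 three_pos
      simp only [hE, hA', hB'] at e1 e2 e3
      have h1 : na + nb - 2 * c = 0 := by linear_combination 2 * (e3 - 2 * e2 + e1)
      have h2 : Complex.normSq (a - b) = na + nb - 2 * c := by
        rw [hc, hna, hnb, Complex.normSq_apply, Complex.normSq_apply, Complex.normSq_apply,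
          Complex.sub_re, Complex.sub_im]
        ring
      rw [h1] at h2
      exact hab (sub_eq_zero.mp (Complex.normSq_eq_zero.mp h2))
    have hZfin := hEgp.finite hEne
    have hfib : ∀ s : ℝ, {z : ℂ | z.re * a.re + z.im * a.im = A s ∧
        z.re * b.re + z.im * b.im = B s}.Finite := by
      intro s
      apply Set.Subsingleton.finite
      rintro z ⟨h1, h2⟩ z' ⟨h3, h4⟩
      apply Complex.ext
      · apply mul_left_cancel₀ hD0
        rw [hD]; linear_combination b.im * h1 - a.im * h2 - b.im * h3 + a.im * h4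
      · apply mul_left_cancel₀ hD0
        rw [hD]; linear_combination -b.re * h1 + a.re * h2 + b.re * h3 - a.re * h4
    refine (hZfin.biUnion (t := fun s => {z : ℂ | z.re * a.re + z.im * a.im = A s ∧
        z.re * b.re + z.im * b.im = B s}) fun s _ => hfib s).subset ?_
    rintro z ⟨hz0, hza, hzb, h1, h2⟩
    have k1 := key a α z hz0 hza h1
    have k2 := key b β z hz0 hzb h2
    refine Set.mem_biUnion (x := Complex.normSq z) ?_ ⟨k1, k2⟩
    refine ⟨Complex.normSq_pos.mpr hz0, ?_⟩
    have e1 : A (Complex.normSq z) = z.re * a.re + z.im * a.im := k1.symm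
    have e2 : B (Complex.normSq z) = z.re * b.re + z.im * b.im := k2.symm
    rw [hE]
    simp only [e1, e2]
    rw [hc, hD, hna, hnb, Complex.normSq_apply, Complex.normSq_apply, Complex.normSq_apply]
    ring

theorem pair (p0 p1 p2 : ℂ) (h1 : p1 ≠ p0) (h2 : p2 ≠ p0) (h12 : p1 ≠ p2) (α β : ℝ) :
    {t : ℂ | t ≠ p0 ∧ t ≠ p1 ∧ t ≠ p2 ∧ Real.log ‖t - p1‖ = α * Real.log ‖t - p0‖ ∧
      Real.log ‖t - p2‖ = β * Real.log ‖t - p0‖}.Finite := by
  have h := three (p1 - p0) (p2 - p0) (sub_ne_zero.mpr h1) (sub_ne_zero.mpr h2)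
    (fun h => h12 (sub_left_injective h)) α β
  refine (h.image fun z => z + p0).subset ?_
  rintro t ⟨h3, h4, h5, h6, h7⟩
  refine ⟨t - p0, ⟨sub_ne_zero.mpr h3, fun h => h4 (sub_left_injective h),
    fun h => h5 (sub_left_injective h), ?_, ?_⟩, sub_add_cancel t p0⟩
  · rw [sub_sub_sub_cancel_right]; exact h6
  · rw [sub_sub_sub_cancel_right]; exact h7

/-- vectors orthogonal to two independent vectors of `ℝ³` are proportional -/
theorem prop (r s : Fin 3 → ℝ) (h : LinearIndependent ℝ ![r, s]) : ∃ n : Fin 3 → ℝ, n ≠ 0 ∧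
    ∀ μ : Fin 3 → ℝ, ∑ j, r j * μ j = 0 → ∑ j, s j * μ j = 0 → ∀ i j, μ i * n j = μ j * n i := by
  refine ⟨![r 1 * s 2 - r 2 * s 1, r 2 * s 0 - r 0 * s 2, r 0 * s 1 - r 1 * s 0], ?_, ?_⟩
  · intro h0
    have e0 : r 1 * s 2 - r 2 * s 1 = 0 := congrFun h0 0
    have e1 : r 2 * s 0 - r 0 * s 2 = 0 := congrFun h0 1
    have e2 : r 0 * s 1 - r 1 * s 0 = 0 := congrFun h0 2
    rw [LinearIndependent.pair_iff] at h
    have hs : s = 0 ∨ s ≠ 0 := eq_or_ne s 0
    rcases hs with hs | hs
    · exact one_ne_zero (h 0 1 (by rw [hs]; simp)).2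
    · obtain ⟨k, hk⟩ := Function.ne_iff.mp hs
      have h1 := h (s k) (-(r k)) ?_
      · exact hk h1.1
      · funext j
        simp only [Pi.add_apply, Pi.smul_apply, smul_eq_mul, Pi.zero_apply]
        fin_cases k <;> fin_cases j <;> simp <;> linarith
  · intro μ h1 h2 i j
    rw [Fin.sum_univ_three] at h1 h2
    fin_cases i <;> fin_cases j <;> simp <;> first
      | ring1
      | linear_combination r 2 * h2 - s 2 * h1
      | linear_combination s 2 * h1 - r 2 * h2
      | linear_combination r 1 * h2 - s 1 * h1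
      | linear_combination s 1 * h1 - r 1 * h2
      | linear_combination r 0 * h2 - s 0 * h1
      | linear_combination s 0 * h1 - r 0 * h2

end NC3

/-- the condition (NC) holds for the curve `(t - p 0, t - p 1, t - p 2)` -/
theorem nc3 (p : Fin 3 → ℂ) (hp : Function.Injective p) :
    NC {t : ℂ | ∀ j, t ≠ p j} (fun j t => t - p j) := by
  intro r s hrs
  obtain ⟨n, hn, h⟩ := NC3.prop r s hrs
  obtain ⟨i, hi⟩ := Function.ne_iff.mp hn
  have hi : n i ≠ 0 := hi
  obtain ⟨j, k, hij, hik, hjk⟩ : ∃ j k : Fin 3, j ≠ i ∧ k ≠ i ∧ j ≠ k := by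
    fin_cases i
    · exact ⟨1, 2, by decide, by decide, by decide⟩
    · exact ⟨0, 2, by decide, by decide, by decide⟩
    · exact ⟨0, 1, by decide, by decide, by decide⟩
  refine (NC3.pair (p i) (p j) (p k) (fun h => hij (hp h)) (fun h => hik (hp h))
    (fun h => hjk (hp h)) (n j / n i) (n k / n i)).subset ?_
  rintro t ⟨ht, h1, h2⟩
  have h3 := h (fun j => Real.log ‖t - p j‖) h1 h2
  refine ⟨ht i, ht j, ht k, ?_, ?_⟩
  · rw [div_mul_eq_mul_div, eq_div_iff hi, mul_comm (n j)]
    exact h3 j i
  · rw [div_mul_eq_mul_div, eq_div_iff hi, mul_comm (n k)]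
    exact h3 k i

end Pool.Agent.RS
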