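import Mathlib
import Pool.Agent.Lib.MP_c95b3b_ag_RS.Defs
import Pool.Agent.Lib.MP_c95b3b_ag_RS.Main
import Pool.Agent.Lib.MP_c95b3b_ag_L3.FD1

/-! Project RS (MP_c95b3b_ag), module CX: from number fields to complex points. -/

namespace Pool.Agent.RS

open Pool.Agent.L3 Module

namespace CX

section
variable {K0 : Type} [Field K0] {A : Type} [CommRing A] [Algebra K0 A] {M : ℕ}

/-- the value of the rational function `c * ∏ i, (T - a i) ^ n i` as a unit, the values of the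
factors being the units `w i` -/
def uf (w : Fin M → Aˣ) (c : K0ˣ) (n : Fin M → ℤ) : Aˣ :=
  Units.map (algebraMap K0 A : K0 →* A) c * ∏ i, w i ^ n i

theorem map_uf {L : Type} [Field L] (s : A →+* L) (a : Fin M → K0) (t : A) (w : Fin M → Aˣ)
    (hw : ∀ i, (w i : A) = t - algebraMap K0 A (a i)) (c : K0ˣ) (n : Fin M → ℤ) :
    s (uf w c n : A) =
      rf (fun i => s (algebraMap K0 A (a i))) (s (algebraMap K0 A c)) n (s t) := by
  have h1 : s (uf w c n : A) = ((Units.map (s : A →* L) (uf w c n) : Lˣ) : L) := rfl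
  rw [h1, uf, map_mul, map_prod, Units.val_mul, Units.coe_prod, rf]
  congr 1
  refine Finset.prod_congr rfl fun i _ => ?_
  rw [map_zpow, Units.val_zpow_eq_zpow_val]
  congr 1
  show s (w i : A) = _
  rw [hw i, map_sub]

theorem map_rel {L : Type} [Field L] (s : A →+* L) (a : Fin M → K0) (t : A) (w : Fin M → Aˣ)
    (hw : ∀ i, (w i : A) = t - algebraMap K0 A (a i)) {m : ℕ} (c : Fin m → K0ˣ)
    (n : Fin m → Fin M → ℤ) (u v : Aˣ) (e : (ℤ × ℤ) × (Fin m → ℤ)) :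
    s ((u ^ e.1.1 * v ^ e.1.2 * ∏ j, uf w (c j) (n j) ^ e.2 j : Aˣ) : A) =
      (s u) ^ e.1.1 * (s v) ^ e.1.2 *
        ∏ j, (rf (fun i => s (algebraMap K0 A (a i))) (s (algebraMap K0 A (c j))) (n j) (s t)) ^
          e.2 j := by
  have h1 : s ((u ^ e.1.1 * v ^ e.1.2 * ∏ j, uf w (c j) (n j) ^ e.2 j : Aˣ) : A) =
      ((Units.map (s : A →* L) (u ^ e.1.1 * v ^ e.1.2 * ∏ j, uf w (c j) (n j) ^ e.2 j) : Lˣ) : L) :=
    rfl
  rw [h1, map_mul, map_mul, map_zpow, map_zpow, map_prod, Units.val_mul, Units.val_mul,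
    Units.coe_prod, Units.val_zpow_eq_zpow_val, Units.val_zpow_eq_zpow_val]
  congr 1
  refine Finset.prod_congr rfl fun j _ => ?_
  rw [map_zpow, Units.val_zpow_eq_zpow_val, ← map_uf s a t w hw (c j) (n j)]
  rfl

end

end CX

theorem rs_complex {M m : ℕ} (a : Fin M → ℂ) (ha : Function.Injective a) (c : Fin m → ℂ)
    (hc : ∀ j, c j ≠ 0) (n : Fin m → Fin M → ℤ) (hn : LinearIndependent ℤ n) (cα cβ : ℂ)
    (hα : cα ≠ 0) (hβ : cβ ≠ 0) (nα nβ : Fin M → ℤ) (ha' : ∀ i, IsAlgebraic ℚ (a i))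
    (hc' : ∀ j, IsAlgebraic ℚ (c j)) (hα' : IsAlgebraic ℚ cα) (hβ' : IsAlgebraic ℚ cβ)
    (hNC : NC {t : ℂ | ∀ i, t ≠ a i} (fun j => rf a (c j) (n j))) :
    ∃ F : MvPolynomial (Fin 2) ℤ, F ≠ 0 ∧
      ∀ t u v : ℂ, (∀ i, t ≠ a i) → u ≠ 0 → v ≠ 0 →
        rf a cα nα t * u + rf a cβ nβ t * v = 1 →
        (∃ Λ : Submodule ℤ ((ℤ × ℤ) × (Fin m → ℤ)), 3 ≤ finrank ℤ Λ ∧
          ∀ e ∈ Λ, u ^ e.1.1 * v ^ e.1.2 * ∏ j, (rf a (c j) (n j) t) ^ e.2 j = 1) →
        MvPolynomial.aeval ![t, rf a cα nα t * u] F = 0 := by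
  set S : Set ℂ := (Set.range a ∪ Set.range c) ∪ {cα, cβ} with hS
  have hSfin : S.Finite := ((Set.finite_range a).union (Set.finite_range c)).union
    (Set.toFinite _)
  let K0 : IntermediateField ℚ ℂ := IntermediateField.adjoin ℚ S
  have hfin : FiniteDimensional ℚ K0 := by
    have : Finite S := hSfin
    refine IntermediateField.finiteDimensional_adjoin fun z hz => ?_
    rcases hz with (⟨i, rfl⟩ | ⟨i, rfl⟩) | hz
    · exact (ha' i).isIntegral
    · exact (hc' i).isIntegral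
    · rcases hz with rfl | hz
      · exact hα'.isIntegral
      · rw [Set.mem_singleton_iff.mp hz]
        exact hβ'.isIntegral
  have : NumberField K0 := ⟨⟩
  have hSK : ∀ z ∈ S, z ∈ K0 := fun z hz => IntermediateField.subset_adjoin ℚ S hz
  let a0 : Fin M → K0 := fun i => ⟨a i, hSK _ (Or.inl (Or.inl ⟨i, rfl⟩))⟩
  let c0 : Fin m → K0 := fun i => ⟨c i, hSK _ (Or.inl (Or.inr ⟨i, rfl⟩))⟩
  let cα0 : K0 := ⟨cα, hSK _ (Or.inr (Or.inl rfl))⟩
  let cβ0 : K0 := ⟨cβ, hSK _ (Or.inr (Or.inr rfl))⟩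
  have ha0 : Function.Injective a0 := fun i j h => ha (congrArg Subtype.val h)
  have hc0 : ∀ j, c0 j ≠ 0 := fun j h => hc j (congrArg Subtype.val h)
  have hα0 : cα0 ≠ 0 := fun h => hα (congrArg Subtype.val h)
  have hβ0 : cβ0 ≠ 0 := fun h => hβ (congrArg Subtype.val h)
  obtain ⟨F, hF, H⟩ := rs_nf K0 (algebraMap K0 ℂ) a0 ha0 c0 hc0 n hn cα0 cβ0 hα0 hβ0 nα nβ hNC
  refine ⟨F, hF, fun t u v ht hu hv huv hΛ => ?_⟩
  obtain ⟨Λ, hΛ3, hΛ⟩ := hΛ
  by_contra hne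
  let e : ℂ := MvPolynomial.aeval ![t, rf a cα nα t * u] F
  have he : e ≠ 0 := hne
  let T : Set ℂ := {t, u, v, u⁻¹, v⁻¹, e⁻¹} ∪ Set.range (fun i => (t - a i)⁻¹)
  have hTfin : T.Finite := (Set.toFinite _).union (Set.finite_range _)
  let A : Subalgebra K0 ℂ := Algebra.adjoin K0 T
  have hA : Algebra.FiniteType K0 A := by
    rw [← Subalgebra.fg_iff_finiteType]
    exact Subalgebra.fg_def.mpr ⟨T, hTfin, rfl⟩
  obtain ⟨K, _, _, _, ⟨φ⟩⟩ := FD.exists_point K0 A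
  have hTA : ∀ z ∈ T, z ∈ A := fun z hz => Algebra.subset_adjoin hz
  let t' : A := ⟨t, hTA _ (Or.inl (by simp))⟩
  let u' : Aˣ := ⟨⟨u, hTA _ (Or.inl (by simp))⟩, ⟨u⁻¹, hTA _ (Or.inl (by simp))⟩,
    Subtype.ext (mul_inv_cancel₀ hu), Subtype.ext (inv_mul_cancel₀ hu)⟩
  let v' : Aˣ := ⟨⟨v, hTA _ (Or.inl (by simp))⟩, ⟨v⁻¹, hTA _ (Or.inl (by simp))⟩,
    Subtype.ext (mul_inv_cancel₀ hv), Subtype.ext (inv_mul_cancel₀ hv)⟩
  let E' : A := ⟨e⁻¹, hTA _ (Or.inl (by simp))⟩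
  let w : Fin M → Aˣ := fun i => ⟨t' - algebraMap K0 A (a0 i),
    ⟨(t - a i)⁻¹, hTA _ (Or.inr ⟨i, rfl⟩)⟩,
    Subtype.ext (mul_inv_cancel₀ (sub_ne_zero.mpr (ht i))),
    Subtype.ext (inv_mul_cancel₀ (sub_ne_zero.mpr (ht i)))⟩
  have hw : ∀ i, (w i : A) = t' - algebraMap K0 A (a0 i) := fun i => rfl
  let cu : Fin m → K0ˣ := fun j => Units.mk0 (c0 j) (hc0 j)
  let αu : K0ˣ := Units.mk0 cα0 hα0
  let βu : K0ˣ := Units.mk0 cβ0 hβ0
  have hcomm : ∀ z : K0, (φ : A →+* K) (algebraMap K0 A z) = algebraMap K0 K z := φ.commutes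
  -- the linear relation in `A`
  have e1 : (CX.uf w αu nα : A) * (u' : A) + (CX.uf w βu nβ : A) * (v' : A) = 1 := by
    apply Subtype.val_injective
    show A.subtype ((CX.uf w αu nα : A) * (u' : A) + (CX.uf w βu nβ : A) * (v' : A)) = 1
    rw [map_add, map_mul, map_mul, CX.map_uf A.subtype a0 t' w hw,
      CX.map_uf A.subtype a0 t' w hw]
    exact huv
  -- the multiplicative relations in `A`
  have e2 : ∀ x ∈ Λ, (u' ^ x.1.1 * v' ^ x.1.2 * ∏ j, CX.uf w (cu j) (n j) ^ x.2 j : Aˣ) = 1 := by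
    intro x hx
    apply Units.ext
    apply Subtype.val_injective
    show A.subtype ((u' ^ x.1.1 * v' ^ x.1.2 * ∏ j, CX.uf w (cu j) (n j) ^ x.2 j : Aˣ) : A) = 1
    rw [CX.map_rel A.subtype a0 t' w hw]
    exact hΛ x hx
  have h0 := H K ((φ : A →+* K) t') ((φ : A →+* K) u') ((φ : A →+* K) v') (by
      intro i h
      have h1 : (φ : A →+* K) (w i : A) = 0 := by rw [hw, map_sub, hcomm, h, sub_self]
      exact ((w i).map ((φ : A →+* K) : A →* K)).ne_zero h1)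
    (u'.map ((φ : A →+* K) : A →* K)).ne_zero (v'.map ((φ : A →+* K) : A →* K)).ne_zero (by
      have h1 := congrArg (φ : A →+* K) e1
      rw [map_add, map_mul, map_mul, map_one, CX.map_uf (φ : A →+* K) a0 t' w hw,
        CX.map_uf (φ : A →+* K) a0 t' w hw] at h1
      simp only [hcomm] at h1
      exact h1)
    ⟨Λ, hΛ3, by
      intro x hx
      have h1 := CX.map_rel (φ : A →+* K) a0 t' w hw cu n u' v' x
      rw [e2 x hx, Units.val_one, map_one] at h1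
      simp only [hcomm] at h1
      exact h1.symm⟩
  let G : A := MvPolynomial.aeval ![t', (CX.uf w αu nα : A) * (u' : A)] F
  have h1 : (φ : A →+* K) G = 0 := by
    rw [← h0]
    have h2 := MvPolynomial.map_aeval ![t', (CX.uf w αu nα : A) * (u' : A)] (φ : A →+* K) F
    rw [h2]
    have h3 : (φ : A →+* K).comp (algebraMap ℤ A) = algebraMap ℤ K := Subsingleton.elim _ _
    rw [h3, MvPolynomial.coe_eval₂Hom, ← MvPolynomial.aeval_def]
    congr 2
    ext i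
    fin_cases i
    · rfl
    · show (φ : A →+* K) ((CX.uf w αu nα : A) * (u' : A)) = _
      rw [map_mul, CX.map_uf (φ : A →+* K) a0 t' w hw]
      simp only [hcomm]
      rfl
  have h2 : A.subtype G = e := by
    have h2 := MvPolynomial.map_aeval ![t', (CX.uf w αu nα : A) * (u' : A)] A.subtype F
    rw [h2]
    have h3 : A.subtype.comp (algebraMap ℤ A) = algebraMap ℤ ℂ := Subsingleton.elim _ _
    rw [h3, MvPolynomial.coe_eval₂Hom, ← MvPolynomial.aeval_def]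
    show _ = MvPolynomial.aeval ![t, rf a cα nα t * u] F
    congr 2
    ext i
    fin_cases i
    · rfl
    · show A.subtype ((CX.uf w αu nα : A) * (u' : A)) = _
      rw [map_mul, CX.map_uf A.subtype a0 t' w hw]
      rfl
  have h3 : G * E' = 1 := Subtype.ext (by
    change A.subtype G * e⁻¹ = 1
    rw [h2]
    exact mul_inv_cancel₀ he)
  have h4 := congrArg (φ : A →+* K) h3
  rw [map_mul, h1, zero_mul, map_one] at h4
  exact zero_ne_one h4

end Pool.Agent.RS
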