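import Pool.Agent.Lib.MP_c95b3b_ag_RS.DefsD
import Pool.Agent.Lib.MP_c95b3b_ag_RS.ComplexD

/-! Project RSd (MP_c95b3b_ag), module RTD: the final statement, for rational functions `p j / q j`
and the hypersurfaces `A u + B v + ∑ C k y ^ b k = 0`. -/

namespace Pool.Agent.RS

open Pool.Agent.L3 Module

namespace RTDaux

open Polynomial in
/-- value of a polynomial whose roots are among the `a i` -/
theorem eval_eq_prod {M : ℕ} (a : Fin M → ℂ) (ha : Function.Injective a) (P : ℂ[X])
    (hP : ∀ z, P.IsRoot z → P ≠ 0 → ∃ i, a i = z) (h0 : P ≠ 0) (t : ℂ) :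
    P.eval t = P.leadingCoeff * ∏ i, (t - a i) ^ P.rootMultiplicity (a i) := by
  classical
  have h1 := Polynomial.C_leadingCoeff_mul_prod_multiset_X_sub_C
    (Polynomial.splits_iff_card_roots.1 (IsAlgClosed.splits P))
  conv_lhs => rw [← h1]
  rw [Polynomial.eval_mul, Polynomial.eval_C, Polynomial.eval_multiset_prod, Multiset.map_map]
  congr 1
  have h2 : (Multiset.map (Polynomial.eval t ∘ fun a => X - C a) P.roots) =
      Multiset.map (fun z => t - z) P.roots := by
    refine Multiset.map_congr rfl fun z _ => ?_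
    simp
  rw [h2, Finset.prod_multiset_map_count]
  have h3 : ∏ i, (t - a i) ^ P.rootMultiplicity (a i) =
      ∏ z ∈ Finset.univ.image a, (t - z) ^ P.rootMultiplicity z := by
    rw [Finset.prod_image fun x _ y _ h => ha h]
  rw [h3]
  refine (Finset.prod_subset (s₂ := Finset.univ.image a) ?_ ?_).trans ?_
  · intro z hz
    rw [Multiset.mem_toFinset, Polynomial.mem_roots h0] at hz
    obtain ⟨i, hi⟩ := hP z hz h0
    exact Finset.mem_image.2 ⟨i, Finset.mem_univ _, hi⟩
  · intro z _ hz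
    rw [Multiset.mem_toFinset] at hz
    rw [Multiset.count_eq_zero_of_notMem hz, pow_zero]
  · refine Finset.prod_congr rfl fun z _ => ?_
    rw [Polynomial.count_roots]

open Polynomial in
/-- roots of polynomials with algebraic coefficients are algebraic -/
theorem isAlgebraic_root {P : ℂ[X]} (h : ∀ k, IsAlgebraic ℚ (P.coeff k)) (h0 : P ≠ 0) {z : ℂ}
    (hz : P.IsRoot z) : IsAlgebraic ℚ z := by
  have h1 : P ∈ Polynomial.lifts (algebraMap (algebraicClosure ℚ ℂ) ℂ) := by
    rw [Polynomial.lifts_iff_coeff_lifts]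
    intro k
    exact ⟨⟨P.coeff k, (mem_algebraicClosure_iff).2 (h k)⟩, rfl⟩
  obtain ⟨Q, hQ⟩ := h1
  have hQ' : Q.map (algebraMap (algebraicClosure ℚ ℂ) ℂ) = P := by
    simpa using hQ
  have hQ0 : Q ≠ 0 := by
    rintro rfl
    apply h0
    rw [← hQ', Polynomial.map_zero]
  have h2 : IsAlgebraic (algebraicClosure ℚ ℂ) z := by
    refine ⟨Q, hQ0, ?_⟩
    rw [Polynomial.aeval_def, ← Polynomial.eval_map, hQ']
    exact hz
  have : Algebra.IsAlgebraic ℚ (algebraicClosure ℚ ℂ) := algebraicClosure.isAlgebraic ℚ ℂ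
  exact h2.restrictScalars ℚ

/-- quotient of two values -/
theorem quot_eq_rf {M : ℕ} (a : Fin M → ℂ) (P Q : Polynomial ℂ) {t : ℂ}
    (hPe : P.eval t = P.leadingCoeff * ∏ i, (t - a i) ^ P.rootMultiplicity (a i))
    (hQe : Q.eval t = Q.leadingCoeff * ∏ i, (t - a i) ^ Q.rootMultiplicity (a i))
    (hP : P.eval t ≠ 0) (hQ : Q.eval t ≠ 0) :
    P.eval t / Q.eval t = rf a (P.leadingCoeff / Q.leadingCoeff)
      (fun i => (P.rootMultiplicity (a i) : ℤ) - Q.rootMultiplicity (a i)) t := by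
  rw [rf, hPe, hQe, mul_div_mul_comm, ← Finset.prod_div_distrib]
  congr 1
  refine Finset.prod_congr rfl fun i _ => ?_
  by_cases h : t - a i = 0
  · have h1 : t = a i := sub_eq_zero.1 h
    have h2 : P.rootMultiplicity (a i) = 0 := by
      rw [Polynomial.rootMultiplicity_eq_zero]
      rw [← h1]
      exact hP
    have h3 : Q.rootMultiplicity (a i) = 0 := by
      rw [Polynomial.rootMultiplicity_eq_zero]
      rw [← h1]
      exact hQ
    rw [h2, h3]
    simp
  · rw [zpow_sub₀ h, zpow_natCast, zpow_natCast]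

/-- value as a rational function -/
theorem eval_eq_rf {M : ℕ} (a : Fin M → ℂ) (P : Polynomial ℂ) {t : ℂ}
    (hPe : P.eval t = P.leadingCoeff * ∏ i, (t - a i) ^ P.rootMultiplicity (a i)) :
    P.eval t = rf a P.leadingCoeff (fun i => (P.rootMultiplicity (a i) : ℤ)) t := by
  rw [rf, hPe]
  simp only [zpow_natCast]

/-- the substitution -/
noncomputable def sub {e : ℕ} (A : Polynomial ℂ) : Fin (e + 2) → MvPolynomial (Fin (e + 2)) ℂ :=
  pt (MvPolynomial.X 0)
    (Polynomial.aeval (MvPolynomial.X 0 : MvPolynomial (Fin (e + 2)) ℂ) A * MvPolynomial.X 1)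
    (fun j => MvPolynomial.X j.succ.succ)

/-- the polynomial after the substitution -/
noncomputable def FF {e : ℕ} (F0 : MvPolynomial (Fin (e + 2)) ℂ) (A : Polynomial ℂ) :
    MvPolynomial (Fin (e + 2)) ℂ :=
  MvPolynomial.aeval (sub A) F0

theorem eval_aeval {e : ℕ} (x : Fin (e + 2) → ℂ) (P : Polynomial ℂ) :
    MvPolynomial.eval x (Polynomial.aeval (MvPolynomial.X 0 : MvPolynomial (Fin (e + 2)) ℂ) P) =
      P.eval (x 0) := by
  rw [← Polynomial.coe_aeval_eq_eval]
  have h := Polynomial.aeval_algHom_apply (MvPolynomial.aeval (R := ℂ) x)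
    (MvPolynomial.X 0 : MvPolynomial (Fin (e + 2)) ℂ) P
  rw [MvPolynomial.aeval_X] at h
  rw [← MvPolynomial.coe_aeval_eq_eval]
  exact h.symm

theorem eval_FF {e : ℕ} (F0 : MvPolynomial (Fin (e + 2)) ℂ) (A : Polynomial ℂ) (t u : ℂ)
    (y : Fin e → ℂ) : MvPolynomial.eval (pt t u y) (FF F0 A) =
      MvPolynomial.eval (pt t (A.eval t * u) y) F0 := by
  rw [FF, MvPolynomial.aeval_def, MvPolynomial.eval₂_eq', map_sum,
    MvPolynomial.eval_eq' _ F0]
  refine Finset.sum_congr rfl fun d _ => ?_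
  rw [map_mul, map_prod]
  congr 1
  · simp
  · refine Finset.prod_congr rfl fun i _ => ?_
    rw [map_pow]
    congr 1
    refine Fin.cases ?_ (fun i => ?_) i
    · simp [sub, pt_zero]
    · refine Fin.cases ?_ (fun i => ?_) i
      · rw [sub, pt_succ_zero, pt_succ_zero, map_mul, eval_aeval, MvPolynomial.eval_X, pt_zero,
          pt_one]
      · rw [sub, pt_succ, pt_succ, MvPolynomial.eval_X, pt_succ]

end RTDaux

open RTDaux in
theorem rsd_final (m e g : ℕ) (p q : Fin m → Polynomial ℂ) (A B : Polynomial ℂ)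
    (C : Fin g → Polynomial ℂ) (b : Fin g → Fin e → ℤ)
    (hp : ∀ j, p j ≠ 0) (hq : ∀ j, q j ≠ 0) (hA : A ≠ 0) (hB : B ≠ 0) (hC : ∀ k, C k ≠ 0)
    (hp' : ∀ j k, IsAlgebraic ℚ ((p j).coeff k)) (hq' : ∀ j k, IsAlgebraic ℚ ((q j).coeff k))
    (hA' : ∀ k, IsAlgebraic ℚ (A.coeff k)) (hB' : ∀ k, IsAlgebraic ℚ (B.coeff k))
    (hC' : ∀ j k, IsAlgebraic ℚ ((C j).coeff k))
    (hind : ∀ r : Fin m → ℤ, (∃ c : ℂ, ∀ t : ℂ, (∀ j, (p j).eval t ≠ 0 ∧ (q j).eval t ≠ 0) →
      ∏ j, ((p j).eval t / (q j).eval t) ^ r j = c) → r = 0)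
    (hg : 0 < g) (hb : Function.Injective b)
    (hspan : ∀ s : Fin e → ℝ, (∀ k l, ∑ j, s j * ((b k j : ℝ) - b l j) = 0) → s = 0)
    (hNC : NC {t : ℂ | ∀ j, (p j).eval t ≠ 0 ∧ (q j).eval t ≠ 0}
      (fun j t => (p j).eval t / (q j).eval t)) :
    ∃ F : MvPolynomial (Fin (e + 2)) ℂ, F ≠ 0 ∧
      ∀ (t u v : ℂ) (y : Fin e → ℂ), (∀ j, (p j).eval t ≠ 0 ∧ (q j).eval t ≠ 0) → u ≠ 0 →
        v ≠ 0 → (∀ k, y k ≠ 0) →
        A.eval t * u + B.eval t * v + ∑ k, (C k).eval t * mon y (b k) = 0 →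
        (∃ Λ : Submodule ℤ ((Fin (e + 2) → ℤ) × (Fin m → ℤ)), e + 3 ≤ finrank ℤ Λ ∧
          ∀ r ∈ Λ, mon (pt u v y) r.1 * ∏ j, ((p j).eval t / (q j).eval t) ^ r.2 j = 1) →
        MvPolynomial.eval (pt t u y) F = 0 := by
  classical
  -- the roots
  set T : Polynomial ℂ := (∏ j, p j) * (∏ j, q j) * (A * B * ∏ k, C k) with hT
  have hT0 : T ≠ 0 := mul_ne_zero (mul_ne_zero (Finset.prod_ne_zero_iff.2 fun j _ => hp j)
    (Finset.prod_ne_zero_iff.2 fun j _ => hq j)) (mul_ne_zero (mul_ne_zero hA hB)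
      (Finset.prod_ne_zero_iff.2 fun k _ => hC k))
  have hdp : ∀ j, p j ∣ T := fun j => ((Finset.dvd_prod_of_mem p (Finset.mem_univ j)).mul_right
    _).mul_right _
  have hdq : ∀ j, q j ∣ T := fun j => ((Finset.dvd_prod_of_mem q (Finset.mem_univ j)).mul_left
    _).mul_right _
  have hdA : A ∣ T := ((dvd_mul_right A B).mul_right _).mul_left _
  have hdB : B ∣ T := ((dvd_mul_left B A).mul_right _).mul_left _
  have hdC : ∀ k, C k ∣ T := fun k =>
    ((Finset.dvd_prod_of_mem C (Finset.mem_univ k)).mul_left (A * B)).mul_left _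
  set S : Finset ℂ := T.roots.toFinset with hS
  set a : Fin S.card → ℂ := fun i => (S.equivFin.symm i : ℂ) with hadef
  have ha : Function.Injective a := fun x y h =>
    S.equivFin.symm.injective (Subtype.ext h)
  have haT : ∀ i, T.IsRoot (a i) := by
    intro i
    have h1 : a i ∈ T.roots.toFinset := (S.equivFin.symm i).2
    rw [Multiset.mem_toFinset, Polynomial.mem_roots hT0] at h1
    exact h1
  have hrt : ∀ P : Polynomial ℂ, P ∣ T → ∀ z, P.IsRoot z → ∃ i, a i = z := by
    intro P hP z hz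
    have h1 : z ∈ S := by
      rw [hS, Multiset.mem_toFinset, Polynomial.mem_roots hT0]
      exact hz.dvd hP
    exact ⟨S.equivFin ⟨z, h1⟩, by simp [hadef]⟩
  have hne : ∀ P : Polynomial ℂ, P ∣ T → ∀ t : ℂ, (∀ i, t ≠ a i) → P.eval t ≠ 0 := by
    intro P hP t ht h1
    obtain ⟨i, hi⟩ := hrt P hP t h1
    exact ht i hi.symm
  have hev : ∀ P : Polynomial ℂ, P ∣ T → ∀ t : ℂ,
      P.eval t = P.leadingCoeff * ∏ i, (t - a i) ^ P.rootMultiplicity (a i) := by
    intro P hP t
    have h0 : P ≠ 0 := by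
      rintro rfl
      exact hT0 (zero_dvd_iff.1 hP)
    exact eval_eq_prod a ha P (fun z hz _ => hrt P hP z hz) h0 t
  have halg : ∀ i, IsAlgebraic ℚ (a i) := by
    intro i
    have h1 := haT i
    rw [hT, Polynomial.IsRoot.def, Polynomial.eval_mul, Polynomial.eval_mul, Polynomial.eval_mul,
      Polynomial.eval_mul, Polynomial.eval_prod, Polynomial.eval_prod, Polynomial.eval_prod] at h1
    rcases mul_eq_zero.1 h1 with h1 | h1
    · rcases mul_eq_zero.1 h1 with h1 | h1
      · obtain ⟨j, -, hj⟩ := Finset.prod_eq_zero_iff.1 h1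
        exact isAlgebraic_root (hp' j) (hp j) hj
      · obtain ⟨j, -, hj⟩ := Finset.prod_eq_zero_iff.1 h1
        exact isAlgebraic_root (hq' j) (hq j) hj
    · rcases mul_eq_zero.1 h1 with h1 | h1
      · rcases mul_eq_zero.1 h1 with h1 | h1
        · exact isAlgebraic_root hA' hA h1
        · exact isAlgebraic_root hB' hB h1
      · obtain ⟨k, -, hk⟩ := Finset.prod_eq_zero_iff.1 h1
        exact isAlgebraic_root (hC' k) (hC k) hk
  -- the data
  set c : Fin m → ℂ := fun j => (p j).leadingCoeff / (q j).leadingCoeff with hc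
  set n : Fin m → Fin S.card → ℤ := fun j i =>
    ((p j).rootMultiplicity (a i) : ℤ) - (q j).rootMultiplicity (a i) with hn
  have hx : ∀ j, ∀ t : ℂ, (p j).eval t ≠ 0 → (q j).eval t ≠ 0 →
      (p j).eval t / (q j).eval t = rf a (c j) (n j) t := fun j t h1 h2 =>
    quot_eq_rf a (p j) (q j) (hev _ (hdp j) t) (hev _ (hdq j) t) h1 h2
  have hlin : LinearIndependent ℤ n := by
    rw [Fintype.linearIndependent_iff]
    intro r hr
    have h1 : r = 0 := by
      refine hind r ⟨∏ j, c j ^ r j, fun t ht => ?_⟩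
      have h2 : ∏ j, ((p j).eval t / (q j).eval t) ^ r j =
          ∏ j, (c j ^ r j * ∏ i, ((t - a i) ^ n j i) ^ r j) := by
        refine Finset.prod_congr rfl fun j _ => ?_
        rw [hx j t (ht j).1 (ht j).2, rf, mul_zpow, Finset.prod_zpow]
      rw [h2, Finset.prod_mul_distrib, Finset.prod_comm]
      have h3 : ∏ i, ∏ j, ((t - a i) ^ n j i) ^ r j = 1 := by
        refine Finset.prod_eq_one fun i _ => ?_
        by_cases h4 : t - a i = 0
        · have h5 : t = a i := sub_eq_zero.1 h4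
          refine Finset.prod_eq_one fun j _ => ?_
          have h6 : n j i = 0 := by
            have h7 : (p j).rootMultiplicity (a i) = 0 := by
              rw [Polynomial.rootMultiplicity_eq_zero]
              rw [← h5]
              exact (ht j).1
            have h8 : (q j).rootMultiplicity (a i) = 0 := by
              rw [Polynomial.rootMultiplicity_eq_zero]
              rw [← h5]
              exact (ht j).2
            simp only [hn, h7, h8, Nat.cast_zero, sub_zero]
          rw [h6, zpow_zero, one_zpow]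
        · have h5 : ∀ j ∈ Finset.univ, ((t - a i) ^ n j i) ^ r j = (t - a i) ^ (r j * n j i) := by
            intro j _
            rw [← zpow_mul, mul_comm]
          rw [Finset.prod_congr rfl h5]
          have h6 : ∑ j, r j * n j i = 0 := by
            have := congrFun hr i
            simpa using this
          have h7 : ∀ s : Finset (Fin m), ∏ j ∈ s, (t - a i) ^ (r j * n j i) =
              (t - a i) ^ (∑ j ∈ s, r j * n j i) := by
            intro s
            induction s using Finset.induction_on with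
            | empty => simp
            | insert b s hb ih => rw [Finset.prod_insert hb, Finset.sum_insert hb, ih, zpow_add₀ h4]
          rw [h7, h6, zpow_zero]
      rw [h3, mul_one]
    intro j
    rw [h1]
    rfl
  have hNC' : NC {t : ℂ | ∀ i, t ≠ a i} (fun j => rf a (c j) (n j)) := by
    intro r s hrs
    refine (hNC r s hrs).subset ?_
    rintro t ⟨ht, h1, h2⟩
    have h3 : ∀ j, (p j).eval t ≠ 0 ∧ (q j).eval t ≠ 0 := fun j =>
      ⟨hne _ (hdp j) t ht, hne _ (hdq j) t ht⟩
    refine ⟨h3, ?_, ?_⟩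
    · rw [← h1]
      refine Finset.sum_congr rfl fun j _ => ?_
      beta_reduce
      rw [hx j t (h3 j).1 (h3 j).2]
    · rw [← h2]
      refine Finset.sum_congr rfl fun j _ => ?_
      beta_reduce
      rw [hx j t (h3 j).1 (h3 j).2]
  have hlc : ∀ P : Polynomial ℂ, P ≠ 0 → P.leadingCoeff ≠ 0 := fun P h =>
    Polynomial.leadingCoeff_ne_zero.2 h
  obtain ⟨F0, hF0, hF⟩ := rsd_complex a ha c
    (fun j => div_ne_zero (hlc _ (hp j)) (hlc _ (hq j))) n hlin
    A.leadingCoeff B.leadingCoeff (hlc _ hA) (hlc _ hB)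
    (fun i => (A.rootMultiplicity (a i) : ℤ)) (fun i => (B.rootMultiplicity (a i) : ℤ))
    (fun k => (C k).leadingCoeff) (fun k => hlc _ (hC k))
    (fun k i => ((C k).rootMultiplicity (a i) : ℤ)) hg b hb hspan halg
    (fun j => by
      simp only [hc, div_eq_mul_inv]
      exact (hp' j _).mul (hq' j _).inv)
    (hA' _) (hB' _) (fun k => hC' k _) hNC'
  have hprod : ∀ x : Fin (e + 2) → ℂ, MvPolynomial.eval x
      (∏ i, (MvPolynomial.X 0 - MvPolynomial.C (a i)) : MvPolynomial (Fin (e + 2)) ℂ) =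
      ∏ i, (x 0 - a i) := by
    intro x
    rw [map_prod]
    refine Finset.prod_congr rfl fun i _ => ?_
    rw [map_sub, MvPolynomial.eval_X, MvPolynomial.eval_C]
  refine ⟨(∏ i, (MvPolynomial.X 0 - MvPolynomial.C (a i))) * FF F0 A, ?_, ?_⟩
  · intro h0
    -- a point with F0 ≠ 0
    have h1 : (∏ i, (MvPolynomial.X 0 - MvPolynomial.C (a i)) : MvPolynomial (Fin (e + 2)) ℂ) *
        F0 ≠ 0 := by
      refine mul_ne_zero (Finset.prod_ne_zero_iff.2 fun i _ => ?_) hF0
      intro h2
      have h3 := congrArg (MvPolynomial.eval (fun _ => a i + 1)) h2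
      rw [map_sub, MvPolynomial.eval_X, MvPolynomial.eval_C, map_zero] at h3
      simp at h3
    obtain ⟨x, hx0⟩ : ∃ x : Fin (e + 2) → ℂ, MvPolynomial.eval x
        ((∏ i, (MvPolynomial.X 0 - MvPolynomial.C (a i)) : MvPolynomial (Fin (e + 2)) ℂ) *
        F0) ≠ 0 := by
      by_contra h2
      push Not at h2
      exact h1 (MvPolynomial.funext fun x => by rw [h2 x, map_zero])
    rw [map_mul, hprod] at hx0
    have h2 := left_ne_zero_of_mul hx0
    have h3 := right_ne_zero_of_mul hx0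
    have ht : ∀ i, x 0 ≠ a i := by
      intro i hi
      exact h2 (Finset.prod_eq_zero (Finset.mem_univ i) (by rw [hi, sub_self]))
    have hAt := hne A hdA (x 0) ht
    have hxpt : pt (x 0) (x 1) (fun j => x j.succ.succ) = x := by
      funext i
      refine Fin.cases rfl (fun i => ?_) i
      exact Fin.cases rfl (fun i => rfl) i
    have h4 := congrArg (MvPolynomial.eval
      (pt (x 0) (x 1 / A.eval (x 0)) (fun j => x j.succ.succ))) h0
    rw [map_mul, map_zero, eval_FF, hprod, pt_zero, mul_div_cancel₀ _ hAt, hxpt] at h4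
    rcases mul_eq_zero.1 h4 with h5 | h5
    · exact h2 h5
    · exact h3 h5
  · rintro t u v y hpq hu hv hy hline ⟨Λ, hΛ, hrel⟩
    rw [map_mul, hprod, eval_FF, pt_zero]
    by_cases ht : ∀ i, t ≠ a i
    · have hα := eval_eq_rf a A (hev _ hdA t)
      have hβ := eval_eq_rf a B (hev _ hdB t)
      have hγ := fun k => eval_eq_rf a (C k) (hev _ (hdC k) t)
      have h1 := hF t u v y ht hu hv hy (by
        rw [← hα, ← hβ, ← hline]
        congr 1
        refine Finset.sum_congr rfl fun k _ => ?_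
        rw [← hγ k])
        ⟨Λ, hΛ, fun r hr => by
          rw [← hrel r hr]
          congr 1
          refine Finset.prod_congr rfl fun j _ => ?_
          rw [hx j t (hpq j).1 (hpq j).2]⟩
      rw [MvPolynomial.aeval_eq_eval] at h1
      rw [hα]
      exact mul_eq_zero_of_right _ h1
    · push Not at ht
      obtain ⟨i, hi⟩ := ht
      rw [Finset.prod_eq_zero (Finset.mem_univ i) (by rw [hi, sub_self]), zero_mul]

end Pool.Agent.RS
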