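import Mathlib
import Pool.Agent.Lib.MP_c95b3b_ag_RS.RationalD
import Pool.Agent.Lib.MP_c95b3b_ag_RS.NC3

/-! Formerly the hand-in HypersurfaceFibrations, a special case of HypersurfacesOverCurves.
Claim:
Proves: Let x_j = p_j/q_j (j ≤ m) be nonzero rational functions of t; let m = 3 and x_j = t - c_j, c_j distinct, or let the x_j be multiplicatively independent modulo constants with (NC): for independent r, s in R^m, sum r_j log|x_j| and sum s_j log|x_j| have finitely many common zeros. Let A, B, C_k (k ≤ g, g ≥ 1) be nonzero coprime polynomials in t, b_k distinct vectors of Z^e with differences spanning R^e, all coefficients algebraic. Let Y be the closure in G_m^(2+e+m) of the points (u,v,y,x(t)) with A(t)u + B(t)v + sum_k C_k(t) y^(b_k) = 0, so dim Y = e+2, codim Y = m. Some F ≠ 0 has F(t,u,y) = 0 at all these complex points with multiplicative relations of rank ≥ e+3, i.e. in an algebraic subgroup H with dim Y + dim H ≤ n-1. So U(Y) is not Zariski dense in Y.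
Definitions: none
Relation: Partial answer to Q1: it holds for these Y, fibrations in hypersurfaces linear in u, v over a rational curve C; all dimensions ≥ 2, all codimensions. (NC) concerns only C (a similar condition: Bays-Habegger 2015); the case m = 3 is unconditional. New for m ≥ 3: all points of Y are anomalous and heights are unbounded, so Habegger's bounded height theorem, Maurin, Bombieri-Masser-Zannier (curves, codim 2, planes) do not apply. Proof: real relations, archimedean conjugates, classes of monomials of comparable size, auxiliary polynomials.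
-/

set_option autoImplicit false

namespace Pool.Agent.Lib.MP_c95b3b_ag_RS.HypersurfaceFibrationsResult

open Pool.Agent.RS

/-- multiplicative independence of `t - c j`, modulo constants -/
theorem lines_independent {m : ℕ} (c : Fin m → ℂ) (hc : Function.Injective c) (r : Fin m → ℤ)
    (κ : ℂ) (h : ∀ t : ℂ, (∀ j, t - c j ≠ 0) → ∏ j, (t - c j) ^ r j = κ) : r = 0 := by
  classical
  -- no exponent is positive, for every such relation
  have key : ∀ (r : Fin m → ℤ) (κ : ℂ),
      (∀ t : ℂ, (∀ j, t - c j ≠ 0) → ∏ j, (t - c j) ^ r j = κ) → ∀ i, ¬ 0 < r i := by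
    intro r κ h i hi
    let P : Polynomial ℂ := ∏ j ∈ Finset.univ.filter (fun j => 0 < r j),
      (Polynomial.X - Polynomial.C (c j)) ^ (r j).toNat
    let Q : Polynomial ℂ := Polynomial.C κ * ∏ j ∈ Finset.univ.filter (fun j => ¬ 0 < r j),
      (Polynomial.X - Polynomial.C (c j)) ^ (-r j).toNat
    have hPQ : ∀ t : ℂ, (∀ j, t - c j ≠ 0) → P.eval t = Q.eval t := by
      intro t ht
      have h1 := h t ht
      simp only [P, Q, Polynomial.eval_mul, Polynomial.eval_prod, Polynomial.eval_pow,
        Polynomial.eval_sub, Polynomial.eval_X, Polynomial.eval_C]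
      rw [← h1, ← Finset.prod_filter_mul_prod_filter_not Finset.univ (fun j => 0 < r j),
        mul_assoc, ← Finset.prod_mul_distrib]
      have h2 : ∏ j ∈ Finset.univ.filter (fun j => ¬ 0 < r j),
          (t - c j) ^ r j * (t - c j) ^ (-r j).toNat = 1 := by
        refine Finset.prod_eq_one fun j hj => ?_
        have hj' : ¬ 0 < r j := (Finset.mem_filter.mp hj).2
        have h3 : ((-r j).toNat : ℤ) = -r j := Int.toNat_of_nonneg (by omega)
        rw [← zpow_natCast (t - c j) (-r j).toNat, h3, ← zpow_add₀ (ht j), add_neg_cancel,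
          zpow_zero]
      rw [h2, mul_one]
      refine Finset.prod_congr rfl fun j hj => ?_
      have hj' : 0 < r j := (Finset.mem_filter.mp hj).2
      have h3 : ((r j).toNat : ℤ) = r j := Int.toNat_of_nonneg (by omega)
      rw [← zpow_natCast, h3]
    have hEq : P = Q := by
      apply Polynomial.eq_of_infinite_eval_eq
      have h1 : (Set.univ \ Set.range c).Infinite :=
        Set.infinite_univ.sdiff (Set.finite_range c)
      refine h1.mono ?_
      rintro t ⟨_, ht⟩
      refine hPQ t fun j hj => ht ⟨j, ?_⟩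
      exact (sub_eq_zero.mp hj).symm
    have h0 : P.eval (c i) = 0 := by
      simp only [P, Polynomial.eval_prod, Polynomial.eval_pow, Polynomial.eval_sub,
        Polynomial.eval_X, Polynomial.eval_C]
      refine Finset.prod_eq_zero (i := i) (Finset.mem_filter.mpr ⟨Finset.mem_univ _, hi⟩) ?_
      rw [sub_self, zero_pow]
      omega
    rw [hEq] at h0
    simp only [Q, Polynomial.eval_mul, Polynomial.eval_prod, Polynomial.eval_pow,
      Polynomial.eval_sub, Polynomial.eval_X, Polynomial.eval_C] at h0
    rcases mul_eq_zero.mp h0 with h1 | h1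
    · obtain ⟨t, ht⟩ : ∃ t : ℂ, t ∉ Set.range c :=
        ((Set.finite_range c).infinite_compl).nonempty
      have ht' : ∀ j, t - c j ≠ 0 := fun j hj => ht ⟨j, (sub_eq_zero.mp hj).symm⟩
      have h2 := h t ht'
      rw [h1] at h2
      exact Finset.prod_ne_zero_iff.mpr (fun j _ => zpow_ne_zero _ (ht' j)) h2
    · obtain ⟨j, hj, h2⟩ := Finset.prod_eq_zero_iff.mp h1
      have hj' : ¬ 0 < r j := (Finset.mem_filter.mp hj).2
      by_cases hz : (-r j).toNat = 0
      · rw [hz, pow_zero] at h2
        exact one_ne_zero h2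
      · have h4 := pow_eq_zero_iff hz |>.mp h2
        have h5 := hc (sub_eq_zero.mp h4)
        rw [h5] at hi
        exact hj' hi
  funext i
  have h1 := key r κ h i
  have h2 := key (-r) κ⁻¹ (fun t ht => by
    rw [← h t ht, ← Finset.prod_inv_distrib]
    refine Finset.prod_congr rfl fun j _ => ?_
    rw [Pi.neg_apply, zpow_neg]) i
  rw [Pi.neg_apply] at h2
  rw [Pi.zero_apply]
  omega

/-- Let `x j = p j / q j` (`j < m`) be nonzero rational functions of `t`, multiplicatively
independent modulo constants (so that the curve `C = x(t)` in `G_m^m` lies in no translate of a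
proper subgroup), and assume condition (NC): for linearly independent real vectors `r`, `s` the
functions `∑ r j log |x j|` and `∑ s j log |x j|` have only finitely many common zeros.
For `m = 3` and `x j = t - c j`, `c j` distinct, both conditions always hold and are proved, not
assumed. Let `A`, `B`, `C k` (`k < g`, `g ≥ 1`) be nonzero polynomials, let `b k` be distinct
vectors of `ℤ^e` whose differences span `ℝ^e`; all coefficients are algebraic numbers.
Let `Y` be the subvariety of `G_m^(2 + e + m)` of dimension `e + 2` and codimension `m` given by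
the points `(u, v, y, x(t))` with `A(t) u + B(t) v + ∑ C k (t) y^(b k) = 0`: a fibration in
hypersurfaces of `G_m^(e + 2)` over the curve `C`. The (complex) points of `Y` lying in algebraic
subgroups of codimension at least `dim Y + 1 = e + 3`, i.e. those whose coordinates satisfy
multiplicative relations of rank at least `e + 3`, are not Zariski dense in `Y`: some nonzero
polynomial in the parameters `t`, `u`, `y` vanishes at all of them. -/
theorem result (m e g : ℕ) (p q : Fin m → Polynomial ℂ) (A B : Polynomial ℂ)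
    (C : Fin g → Polynomial ℂ) (b : Fin g → Fin e → ℤ)
    (hp : ∀ j, p j ≠ 0) (hq : ∀ j, q j ≠ 0) (hA : A ≠ 0) (hB : B ≠ 0) (hC : ∀ k, C k ≠ 0)
    (hp' : ∀ j k, IsAlgebraic ℚ ((p j).coeff k)) (hq' : ∀ j k, IsAlgebraic ℚ ((q j).coeff k))
    (hA' : ∀ k, IsAlgebraic ℚ (A.coeff k)) (hB' : ∀ k, IsAlgebraic ℚ (B.coeff k))
    (hC' : ∀ j k, IsAlgebraic ℚ ((C j).coeff k))
    (hg : 0 < g) (hb : Function.Injective b)
    (hspan : ∀ s : Fin e → ℝ, (∀ k l, ∑ j, s j * ((b k j : ℝ) - b l j) = 0) → s = 0)
    (hx : ((∀ r : Fin m → ℤ, (∃ c : ℂ, ∀ t : ℂ,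
          (∀ j, (p j).eval t ≠ 0 ∧ (q j).eval t ≠ 0) →
            ∏ j, ((p j).eval t / (q j).eval t) ^ r j = c) → r = 0) ∧
        ∀ r s : Fin m → ℝ, LinearIndependent ℝ ![r, s] →
          {t : ℂ | (∀ j, (p j).eval t ≠ 0 ∧ (q j).eval t ≠ 0) ∧
            ∑ j, r j * Real.log ‖(p j).eval t / (q j).eval t‖ = 0 ∧
            ∑ j, s j * Real.log ‖(p j).eval t / (q j).eval t‖ = 0}.Finite) ∨
      (m = 3 ∧ ∃ c : Fin m → ℂ, Function.Injective c ∧
        ∀ j, p j = Polynomial.X - Polynomial.C (c j) ∧ q j = 1)) :
    ∃ F : MvPolynomial (Fin (e + 2)) ℂ, F ≠ 0 ∧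
      ∀ (t u v : ℂ) (y : Fin e → ℂ), (∀ j, (p j).eval t ≠ 0 ∧ (q j).eval t ≠ 0) →
        u ≠ 0 → v ≠ 0 → (∀ k, y k ≠ 0) →
        A.eval t * u + B.eval t * v + ∑ k, (C k).eval t * ∏ j, y j ^ b k j = 0 →
        (∃ Λ : Submodule ℤ ((Fin (e + 2) → ℤ) × (Fin m → ℤ)), e + 3 ≤ Module.finrank ℤ Λ ∧
          ∀ r ∈ Λ, (∏ i, (Fin.cons u (Fin.cons v y) : Fin (e + 2) → ℂ) i ^ r.1 i) *
            ∏ j, ((p j).eval t / (q j).eval t) ^ r.2 j = 1) →
        MvPolynomial.eval (Fin.cons t (Fin.cons u y) : Fin (e + 2) → ℂ) F = 0 := by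
  have h : (∀ r : Fin m → ℤ, (∃ c : ℂ, ∀ t : ℂ, (∀ j, (p j).eval t ≠ 0 ∧ (q j).eval t ≠ 0) →
      ∏ j, ((p j).eval t / (q j).eval t) ^ r j = c) → r = 0) ∧
      NC {t : ℂ | ∀ j, (p j).eval t ≠ 0 ∧ (q j).eval t ≠ 0}
        (fun j t => (p j).eval t / (q j).eval t) := by
    rcases hx with hx | ⟨rfl, c, hc, hpq⟩
    · exact hx
    have hpe : ∀ j t, (p j).eval t / (q j).eval t = t - c j := by
      intro j t
      rw [(hpq j).1, (hpq j).2]
      simp
    have hset : ∀ t, (∀ j, (p j).eval t ≠ 0 ∧ (q j).eval t ≠ 0) ↔ ∀ j, t - c j ≠ 0 := by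
      intro t
      refine forall_congr' fun j => ?_
      rw [(hpq j).1, (hpq j).2]
      simp
    constructor
    · rintro r ⟨κ, hκ⟩
      refine lines_independent c hc r κ fun t ht => ?_
      rw [← hκ t ((hset t).mpr ht)]
      exact Finset.prod_congr rfl fun j _ => by rw [hpe]
    · intro r s hrs
      refine (nc3 c hc r s hrs).subset ?_
      rintro t ⟨h1, h2, h3⟩
      refine ⟨fun j hj => (hset t).mp h1 j (sub_eq_zero.mpr hj), ?_, ?_⟩
      · rw [← h2]
        exact Finset.sum_congr rfl fun j _ => by simp only [hpe]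
      · rw [← h3]
        exact Finset.sum_congr rfl fun j _ => by simp only [hpe]
  exact rsd_final m e g p q A B C b hp hq hA hB hC hp' hq' hA' hB' hC' h.1 hg hb hspan h.2

end Pool.Agent.Lib.MP_c95b3b_ag_RS.HypersurfaceFibrationsResult
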