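import Pool.Agent.Lib.MP_c95b3b_ag_RS.Defs

/-! Project RS (MP_c95b3b_ag), module LA: linear algebra of three relations. -/

namespace Pool.Agent.RS

open Pool.Agent.L3 Module

namespace LinAlg

theorem lift_vec {m : ℕ} (V : Submodule ℝ ((ℝ × ℝ) × EuclideanSpace ℝ (Fin m)))
    {r : EuclideanSpace ℝ (Fin m)} (hr : ‖r‖ = 1) (hrV : ((0, 0), r) ∈ V) {c : ℝ × ℝ}
    {x : EuclideanSpace ℝ (Fin m)} (hx : (c, x) ∈ V) :
    ∃ μ : EuclideanSpace ℝ (Fin m), inner ℝ r μ = 0 ∧ (c, -μ) ∈ V := by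
  refine ⟨(inner ℝ r x : ℝ) • r - x, ?_, ?_⟩
  · rw [inner_sub_right, inner_smul_right, real_inner_self_eq_norm_sq, hr]
    ring
  · have h1 : (c, -((inner ℝ r x : ℝ) • r - x)) = (c, x) - (inner ℝ r x : ℝ) • ((0, 0), r) := by
      ext i
      · simp
      · simp
      · simp
    rw [h1]
    exact V.sub_mem hx (V.smul_mem _ hrV)

end LinAlg

theorem lin_alg {m : ℕ} (V : Submodule ℝ ((ℝ × ℝ) × EuclideanSpace ℝ (Fin m)))
    (hV : 3 ≤ finrank ℝ V) :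
    (∃ r s : EuclideanSpace ℝ (Fin m), ‖r‖ = 1 ∧ ‖s‖ = 1 ∧ inner ℝ r s = 0 ∧
      ((0, 0), r) ∈ V ∧ ((0, 0), s) ∈ V) ∨
    (∃ r μ1 μ2 : EuclideanSpace ℝ (Fin m), ‖r‖ = 1 ∧ inner ℝ r μ1 = 0 ∧ inner ℝ r μ2 = 0 ∧
      ((0, 0), r) ∈ V ∧ ((1, 0), -μ1) ∈ V ∧ ((0, 1), -μ2) ∈ V) := by
  set V0 : Submodule ℝ (EuclideanSpace ℝ (Fin m)) :=
    V.comap (LinearMap.inr ℝ (ℝ × ℝ) (EuclideanSpace ℝ (Fin m))) with hV0
  have hmem : ∀ r, r ∈ V0 → ((0, 0), r) ∈ V := fun r hr => by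
    rw [hV0, Submodule.mem_comap] at hr
    exact hr
  let π : V →ₗ[ℝ] (ℝ × ℝ) := (LinearMap.fst ℝ (ℝ × ℝ) (EuclideanSpace ℝ (Fin m))).comp V.subtype
  have hker : ∀ x : LinearMap.ker π, x.1.1.1 = 0 := fun x => LinearMap.mem_ker.1 x.2
  let j : LinearMap.ker π →ₗ[ℝ] V0 :=
    { toFun := fun x => ⟨x.1.1.2, by
        rw [hV0, Submodule.mem_comap]
        have h1 : (LinearMap.inr ℝ (ℝ × ℝ) (EuclideanSpace ℝ (Fin m))) x.1.1.2 = x.1.1 := by
          refine Prod.ext ?_ rfl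
          exact (hker x).symm
        rw [h1]
        exact x.1.2⟩
      map_add' := fun x y => rfl
      map_smul' := fun c x => rfl }
  have hj : Function.Injective j := by
    intro x y hxy
    have h1 : x.1.1.2 = y.1.1.2 := congrArg Subtype.val hxy
    refine Subtype.ext (Subtype.ext (Prod.ext ?_ h1))
    rw [hker x, hker y]
  have h1 : finrank ℝ (LinearMap.ker π) ≤ finrank ℝ V0 :=
    LinearMap.finrank_le_finrank_of_injective hj
  have h2 := LinearMap.finrank_range_add_finrank_ker π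
  have h22 : finrank ℝ (ℝ × ℝ) = 2 := by simp
  have h3 : finrank ℝ (LinearMap.range π) ≤ 2 := by
    rw [← h22]
    exact Submodule.finrank_le _
  let b := stdOrthonormalBasis ℝ V0
  have hnorm : ∀ i, ‖(b i : EuclideanSpace ℝ (Fin m))‖ = 1 := fun i => by
    have := b.orthonormal.1 i
    rwa [Submodule.coe_norm] at this
  by_cases h4 : 2 ≤ finrank ℝ V0
  · left
    refine ⟨b ⟨0, by omega⟩, b ⟨1, by omega⟩, hnorm _, hnorm _, ?_, hmem _ (b _).2, hmem _ (b _).2⟩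
    have h9 : inner ℝ (b ⟨0, by omega⟩) (b ⟨1, by omega⟩) = 0 :=
      b.orthonormal.2 (i := ⟨0, by omega⟩) (j := ⟨1, by omega⟩) (by simp)
    rwa [Submodule.coe_inner] at h9
  · right
    have h5 : finrank ℝ (LinearMap.range π) = 2 := by omega
    have h6 : LinearMap.range π = ⊤ := by
      refine Submodule.eq_top_of_finrank_eq ?_
      rw [h5, h22]
    have h7 : 0 < finrank ℝ V0 := by omega
    have hsurj : ∀ c : ℝ × ℝ, ∃ x, (c, x) ∈ V := by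
      intro c
      obtain ⟨v, hv⟩ := LinearMap.range_eq_top.1 h6 c
      refine ⟨v.1.2, ?_⟩
      have h8 : (c, v.1.2) = v.1 := Prod.ext (by rw [← hv]; rfl) rfl
      rw [h8]
      exact v.2
    have hr := hnorm ⟨0, h7⟩
    have hrV := hmem _ (b ⟨0, h7⟩).2
    obtain ⟨x1, hx1⟩ := hsurj (1, 0)
    obtain ⟨x2, hx2⟩ := hsurj (0, 1)
    obtain ⟨μ1, hμ1, hV1⟩ := LinAlg.lift_vec V hr hrV hx1
    obtain ⟨μ2, hμ2, hV2⟩ := LinAlg.lift_vec V hr hrV hx2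
    exact ⟨_, μ1, μ2, hr, hμ1, hμ2, hrV, hV1, hV2⟩

end Pool.Agent.RS
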