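import Mathlib
import Pool.Agent.Lib.MP_c95b3b_ag_RS.Defs
import Pool.Agent.Lib.MP_c95b3b_ag_RS.Complex

/-! Project RS (MP_c95b3b_ag): the final statement, for rational functions `p j / q j` and the lines
`A u + B v = C`. -/

namespace Pool.Agent.RS

open Pool.Agent.L3 Module

namespace RTaux

open Polynomial in
/-- value of a polynomial whose roots are among the `a i` -/
theorem eval_eq_prod {M : ℕ} (a : Fin M → ℂ) (ha : Function.Injective a) (P : ℂ[X])
    (hP : ∀ z, P.IsRoot z → P ≠ 0 → ∃ i, a i = z) (h0 : P ≠ 0) (t : ℂ) :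
    P.eval t = P.leadingCoeff * ∏ i, (t - a i) ^ P.rootMultiplicity (a i) := by
  classical
  have h1 := Polynomial.C_leadingCoeff_mul_prod_multiset_X_sub_C
    (Polynomial.splits_iff_card_roots.1 (IsAlgClosed.splits P))
  conv_lhs => rw [← h1]
  rw [Polynomial.eval_mul, Polynomial.eval_C, Polynomial.eval_multiset_prod, Multiset.map_map]
  congr 1
  have h2 : (Multiset.map (Polynomial.eval t ∘ fun a => X - C a) P.roots) =
      Multiset.map (fun z => t - z) P.roots := by
    refine Multiset.map_congr rfl fun z _ => ?_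
    simp
  rw [h2, Finset.prod_multiset_map_count]
  have h3 : ∏ i, (t - a i) ^ P.rootMultiplicity (a i) =
      ∏ z ∈ Finset.univ.image a, (t - z) ^ P.rootMultiplicity z := by
    rw [Finset.prod_image fun x _ y _ h => ha h]
  rw [h3]
  refine (Finset.prod_subset (s₂ := Finset.univ.image a) ?_ ?_).trans ?_
  · intro z hz
    rw [Multiset.mem_toFinset, Polynomial.mem_roots h0] at hz
    obtain ⟨i, hi⟩ := hP z hz h0
    exact Finset.mem_image.2 ⟨i, Finset.mem_univ _, hi⟩
  · intro z _ hz
    rw [Multiset.mem_toFinset] at hz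
    rw [Multiset.count_eq_zero_of_notMem hz, pow_zero]
  · refine Finset.prod_congr rfl fun z _ => ?_
    rw [Polynomial.count_roots]

open Polynomial in
/-- roots of polynomials with algebraic coefficients are algebraic -/
theorem isAlgebraic_root {P : ℂ[X]} (h : ∀ k, IsAlgebraic ℚ (P.coeff k)) (h0 : P ≠ 0) {z : ℂ}
    (hz : P.IsRoot z) : IsAlgebraic ℚ z := by
  have h1 : P ∈ Polynomial.lifts (algebraMap (algebraicClosure ℚ ℂ) ℂ) := by
    rw [Polynomial.lifts_iff_coeff_lifts]
    intro k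
    exact ⟨⟨P.coeff k, (mem_algebraicClosure_iff).2 (h k)⟩, rfl⟩
  obtain ⟨Q, hQ⟩ := h1
  have hQ' : Q.map (algebraMap (algebraicClosure ℚ ℂ) ℂ) = P := by
    simpa using hQ
  have hQ0 : Q ≠ 0 := by
    rintro rfl
    apply h0
    rw [← hQ', Polynomial.map_zero]
  have h2 : IsAlgebraic (algebraicClosure ℚ ℂ) z := by
    refine ⟨Q, hQ0, ?_⟩
    rw [Polynomial.aeval_def, ← Polynomial.eval_map, hQ']
    exact hz
  have : Algebra.IsAlgebraic ℚ (algebraicClosure ℚ ℂ) := algebraicClosure.isAlgebraic ℚ ℂ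
  exact h2.restrictScalars ℚ

/-- quotient of two values -/
theorem quot_eq_rf {M : ℕ} (a : Fin M → ℂ) (P Q : Polynomial ℂ) {t : ℂ}
    (hPe : P.eval t = P.leadingCoeff * ∏ i, (t - a i) ^ P.rootMultiplicity (a i))
    (hQe : Q.eval t = Q.leadingCoeff * ∏ i, (t - a i) ^ Q.rootMultiplicity (a i))
    (hP : P.eval t ≠ 0) (hQ : Q.eval t ≠ 0) :
    P.eval t / Q.eval t = rf a (P.leadingCoeff / Q.leadingCoeff)
      (fun i => (P.rootMultiplicity (a i) : ℤ) - Q.rootMultiplicity (a i)) t := by
  rw [rf, hPe, hQe, mul_div_mul_comm, ← Finset.prod_div_distrib]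
  congr 1
  refine Finset.prod_congr rfl fun i _ => ?_
  by_cases h : t - a i = 0
  · have h1 : t = a i := sub_eq_zero.1 h
    have h2 : P.rootMultiplicity (a i) = 0 := by
      rw [Polynomial.rootMultiplicity_eq_zero]
      rw [← h1]
      exact hP
    have h3 : Q.rootMultiplicity (a i) = 0 := by
      rw [Polynomial.rootMultiplicity_eq_zero]
      rw [← h1]
      exact hQ
    rw [h2, h3]
    simp
  · rw [zpow_sub₀ h, zpow_natCast, zpow_natCast]

/-- clearing the denominators -/
noncomputable def FF (F0 : MvPolynomial (Fin 2) ℤ) (A C : Polynomial ℂ) : MvPolynomial (Fin 2) ℂ :=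
  ∑ d ∈ F0.support, MvPolynomial.C ((F0.coeff d : ℤ) : ℂ) * (MvPolynomial.X 0 ^ d 0 *
    (Polynomial.aeval (MvPolynomial.X 0 : MvPolynomial (Fin 2) ℂ) A) ^ d 1 * MvPolynomial.X 1 ^ d 1 *
    (Polynomial.aeval (MvPolynomial.X 0 : MvPolynomial (Fin 2) ℂ) C) ^ (F0.totalDegree - d 1))

theorem eval_aeval (t u : ℂ) (P : Polynomial ℂ) :
    MvPolynomial.eval ![t, u] (Polynomial.aeval (MvPolynomial.X 0 : MvPolynomial (Fin 2) ℂ) P) =
      P.eval t := by
  rw [← Polynomial.coe_aeval_eq_eval]
  have h := Polynomial.aeval_algHom_apply (MvPolynomial.aeval (R := ℂ) ![t, u])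
    (MvPolynomial.X 0 : MvPolynomial (Fin 2) ℂ) P
  rw [MvPolynomial.aeval_X] at h
  rw [← MvPolynomial.coe_aeval_eq_eval]
  exact h.symm

theorem eval_FF (F0 : MvPolynomial (Fin 2) ℤ) (A C : Polynomial ℂ) (t u : ℂ)
    (hC : C.eval t ≠ 0) : MvPolynomial.eval ![t, u] (FF F0 A C) =
      C.eval t ^ F0.totalDegree * MvPolynomial.aeval ![t, A.eval t / C.eval t * u] F0 := by
  rw [FF, map_sum, MvPolynomial.aeval_def, MvPolynomial.eval₂_eq', Finset.mul_sum]
  refine Finset.sum_congr rfl fun d hd => ?_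
  have hle : d 1 ≤ F0.totalDegree := by
    refine le_trans ?_ (MvPolynomial.le_totalDegree hd)
    rw [Finsupp.sum_fintype _ _ (fun _ => rfl), Fin.sum_univ_two]
    exact Nat.le_add_left _ _
  simp only [map_mul, map_pow, MvPolynomial.eval_C, MvPolynomial.eval_X, eval_aeval,
    Fin.prod_univ_two, Matrix.cons_val_zero, Matrix.cons_val_one, algebraMap_int_eq, eq_intCast]
  have h1 : C.eval t ^ F0.totalDegree = C.eval t ^ (F0.totalDegree - d 1) * C.eval t ^ d 1 := by
    rw [← pow_add, Nat.sub_add_cancel hle]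
  rw [h1, mul_pow, div_pow]
  have h2 : C.eval t ^ d 1 ≠ 0 := pow_ne_zero _ hC
  field_simp

end RTaux

open RTaux in
theorem rs_final (m : ℕ) (p q : Fin m → Polynomial ℂ) (A B C : Polynomial ℂ)
    (hp : ∀ j, p j ≠ 0) (hq : ∀ j, q j ≠ 0) (hA : A ≠ 0) (hB : B ≠ 0) (hC : C ≠ 0)
    (hp' : ∀ j k, IsAlgebraic ℚ ((p j).coeff k)) (hq' : ∀ j k, IsAlgebraic ℚ ((q j).coeff k))
    (hA' : ∀ k, IsAlgebraic ℚ (A.coeff k)) (hB' : ∀ k, IsAlgebraic ℚ (B.coeff k))
    (hC' : ∀ k, IsAlgebraic ℚ (C.coeff k))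
    (hind : ∀ r : Fin m → ℤ, (∃ c : ℂ, ∀ t : ℂ, (∀ j, (p j).eval t ≠ 0 ∧ (q j).eval t ≠ 0) →
      ∏ j, ((p j).eval t / (q j).eval t) ^ r j = c) → r = 0)
    (hNC : NC {t : ℂ | ∀ j, (p j).eval t ≠ 0 ∧ (q j).eval t ≠ 0}
      (fun j t => (p j).eval t / (q j).eval t)) :
    ∃ F : MvPolynomial (Fin 2) ℂ, F ≠ 0 ∧
      ∀ t u v : ℂ, (∀ j, (p j).eval t ≠ 0 ∧ (q j).eval t ≠ 0) → u ≠ 0 → v ≠ 0 →
        A.eval t * u + B.eval t * v = C.eval t →
        (∃ Λ : Submodule ℤ ((ℤ × ℤ) × (Fin m → ℤ)), 3 ≤ finrank ℤ Λ ∧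
          ∀ e ∈ Λ, u ^ e.1.1 * v ^ e.1.2 * ∏ j, ((p j).eval t / (q j).eval t) ^ e.2 j = 1) →
        MvPolynomial.eval ![t, u] F = 0 := by
  classical
  -- the roots
  set T : Polynomial ℂ := (∏ j, p j) * (∏ j, q j) * (A * B * C) with hT
  have hT0 : T ≠ 0 := mul_ne_zero (mul_ne_zero (Finset.prod_ne_zero_iff.2 fun j _ => hp j)
    (Finset.prod_ne_zero_iff.2 fun j _ => hq j)) (mul_ne_zero (mul_ne_zero hA hB) hC)
  have hdp : ∀ j, p j ∣ T := fun j => ((Finset.dvd_prod_of_mem p (Finset.mem_univ j)).mul_right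
    _).mul_right _
  have hdq : ∀ j, q j ∣ T := fun j => ((Finset.dvd_prod_of_mem q (Finset.mem_univ j)).mul_left
    _).mul_right _
  have hdA : A ∣ T := ((dvd_mul_right A B).mul_right C).mul_left _
  have hdB : B ∣ T := ((dvd_mul_left B A).mul_right C).mul_left _
  have hdC : C ∣ T := (dvd_mul_left C (A * B)).mul_left _
  set S : Finset ℂ := T.roots.toFinset with hS
  set a : Fin S.card → ℂ := fun i => (S.equivFin.symm i : ℂ) with hadef
  have ha : Function.Injective a := fun x y h =>
    S.equivFin.symm.injective (Subtype.ext h)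
  have haT : ∀ i, T.IsRoot (a i) := by
    intro i
    have h1 : a i ∈ T.roots.toFinset := (S.equivFin.symm i).2
    rw [Multiset.mem_toFinset, Polynomial.mem_roots hT0] at h1
    exact h1
  have hrt : ∀ P : Polynomial ℂ, P ∣ T → ∀ z, P.IsRoot z → ∃ i, a i = z := by
    intro P hP z hz
    have h1 : z ∈ S := by
      rw [hS, Multiset.mem_toFinset, Polynomial.mem_roots hT0]
      exact hz.dvd hP
    exact ⟨S.equivFin ⟨z, h1⟩, by simp [hadef]⟩
  have hne : ∀ P : Polynomial ℂ, P ∣ T → ∀ t : ℂ, (∀ i, t ≠ a i) → P.eval t ≠ 0 := by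
    intro P hP t ht h1
    obtain ⟨i, hi⟩ := hrt P hP t h1
    exact ht i hi.symm
  have hev : ∀ P : Polynomial ℂ, P ∣ T → ∀ t : ℂ,
      P.eval t = P.leadingCoeff * ∏ i, (t - a i) ^ P.rootMultiplicity (a i) := by
    intro P hP t
    have h0 : P ≠ 0 := by
      rintro rfl
      exact hT0 (zero_dvd_iff.1 hP)
    exact eval_eq_prod a ha P (fun z hz _ => hrt P hP z hz) h0 t
  have halg : ∀ i, IsAlgebraic ℚ (a i) := by
    intro i
    have h1 := haT i
    rw [hT, Polynomial.IsRoot.def, Polynomial.eval_mul, Polynomial.eval_mul, Polynomial.eval_mul,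
      Polynomial.eval_mul, Polynomial.eval_prod, Polynomial.eval_prod] at h1
    rcases mul_eq_zero.1 h1 with h1 | h1
    · rcases mul_eq_zero.1 h1 with h1 | h1
      · obtain ⟨j, -, hj⟩ := Finset.prod_eq_zero_iff.1 h1
        exact isAlgebraic_root (hp' j) (hp j) hj
      · obtain ⟨j, -, hj⟩ := Finset.prod_eq_zero_iff.1 h1
        exact isAlgebraic_root (hq' j) (hq j) hj
    · rcases mul_eq_zero.1 h1 with h1 | h1
      · rcases mul_eq_zero.1 h1 with h1 | h1
        · exact isAlgebraic_root hA' hA h1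
        · exact isAlgebraic_root hB' hB h1
      · exact isAlgebraic_root hC' hC h1
  -- the data
  set c : Fin m → ℂ := fun j => (p j).leadingCoeff / (q j).leadingCoeff with hc
  set n : Fin m → Fin S.card → ℤ := fun j i =>
    ((p j).rootMultiplicity (a i) : ℤ) - (q j).rootMultiplicity (a i) with hn
  have hx : ∀ j, ∀ t : ℂ, (p j).eval t ≠ 0 → (q j).eval t ≠ 0 →
      (p j).eval t / (q j).eval t = rf a (c j) (n j) t := fun j t h1 h2 =>
    quot_eq_rf a (p j) (q j) (hev _ (hdp j) t) (hev _ (hdq j) t) h1 h2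
  have hlin : LinearIndependent ℤ n := by
    rw [Fintype.linearIndependent_iff]
    intro r hr
    have h1 : r = 0 := by
      refine hind r ⟨∏ j, c j ^ r j, fun t ht => ?_⟩
      have h2 : ∏ j, ((p j).eval t / (q j).eval t) ^ r j =
          ∏ j, (c j ^ r j * ∏ i, ((t - a i) ^ n j i) ^ r j) := by
        refine Finset.prod_congr rfl fun j _ => ?_
        rw [hx j t (ht j).1 (ht j).2, rf, mul_zpow, Finset.prod_zpow]
      rw [h2, Finset.prod_mul_distrib, Finset.prod_comm]
      have h3 : ∏ i, ∏ j, ((t - a i) ^ n j i) ^ r j = 1 := by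
        refine Finset.prod_eq_one fun i _ => ?_
        by_cases h4 : t - a i = 0
        · have h5 : t = a i := sub_eq_zero.1 h4
          refine Finset.prod_eq_one fun j _ => ?_
          have h6 : n j i = 0 := by
            have h7 : (p j).rootMultiplicity (a i) = 0 := by
              rw [Polynomial.rootMultiplicity_eq_zero]
              rw [← h5]
              exact (ht j).1
            have h8 : (q j).rootMultiplicity (a i) = 0 := by
              rw [Polynomial.rootMultiplicity_eq_zero]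
              rw [← h5]
              exact (ht j).2
            simp only [hn, h7, h8, Nat.cast_zero, sub_zero]
          rw [h6, zpow_zero, one_zpow]
        · have h5 : ∀ j ∈ Finset.univ, ((t - a i) ^ n j i) ^ r j = (t - a i) ^ (r j * n j i) := by
            intro j _
            rw [← zpow_mul, mul_comm]
          rw [Finset.prod_congr rfl h5]
          have h6 : ∑ j, r j * n j i = 0 := by
            have := congrFun hr i
            simpa using this
          have h7 : ∀ s : Finset (Fin m), ∏ j ∈ s, (t - a i) ^ (r j * n j i) =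
              (t - a i) ^ (∑ j ∈ s, r j * n j i) := by
            intro s
            induction s using Finset.induction_on with
            | empty => simp
            | insert b s hb ih => rw [Finset.prod_insert hb, Finset.sum_insert hb, ih, zpow_add₀ h4]
          rw [h7, h6, zpow_zero]
      rw [h3, mul_one]
    intro j
    rw [h1]
    rfl
  have hNC' : NC {t : ℂ | ∀ i, t ≠ a i} (fun j => rf a (c j) (n j)) := by
    intro r s hrs
    refine (hNC r s hrs).subset ?_
    rintro t ⟨ht, h1, h2⟩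
    have h3 : ∀ j, (p j).eval t ≠ 0 ∧ (q j).eval t ≠ 0 := fun j =>
      ⟨hne _ (hdp j) t ht, hne _ (hdq j) t ht⟩
    refine ⟨h3, ?_, ?_⟩
    · rw [← h1]
      refine Finset.sum_congr rfl fun j _ => ?_
      beta_reduce
      rw [hx j t (h3 j).1 (h3 j).2]
    · rw [← h2]
      refine Finset.sum_congr rfl fun j _ => ?_
      beta_reduce
      rw [hx j t (h3 j).1 (h3 j).2]
  have hlc : ∀ P : Polynomial ℂ, P ≠ 0 → P.leadingCoeff ≠ 0 := fun P h =>
    Polynomial.leadingCoeff_ne_zero.2 h
  obtain ⟨F0, hF0, hF⟩ := rs_complex a ha c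
    (fun j => div_ne_zero (hlc _ (hp j)) (hlc _ (hq j))) n hlin
    (A.leadingCoeff / C.leadingCoeff) (B.leadingCoeff / C.leadingCoeff)
    (div_ne_zero (hlc _ hA) (hlc _ hC)) (div_ne_zero (hlc _ hB) (hlc _ hC))
    (fun i => (A.rootMultiplicity (a i) : ℤ) - C.rootMultiplicity (a i))
    (fun i => (B.rootMultiplicity (a i) : ℤ) - C.rootMultiplicity (a i)) halg
    (fun j => by
      simp only [hc, div_eq_mul_inv]
      exact (hp' j _).mul (hq' j _).inv)
    (by
      rw [div_eq_mul_inv]
      exact (hA' _).mul (hC' _).inv)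
    (by
      rw [div_eq_mul_inv]
      exact (hB' _).mul (hC' _).inv) hNC'
  refine ⟨(∏ i, (MvPolynomial.X 0 - MvPolynomial.C (a i))) * FF F0 A C, ?_, ?_⟩
  · intro h0
    -- a point with F0 ≠ 0
    have h1 : (∏ i, (MvPolynomial.X 0 - MvPolynomial.C (a i)) : MvPolynomial (Fin 2) ℂ) *
        MvPolynomial.map (Int.castRingHom ℂ) F0 ≠ 0 := by
      refine mul_ne_zero (Finset.prod_ne_zero_iff.2 fun i _ => ?_) ?_
      · intro h2
        have h3 := congrArg (MvPolynomial.eval ![a i + 1, 0]) h2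
        simp at h3
      · intro h2
        apply hF0
        exact MvPolynomial.map_injective _ (Int.cast_injective) (by rw [h2, map_zero])
    obtain ⟨x, hx0⟩ : ∃ x : Fin 2 → ℂ, MvPolynomial.eval x
        ((∏ i, (MvPolynomial.X 0 - MvPolynomial.C (a i)) : MvPolynomial (Fin 2) ℂ) *
        MvPolynomial.map (Int.castRingHom ℂ) F0) ≠ 0 := by
      by_contra h2
      push Not at h2
      exact h1 (MvPolynomial.funext fun x => by rw [h2 x, map_zero])
    rw [map_mul] at hx0
    have h2 := left_ne_zero_of_mul hx0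
    have h3 := right_ne_zero_of_mul hx0
    have ht : ∀ i, x 0 ≠ a i := by
      intro i hi
      apply h2
      rw [map_prod]
      exact Finset.prod_eq_zero (Finset.mem_univ i) (by simp [hi])
    have hAt := hne A hdA (x 0) ht
    have hCt := hne C hdC (x 0) ht
    have h4 := congrArg (MvPolynomial.eval ![x 0, x 1 * C.eval (x 0) / A.eval (x 0)]) h0
    rw [map_mul, map_zero, eval_FF _ _ _ _ _ hCt] at h4
    rcases mul_eq_zero.1 h4 with h5 | h5
    · rw [map_prod] at h5
      obtain ⟨i, -, hi⟩ := Finset.prod_eq_zero_iff.1 h5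
      apply ht i
      have h6 : x 0 - a i = 0 := by simpa using hi
      exact sub_eq_zero.1 h6
    · rcases mul_eq_zero.1 h5 with h6 | h6
      · exact pow_ne_zero _ hCt h6
      · have h7 : (![x 0, A.eval (x 0) / C.eval (x 0) * (x 1 * C.eval (x 0) / A.eval (x 0))] :
            Fin 2 → ℂ) = x := by
          funext i
          fin_cases i
          · rfl
          · show A.eval (x 0) / C.eval (x 0) * (x 1 * C.eval (x 0) / A.eval (x 0)) = x 1
            field_simp
        rw [h7] at h6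
        apply h3
        rw [MvPolynomial.eval_map]
        rw [MvPolynomial.aeval_def] at h6
        exact h6
  · rintro t u v hpq hu hv hline ⟨Λ, hΛ, hrel⟩
    rw [map_mul]
    by_cases ht : ∀ i, t ≠ a i
    · have hAt := hne A hdA t ht
      have hBt := hne B hdB t ht
      have hCt := hne C hdC t ht
      have hα := quot_eq_rf a A C (hev _ hdA t) (hev _ hdC t) hAt hCt
      have hβ := quot_eq_rf a B C (hev _ hdB t) (hev _ hdC t) hBt hCt
      have h1 := hF t u v ht hu hv (by
        rw [← hα, ← hβ, div_mul_eq_mul_div, div_mul_eq_mul_div, ← add_div, hline, div_self hCt])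
        ⟨Λ, hΛ, fun e he => by
          rw [← hrel e he]
          congr 1
          refine Finset.prod_congr rfl fun j _ => ?_
          rw [hx j t (hpq j).1 (hpq j).2]⟩
      rw [eval_FF _ _ _ _ _ hCt, hα, h1, mul_zero, mul_zero]
    · push Not at ht
      obtain ⟨i, hi⟩ := ht
      have h1 : MvPolynomial.eval ![t, u]
          (∏ i, (MvPolynomial.X 0 - MvPolynomial.C (a i)) : MvPolynomial (Fin 2) ℂ) = 0 := by
        rw [map_prod]
        exact Finset.prod_eq_zero (Finset.mem_univ i) (by simp [hi])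
      rw [h1, zero_mul]

end Pool.Agent.RS
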