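import Pool.Agent.Lib.MP_c95b3b_ag_RS.Defs

/-! Project RS (MP_c95b3b_ag), module RL: real relations from integer relations. -/

namespace Pool.Agent.RS

open Pool.Agent.L3 Module

namespace Rel

/-- the coordinates of an integer vector -/
def flat (m : ℕ) : ((ℤ × ℤ) × (Fin m → ℤ)) →ₗ[ℤ] (Fin 2 ⊕ Fin m → ℤ) where
  toFun e := Sum.elim ![e.1.1, e.1.2] e.2
  map_add' e f := by
    funext i
    rcases i with i | i
    · fin_cases i <;> rfl
    · rfl
  map_smul' c e := by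
    funext i
    rcases i with i | i
    · fin_cases i <;> rfl
    · rfl

theorem flat_ker (m : ℕ) : LinearMap.ker (flat m) = ⊥ := by
  rw [LinearMap.ker_eq_bot']
  intro e he
  have h0 : e.1.1 = 0 := congrFun he (Sum.inl 0)
  have h1 : e.1.2 = 0 := congrFun he (Sum.inl 1)
  have h2 : e.2 = 0 := by
    funext j
    exact congrFun he (Sum.inr j)
  exact Prod.ext (Prod.ext h0 h1) h2

/-- the real vector with given coordinates -/
noncomputable def unflat (m : ℕ) :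
    (Fin 2 ⊕ Fin m → ℝ) →ₗ[ℝ] ((ℝ × ℝ) × EuclideanSpace ℝ (Fin m)) where
  toFun g := ((g (Sum.inl 0), g (Sum.inl 1)), WithLp.toLp 2 (fun j => g (Sum.inr j)))
  map_add' _ _ := rfl
  map_smul' _ _ := rfl

theorem unflat_ker (m : ℕ) : LinearMap.ker (unflat m) = ⊥ := by
  rw [LinearMap.ker_eq_bot']
  intro g hg
  have h0 : g (Sum.inl 0) = 0 := congrArg (fun e => e.1.1) hg
  have h1 : g (Sum.inl 1) = 0 := congrArg (fun e => e.1.2) hg
  have h2 : ∀ j, g (Sum.inr j) = 0 := fun j => congrArg (fun e => e.2 j) hg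
  funext i
  rcases i with i | i
  · fin_cases i
    · exact h0
    · exact h1
  · exact h2 i

/-- the real vectors satisfying the relation at all places -/
noncomputable def rel {K : Type} [Field K] {R : Subring K} (P : Places K R) {m : ℕ} (u v : K)
    (x : Fin m → K) : Submodule ℝ ((ℝ × ℝ) × EuclideanSpace ℝ (Fin m)) where
  carrier := {e | ∀ w, e.1.1 * P.lg w u + e.1.2 * P.lg w v + ∑ j, e.2 j * P.lg w (x j) = 0}
  add_mem' := by
    intro e f he hf w
    have h1 := he w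
    have h2 := hf w
    have h3 : ∑ j, (e + f).2 j * P.lg w (x j) =
        ∑ j, e.2 j * P.lg w (x j) + ∑ j, f.2 j * P.lg w (x j) := by
      rw [← Finset.sum_add_distrib]
      refine Finset.sum_congr rfl fun j _ => ?_
      have : (e + f).2 j = e.2 j + f.2 j := rfl
      rw [this, add_mul]
    have h4 : (e + f).1.1 = e.1.1 + f.1.1 := rfl
    have h5 : (e + f).1.2 = e.1.2 + f.1.2 := rfl
    rw [h3, h4, h5]
    linear_combination h1 + h2
  zero_mem' := by
    intro w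
    have h3 : ∑ j, (0 : (ℝ × ℝ) × EuclideanSpace ℝ (Fin m)).2 j * P.lg w (x j) = 0 := by
      refine Finset.sum_eq_zero fun j _ => ?_
      have : (0 : (ℝ × ℝ) × EuclideanSpace ℝ (Fin m)).2 j = 0 := rfl
      rw [this, zero_mul]
    rw [h3]
    simp
  smul_mem' := by
    intro c e he w
    have h1 := he w
    have h3 : ∑ j, (c • e).2 j * P.lg w (x j) = c * ∑ j, e.2 j * P.lg w (x j) := by
      rw [Finset.mul_sum]
      refine Finset.sum_congr rfl fun j _ => ?_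
      have : (c • e).2 j = c * e.2 j := rfl
      rw [this, mul_assoc]
    have h4 : (c • e).1.1 = c * e.1.1 := rfl
    have h5 : (c • e).1.2 = c * e.1.2 := rfl
    rw [h3, h4, h5]
    linear_combination c * h1

theorem mem_rel {K : Type} [Field K] {R : Subring K} (P : Places K R) {m : ℕ} (u v : K)
    (x : Fin m → K) (hu : u ≠ 0) (hv : v ≠ 0) (hx : ∀ j, x j ≠ 0)
    (e : (ℤ × ℤ) × (Fin m → ℤ)) (h : u ^ e.1.1 * v ^ e.1.2 * ∏ j, x j ^ e.2 j = 1) :
    unflat m (algebraMap ℤ ℝ ∘ flat m e) ∈ rel P u v x := by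
  intro w
  have h0 : P.lg w (u ^ e.1.1 * v ^ e.1.2 * ∏ j, x j ^ e.2 j) = 0 := by rw [h, P.lg_one]
  have h1 : ∀ j ∈ Finset.univ, x j ^ e.2 j ≠ 0 := fun j _ => zpow_ne_zero _ (hx j)
  rw [P.lg_mul w (mul_ne_zero (zpow_ne_zero _ hu) (zpow_ne_zero _ hv))
    (Finset.prod_ne_zero_iff.mpr h1), P.lg_mul w (zpow_ne_zero _ hu) (zpow_ne_zero _ hv),
    lg_prod P w _ _ h1, P.lg_zpow, P.lg_zpow] at h0
  simp only [P.lg_zpow] at h0
  exact h0

end Rel

theorem exists_rel {K : Type} [Field K] {R : Subring K} (P : Places K R) {m : ℕ} (u v : K)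
    (x : Fin m → K) (hu : u ≠ 0) (hv : v ≠ 0) (hx : ∀ j, x j ≠ 0)
    (Λ : Submodule ℤ ((ℤ × ℤ) × (Fin m → ℤ))) (hΛ : 3 ≤ finrank ℤ Λ)
    (h : ∀ e ∈ Λ, u ^ e.1.1 * v ^ e.1.2 * ∏ j, x j ^ e.2 j = 1) :
    ∃ V : Submodule ℝ ((ℝ × ℝ) × EuclideanSpace ℝ (Fin m)), 3 ≤ finrank ℝ V ∧
      ∀ e ∈ V, ∀ w, e.1.1 * P.lg w u + e.1.2 * P.lg w v + ∑ j, e.2 j * P.lg w (x j) = 0 := by
  refine ⟨Rel.rel P u v x, ?_, fun e he => he⟩
  obtain ⟨f, hf⟩ := exists_linearIndependent_of_le_finrank hΛ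
  have h0 : LinearIndependent ℤ (fun j => (f j : (ℤ × ℤ) × (Fin m → ℤ))) :=
    hf.map' Λ.subtype (Submodule.ker_subtype Λ)
  have h1 : LinearIndependent ℤ (fun j => Rel.flat m (f j : (ℤ × ℤ) × (Fin m → ℤ))) :=
    h0.map' (Rel.flat m) (Rel.flat_ker m)
  have h2 : LinearIndependent ℝ
      (fun j => algebraMap ℤ ℝ ∘ Rel.flat m (f j : (ℤ × ℤ) × (Fin m → ℤ))) :=
    linearIndependent_algebraMap_comp_iff.2 h1
  have h3 : LinearIndependent ℝ
      (fun j => Rel.unflat m (algebraMap ℤ ℝ ∘ Rel.flat m (f j : (ℤ × ℤ) × (Fin m → ℤ)))) :=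
    h2.map' (Rel.unflat m) (Rel.unflat_ker m)
  let g : Fin 3 → Rel.rel P u v x := fun j =>
    ⟨Rel.unflat m (algebraMap ℤ ℝ ∘ Rel.flat m (f j : (ℤ × ℤ) × (Fin m → ℤ))),
      Rel.mem_rel P u v x hu hv hx _ (h _ (f j).2)⟩
  have h4 : LinearIndependent ℝ g := LinearIndependent.of_comp (Rel.rel P u v x).subtype h3
  have h5 := h4.fintype_card_le_finrank
  simpa using h5

end Pool.Agent.RS
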