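import Mathlib
import Pool.Agent.Lib.MP_c95b3b_ag_RS.Defs
import Pool.Agent.Lib.MP_c95b3b_ag_RS.PF
import Pool.Agent.Lib.MP_c95b3b_ag_RS.ArcAux

/-! Project RS (MP_c95b3b_ag): conjugates near finitely many arcs. -/

namespace Pool.Agent.RS

open Pool.Agent.L3 Module

theorem t1 {q : ℕ} (τ X Y : Fin q → ℂ → ℂ)
    (hτ : ∀ l, DifferentiableOn ℂ (τ l) (Metric.ball 0 3))
    (hX : ∀ l, DifferentiableOn ℂ (X l) (Metric.ball 0 3))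
    (hY : ∀ l, DifferentiableOn ℂ (Y l) (Metric.ball 0 3)) (B θ : ℝ) (hθ : 0 < θ) :
    ∃ η : ℝ, 0 < η ∧ ∃ Q : MvPolynomial (Fin 2) ℤ, Q ≠ 0 ∧
      ∀ (K : Type) [Field K] (R : Subring K) (P : Places K R) (t U : K), t ∈ R → U ∈ R →
        P.avg (fun w => max 0 (P.lg w t)) ≤ B → P.avg (fun w => max 0 (P.lg w U)) ≤ B →
        (∃ S : Finset (Fin P.D), θ * P.D ≤ S.card ∧ ∀ i ∈ S, ∃ (l : Fin q) (y : ℝ), |y| ≤ 1 ∧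
          ‖P.σ i t - τ l y‖ ≤ η ∧ ‖((‖P.σ i U‖ ^ 2 : ℝ) : ℂ) - X l y‖ ≤ η ∧
          ‖((‖1 - P.σ i U‖ ^ 2 : ℝ) : ℂ) - Y l y‖ ≤ η) →
        MvPolynomial.aeval ![t, U] Q = 0 := by
  have hA : 3 + 2 * B < θ * ((4 + 2 * |B|) / θ + 1) := by
    rw [mul_add, mul_one, mul_div_cancel₀ _ hθ.ne']
    have := le_abs_self B
    linarith
  obtain ⟨N, hN, η, hη, p, hp0, hpb, hp⟩ := arc_aux τ X Y hτ hX hY ((4 + 2 * |B|) / θ + 1)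
  refine ⟨η, hη, mv2 N p, mv2_ne_zero N p hp0, ?_⟩
  rintro K _ R P t U ht hU htB hUB ⟨S, hS, hs⟩
  rw [aeval_mv2]
  refine pf P t U ht hU B θ _ hθ hA htB hUB N hN p hpb S hS ?_
  intro i hi
  obtain ⟨l, y, hy, h1, h2, h3⟩ := hs i hi
  exact hp l y (P.σ i t) (P.σ i U) hy h1 h2 h3

end Pool.Agent.RS
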