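import Pool.Agent.Lib.MP_c95b3b_ag_RS.Defs
import Pool.Agent.Lib.MP_c95b3b_ag_RS.T0
import Pool.Agent.Lib.MP_c95b3b_ag_RS.T1
import Pool.Agent.Lib.MP_c95b3b_ag_RS.Cover

/-! Project RS, module TF: one real curve and two real functions. -/

namespace Pool.Agent.RS

open Pool.Agent.L3 Module

namespace TF

/-- `exp (2 * phi)` is continuous on `KR` -/
theorem cont_exp_phi {M : ℕ} (a : Fin M → ℂ) (d : (Fin M → ℝ) × ℝ) (ρ : ℝ) (hρ : 0 < ρ) :
    ContinuousOn (fun z => Real.exp (2 * phi a d z)) (KR a ρ) := by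
  apply Real.continuous_exp.comp_continuousOn
  apply ContinuousOn.mul continuousOn_const
  unfold phi
  apply ContinuousOn.add _ continuousOn_const
  apply continuousOn_finsetSum
  intro i _
  apply ContinuousOn.mul continuousOn_const
  apply ContinuousOn.log
  · exact (continuous_norm.comp (continuous_id.sub continuous_const)).continuousOn
  · intro z hz
    exact norm_ne_zero_iff.mpr (sub_ne_zero_of_mem_KR hρ hz i)

/-- closeness of `‖w‖ ^ 2` to the value of `exp (2 * phi)` on the arc -/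
theorem close {M : ℕ} (a : Fin M → ℂ) (d : (Fin M → ℝ) × ℝ) (ρ : ℝ) (hρ : 0 < ρ) (η : ℝ)
    (hη : 0 < η) : ∃ η' : ℝ, 0 < η' ∧ ∃ ε : ℝ, 0 < ε ∧ ∀ z ∈ KR a ρ, ∀ z' : ℂ, ‖z - z'‖ ≤ η' →
      ∀ w : ℂ, w ≠ 0 → |Real.log ‖w‖ - phi a d z| ≤ ε →
        |‖w‖ ^ 2 - Real.exp (2 * phi a d z')| ≤ η := by
  have hc := cont_exp_phi a d (2 * ρ) (by positivity)
  have hK := isCompact_KR a (2 * ρ)
  obtain ⟨C, hC⟩ := hK.exists_bound_of_continuousOn hc
  have huc := hK.uniformContinuousOn_of_continuous hc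
  rw [Metric.uniformContinuousOn_iff] at huc
  obtain ⟨η1, hη1, h1⟩ := huc (η / 2) (by positivity)
  set C' : ℝ := max C 1 with hC'
  have hC'1 : 1 ≤ C' := le_max_right _ _
  refine ⟨min (η1 / 2) (min ρ (1 / (2 * ρ))), by positivity, min (1 / 2) (η / (8 * C')),
    by positivity, ?_⟩
  intro z hz z' hzz w hw hwl
  have hd1 : ‖z - z'‖ < η1 := by
    have := hzz.trans (min_le_left _ _)
    linarith
  have hd2 : ‖z - z'‖ ≤ ρ := hzz.trans ((min_le_right _ _).trans (min_le_left _ _))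
  have hd3 : ‖z - z'‖ ≤ 1 / (2 * ρ) := hzz.trans ((min_le_right _ _).trans (min_le_right _ _))
  have hzK : z ∈ KR a (2 * ρ) := by
    refine ⟨hz.1.trans (by linarith), fun i => le_trans ?_ (hz.2 i)⟩
    rw [mul_inv]
    have : 0 < ρ⁻¹ := inv_pos.mpr hρ
    linarith
  have hz'K : z' ∈ KR a (2 * ρ) := by
    constructor
    · have : ‖z'‖ ≤ ‖z‖ + ‖z - z'‖ := by
        have := norm_sub_norm_le z' z
        rw [norm_sub_rev] at this
        linarith
      have := hz.1
      linarith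
    · intro i
      have h2 : ‖z - a i‖ ≤ ‖z - z'‖ + ‖z' - a i‖ := by
        have := norm_add_le (z - z') (z' - a i)
        simpa using this
      have h3 := hz.2 i
      have h4 : (2 * ρ)⁻¹ = 1 / (2 * ρ) := by rw [one_div]
      have h5 : ρ⁻¹ = 1 / (2 * ρ) + 1 / (2 * ρ) := by field_simp; norm_num
      rw [h4]
      linarith
  have hA : |Real.exp (2 * phi a d z) - Real.exp (2 * phi a d z')| ≤ η / 2 := by
    have := h1 z hzK z' hz'K (by rw [dist_eq_norm]; exact hd1)
    rw [Real.dist_eq] at this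
    exact this.le
  have hFz : Real.exp (2 * phi a d z) ≤ C' := by
    have := hC z hzK
    rw [Real.norm_of_nonneg (Real.exp_pos _).le] at this
    exact this.trans (le_max_left _ _)
  have hw2 : ‖w‖ ^ 2 = Real.exp (2 * phi a d z) *
      Real.exp (2 * (Real.log ‖w‖ - phi a d z)) := by
    rw [← Real.exp_add]
    have hwp : 0 < ‖w‖ := norm_pos_iff.mpr hw
    have : 2 * phi a d z + 2 * (Real.log ‖w‖ - phi a d z) = Real.log ‖w‖ + Real.log ‖w‖ := by
      ring
    rw [this, Real.exp_add, Real.exp_log hwp, sq]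
  have hB : |‖w‖ ^ 2 - Real.exp (2 * phi a d z)| ≤ η / 2 := by
    set s := 2 * (Real.log ‖w‖ - phi a d z) with hs
    have hs1 : |s| ≤ 2 * min (1 / 2) (η / (8 * C')) := by
      rw [hs, abs_mul, abs_two]
      linarith
    have hs2 : |s| ≤ 1 := hs1.trans (by
      have := min_le_left (1 / 2) (η / (8 * C'))
      linarith)
    have hs3 : |s| ≤ η / (4 * C') := hs1.trans (by
      have := min_le_right (1 / 2) (η / (8 * C'))
      have e : 2 * (η / (8 * C')) = η / (4 * C') := by field_simp; ring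
      linarith)
    have hs4 : |Real.exp s - 1| ≤ 2 * |s| := Real.abs_exp_sub_one_le hs2
    have e1 : ‖w‖ ^ 2 - Real.exp (2 * phi a d z) =
        Real.exp (2 * phi a d z) * (Real.exp s - 1) := by
      rw [hw2]; ring
    rw [e1, abs_mul, abs_of_pos (Real.exp_pos _)]
    calc Real.exp (2 * phi a d z) * |Real.exp s - 1| ≤ C' * (2 * (η / (4 * C'))) := by
          apply mul_le_mul hFz _ (abs_nonneg _) (by linarith)
          linarith
      _ = η / 2 := by
          field_simp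
          ring
  calc |‖w‖ ^ 2 - Real.exp (2 * phi a d z')| ≤
      |‖w‖ ^ 2 - Real.exp (2 * phi a d z)| +
        |Real.exp (2 * phi a d z) - Real.exp (2 * phi a d z')| := by
        have := abs_add_le (‖w‖ ^ 2 - Real.exp (2 * phi a d z))
          (Real.exp (2 * phi a d z) - Real.exp (2 * phi a d z'))
        simpa using this
    _ ≤ η := by linarith

/-- the function `exp (2 * phi)` on an arc, as a holomorphic function -/
noncomputable def ext {M : ℕ} (d : (Fin M → ℝ) × ℝ) (G : Fin M → ℂ → ℂ) (y : ℂ) : ℂ :=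
  Complex.exp (2 * (∑ i, (d.1 i : ℂ) * G i y + (d.2 : ℂ)))

theorem ext_diff {M : ℕ} (d : (Fin M → ℝ) × ℝ) (G : Fin M → ℂ → ℂ)
    (hG : ∀ i, DifferentiableOn ℂ (G i) (Metric.ball 0 3)) :
    DifferentiableOn ℂ (ext d G) (Metric.ball 0 3) := by
  unfold ext
  apply DifferentiableOn.cexp
  apply DifferentiableOn.const_mul
  apply DifferentiableOn.add _ (differentiableOn_const _)
  apply DifferentiableOn.fun_sum
  intro i _
  exact (hG i).const_mul _

theorem ext_val {M : ℕ} (a : Fin M → ℂ) (d : (Fin M → ℝ) × ℝ) (G : Fin M → ℂ → ℂ) (τ : ℂ)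
    (y : ℂ) (h : ∀ i, G i y = ((Real.log ‖τ - a i‖ : ℝ) : ℂ)) :
    ext d G y = ((Real.exp (2 * phi a d τ) : ℝ) : ℂ) := by
  unfold ext phi
  push_cast
  simp only [h]

end TF

theorem t1_fixed {M : ℕ} (a : Fin M → ℂ) (ha : Function.Injective a)
    (d d1 d2 : (Fin M → ℝ) × ℝ) (hd : d.1 ≠ 0) (ρ B θ : ℝ) (hρ : 0 < ρ) (hθ : 0 < θ) :
    ∃ ε : ℝ, 0 < ε ∧ ∃ Q : MvPolynomial (Fin 2) ℤ, Q ≠ 0 ∧
      ∀ (K : Type) [Field K] (R : Subring K) (P : Places K R) (t U : K), t ∈ R → U ∈ R →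
        U ≠ 0 → U ≠ 1 →
        P.avg (fun w => max 0 (P.lg w t)) ≤ B → P.avg (fun w => max 0 (P.lg w U)) ≤ B →
        (∃ S : Finset (Fin P.D), θ * P.D ≤ S.card ∧ ∀ i ∈ S, P.σ i t ∈ KR a ρ ∧
          |phi a d (P.σ i t)| ≤ ε ∧ |Real.log ‖P.σ i U‖ - phi a d1 (P.σ i t)| ≤ ε ∧
          |Real.log ‖1 - P.σ i U‖ - phi a d2 (P.σ i t)| ≤ ε) →
        MvPolynomial.aeval ![t, U] Q = 0 := by
  classical
  -- the critical points
  have hfin := crit_finite a ha d.1 hd
  set Zs : Finset ℂ := hfin.toFinset with hZs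
  let z : Fin Zs.card → ℂ := fun l => (Zs.equivFin.symm l : ℂ)
  have hz : ∀ z' : ℂ, (∀ i, z' ≠ a i) → ∑ i, (d.1 i : ℂ) / (z' - a i) = 0 → ∃ l, z l = z' := by
    intro z' h1 h2
    have hmem : z' ∈ Zs := by
      rw [hZs, Set.Finite.mem_toFinset]
      exact ⟨h1, h2⟩
    refine ⟨Zs.equivFin ⟨z', hmem⟩, ?_⟩
    simp [z]
  obtain ⟨δ0, hδ0, f, hf, ht0⟩ := t0 z B (θ / 2) (half_pos hθ)
  obtain ⟨q, τ, G, hτ, hG, hGv, hcov⟩ := cover a d ρ δ0 hρ hδ0
  obtain ⟨η, hη, Q1, hQ1, ht1⟩ := t1 τ (fun l => TF.ext d1 (G l)) (fun l => TF.ext d2 (G l)) hτ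
    (fun l => TF.ext_diff d1 (G l) (hG l)) (fun l => TF.ext_diff d2 (G l) (hG l)) B (θ / 2)
    (half_pos hθ)
  obtain ⟨η1, hη1, ε1, hε1, hc1⟩ := TF.close a d1 ρ hρ η hη
  obtain ⟨η2, hη2, ε2, hε2, hc2⟩ := TF.close a d2 ρ hρ η hη
  obtain ⟨ε0, hε0, hcov0⟩ := hcov (min η (min η1 η2)) (by positivity)
  -- the polynomial
  set Qf : MvPolynomial (Fin 2) ℤ := Polynomial.aeval (MvPolynomial.X 0) f with hQf
  have hQf0 : Qf ≠ 0 := by
    intro h
    apply hf
    have h1 : MvPolynomial.aeval ![(Polynomial.X : Polynomial ℤ), 0] Qf = f := by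
      rw [hQf, ← Polynomial.aeval_algHom_apply]
      simp
    rw [h, map_zero] at h1
    exact h1.symm
  refine ⟨min ε0 (min ε1 ε2), by positivity, Qf * Q1, mul_ne_zero hQf0 hQ1, ?_⟩
  intro K _ R P t U ht hU hU0 hU1 htB hUB hS
  obtain ⟨S, hSc, hSp⟩ := hS
  rw [map_mul]
  have hQft : MvPolynomial.aeval ![t, U] Qf = Polynomial.aeval t f := by
    rw [hQf, ← Polynomial.aeval_algHom_apply]
    simp
  rw [hQft]
  set S1 := S.filter fun i => ∃ l, ‖P.σ i t - z l‖ ≤ δ0 with hS1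
  set S2 := S.filter fun i => ¬ ∃ l, ‖P.σ i t - z l‖ ≤ δ0 with hS2
  have hcard : S1.card + S2.card = S.card := Finset.card_filter_add_card_filter_not _
  have hcardR : (S1.card : ℝ) + S2.card = S.card := by exact_mod_cast hcard
  by_cases hcase : θ / 2 * P.D ≤ S1.card
  · have := ht0 K R P t ht htB ⟨S1, hcase, fun i hi => (Finset.mem_filter.mp hi).2⟩
    rw [this, zero_mul]
  · push Not at hcase
    have h2 : θ / 2 * P.D ≤ S2.card := by linarith
    have := ht1 K R P t U ht hU htB hUB ⟨S2, h2, ?_⟩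
    · rw [this, mul_zero]
    · intro i hi
      rw [hS2, Finset.mem_filter] at hi
      obtain ⟨hiS, hfar⟩ := hi
      push Not at hfar
      obtain ⟨hK, hp0, hp1, hp2⟩ := hSp i hiS
      obtain ⟨l, y, hy, hly⟩ := hcov0 (P.σ i t) hK (hp0.trans (min_le_left _ _)) (by
        intro z' h1 h2
        obtain ⟨l, hl⟩ := hz z' h1 h2
        rw [← hl]
        exact (hfar l).le)
      have hinj := (P.σ i).injective
      have hσU : P.σ i U ≠ 0 := by
        rw [Ne, map_eq_zero]; exact hU0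
      have hσU1 : 1 - P.σ i U ≠ 0 := by
        intro h
        apply hU1
        apply hinj
        rw [map_one]
        exact (sub_eq_zero.mp h).symm
      refine ⟨l, y, hy, hly.trans (min_le_left _ _), ?_, ?_⟩
      · have h3 := hc1 (P.σ i t) hK (τ l y)
          (hly.trans ((min_le_right _ _).trans (min_le_left _ _))) (P.σ i U) hσU
          (hp1.trans ((min_le_right _ _).trans (min_le_left _ _)))
        rw [TF.ext_val a d1 (G l) (τ l y) y (fun i => ((hGv l y hy i).2)), ← Complex.ofReal_sub,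
          Complex.norm_real, Real.norm_eq_abs]
        exact h3
      · have h3 := hc2 (P.σ i t) hK (τ l y)
          (hly.trans ((min_le_right _ _).trans (min_le_right _ _))) (1 - P.σ i U) hσU1
          (hp2.trans ((min_le_right _ _).trans (min_le_right _ _)))
        rw [TF.ext_val a d2 (G l) (τ l y) y (fun i => ((hGv l y hy i).2)), ← Complex.ofReal_sub,
          Complex.norm_real, Real.norm_eq_abs]
        exact h3

end Pool.Agent.RS
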