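import Pool.Agent.Lib.MP_c95b3b_ag_RS.Defs
import Pool.Agent.Lib.MP_c95b3b_ag_RS.T1Fixed

/-! Project RS (MP_c95b3b_ag), module TU: compact families (helper81). -/

namespace Pool.Agent.RS

open Pool.Agent.L3 Module

namespace T1Unif

theorem abs_log_le {x ρ U : ℝ} (hρ : 0 < ρ) (h1 : ρ⁻¹ ≤ x) (h2 : x ≤ U) :
    |Real.log x| ≤ |Real.log ρ⁻¹| + |Real.log U| := by
  have hρ' : 0 < ρ⁻¹ := inv_pos.2 hρ
  have hx : 0 < x := hρ'.trans_le h1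
  have h3 : Real.log x ≤ Real.log U := Real.log_le_log hx h2
  have h4 : Real.log ρ⁻¹ ≤ Real.log x := Real.log_le_log hρ' h1
  have h5 := le_abs_self (Real.log U)
  have h6 := neg_abs_le (Real.log ρ⁻¹)
  have h7 := abs_nonneg (Real.log U)
  have h8 := abs_nonneg (Real.log ρ⁻¹)
  rw [abs_le]
  constructor <;> linarith

/-- a bound for the logarithms on `KR a ρ` -/
theorem exists_bound {M : ℕ} (a : Fin M → ℂ) {ρ : ℝ} (hρ : 0 < ρ) :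
    ∃ L : ℝ, ∀ z ∈ KR a ρ, ∀ i, |Real.log ‖z - a i‖| ≤ L := by
  refine ⟨|Real.log ρ⁻¹| + |Real.log (ρ + ∑ j, ‖a j‖)|, fun z hz i => ?_⟩
  refine abs_log_le hρ (hz.2 i) ?_
  calc ‖z - a i‖ ≤ ‖z‖ + ‖a i‖ := norm_sub_le _ _
    _ ≤ ρ + ∑ j, ‖a j‖ := by
        have h1 : ‖a i‖ ≤ ∑ j, ‖a j‖ :=
          Finset.single_le_sum (f := fun j => ‖a j‖) (fun j _ => norm_nonneg _) (Finset.mem_univ i)
        have h2 := hz.1
        linarith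

/-- the function `phi a d z` depends continuously on `d`, uniformly in `z ∈ KR a ρ` -/
theorem phi_near {M : ℕ} (a : Fin M → ℂ) {ρ : ℝ} (hρ : 0 < ρ) (d0 : (Fin M → ℝ) × ℝ) {ε : ℝ}
    (hε : 0 < ε) :
    ∀ᶠ d in nhds d0, ∀ z ∈ KR a ρ, |phi a d z - phi a d0 z| ≤ ε := by
  obtain ⟨L, hL⟩ := exists_bound a hρ
  have hc : Continuous fun d : (Fin M → ℝ) × ℝ => ∑ i, |d.1 i - d0.1 i| * L + |d.2 - d0.2| := by
    fun_prop
  have h0 : (∑ i, |d0.1 i - d0.1 i| * L + |d0.2 - d0.2|) < ε := by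
    simpa using hε
  have h1 := hc.continuousAt.eventually (gt_mem_nhds h0)
  filter_upwards [h1] with d hd z hz
  refine le_trans ?_ hd.le
  have h2 : phi a d z - phi a d0 z =
      ∑ i, (d.1 i - d0.1 i) * Real.log ‖z - a i‖ + (d.2 - d0.2) := by
    unfold phi
    simp only [sub_mul, Finset.sum_sub_distrib]
    ring
  rw [h2]
  refine (abs_add_le _ _).trans (add_le_add ?_ le_rfl)
  refine (Finset.abs_sum_le_sum_abs _ _).trans (Finset.sum_le_sum fun i _ => ?_)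
  rw [abs_mul]
  exact mul_le_mul_of_nonneg_left (hL z hz i) (abs_nonneg _)

end T1Unif

theorem t1_unif {M : ℕ} (a : Fin M → ℂ) (ha : Function.Injective a)
    (D : Set (((Fin M → ℝ) × ℝ) × ((Fin M → ℝ) × ℝ) × ((Fin M → ℝ) × ℝ))) (hD : IsCompact D)
    (hD0 : ∀ d ∈ D, d.1.1 ≠ 0) (ρ B θ : ℝ) (hρ : 0 < ρ) (hθ : 0 < θ) :
    ∃ Q : MvPolynomial (Fin 2) ℤ, Q ≠ 0 ∧
      ∀ (K : Type) [Field K] (R : Subring K) (P : Places K R) (t U : K), t ∈ R → U ∈ R →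
        U ≠ 0 → U ≠ 1 →
        P.avg (fun w => max 0 (P.lg w t)) ≤ B → P.avg (fun w => max 0 (P.lg w U)) ≤ B →
        ∀ d ∈ D, (∃ S : Finset (Fin P.D), θ * P.D ≤ S.card ∧ ∀ i ∈ S, P.σ i t ∈ KR a ρ ∧
          phi a d.1 (P.σ i t) = 0 ∧ Real.log ‖P.σ i U‖ = phi a d.2.1 (P.σ i t) ∧
          Real.log ‖1 - P.σ i U‖ = phi a d.2.2 (P.σ i t)) →
        MvPolynomial.aeval ![t, U] Q = 0 := by
  refine hD.induction_on (p := fun T => ∃ Q : MvPolynomial (Fin 2) ℤ, Q ≠ 0 ∧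
      ∀ (K : Type) [Field K] (R : Subring K) (P : Places K R) (t U : K), t ∈ R → U ∈ R →
        U ≠ 0 → U ≠ 1 →
        P.avg (fun w => max 0 (P.lg w t)) ≤ B → P.avg (fun w => max 0 (P.lg w U)) ≤ B →
        ∀ d ∈ T, (∃ S : Finset (Fin P.D), θ * P.D ≤ S.card ∧ ∀ i ∈ S, P.σ i t ∈ KR a ρ ∧
          phi a d.1 (P.σ i t) = 0 ∧ Real.log ‖P.σ i U‖ = phi a d.2.1 (P.σ i t) ∧
          Real.log ‖1 - P.σ i U‖ = phi a d.2.2 (P.σ i t)) →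
        MvPolynomial.aeval ![t, U] Q = 0) ?_ ?_ ?_ ?_
  · exact ⟨1, one_ne_zero, fun K _ R P t U _ _ _ _ _ _ d hd => absurd hd (Set.notMem_empty d)⟩
  · rintro T T' hTT ⟨Q, hQ, h⟩
    exact ⟨Q, hQ, fun K _ R P t U h1 h2 h3 h4 h5 h6 d hd => h K R P t U h1 h2 h3 h4 h5 h6 d (hTT hd)⟩
  · rintro T T' ⟨Q, hQ, h⟩ ⟨Q', hQ', h'⟩
    refine ⟨Q * Q', mul_ne_zero hQ hQ', fun K _ R P t U h1 h2 h3 h4 h5 h6 d hd hS => ?_⟩
    rw [map_mul]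
    rcases hd with hd | hd
    · rw [h K R P t U h1 h2 h3 h4 h5 h6 d hd hS, zero_mul]
    · rw [h' K R P t U h1 h2 h3 h4 h5 h6 d hd hS, mul_zero]
  · intro d0 hd0
    obtain ⟨ε, hε, Q, hQ, h⟩ := t1_fixed a ha d0.1 d0.2.1 d0.2.2 (hD0 d0 hd0) ρ B θ hρ hθ
    have e1 : ∀ᶠ d in nhds d0, ∀ z ∈ KR a ρ, |phi a d.1 z - phi a d0.1 z| ≤ ε :=
      (continuous_fst.tendsto d0).eventually (T1Unif.phi_near a hρ d0.1 hε)
    have e2 : ∀ᶠ d in nhds d0, ∀ z ∈ KR a ρ, |phi a d.2.1 z - phi a d0.2.1 z| ≤ ε :=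
      ((continuous_fst.comp continuous_snd).tendsto d0).eventually
        (T1Unif.phi_near a hρ d0.2.1 hε)
    have e3 : ∀ᶠ d in nhds d0, ∀ z ∈ KR a ρ, |phi a d.2.2 z - phi a d0.2.2 z| ≤ ε :=
      ((continuous_snd.comp continuous_snd).tendsto d0).eventually
        (T1Unif.phi_near a hρ d0.2.2 hε)
    have e4 := e1.and (e2.and e3)
    refine ⟨{d | (∀ z ∈ KR a ρ, |phi a d.1 z - phi a d0.1 z| ≤ ε) ∧
      (∀ z ∈ KR a ρ, |phi a d.2.1 z - phi a d0.2.1 z| ≤ ε) ∧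
      (∀ z ∈ KR a ρ, |phi a d.2.2 z - phi a d0.2.2 z| ≤ ε)},
      mem_nhdsWithin_of_mem_nhds e4, Q, hQ, ?_⟩
    intro K _ R P t U h1 h2 h3 h4 h5 h6 d hd hS
    obtain ⟨f1, f2, f3⟩ := hd
    obtain ⟨S, hS1, hS2⟩ := hS
    refine h K R P t U h1 h2 h3 h4 h5 h6 ⟨S, hS1, fun i hi => ?_⟩
    obtain ⟨g1, g2, g3, g4⟩ := hS2 i hi
    have k1 := f1 _ g1
    have k2 := f2 _ g1
    have k3 := f3 _ g1
    refine ⟨g1, ?_, ?_, ?_⟩
    · rwa [g2, zero_sub, abs_neg] at k1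
    · rwa [g3]
    · rwa [g4]

end Pool.Agent.RS
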